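import Pool.Agent.Lib.H17W.Defs

set_option autoImplicit false

/-!
# H17Y: definitions of the statement

The null hypersurfaces which link the far cuts of the light cone `N = Ψ([0, ∞) × S²)` to spatial infinity.
-/

open MeasureTheory Filter Topology Set
open scoped ContDiff

namespace H17Y

open H17W
open H17T (E4 pt pos tang slice second DEC)
open Pool.Agent.Lib.PenroseSph (E3 Tens S2 sm pd)

/-- The metric is flat up to terms `C / s` along the null hypersurface `Ψ`, together with the derivatives along the sphere of its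
components. -/
def ConeMink (G : E4 → Matrix (Fin 4) (Fin 4) ℝ) (Ψ : ℝ × E3 → E4) : Prop :=
  ∃ C R : ℝ, ∀ s : ℝ, R ≤ s → ∀ n : S2, ∀ a b, |G (Ψ (s, (n : E3))) a b - schw 0 (Ψ (s, (n : E3))) a b| ≤ C / s ∧
    ∀ i, |pd i (fun x : E3 => G (Ψ (s, ‖x‖⁻¹ • x)) a b) n| ≤ C / s

/-- `Φ : [0, τ] × S2 → U` is a regular null hypersurface, ruled by affinely parametrised null geodesics, which start orthogonally
to the surface `Φ(0, S2)`; the dominant energy condition holds on it. -/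
structure NullPiece (U : Set E4) (G : E4 → Matrix (Fin 4) (Fin 4) ℝ) (τ : ℝ) (Φ : ℝ × E3 → E4) : Prop where
  smooth : ∃ W : Set (ℝ × E3), IsOpen W ∧ (∀ t ∈ Icc 0 τ, ∀ n : S2, (t, (n : E3)) ∈ W) ∧ ContDiffOn ℝ ∞ Φ W
  mem : ∀ t ∈ Icc 0 τ, ∀ n : S2, Φ (t, (n : E3)) ∈ U
  geodesic : ∀ t ∈ Icc 0 τ, ∀ n : S2, ∀ a, deriv (fun t => gen Φ t n a) t +
    ∑ b, ∑ c, H31R.chr G a b c (Φ (t, (n : E3))) * gen Φ t n b * gen Φ t n c = 0
  null : ∀ n : S2, ip G (Φ (0, (n : E3))) (gen Φ 0 n) (gen Φ 0 n) = 0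
  orth : ∀ n : S2, ∀ v : E3, inner ℝ (n : E3) v = 0 → ip G (Φ (0, (n : E3))) (gen Φ 0 n) (tanv Φ 0 n v) = 0
  regular : ∀ t ∈ Icc 0 τ, ∀ n : S2, ∀ v : E3, v ≠ 0 → inner ℝ (n : E3) v = 0 →
    0 < ip G (Φ (t, (n : E3))) (tanv Φ t n v) (tanv Φ t n v)
  dec : ∀ t ∈ Icc 0 τ, ∀ n : S2, DEC G (Φ (t, (n : E3)))

/-- The difference of `Φ(t, n)` and `(0, r n)`, extended to `x ≠ 0` by `n = x / |x|`. -/
noncomputable def devr (Φ : ℝ × E3 → E4) (r t : ℝ) (a : Fin 4) (x : E3) : ℝ :=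
  Φ (t, ‖x‖⁻¹ • x) a - Fin.cases 0 (fun i => r * (x i / ‖x‖)) a

/-- The cut `Φ(t, ·)` is close to the round sphere of radius `r`: `x - r n`, its derivatives of order at most two along the sphere
and those of the time are at most `C`, the tangent vector of the generator differs from `(e, n)` by at most `C / r`. -/
def Round (e r C : ℝ) (Φ : ℝ × E3 → E4) (t : ℝ) : Prop :=
  ∀ n : S2, (∀ i : Fin 3, |devr Φ r t (Fin.succ i) n| ≤ C) ∧ (∀ a, ∀ i, |pd i (devr Φ r t a) n| ≤ C) ∧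
    (∀ a, ∀ i j, |pd i (pd j (devr Φ r t a)) n| ≤ C) ∧
    |gen Φ t n 0 - e| ≤ C / r ∧ ∀ i : Fin 3, |gen Φ t n (Fin.succ i) - (n : E3) i| ≤ C / r

/-- `Φ` is a regular null hypersurface which starts at the cut `Ψ(s, S²)` (`κ` is a smooth bijection of the sphere), in the time
direction opposite to that of `Ψ`, and ends at a large sphere, near which the metric is asymptotic to the Schwarzschild metric of
mass `m`; its affine length `τ` is at most `C s`, and its initial and final cut are close to the round spheres of radius `s` and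
`s + τ`. -/
structure Link (U : Set E4) (G : E4 → Matrix (Fin 4) (Fin 4) ℝ) (ε m : ℝ) (Ψ : ℝ × E3 → E4) (C s τ : ℝ) (Φ : ℝ × E3 → E4)
    (κ : E3 → E3) : Prop where
  length : 0 < τ ∧ τ ≤ C * s
  piece : NullPiece U G τ Φ
  bij : Set.BijOn κ (Metric.sphere (0 : E3) 1) (Metric.sphere (0 : E3) 1)
  smooth : ∀ n : S2, ContDiffAt ℝ ∞ (fun x : E3 => κ (‖x‖⁻¹ • x)) n
  start : ∀ n : S2, Φ (0, (n : E3)) = Ψ (s, κ n)
  round_start : Round (-ε) s C Φ 0
  round_end : Round (-ε) (s + τ) C Φ τ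
  schw : ∀ n : S2, NearSchw G m C (Φ (τ, (n : E3)))

/-- All far cuts of `Ψ` are linked to spatial infinity, with the same constant. -/
def Linked (U : Set E4) (G : E4 → Matrix (Fin 4) (Fin 4) ℝ) (ε m : ℝ) (Ψ : ℝ × E3 → E4) : Prop :=
  ∃ C R : ℝ, ∀ s : ℝ, R ≤ s → ∃ (τ : ℝ) (Φ : ℝ × E3 → E4) (κ : E3 → E3), Link U G ε m Ψ C s τ Φ κ

end H17Y
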