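import Pool.Agent.Lib.H17W.B0

set_option autoImplicit false

/-!
# H17Y: regular null hypersurfaces over a set of parameters
-/

open MeasureTheory Filter Topology Set
open scoped ContDiff

namespace H17Y

open H17W
open H17T (E4 pt pos)
open Pool.Agent.Lib.PenroseSph (E3 S2 sm)

/-- The null hypersurface is regular for the parameters `s ∈ I`. -/
structure RegI (G : E4 → Matrix (Fin 4) (Fin 4) ℝ) (Ψ : ℝ × E3 → E4) (W : Set (ℝ × E3)) (I : Set ℝ) : Prop where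
  isOpen : IsOpen W
  ne : ∀ p ∈ W, p.2 ≠ 0
  mem : ∀ s ∈ I, ∀ x : E3, x ≠ 0 → (s, x) ∈ W
  smooth : ∀ p ∈ W, ContDiffAt ℝ ∞ (Ph Ψ) p
  met : ∀ p ∈ W, MetAt G (Ph Ψ p)
  time : ∀ p ∈ W, LL Ψ p 0 ≠ 0
  pos : ∀ p ∈ W, ∀ ξ : Fin 3 → ℝ, ξ ≠ 0 → 0 < ∑ i, ∑ j, PP G Ψ p i j * ξ i * ξ j
  geo : ∀ s ∈ I, ∀ x : E3, x ≠ 0 → cov G (Ph Ψ) (LL Ψ) (s, x) dS = 0
  null : ∀ s ∈ I, ∀ x : E3, x ≠ 0 → ipp G Ψ (LL Ψ) (LL Ψ) (s, x) = 0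
  orth : ∀ s ∈ I, ∀ x : E3, x ≠ 0 → ∀ i, ipp G Ψ (LL Ψ) (XX Ψ i) (s, x) = 0

/-- The regular null hypersurfaces of `H17W`. -/
theorem RegI.of {G : E4 → Matrix (Fin 4) (Fin 4) ℝ} {Ψ : ℝ × E3 → E4} {W : Set (ℝ × E3)} (h : Reg G Ψ W) :
    RegI G Ψ W (Ici 0) :=
  ⟨h.isOpen, h.ne, fun s hs => h.mem s hs, h.smooth, h.met, h.time, h.pos, fun s hs => h.geo s hs,
    fun s hs => h.null s hs, fun s hs => h.orth s hs⟩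

end H17Y
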