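import Pool.Agent.Lib.H17W.B1B
import Pool.Agent.Lib.H17Y.Defs
import Pool.Agent.Lib.H17Y.R0

set_option autoImplicit false

/-!
# H17Y (port of H17W to finite pieces), chunk B1B (M): the regular set

Auxiliary names start with `b1b_`.
-/

open MeasureTheory Filter Topology Set
open scoped ContDiff

namespace H17Y

open H17W

open H17T (E4 pt pos)
open Pool.Agent.Lib.PenroseSph (E3 S2 sm)

variable {U : Set E4} {G : E4 → Matrix (Fin 4) (Fin 4) ℝ} {Ψ : ℝ × E3 → E4}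

/-- A null vector with time component zero vanishes: `G` is positive definite on the vectors with time component `0`. -/
theorem b1b_smooth {U : Set E4} {G : E4 → Matrix (Fin 4) (Fin 4) ℝ} {Ψ : ℝ × E3 → E4} {T : ℝ} (hN : NullPiece U G T Ψ) {t : ℝ} (ht : t ∈ Icc 0 T) (n : S2) :
    ContDiffAt ℝ ∞ (fun t : ℝ => Ψ (t, (n : E3))) t := by
  obtain ⟨W, hW, hm, hs⟩ := hN.smooth
  have h1 : ContDiffAt ℝ ∞ Ψ (t, (n : E3)) := hs.contDiffAt (hW.mem_nhds (hm t ht n))
  exact h1.comp t (contDiffAt_id.prodMk contDiffAt_const)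

theorem b1b_comp {U : Set E4} {G : E4 → Matrix (Fin 4) (Fin 4) ℝ} {Ψ : ℝ × E3 → E4} {T : ℝ} (hN : NullPiece U G T Ψ) {t : ℝ} (ht : t ∈ Icc 0 T) (n : S2) (a : Fin 4) :
    ContDiffAt ℝ ∞ (fun t : ℝ => Ψ (t, (n : E3)) a) t := by
  have h := b1b_smooth hN ht n
  rw [contDiffAt_euclidean] at h
  exact h a

theorem b1b_gen {U : Set E4} {G : E4 → Matrix (Fin 4) (Fin 4) ℝ} {Ψ : ℝ × E3 → E4} {T : ℝ} (hN : NullPiece U G T Ψ) {t : ℝ} (ht : t ∈ Icc 0 T) (n : S2) (a : Fin 4) :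
    ContDiffAt ℝ ∞ (fun t : ℝ => gen Ψ t (n : E3) a) t := by
  have h := b1b_comp hN ht n a
  have h2 : ContDiffAt ℝ ∞ (fderiv ℝ (fun t : ℝ => Ψ (t, (n : E3)) a)) t := h.fderiv_right (m := ∞) (by simp)
  have h3 : ContDiffAt ℝ ∞ (fun τ => fderiv ℝ (fun t : ℝ => Ψ (t, (n : E3)) a) τ 1) t := h2.clm_apply contDiffAt_const
  refine h3.congr_of_eventuallyEq (Filter.Eventually.of_forall fun τ => ?_)
  show gen Ψ τ (n : E3) a = _
  unfold gen
  exact (fderiv_apply_one_eq_deriv).symm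

/-- The tangent vector of a generator never vanishes: `L' = - A(t) L` with the continuous matrix
`A(t)_ac = ∑_b chr a b c (Ψ(t,n)) L(t)_b`; if `L(s) = 0` for one `s ≥ 0` then `L = 0` on `[0, s]` (uniqueness for linear equations,
`ODE_solution_unique` or Gronwall backwards), which contradicts `L(0)_0 ≠ 0`. -/
theorem gen_ne {T : ℝ} (hG : SpaceTime U G) (hN : NullPiece U G T Ψ) (h0 : ∀ n : S2, gen Ψ 0 n 0 ≠ 0) {s : ℝ} (hs : s ∈ Icc 0 T)
    (n : S2) : gen Ψ s n ≠ 0 := by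
  intro hz
  have hsub : ∀ {t : ℝ}, t ∈ Icc 0 s → t ∈ Icc 0 T := fun h => ⟨h.1, h.2.trans hs.2⟩
  have hchr : ∀ a b c, ContinuousOn (fun t : ℝ => H31R.chr G a b c (Ψ (t, (n : E3))) * gen Ψ t (n : E3) b) (Icc 0 s) := by
    intro a b c t ht
    have h1 : ContinuousAt (H31R.chr G a b c) (Ψ (t, (n : E3))) :=
      ((chr_smooth (metAt_of hG (hN.mem t (hsub ht) n)) a b c).self_of_nhds).continuousAt
    have h2 : ContinuousAt (fun t : ℝ => Ψ (t, (n : E3))) t := (b1b_smooth hN (hsub ht) n).continuousAt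
    have h3 : ContinuousAt (fun t : ℝ => H31R.chr G a b c (Ψ (t, (n : E3)))) t :=
      ContinuousAt.comp (f := fun t : ℝ => Ψ (t, (n : E3))) h1 h2
    exact (h3.mul (b1b_gen hN (hsub ht) n b).continuousAt).continuousWithinAt
  have hQ : ContinuousOn (fun t : ℝ => fun a b c : Fin 4 => H31R.chr G a b c (Ψ (t, (n : E3))) * gen Ψ t (n : E3) b)
      (Icc 0 s) := by
    refine continuousOn_pi.2 fun a => continuousOn_pi.2 fun b => continuousOn_pi.2 fun c => hchr a b c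
  obtain ⟨M, hM⟩ := isCompact_Icc.exists_bound_of_continuousOn hQ
  have hM' : ∀ t ∈ Icc 0 s, ∀ a b c, |H31R.chr G a b c (Ψ (t, (n : E3))) * gen Ψ t (n : E3) b| ≤ M := by
    intro t ht a b c
    have h1 := hM t ht
    have h2 := norm_le_pi_norm (fun a b c : Fin 4 => H31R.chr G a b c (Ψ (t, (n : E3))) * gen Ψ t (n : E3) b) a
    have h3 := norm_le_pi_norm (fun b c : Fin 4 => H31R.chr G a b c (Ψ (t, (n : E3))) * gen Ψ t (n : E3) b) b
    have h4 := norm_le_pi_norm (fun c : Fin 4 => H31R.chr G a b c (Ψ (t, (n : E3))) * gen Ψ t (n : E3) b) c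
    rw [← Real.norm_eq_abs]
    linarith
  have key := eq_zero_of_abs_deriv_le_mul_abs_self_of_eq_zero_right
    (f := fun τ : ℝ => fun a : Fin 4 => gen Ψ (s - τ) (n : E3) a)
    (f' := fun τ : ℝ => fun a : Fin 4 => -deriv (fun t => gen Ψ t (n : E3) a) (s - τ)) (K := 16 * M) (a := 0) (b := s)
    ?_ ?_ ?_ ?_ s ⟨hs.1, le_refl _⟩
  · have := congrFun key 0
    simp only [sub_self] at this
    exact h0 n this
  · refine continuousOn_pi.2 fun a τ hτ => ?_
    have h1 : ContinuousAt (fun t : ℝ => gen Ψ t (n : E3) a) (s - τ) :=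
      (b1b_gen hN (hsub ⟨sub_nonneg.2 hτ.2, by linarith [hτ.1]⟩) n a).continuousAt
    have h2 : ContinuousAt (fun τ : ℝ => s - τ) τ := by fun_prop
    exact (ContinuousAt.comp (f := fun τ : ℝ => s - τ) h1 h2).continuousWithinAt
  · intro τ hτ
    rw [hasDerivWithinAt_pi]
    intro a
    have h1 : HasDerivAt (fun t : ℝ => gen Ψ t (n : E3) a) (deriv (fun t => gen Ψ t (n : E3) a) (s - τ)) (s - τ) :=
      ((b1b_gen hN (hsub ⟨sub_nonneg.2 hτ.2.le, by linarith [hτ.1]⟩) n a).differentiableAt (by simp)).hasDerivAt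
    have h2 : HasDerivAt (fun τ : ℝ => s - τ) (-1) τ := by
      simpa using (hasDerivAt_id τ).const_sub s
    have h3 := h1.comp τ h2
    have h4 : deriv (fun t => gen Ψ t (n : E3) a) (s - τ) * -1 = -deriv (fun t => gen Ψ t (n : E3) a) (s - τ) := by ring
    rw [h4] at h3
    exact h3.hasDerivWithinAt
  · funext a
    show gen Ψ (s - 0) (n : E3) a = 0
    rw [sub_zero, hz]
    rfl
  · intro τ hτ
    have hmem : s - τ ∈ Icc 0 s := ⟨sub_nonneg.2 hτ.2.le, by linarith [hτ.1]⟩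
    have hM0 : 0 ≤ M := le_trans (abs_nonneg _) (hM' (s - τ) hmem 0 0 0)
    refine (pi_norm_le_iff_of_nonneg (by positivity)).2 fun a => ?_
    have h1 := hN.geodesic (s - τ) (hsub hmem) n a
    have h2 : -deriv (fun t => gen Ψ t (n : E3) a) (s - τ) =
        ∑ b, ∑ c, H31R.chr G a b c (Ψ (s - τ, (n : E3))) * gen Ψ (s - τ) n b * gen Ψ (s - τ) n c := by linarith
    rw [h2, Real.norm_eq_abs]
    refine (Finset.abs_sum_le_sum_abs _ _).trans ?_
    have h3 : ∀ b ∈ (Finset.univ : Finset (Fin 4)),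
        |∑ c, H31R.chr G a b c (Ψ (s - τ, (n : E3))) * gen Ψ (s - τ) n b * gen Ψ (s - τ) n c| ≤
          ∑ _c : Fin 4, M * ‖fun a : Fin 4 => gen Ψ (s - τ) (n : E3) a‖ := by
      intro b _
      refine (Finset.abs_sum_le_sum_abs _ _).trans (Finset.sum_le_sum fun c _ => ?_)
      rw [abs_mul]
      refine mul_le_mul (hM' _ hmem a b c) ?_ (abs_nonneg _) hM0
      have := norm_le_pi_norm (fun a : Fin 4 => gen Ψ (s - τ) (n : E3) a) c
      simpa using this
    refine (Finset.sum_le_sum h3).trans ?_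
    simp only [Finset.sum_const, Finset.card_univ, Fintype.card_fin, nsmul_eq_mul]
    apply le_of_eq
    push_cast
    ring

end H17Y
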