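import Pool.Agent.Lib.H17W.B0
import Pool.Agent.Lib.H17W.A2
import Pool.Agent.Lib.H17W.A6
import Pool.Agent.Lib.H17W.CI
import Pool.Agent.Lib.H17Y.R0

set_option autoImplicit false

/-!
# H17Y (port of H17W to intervals), chunk B2A (M): algebra, smoothness and homogeneity of the fields

Auxiliary names start with `b2a_`.
-/

open MeasureTheory Filter Topology Set
open scoped ContDiff

namespace H17Y

open H17W

open H17T (E4 pt pos)
open Pool.Agent.Lib.PenroseSph (E3 S2 sm)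

variable {G : E4 → Matrix (Fin 4) (Fin 4) ℝ} {Ψ : ℝ × E3 → E4} {W : Set (ℝ × E3)} {I : Set ℝ}

theorem b2a_norm (p : ℝ × E3) : ‖p.2‖ ^ 2 = ∑ j, p.2 j ^ 2 := EuclideanSpace.real_norm_sq_eq p.2

/-- The map `(s, x) ↦ (s, c x)`. -/
noncomputable def b2a_iso {c : ℝ} (hc : 0 < c) : (ℝ × E3) ≃L[ℝ] (ℝ × E3) :=
  (ContinuousLinearEquiv.refl ℝ ℝ).prodCongr (ContinuousLinearEquiv.smulLeft (Units.mk0 c hc.ne'))

/-- `Φ(s, c x) = Φ(s, x)`. -/
theorem Ph_hom (s : ℝ) (x : E3) {c : ℝ} (hc : 0 < c) : Ph Ψ (s, c • x) = Ph Ψ (s, x) := by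
  unfold Ph
  have h : ‖c • x‖⁻¹ • c • x = ‖x‖⁻¹ • x := by
    rw [norm_smul, Real.norm_of_nonneg hc.le, mul_inv, smul_smul, mul_comm c⁻¹, mul_assoc,
      inv_mul_cancel₀ hc.ne', mul_one]
  change Ψ (s, ‖c • x‖⁻¹ • c • x) = Ψ (s, ‖x‖⁻¹ • x)
  rw [h]

theorem b2a_fd (s : ℝ) (x : E3) {c : ℝ} (hc : 0 < c) (a : Fin 4) (v : ℝ × E3) :
    fderiv ℝ (fun y => Ph Ψ y a) (s, c • x) (b2a_iso hc v) = fderiv ℝ (fun y => Ph Ψ y a) (s, x) v := by
  have h1 : (fun y => Ph Ψ y a) ∘ (b2a_iso hc) = fun y => Ph Ψ y a := by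
    funext y
    change Ph Ψ (y.1, c • y.2) a = Ph Ψ y a
    rw [Ph_hom y.1 y.2 hc]
  have h2 := (b2a_iso hc).comp_right_fderiv (f := fun y => Ph Ψ y a) (x := (s, x))
  rw [h1] at h2
  rw [h2]
  rfl

theorem LL_hom (s : ℝ) (x : E3) {c : ℝ} (hc : 0 < c) : LL Ψ (s, c • x) = LL Ψ (s, x) := by
  funext a
  have h := b2a_fd (Ψ := Ψ) s x hc a dS
  have e : b2a_iso hc dS = dS := by
    change ((1 : ℝ), c • (0 : E3)) = (1, 0)
    rw [smul_zero]
  rw [e] at h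
  exact h

theorem XX_hom (s : ℝ) (x : E3) {c : ℝ} (hc : 0 < c) (i : Fin 3) : XX Ψ i (s, c • x) = c⁻¹ • XX Ψ i (s, x) := by
  funext a
  have h := b2a_fd (Ψ := Ψ) s x hc a (dX i)
  have e : b2a_iso hc (dX i) = c • dX i := by
    change ((0 : ℝ), c • (EuclideanSpace.single i (1 : ℝ) : E3)) = (c • (0 : ℝ), c • _)
    rw [smul_zero]
    rfl
  rw [e, map_smul] at h
  change fderiv ℝ (fun y => Ph Ψ y a) (s, c • x) (dX i) = c⁻¹ • fderiv ℝ (fun y => Ph Ψ y a) (s, x) (dX i)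
  rw [← h, smul_smul, inv_mul_cancel₀ hc.ne', one_smul]

/-- Euler's relation: `Φ` is constant on rays. -/
theorem XX_rad {p : ℝ × E3} (hp : p.2 ≠ 0) (hΦ : DifferentiableAt ℝ (Ph Ψ) p) (a : Fin 4) : ∑ i, p.2 i * XX Ψ i p a = 0 := by
  have hF : DifferentiableAt ℝ (fun y => Ph Ψ y a) p := differentiableAt_euclidean.1 hΦ a
  have h1 : ∑ i, p.2 i * XX Ψ i p a = fderiv ℝ (fun y => Ph Ψ y a) p (0, p.2) := by
    have e : ((0 : ℝ), p.2) = ∑ i, p.2 i • dX i := by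
      ext1
      · rw [Prod.fst_sum]
        simp [dX]
      · rw [Prod.snd_sum]
        ext k
        simp [dX, Pi.single_apply]
    rw [e, map_sum]
    refine Finset.sum_congr rfl fun i _ => ?_
    rw [map_smul]
    rfl
  have h2 : HasDerivAt (fun t : ℝ => (fun y => Ph Ψ y a) (p.1, (1 + t) • p.2))
      (fderiv ℝ (fun y => Ph Ψ y a) p (0, p.2)) 0 := by
    have h3 : HasDerivAt (fun t : ℝ => ((p.1, (1 + t) • p.2) : ℝ × E3)) (0, p.2) 0 := by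
      have h4 : HasDerivAt (fun t : ℝ => (1 + t) • p.2) p.2 0 := by
        have h5 : HasDerivAt (fun t : ℝ => 1 + t) 1 0 := by
          simpa using (hasDerivAt_id (0 : ℝ)).const_add 1
        simpa using h5.smul_const p.2
      exact (hasDerivAt_const (0 : ℝ) p.1).prodMk h4
    have h6 : ((p.1, (1 + (0 : ℝ)) • p.2) : ℝ × E3) = p := by
      rw [add_zero, one_smul]
    have h7 : HasFDerivAt (fun y => Ph Ψ y a) (fderiv ℝ (fun y => Ph Ψ y a) p)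
        ((p.1, (1 + (0 : ℝ)) • p.2) : ℝ × E3) := by
      rw [h6]
      exact hF.hasFDerivAt
    exact h7.comp_hasDerivAt (0 : ℝ) h3
  have h3 : HasDerivAt (fun t : ℝ => (fun y => Ph Ψ y a) (p.1, (1 + t) • p.2)) 0 0 := by
    have h4 : (fun t : ℝ => (fun y => Ph Ψ y a) (p.1, (1 + t) • p.2)) =ᶠ[𝓝 0]
        fun _ => Ph Ψ p a := by
      have h5 : ∀ᶠ t : ℝ in 𝓝 0, -1 < t := lt_mem_nhds (by norm_num)
      filter_upwards [h5] with t ht
      change Ph Ψ (p.1, (1 + t) • p.2) a = Ph Ψ p a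
      rw [Ph_hom p.1 p.2 (by linarith)]
    exact (hasDerivAt_const (0 : ℝ) (Ph Ψ p a)).congr_of_eventuallyEq h4
  rw [h1]
  exact h2.unique h3

theorem hh_symm (hR : RegI G Ψ W I) {p : ℝ × E3} (hp : p ∈ W) (i j : Fin 3) : hh G Ψ i j p = hh G Ψ j i p := by
  exact ip_symm (hR.met p hp) _ _

theorem hh_rad (hR : RegI G Ψ W I) {p : ℝ × E3} (hp : p ∈ W) (i : Fin 3) : ∑ j, hh G Ψ i j p * p.2 j = 0 := by
  have hX := fun b => XX_rad (Ψ := Ψ) (hR.ne p hp) ((hR.smooth p hp).differentiableAt (by simp)) b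
  have h1 : ∀ j, hh G Ψ i j p * p.2 j =
      ∑ a, ∑ b, G (Ph Ψ p) a b * XX Ψ i p a * (p.2 j * XX Ψ j p b) := by
    intro j
    change (∑ a, ∑ b, G (Ph Ψ p) a b * XX Ψ i p a * XX Ψ j p b) * p.2 j = _
    rw [Finset.sum_mul]
    refine Finset.sum_congr rfl fun a _ => ?_
    rw [Finset.sum_mul]
    refine Finset.sum_congr rfl fun b _ => ?_
    ring
  rw [Finset.sum_congr rfl fun j _ => h1 j, Finset.sum_comm]
  refine Finset.sum_eq_zero fun a _ => ?_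
  rw [Finset.sum_comm]
  refine Finset.sum_eq_zero fun b _ => ?_
  rw [← Finset.mul_sum, hX b, mul_zero]

theorem b2a_PPsymm (hR : RegI G Ψ W I) {p : ℝ × E3} (hp : p ∈ W) (i j : Fin 3) :
    PP G Ψ p i j = PP G Ψ p j i := by
  change hh G Ψ i j p + p.2 i * p.2 j / ‖p.2‖ ^ 4 = hh G Ψ j i p + p.2 j * p.2 i / ‖p.2‖ ^ 4
  rw [hh_symm hR hp i j]
  ring

theorem PP_rad (hR : RegI G Ψ W I) {p : ℝ × E3} (hp : p ∈ W) (i : Fin 3) : ∑ j, PP G Ψ p i j * p.2 j = p.2 i / ‖p.2‖ ^ 2 := by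
  have hx := b2a_norm p
  have hne : ‖p.2‖ ≠ 0 := norm_ne_zero_iff.2 (hR.ne p hp)
  have h1 : ∀ j, PP G Ψ p i j * p.2 j = hh G Ψ i j p * p.2 j + p.2 i / ‖p.2‖ ^ 4 * p.2 j ^ 2 := by
    intro j
    change (hh G Ψ i j p + p.2 i * p.2 j / ‖p.2‖ ^ 4) * p.2 j = _
    ring
  rw [Finset.sum_congr rfl fun j _ => h1 j, Finset.sum_add_distrib, hh_rad hR hp, ← Finset.mul_sum,
    ← hx]
  field_simp
  ring

/-- A positive definite matrix is invertible. -/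
theorem PP_det (hR : RegI G Ψ W I) {p : ℝ × E3} (hp : p ∈ W) : 0 < (PP G Ψ p).det := by
  have h1 : (PP G Ψ p).PosDef := by
    refine Matrix.PosDef.of_dotProduct_mulVec_pos ?_ ?_
    · ext i j
      rw [Matrix.conjTranspose_apply]
      change PP G Ψ p j i = PP G Ψ p i j
      exact b2a_PPsymm hR hp j i
    · intro x hx
      have h2 := hR.pos p hp x hx
      have h3 : star x ⬝ᵥ (PP G Ψ p).mulVec x = ∑ i, ∑ j, PP G Ψ p i j * x i * x j := by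
        unfold dotProduct Matrix.mulVec dotProduct
        refine Finset.sum_congr rfl fun i _ => ?_
        rw [Finset.mul_sum]
        refine Finset.sum_congr rfl fun j _ => ?_
        change x i * (PP G Ψ p i j * x j) = _
        ring
      rw [h3]
      exact h2
  exact h1.det_pos

theorem QQ_symm (hR : RegI G Ψ W I) {p : ℝ × E3} (hp : p ∈ W) (i j : Fin 3) : QQ G Ψ i j p = QQ G Ψ j i p := by
  have h1 : (PP G Ψ p).transpose = PP G Ψ p := by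
    ext a b
    exact b2a_PPsymm hR hp b a
  have h2 : ((PP G Ψ p)⁻¹).transpose = (PP G Ψ p)⁻¹ := by
    rw [Matrix.transpose_nonsing_inv, h1]
  have h3 : (PP G Ψ p)⁻¹ i j = (PP G Ψ p)⁻¹ j i := congrFun (congrFun h2 j) i
  unfold QQ
  rw [h3]
  ring

/-- `P x = x / |x|²`, so `P⁻¹ x = |x|² x`. -/
theorem QQ_rad (hR : RegI G Ψ W I) {p : ℝ × E3} (hp : p ∈ W) (i : Fin 3) : ∑ j, QQ G Ψ i j p * p.2 j = 0 := by
  have hx := b2a_norm p
  have hne : ‖p.2‖ ≠ 0 := norm_ne_zero_iff.2 (hR.ne p hp)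
  have hu : IsUnit (PP G Ψ p).det := (PP_det hR hp).ne'.isUnit
  have h1 : (PP G Ψ p).mulVec (fun j => p.2 j) = (‖p.2‖ ^ 2)⁻¹ • fun j => p.2 j := by
    funext i
    have h2 := PP_rad hR hp i
    change ∑ j, PP G Ψ p i j * p.2 j = (‖p.2‖ ^ 2)⁻¹ * p.2 i
    rw [h2]
    ring
  have h3 : (PP G Ψ p)⁻¹.mulVec (fun j => p.2 j) = ‖p.2‖ ^ 2 • fun j => p.2 j := by
    have h4 := congrArg (fun w => ‖p.2‖ ^ 2 • (PP G Ψ p)⁻¹.mulVec w) h1
    simp only [Matrix.mulVec_mulVec, Matrix.nonsing_inv_mul _ hu, Matrix.one_mulVec,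
      Matrix.mulVec_smul, smul_smul] at h4
    rw [mul_inv_cancel₀ (pow_ne_zero 2 hne), one_smul] at h4
    exact h4.symm
  have h5 : ∑ j, (PP G Ψ p)⁻¹ i j * p.2 j = ‖p.2‖ ^ 2 * p.2 i := congrFun h3 i
  have h6 : ∀ j, QQ G Ψ i j p * p.2 j = (PP G Ψ p)⁻¹ i j * p.2 j - p.2 i * p.2 j ^ 2 := by
    intro j
    unfold QQ
    ring
  rw [Finset.sum_congr rfl fun j _ => h6 j, Finset.sum_sub_distrib, h5, ← Finset.mul_sum, ← hx]
  ring

theorem hQ (hR : RegI G Ψ W I) {p : ℝ × E3} (hp : p ∈ W) (i j : Fin 3) :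
    ∑ l, hh G Ψ i l p * QQ G Ψ l j p = (if i = j then 1 else 0) - p.2 i * p.2 j / ‖p.2‖ ^ 2 := by
  have hx := b2a_norm p
  have hne : ‖p.2‖ ≠ 0 := norm_ne_zero_iff.2 (hR.ne p hp)
  have hu : IsUnit (PP G Ψ p).det := (PP_det hR hp).ne'.isUnit
  have h1 : ∑ l, PP G Ψ p i l * (PP G Ψ p)⁻¹ l j = if i = j then 1 else 0 := by
    have h2 := congrFun (congrFun (Matrix.mul_nonsing_inv _ hu) i) j
    rw [Matrix.mul_apply, Matrix.one_apply] at h2
    exact h2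
  have h3 : ∀ l, hh G Ψ i l p * QQ G Ψ l j p = PP G Ψ p i l * (PP G Ψ p)⁻¹ l j -
      p.2 j * (PP G Ψ p i l * p.2 l) - p.2 i / ‖p.2‖ ^ 4 * (QQ G Ψ j l p * p.2 l) := by
    intro l
    rw [QQ_symm hR hp j l]
    have h4 : PP G Ψ p i l = hh G Ψ i l p + p.2 i * p.2 l / ‖p.2‖ ^ 4 := rfl
    rw [h4]
    unfold QQ
    ring
  rw [Finset.sum_congr rfl fun l _ => h3 l, Finset.sum_sub_distrib, Finset.sum_sub_distrib, h1,
    ← Finset.mul_sum, ← Finset.mul_sum, PP_rad hR hp, QQ_rad hR hp]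
  ring

/-- Contraction of a covector which vanishes on `x`. -/
theorem hQ_apply (hR : RegI G Ψ W I) {p : ℝ × E3} (hp : p ∈ W) {v : Fin 3 → ℝ} (hv : ∑ i, v i * p.2 i = 0) (i : Fin 3) :
    ∑ a, (∑ b, QQ G Ψ a b p * v b) * hh G Ψ a i p = v i := by
  have h1 : ∀ a, (∑ b, QQ G Ψ a b p * v b) * hh G Ψ a i p =
      ∑ b, v b * (hh G Ψ i a p * QQ G Ψ a b p) := by
    intro a
    rw [Finset.sum_mul, hh_symm hR hp a i]
    refine Finset.sum_congr rfl fun b _ => ?_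
    ring
  rw [Finset.sum_congr rfl fun a _ => h1 a, Finset.sum_comm]
  have h2 : ∀ b, ∑ a, v b * (hh G Ψ i a p * QQ G Ψ a b p) =
      (if i = b then v b else 0) - p.2 i / ‖p.2‖ ^ 2 * (v b * p.2 b) := by
    intro b
    rw [← Finset.mul_sum, hQ hR hp]
    split_ifs <;> ring
  rw [Finset.sum_congr rfl fun b _ => h2 b, Finset.sum_sub_distrib, ← Finset.mul_sum, hv,
    Finset.sum_ite_eq Finset.univ i v, if_pos (Finset.mem_univ i)]
  ring

end H17Y
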