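import Pool.Agent.Lib.H17Y.B2E
import Pool.Agent.Lib.H17Y.R0

set_option autoImplicit false

/-!
# H17Y (port of H17W to intervals), chunk B3A (M): first order structure equations

Auxiliary names start with `b3a_`.
-/

open MeasureTheory Filter Topology Set
open scoped ContDiff

namespace H17Y

open H17W

open H17T (E4 pt pos)
open Pool.Agent.Lib.PenroseSph (E3 S2 sm)

variable (G : E4 → Matrix (Fin 4) (Fin 4) ℝ) (Ψ : ℝ × E3 → E4)

/-- `χ_i^a`. -/
noncomputable def chiU (i a : Fin 3) (p : ℝ × E3) : ℝ := ∑ b, QQ G Ψ a b p * chi G Ψ i b p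

/-- `κ_i^a`. -/
noncomputable def kapU (i a : Fin 3) (p : ℝ × E3) : ℝ := ∑ b, QQ G Ψ a b p * kap G Ψ i b p

/-- `ζ^a`. -/
noncomputable def zetU (a : Fin 3) (p : ℝ × E3) : ℝ := ∑ b, QQ G Ψ a b p * zet G Ψ b p

variable {G : E4 → Matrix (Fin 4) (Fin 4) ℝ} {Ψ : ℝ × E3 → E4} {W : Set (ℝ × E3)} {I : Set ℝ}

theorem b3a_two : (2 : WithTop ℕ∞) ≤ ∞ := by norm_cast

theorem b3a_slice {F : ℝ × E3 → ℝ} {s : ℝ} {x : E3} (hF : DifferentiableAt ℝ F (s, x)) (v : E3) :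
    fderiv ℝ (fun y => F (s, y)) x v = fderiv ℝ F (s, x) (0, v) := by
  have h1 : HasFDerivAt (fun y : E3 => ((s, y) : ℝ × E3)) (ContinuousLinearMap.inr ℝ ℝ E3) x :=
    hasFDerivAt_prodMk_right s x
  have h2 := hF.hasFDerivAt.comp x h1
  rw [show (fun y => F (s, y)) = F ∘ (fun y : E3 => ((s, y) : ℝ × E3)) from rfl, h2.fderiv]
  rfl

theorem b3a_rad {F : ℝ × E3 → ℝ} {s : ℝ} {x : E3} (h : ∀ c : ℝ, 0 < c → F (s, c • x) = F (s, x))
    (hF : DifferentiableAt ℝ F (s, x)) : ∑ i, x i * fderiv ℝ F (s, x) (dX i) = 0 := by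
  have h1 : HasDerivAt (fun c : ℝ => c • x) x 1 := by
    simpa using (hasDerivAt_id (1 : ℝ)).smul_const x
  have hF' : HasFDerivAt (fun y => F (s, y)) (fderiv ℝ (fun y => F (s, y)) x) ((1 : ℝ) • x) := by
    rw [one_smul]
    exact (hF.comp x (hasFDerivAt_prodMk_right s x).differentiableAt).hasFDerivAt
  have h2 : HasDerivAt ((fun y => F (s, y)) ∘ fun c : ℝ => c • x) (fderiv ℝ (fun y => F (s, y)) x x) 1 :=
    hF'.comp_hasDerivAt (1 : ℝ) h1
  have h3 : ((fun y => F (s, y)) ∘ fun c : ℝ => c • x) =ᶠ[𝓝 1] fun _ => F (s, x) := by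
    filter_upwards [lt_mem_nhds (zero_lt_one' ℝ)] with c hc
    exact h c hc
  have h4 : fderiv ℝ (fun y => F (s, y)) x x = 0 :=
    h2.unique ((hasDerivAt_const (1 : ℝ) (F (s, x))).congr_of_eventuallyEq h3)
  have h5 : x = ∑ i, x i • EuclideanSpace.single i (1 : ℝ) := by
    ext k
    simp [Pi.single_apply]
  have h6 : fderiv ℝ (fun y => F (s, y)) x x =
      ∑ i, x i * fderiv ℝ (fun y => F (s, y)) x (EuclideanSpace.single i (1 : ℝ)) := by
    have h7 := congrArg (fderiv ℝ (fun y => F (s, y)) x) h5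
    rw [map_sum] at h7
    rw [h7]
    exact Finset.sum_congr rfl fun i _ => by rw [map_smul, smul_eq_mul]
  rw [← h4, h6]
  refine Finset.sum_congr rfl fun i _ => ?_
  rw [b3a_slice hF]
  rfl

theorem b3a_ev {s : ℝ} (hs : s ∈ interior I) {x : E3} (hx : x ≠ 0) :
    ∀ᶠ p : ℝ × E3 in 𝓝 (s, x), p.1 ∈ interior I ∧ p.2 ≠ 0 :=
  (continuous_fst.continuousAt.eventually (isOpen_interior.mem_nhds hs)).and
    (continuous_snd.continuousAt.eventually_ne hx)

/-- For a fixed `s ≥ 0` two functions of `(s, x)` which agree for all `x ≠ 0` have the same derivatives in the directions `∂_i`. -/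
theorem fd_slice {F K : ℝ × E3 → ℝ} {s : ℝ} (h : ∀ x : E3, x ≠ 0 → F (s, x) = K (s, x)) {x : E3} (hx : x ≠ 0)
    (hF : DifferentiableAt ℝ F (s, x)) (hK : DifferentiableAt ℝ K (s, x)) (i : Fin 3) :
    fderiv ℝ F (s, x) (dX i) = fderiv ℝ K (s, x) (dX i) := by
  rw [show (dX i : ℝ × E3) = (0, EuclideanSpace.single i (1 : ℝ)) from rfl, ← b3a_slice hF,
    ← b3a_slice hK]
  have h1 : (fun y => F (s, y)) =ᶠ[𝓝 x] fun y => K (s, y) := by
    filter_upwards [isOpen_ne.mem_nhds hx] with y hy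
    exact h y hy
  rw [h1.fderiv_eq]

/-- The same for covariant derivatives. -/
theorem cov_slice {A B : ℝ × E3 → Fin 4 → ℝ} {s : ℝ} (h : ∀ x : E3, x ≠ 0 → A (s, x) = B (s, x)) {x : E3} (hx : x ≠ 0)
    (hA : ∀ a, DifferentiableAt ℝ (fun q => A q a) (s, x)) (hB : ∀ a, DifferentiableAt ℝ (fun q => B q a) (s, x)) (i : Fin 3) :
    cov G (Ph Ψ) A (s, x) (dX i) = cov G (Ph Ψ) B (s, x) (dX i) := by
  funext a
  show fderiv ℝ (fun q => A q a) (s, x) (dX i) + _ = fderiv ℝ (fun q => B q a) (s, x) (dX i) + _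
  rw [fd_slice (F := fun q => A q a) (K := fun q => B q a) (fun y hy => by rw [h y hy]) hx (hA a)
    (hB a), h x hx]

/-- For `s > 0` two functions which agree for all `t > 0`, `x ≠ 0` have the same derivative. -/
theorem fd_open {F K : ℝ × E3 → ℝ} (h : ∀ s ∈ interior I, ∀ x : E3, x ≠ 0 → F (s, x) = K (s, x)) {s : ℝ} (hs : s ∈ interior I) {x : E3}
    (hx : x ≠ 0) : fderiv ℝ F (s, x) = fderiv ℝ K (s, x) := by
  apply Filter.EventuallyEq.fderiv_eq
  filter_upwards [b3a_ev hs hx] with p hp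
  exact h p.1 hp.1 p.2 hp.2

theorem cov_open {A B : ℝ × E3 → Fin 4 → ℝ} (h : ∀ s ∈ interior I, ∀ x : E3, x ≠ 0 → A (s, x) = B (s, x)) {s : ℝ} (hs : s ∈ interior I) {x : E3}
    (hx : x ≠ 0) (v : ℝ × E3) : cov G (Ph Ψ) A (s, x) v = cov G (Ph Ψ) B (s, x) v := by
  funext a
  show fderiv ℝ (fun q => A q a) (s, x) v + _ = fderiv ℝ (fun q => B q a) (s, x) v + _
  rw [fd_open (F := fun q => A q a) (K := fun q => B q a) (fun t ht y hy => by rw [h t ht y hy]) hs hx,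
    h s hs x hx]

/-- A field `A` along `Φ` which is constant on the rays of the slice `s` (`A(s, c x) = A(s, x)`) has covariant derivative zero
in the radial direction. -/
theorem cov_rad {A : ℝ × E3 → Fin 4 → ℝ} {s : ℝ} (h : ∀ x : E3, x ≠ 0 → ∀ c : ℝ, 0 < c → A (s, c • x) = A (s, x)) {x : E3} (hx : x ≠ 0)
    (hA : ∀ a, DifferentiableAt ℝ (fun q => A q a) (s, x)) (hΦ : DifferentiableAt ℝ (Ph Ψ) (s, x)) :
    ∑ i, x i • cov G (Ph Ψ) A (s, x) (dX i) = 0 := by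
  funext a
  rw [Finset.sum_apply, Pi.zero_apply]
  have h1 := b3a_rad (F := fun q => A q a) (s := s) (x := x)
    (fun c hc => by show A (s, c • x) a = A (s, x) a; rw [h x hx c hc]) (hA a)
  have h2 : ∀ k : Fin 4, ∑ i, x i * vel (Ph Ψ) (s, x) (dX i) k = 0 := fun k =>
    XX_rad (Ψ := Ψ) (p := (s, x)) hx hΦ k
  have h3 : ∑ i, x i * gam G (Ph Ψ (s, x)) (vel (Ph Ψ) (s, x) (dX i)) (A (s, x)) a = 0 := by
    unfold gam
    calc ∑ i, x i * ∑ k, ∑ j, H31R.chr G a k j (Ph Ψ (s, x)) * vel (Ph Ψ) (s, x) (dX i) k * A (s, x) j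
        = ∑ k, ∑ j, H31R.chr G a k j (Ph Ψ (s, x)) * A (s, x) j *
            ∑ i, x i * vel (Ph Ψ) (s, x) (dX i) k := by
          simp only [Finset.mul_sum]
          rw [Finset.sum_comm]
          refine Finset.sum_congr rfl fun k _ => ?_
          rw [Finset.sum_comm]
          refine Finset.sum_congr rfl fun j _ => Finset.sum_congr rfl fun i _ => ?_
          ring
      _ = 0 := by
          simp only [h2, mul_zero, Finset.sum_const_zero]
  have h4 : ∀ i : Fin 3, (x i • cov G (Ph Ψ) A (s, x) (dX i)) a =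
      x i * fderiv ℝ (fun q => A q a) (s, x) (dX i) +
        x i * gam G (Ph Ψ (s, x)) (vel (Ph Ψ) (s, x) (dX i)) (A (s, x)) a := by
    intro i
    rw [Pi.smul_apply, smul_eq_mul, ← mul_add]
    rfl
  rw [Finset.sum_congr rfl fun i _ => h4 i, Finset.sum_add_distrib, h1, h3, add_zero]

/-- `D_s X_j = D_j L` (`cov_symm`). -/
theorem DsX (hR : RegI G Ψ W I) {p : ℝ × E3} (hp : p ∈ W) (j : Fin 3) :
    cov G (Ph Ψ) (XX Ψ j) p dS = cov G (Ph Ψ) (LL Ψ) p (dX j) := by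
  exact cov_symm (hR.met p hp) ((hR.smooth p hp).of_le b3a_two) dS (dX j)

/-- `D_i X_j = D_j X_i` (`cov_symm`). -/
theorem DXX_symm (hR : RegI G Ψ W I) {p : ℝ × E3} (hp : p ∈ W) (i j : Fin 3) :
    cov G (Ph Ψ) (XX Ψ j) p (dX i) = cov G (Ph Ψ) (XX Ψ i) p (dX j) := by
  exact cov_symm (hR.met p hp) ((hR.smooth p hp).of_le b3a_two) (dX i) (dX j)

end H17Y
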