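import Pool.Agent.Lib.H17Y.B3A
import Pool.Agent.Lib.H17Y.R0

set_option autoImplicit false

/-!
# H17Y (port of H17W to intervals), chunk B3B (M): first order structure equations

Auxiliary names start with `b3b_`.
-/

open MeasureTheory Filter Topology Set
open scoped ContDiff

namespace H17Y

open H17W

open H17T (E4 pt pos)
open Pool.Agent.Lib.PenroseSph (E3 S2 sm)

variable {G : E4 → Matrix (Fin 4) (Fin 4) ℝ} {Ψ : ℝ × E3 → E4} {W : Set (ℝ × E3)} {I : Set ℝ}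

theorem b3b_ev (hR : RegI G Ψ W I) {p : ℝ × E3} (hp : p ∈ W) : ∀ᶠ q in 𝓝 p, q ∈ W :=
  hR.isOpen.mem_nhds hp

theorem b3b_Ph (hR : RegI G Ψ W I) {p : ℝ × E3} (hp : p ∈ W) : DifferentiableAt ℝ (Ph Ψ) p :=
  (hR.smooth p hp).differentiableAt (by simp)

theorem b3b_LL (hR : RegI G Ψ W I) {p : ℝ × E3} (hp : p ∈ W) (a : Fin 4) :
    DifferentiableAt ℝ (fun q => LL Ψ q a) p := (LL_smooth hR hp a).differentiableAt (by simp)

theorem b3b_XX (hR : RegI G Ψ W I) {p : ℝ × E3} (hp : p ∈ W) (i : Fin 3) (a : Fin 4) :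
    DifferentiableAt ℝ (fun q => XX Ψ i q a) p := (XX_smooth hR hp i a).differentiableAt (by simp)

theorem b3b_kk (hR : RegI G Ψ W I) {p : ℝ × E3} (hp : p ∈ W) (a : Fin 4) :
    DifferentiableAt ℝ (fun q => kk G Ψ q a) p := (kk_smooth hR hp a).differentiableAt (by simp)

/-- Scalar products of fields which are smooth on `W` are differentiable. -/
theorem b3b_ipp (hR : RegI G Ψ W I) {A B : ℝ × E3 → Fin 4 → ℝ}
    (hA : ∀ q ∈ W, ∀ a, ContDiffAt ℝ ∞ (fun z => A z a) q)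
    (hB : ∀ q ∈ W, ∀ a, ContDiffAt ℝ ∞ (fun z => B z a) q) {p : ℝ × E3} (hp : p ∈ W) :
    DifferentiableAt ℝ (ipp G Ψ A B) p := by
  have h := ip_smooth (G := G) (Φ := Ph Ψ) (A := A) (B := B) (x := p) (hR.met p hp)
    ((b3b_ev hR hp).mono fun q hq => hR.smooth q hq) ((b3b_ev hR hp).mono fun q hq => hA q hq)
    ((b3b_ev hR hp).mono fun q hq => hB q hq)
  exact (h.self_of_nhds).differentiableAt (by simp)

/-- If the scalar product of two fields is constant on the slice, the sum of the two scalar products with the derivatives vanishes. -/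
theorem b3b_zero (hR : RegI G Ψ W I) {A B : ℝ × E3 → Fin 4 → ℝ}
    (hA : ∀ q ∈ W, ∀ a, ContDiffAt ℝ ∞ (fun z => A z a) q)
    (hB : ∀ q ∈ W, ∀ a, ContDiffAt ℝ ∞ (fun z => B z a) q) {s : ℝ} (hs : s ∈ I) (c : ℝ)
    (h : ∀ x : E3, x ≠ 0 → ipp G Ψ A B (s, x) = c) {x : E3} (hx : x ≠ 0) (i : Fin 3) :
    ip G (Ph Ψ (s, x)) (cov G (Ph Ψ) A (s, x) (dX i)) (B (s, x)) +
      ip G (Ph Ψ (s, x)) (A (s, x)) (cov G (Ph Ψ) B (s, x) (dX i)) = 0 := by
  have hp := hR.mem s hs x hx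
  rw [← ip_cov (hR.met _ hp) (b3b_Ph hR hp) (fun a => (hA _ hp a).differentiableAt (by simp))
    (fun a => (hB _ hp a).differentiableAt (by simp)) (dX i)]
  have := fd_slice (F := ipp G Ψ A B) (K := fun _ => c) (s := s) h hx (b3b_ipp hR hA hB hp)
    (differentiableAt_const _) i
  have h0 : fderiv ℝ (fun _ : ℝ × E3 => c) (s, x) (dX i) = 0 := by
    rw [fderiv_fun_const]; rfl
  rw [h0] at this
  exact this

/-- Scalar products of finite sums. -/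
theorem b3b_ip_sum_left (p : E4) (c : Fin 3 → ℝ) (A : Fin 3 → Fin 4 → ℝ) (b : Fin 4 → ℝ) :
    ip G p (∑ i, c i • A i) b = ∑ i, c i * ip G p (A i) b := by
  simp only [Fin.sum_univ_three, ip_add_left, ip_smul_left]

theorem b3b_ip_sum_right (p : E4) (c : Fin 3 → ℝ) (A : Fin 3 → Fin 4 → ℝ) (b : Fin 4 → ℝ) :
    ip G p b (∑ i, c i • A i) = ∑ i, c i * ip G p b (A i) := by
  simp only [Fin.sum_univ_three, ip_add_right, ip_smul_right]

theorem b3b_ip_zero_left (p : E4) (b : Fin 4 → ℝ) : ip G p 0 b = 0 := by simp [ip]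

theorem b3b_ip_zero_right (p : E4) (b : Fin 4 → ℝ) : ip G p b 0 = 0 := by simp [ip]

/-- `χ_ij = - <L, D_i X_j>` since `<L, X_j>(s, ·) = 0` (`ip_cov`, `fd_slice`). -/
theorem chi_eq (hR : RegI G Ψ W I) {s : ℝ} (hs : s ∈ I) {x : E3} (hx : x ≠ 0) (i j : Fin 3) :
    chi G Ψ i j (s, x) = -ip G (Ph Ψ (s, x)) (cov G (Ph Ψ) (XX Ψ j) (s, x) (dX i)) (LL Ψ (s, x)) := by
  have hp := hR.mem s hs x hx
  have h := b3b_zero hR (A := LL Ψ) (B := XX Ψ j) (fun q hq a => LL_smooth hR hq a)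
    (fun q hq a => XX_smooth hR hq j a) hs 0 (fun y hy => hR.orth s hs y hy j) hx i
  rw [ip_symm (hR.met _ hp) (LL Ψ (s, x))] at h
  unfold chi
  linarith

theorem kap_eq (hR : RegI G Ψ W I) {s : ℝ} (hs : s ∈ I) {x : E3} (hx : x ≠ 0) (i j : Fin 3) :
    kap G Ψ i j (s, x) = -ip G (Ph Ψ (s, x)) (cov G (Ph Ψ) (XX Ψ j) (s, x) (dX i)) (kk G Ψ (s, x)) := by
  have hp := hR.mem s hs x hx
  have h := b3b_zero hR (A := kk G Ψ) (B := XX Ψ j) (fun q hq a => kk_smooth hR hq a)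
    (fun q hq a => XX_smooth hR hq j a) hs 0 (fun y hy => kk_X hR hs hy j) hx i
  rw [ip_symm (hR.met _ hp) (kk G Ψ (s, x))] at h
  unfold kap
  linarith

theorem chi_symm (hR : RegI G Ψ W I) {s : ℝ} (hs : s ∈ I) {x : E3} (hx : x ≠ 0) (i j : Fin 3) :
    chi G Ψ i j (s, x) = chi G Ψ j i (s, x) := by
  rw [chi_eq hR hs hx, chi_eq hR hs hx, DXX_symm hR (hR.mem s hs x hx)]

theorem kap_symm (hR : RegI G Ψ W I) {s : ℝ} (hs : s ∈ I) {x : E3} (hx : x ≠ 0) (i j : Fin 3) :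
    kap G Ψ i j (s, x) = kap G Ψ j i (s, x) := by
  rw [kap_eq hR hs hx, kap_eq hR hs hx, DXX_symm hR (hR.mem s hs x hx)]

theorem b3b_XXrad (hR : RegI G Ψ W I) {s : ℝ} (hs : s ∈ I) {x : E3} (hx : x ≠ 0) :
    ∑ j, x j • XX Ψ j (s, x) = 0 := by
  have hp := hR.mem s hs x hx
  funext a
  have := XX_rad (Ψ := Ψ) (p := (s, x)) hx (b3b_Ph hR hp) a
  simpa [Finset.sum_apply] using this

/-- `∑ x_j X_j = 0`. -/
theorem chi_rad (hR : RegI G Ψ W I) {s : ℝ} (hs : s ∈ I) {x : E3} (hx : x ≠ 0) (i : Fin 3) :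
    ∑ j, chi G Ψ i j (s, x) * x j = 0 := by
  have h := b3b_ip_sum_right (G := G) (Ph Ψ (s, x)) (fun j => x j) (fun j => XX Ψ j (s, x))
    (cov G (Ph Ψ) (LL Ψ) (s, x) (dX i))
  rw [b3b_XXrad hR hs hx, b3b_ip_zero_right] at h
  rw [h]
  exact Finset.sum_congr rfl fun j _ => mul_comm _ _

theorem kap_rad (hR : RegI G Ψ W I) {s : ℝ} (hs : s ∈ I) {x : E3} (hx : x ≠ 0) (i : Fin 3) :
    ∑ j, kap G Ψ i j (s, x) * x j = 0 := by
  have h := b3b_ip_sum_right (G := G) (Ph Ψ (s, x)) (fun j => x j) (fun j => XX Ψ j (s, x))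
    (cov G (Ph Ψ) (kk G Ψ) (s, x) (dX i))
  rw [b3b_XXrad hR hs hx, b3b_ip_zero_right] at h
  rw [h]
  exact Finset.sum_congr rfl fun j _ => mul_comm _ _

/-- `L` is constant on the rays (`cov_rad`). -/
theorem zet_rad (hR : RegI G Ψ W I) {s : ℝ} (hs : s ∈ I) {x : E3} (hx : x ≠ 0) :
    ∑ j, zet G Ψ j (s, x) * x j = 0 := by
  have hp := hR.mem s hs x hx
  have h := b3b_ip_sum_left (G := G) (Ph Ψ (s, x)) (fun j => x j)
    (fun j => cov G (Ph Ψ) (LL Ψ) (s, x) (dX j)) (kk G Ψ (s, x))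
  rw [cov_rad (fun y _ c hc => LL_hom s y hc) hx (fun a => b3b_LL hR hp a) (b3b_Ph hR hp),
    b3b_ip_zero_left] at h
  have h2 : ∑ j, zet G Ψ j (s, x) * x j =
      (∑ j, x j * ip G (Ph Ψ (s, x)) (cov G (Ph Ψ) (LL Ψ) (s, x) (dX j)) (kk G Ψ (s, x))) / 2 := by
    rw [Finset.sum_div]
    exact Finset.sum_congr rfl fun j _ => by unfold zet; ring
  rw [h2, ← h]
  simp

end H17Y
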