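import Pool.Agent.Lib.H17Y.B3B
import Pool.Agent.Lib.H17Y.R0

set_option autoImplicit false

/-!
# H17Y (port of H17W to intervals), chunk B3C (M): first order structure equations

Auxiliary names start with `b3c_`.
-/

open MeasureTheory Filter Topology Set
open scoped ContDiff

namespace H17Y

open H17W

open H17T (E4 pt pos)
open Pool.Agent.Lib.PenroseSph (E3 S2 sm)

variable {G : E4 → Matrix (Fin 4) (Fin 4) ℝ} {Ψ : ℝ × E3 → E4} {W : Set (ℝ × E3)} {I : Set ℝ}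

/-- `<D_i L, L> = 0`. -/
theorem b3c_LiL (hR : RegI G Ψ W I) {s : ℝ} (hs : s ∈ I) {x : E3} (hx : x ≠ 0) (i : Fin 3) :
    ip G (Ph Ψ (s, x)) (cov G (Ph Ψ) (LL Ψ) (s, x) (dX i)) (LL Ψ (s, x)) = 0 := by
  have hp := hR.mem s hs x hx
  have h := b3b_zero hR (A := LL Ψ) (B := LL Ψ) (fun q hq a => LL_smooth hR hq a)
    (fun q hq a => LL_smooth hR hq a) hs 0 (fun y hy => hR.null s hs y hy) hx i
  rw [ip_symm (hR.met _ hp) (LL Ψ (s, x))] at h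
  linarith

/-- `<D_i k, k> = 0`. -/
theorem b3c_kik (hR : RegI G Ψ W I) {s : ℝ} (hs : s ∈ I) {x : E3} (hx : x ≠ 0) (i : Fin 3) :
    ip G (Ph Ψ (s, x)) (cov G (Ph Ψ) (kk G Ψ) (s, x) (dX i)) (kk G Ψ (s, x)) = 0 := by
  have hp := hR.mem s hs x hx
  have h := b3b_zero hR (A := kk G Ψ) (B := kk G Ψ) (fun q hq a => kk_smooth hR hq a)
    (fun q hq a => kk_smooth hR hq a) hs 0 (fun y hy => kk_k hR hs hy) hx i
  rw [ip_symm (hR.met _ hp) (kk G Ψ (s, x))] at h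
  linarith

/-- `<D_i L, k> = 2 ζ_i`. -/
theorem b3c_Lik (i : Fin 3) (p : ℝ × E3) :
    ip G (Ph Ψ p) (cov G (Ph Ψ) (LL Ψ) p (dX i)) (kk G Ψ p) = 2 * zet G Ψ i p := by
  unfold zet; ring

/-- `<D_i k, L> = - 2 ζ_i`. -/
theorem b3c_kiL (hR : RegI G Ψ W I) {s : ℝ} (hs : s ∈ I) {x : E3} (hx : x ≠ 0) (i : Fin 3) :
    ip G (Ph Ψ (s, x)) (cov G (Ph Ψ) (kk G Ψ) (s, x) (dX i)) (LL Ψ (s, x)) = -2 * zet G Ψ i (s, x) := by
  have hp := hR.mem s hs x hx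
  have h := b3b_zero hR (A := LL Ψ) (B := kk G Ψ) (fun q hq a => LL_smooth hR hq a)
    (fun q hq a => kk_smooth hR hq a) hs 2 (fun y hy => kk_L hR hs hy) hx i
  rw [ip_symm (hR.met _ hp) (LL Ψ (s, x)), b3c_Lik] at h
  linarith

/-- `expand` for `Y = D_i L`: `<D_i L, L> = ∂_i <L,L> / 2 = 0`. -/
theorem DiL (hR : RegI G Ψ W I) {s : ℝ} (hs : s ∈ I) {x : E3} (hx : x ≠ 0) (i : Fin 3) :
    cov G (Ph Ψ) (LL Ψ) (s, x) (dX i) = (∑ a, chiU G Ψ i a (s, x) • XX Ψ a (s, x)) + zet G Ψ i (s, x) • LL Ψ (s, x) := by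
  have hp := hR.mem s hs x hx
  have h := expand (hR.met _ hp) (nframe hR hs hx) (cov G (Ph Ψ) (LL Ψ) (s, x) (dX i))
  rw [b3c_LiL hR hs hx, b3c_Lik, zero_div, zero_smul, add_zero] at h
  rw [show 2 * zet G Ψ i (s, x) / 2 = zet G Ψ i (s, x) by ring] at h
  exact h

/-- `expand` for `Y = D_i k`: `<D_i k, k> = 0`, `<D_i k, L> = - <k, D_i L> = - 2 ζ_i`. -/
theorem Dik (hR : RegI G Ψ W I) {s : ℝ} (hs : s ∈ I) {x : E3} (hx : x ≠ 0) (i : Fin 3) :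
    cov G (Ph Ψ) (kk G Ψ) (s, x) (dX i) = (∑ a, kapU G Ψ i a (s, x) • XX Ψ a (s, x)) - zet G Ψ i (s, x) • kk G Ψ (s, x) := by
  have hp := hR.mem s hs x hx
  have h := expand (hR.met _ hp) (nframe hR hs hx) (cov G (Ph Ψ) (kk G Ψ) (s, x) (dX i))
  rw [b3c_kiL hR hs hx, b3c_kik hR hs hx, zero_div, zero_smul, add_zero] at h
  rw [show -2 * zet G Ψ i (s, x) / 2 = -zet G Ψ i (s, x) by ring, neg_smul, ← sub_eq_add_neg] at h
  exact h

/-- `<D_s k, X_j> = - <k, D_s X_j> = - <k, D_j L> = - 2 ζ_j`, `<D_s k, k> = 0`, `<D_s k, L> = - <k, D_s L> = 0`; here `s > 0`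
(`fd_open` for the scalar products of `k`). -/
theorem b3c_open (hR : RegI G Ψ W I) {A B : ℝ × E3 → Fin 4 → ℝ}
    (hA : ∀ q ∈ W, ∀ a, ContDiffAt ℝ ∞ (fun z => A z a) q)
    (hB : ∀ q ∈ W, ∀ a, ContDiffAt ℝ ∞ (fun z => B z a) q) {s : ℝ} (hs : s ∈ interior I) (c : ℝ)
    (h : ∀ t ∈ interior I, ∀ x : E3, x ≠ 0 → ipp G Ψ A B (t, x) = c) {x : E3} (hx : x ≠ 0) (v : ℝ × E3) :
    ip G (Ph Ψ (s, x)) (cov G (Ph Ψ) A (s, x) v) (B (s, x)) +
      ip G (Ph Ψ (s, x)) (A (s, x)) (cov G (Ph Ψ) B (s, x) v) = 0 := by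
  have hp := hR.mem s (interior_subset hs) x hx
  rw [← ip_cov (hR.met _ hp) (b3b_Ph hR hp) (fun a => (hA _ hp a).differentiableAt (by simp))
    (fun a => (hB _ hp a).differentiableAt (by simp)) v]
  have := fd_open (F := ipp G Ψ A B) (K := fun _ => c) h hs hx
  have h0 : fderiv ℝ (fun _ : ℝ × E3 => c) (s, x) = 0 := by
    rw [fderiv_fun_const]; rfl
  rw [h0] at this
  change fderiv ℝ (ipp G Ψ A B) (s, x) v = 0
  rw [this]; rfl

theorem Dsk (hR : RegI G Ψ W I) {s : ℝ} (hs : s ∈ interior I) {x : E3} (hx : x ≠ 0) :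
    cov G (Ph Ψ) (kk G Ψ) (s, x) dS = (-2 : ℝ) • ∑ a, zetU G Ψ a (s, x) • XX Ψ a (s, x) := by
  have hp := hR.mem s (interior_subset hs) x hx
  have hX : ∀ j, ip G (Ph Ψ (s, x)) (cov G (Ph Ψ) (kk G Ψ) (s, x) dS) (XX Ψ j (s, x)) =
      -2 * zet G Ψ j (s, x) := by
    intro j
    have h := b3c_open hR (A := kk G Ψ) (B := XX Ψ j) (fun q hq a => kk_smooth hR hq a)
      (fun q hq a => XX_smooth hR hq j a) hs 0 (fun t ht y hy => kk_X hR (interior_subset ht) hy j) hx dS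
    rw [DsX hR hp, ip_symm (hR.met _ hp) (kk G Ψ (s, x)), b3c_Lik] at h
    linarith
  have hk : ip G (Ph Ψ (s, x)) (cov G (Ph Ψ) (kk G Ψ) (s, x) dS) (kk G Ψ (s, x)) = 0 := by
    have h := b3c_open hR (A := kk G Ψ) (B := kk G Ψ) (fun q hq a => kk_smooth hR hq a)
      (fun q hq a => kk_smooth hR hq a) hs 0 (fun t ht y hy => kk_k hR (interior_subset ht) hy) hx dS
    rw [ip_symm (hR.met _ hp) (kk G Ψ (s, x))] at h
    linarith
  have hL : ip G (Ph Ψ (s, x)) (cov G (Ph Ψ) (kk G Ψ) (s, x) dS) (LL Ψ (s, x)) = 0 := by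
    have h := b3c_open hR (A := kk G Ψ) (B := LL Ψ) (fun q hq a => kk_smooth hR hq a)
      (fun q hq a => LL_smooth hR hq a) hs 2
      (fun t ht y hy => by
        have h1 := kk_L hR (interior_subset ht) hy
        unfold ipp at h1 ⊢
        rw [ip_symm (hR.met _ (hR.mem t (interior_subset ht) y hy))]
        exact h1) hx dS
    rw [hR.geo s (interior_subset hs) x hx, b3b_ip_zero_right] at h
    linarith
  have h := expand (hR.met _ hp) (nframe hR (interior_subset hs) hx) (cov G (Ph Ψ) (kk G Ψ) (s, x) dS)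
  rw [hk, hL, zero_div, zero_smul, zero_smul, add_zero, add_zero] at h
  rw [h, Finset.smul_sum]
  refine Finset.sum_congr rfl fun a _ => ?_
  rw [smul_smul]
  congr 1
  unfold zetU
  rw [Finset.mul_sum]
  refine Finset.sum_congr rfl fun b _ => ?_
  rw [hX b]
  ring

/-- Scalar products of the derivatives (`DiL`, `Dik`, `hQ_apply`). -/
theorem ip_LL (hR : RegI G Ψ W I) {s : ℝ} (hs : s ∈ I) {x : E3} (hx : x ≠ 0) (i j : Fin 3) :
    ip G (Ph Ψ (s, x)) (cov G (Ph Ψ) (LL Ψ) (s, x) (dX i)) (cov G (Ph Ψ) (LL Ψ) (s, x) (dX j)) =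
      ∑ a, ∑ b, QQ G Ψ a b (s, x) * chi G Ψ i a (s, x) * chi G Ψ j b (s, x) := by
  have hp := hR.mem s hs x hx
  rw [ip_expand (hR.met _ hp) (nframe hR hs hx), b3c_LiL hR hs hx, b3c_LiL hR hs hx]
  simp only [mul_zero, zero_mul, add_zero, zero_div]
  rfl

theorem ip_kL (hR : RegI G Ψ W I) {s : ℝ} (hs : s ∈ I) {x : E3} (hx : x ≠ 0) (i j : Fin 3) :
    ip G (Ph Ψ (s, x)) (cov G (Ph Ψ) (kk G Ψ) (s, x) (dX i)) (cov G (Ph Ψ) (LL Ψ) (s, x) (dX j)) =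
      (∑ a, ∑ b, QQ G Ψ a b (s, x) * kap G Ψ i a (s, x) * chi G Ψ j b (s, x)) -
        2 * zet G Ψ i (s, x) * zet G Ψ j (s, x) := by
  have hp := hR.mem s hs x hx
  rw [ip_expand (hR.met _ hp) (nframe hR hs hx), b3c_kik hR hs hx, b3c_kiL hR hs hx, b3c_Lik]
  change (∑ a, ∑ b, QQ G Ψ a b (s, x) * kap G Ψ i a (s, x) * chi G Ψ j b (s, x)) + _ = _
  ring

end H17Y
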