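import Pool.Agent.Lib.H17Y.B3B
import Pool.Agent.Lib.H17Y.R0

set_option autoImplicit false

/-!
# H17Y (port of H17W to intervals), chunk B3D (M): first order structure equations

Auxiliary names start with `b3d_`.
-/

open MeasureTheory Filter Topology Set
open scoped ContDiff

namespace H17Y

open H17W

open H17T (E4 pt pos)
open Pool.Agent.Lib.PenroseSph (E3 S2 sm)

variable {G : E4 → Matrix (Fin 4) (Fin 4) ℝ} {Ψ : ℝ × E3 → E4} {W : Set (ℝ × E3)} {I : Set ℝ}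

/-- The derivative of the inverse of a matrix. -/
theorem b3d_inv {E : Type*} [NormedAddCommGroup E] [NormedSpace ℝ E] {M : E → Matrix (Fin 3) (Fin 3) ℝ} {p : E}
    (hdet : ∀ᶠ q in 𝓝 p, (M q).det ≠ 0) (hM : ∀ i j, DifferentiableAt ℝ (fun q => M q i j) p)
    (hN : ∀ i j, DifferentiableAt ℝ (fun q => (M q)⁻¹ i j) p) (v : E) (a b : Fin 3) :
    fderiv ℝ (fun q => (M q)⁻¹ a b) p v =
      -∑ i, ∑ j, (M p)⁻¹ a i * fderiv ℝ (fun q => M q i j) p v * (M p)⁻¹ j b := by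
  set dM : Matrix (Fin 3) (Fin 3) ℝ := Matrix.of fun i j => fderiv ℝ (fun q => M q i j) p v with hdM
  set dN : Matrix (Fin 3) (Fin 3) ℝ := Matrix.of fun i j => fderiv ℝ (fun q => (M q)⁻¹ i j) p v with hdN
  have h1 : dM * (M p)⁻¹ + M p * dN = 0 := by
    ext i j
    have he : (fun q => ∑ l, M q i l * (M q)⁻¹ l j) =ᶠ[𝓝 p] fun _ => (1 : Matrix (Fin 3) (Fin 3) ℝ) i j := by
      filter_upwards [hdet] with q hq
      have : (M q * (M q)⁻¹) i j = (1 : Matrix (Fin 3) (Fin 3) ℝ) i j := by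
        rw [Matrix.mul_nonsing_inv _ (Ne.isUnit hq)]
      rw [← this, Matrix.mul_apply]
    have h2 := he.fderiv_eq (𝕜 := ℝ)
    have hs : fderiv ℝ (fun q => ∑ l, M q i l * (M q)⁻¹ l j) p = ∑ l, fderiv ℝ (fun q => M q i l * (M q)⁻¹ l j) p :=
      fderiv_fun_sum (fun l _ => (hM i l).fun_mul (hN l j))
    rw [hs, fderiv_fun_const] at h2
    have h3 := congrArg (fun T : E →L[ℝ] ℝ => T v) h2
    simp only [ContinuousLinearMap.sum_apply, Pi.zero_apply, ContinuousLinearMap.zero_apply] at h3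
    rw [Matrix.add_apply, Matrix.mul_apply, Matrix.mul_apply, ← Finset.sum_add_distrib, Matrix.zero_apply]
    rw [← h3]
    refine Finset.sum_congr rfl fun l _ => ?_
    rw [fderiv_fun_mul (hM i l) (hN l j)]
    simp only [ContinuousLinearMap.add_apply, ContinuousLinearMap.smul_apply, smul_eq_mul, hdM, hdN, Matrix.of_apply]
    ring
  have hu : IsUnit (M p).det := Ne.isUnit hdet.self_of_nhds
  have h2 : dN = -((M p)⁻¹ * dM * (M p)⁻¹) := by
    have h3 : (M p)⁻¹ * (dM * (M p)⁻¹ + M p * dN) = 0 := by rw [h1, mul_zero]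
    rw [Matrix.mul_add, ← Matrix.mul_assoc (M p)⁻¹ (M p) dN, Matrix.nonsing_inv_mul _ hu, Matrix.one_mul,
      ← Matrix.mul_assoc] at h3
    exact eq_neg_of_add_eq_zero_right h3
  have h3 : dN a b = -((M p)⁻¹ * dM * (M p)⁻¹) a b := by rw [h2, Matrix.neg_apply]
  rw [hdN, Matrix.of_apply] at h3
  rw [h3, Matrix.mul_apply]
  congr 1
  simp only [Matrix.mul_apply, Finset.sum_mul, hdM, Matrix.of_apply]
  rw [Finset.sum_comm]

/-- The derivative of the determinant. -/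
theorem b3d_det {E : Type*} [NormedAddCommGroup E] [NormedSpace ℝ E] {M : E → Matrix (Fin 3) (Fin 3) ℝ} {p : E}
    (hdet : (M p).det ≠ 0) (hM : ∀ i j, DifferentiableAt ℝ (fun q => M q i j) p) (v : E) :
    fderiv ℝ (fun q => (M q).det) p v =
      (M p).det * ∑ i, ∑ j, (M p)⁻¹ j i * fderiv ℝ (fun q => M q i j) p v := by
  have hadj : ∀ i j, (M p).det * (M p)⁻¹ j i = (M p).adjugate j i := by
    intro i j
    rw [Matrix.inv_def, Ring.inverse_eq_inv', Matrix.smul_apply, smul_eq_mul, ← mul_assoc, mul_inv_cancel₀ hdet, one_mul]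
  rw [Finset.mul_sum]
  simp only [Finset.mul_sum, ← mul_assoc, hadj]
  have hf : (fun q => (M q).det) = fun q => M q 0 0 * M q 1 1 * M q 2 2 - M q 0 0 * M q 1 2 * M q 2 1
      - M q 0 1 * M q 1 0 * M q 2 2 + M q 0 1 * M q 1 2 * M q 2 0
      + M q 0 2 * M q 1 0 * M q 2 1 - M q 0 2 * M q 1 1 * M q 2 0 := by
    funext q; rw [Matrix.det_fin_three]
  have h3 : ∀ i j k l m n : Fin 3, HasFDerivAt (fun q => M q i j * M q k l * M q m n)
      ((M p i j * M p k l) • fderiv ℝ (fun q => M q m n) p + M p m n • (M p i j • fderiv ℝ (fun q => M q k l) p +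
        M p k l • fderiv ℝ (fun q => M q i j) p)) p := fun i j k l m n =>
    (((hM i j).hasFDerivAt.mul (hM k l).hasFDerivAt).mul (hM m n).hasFDerivAt)
  have h4 := (((((h3 0 0 1 1 2 2).sub (h3 0 0 1 2 2 1)).sub (h3 0 1 1 0 2 2)).add (h3 0 1 1 2 2 0)).add
    (h3 0 2 1 0 2 1)).sub (h3 0 2 1 1 2 0)
  rw [hf]
  have h5 := h4.fderiv
  change fderiv ℝ (fun q => M q 0 0 * M q 1 1 * M q 2 2 - M q 0 0 * M q 1 2 * M q 2 1
      - M q 0 1 * M q 1 0 * M q 2 2 + M q 0 1 * M q 1 2 * M q 2 0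
      + M q 0 2 * M q 1 0 * M q 2 1 - M q 0 2 * M q 1 1 * M q 2 0) p = _ at h5
  rw [h5]
  simp only [Fin.sum_univ_three, Matrix.adjugate_fin_three, ContinuousLinearMap.add_apply, ContinuousLinearMap.smul_apply,
    ContinuousLinearMap.sub_apply, smul_eq_mul, Matrix.of_apply, Matrix.cons_val_zero, Matrix.cons_val_one,
    Matrix.cons_val', Matrix.cons_val_fin_one, Matrix.cons_val]
  ring

/-- `∂_s <X_i, X_j> = 2 χ_ij` (`ip_cov`, `DsX`). -/
theorem hh_ds (hR : RegI G Ψ W I) {s : ℝ} (hs : s ∈ I) {x : E3} (hx : x ≠ 0) (i j : Fin 3) :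
    fderiv ℝ (hh G Ψ i j) (s, x) dS = 2 * chi G Ψ i j (s, x) := by
  have hp := hR.mem s hs x hx
  have h := ip_cov (hR.met _ hp) (b3b_Ph hR hp) (fun a => b3b_XX hR hp i a) (fun a => b3b_XX hR hp j a) dS
  change fderiv ℝ (hh G Ψ i j) (s, x) dS = _ at h
  rw [h, DsX hR hp, DsX hR hp, ip_symm (hR.met _ hp) (XX Ψ i (s, x))]
  change chi G Ψ i j (s, x) + chi G Ψ j i (s, x) = _
  rw [chi_symm hR hs hx j i]
  ring

/-- The derivative of a function which does not depend on `s`. -/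
theorem b3d_const {f : E3 → ℝ} {p : ℝ × E3} (hf : DifferentiableAt ℝ f p.2) :
    fderiv ℝ (fun q : ℝ × E3 => f q.2) p dS = 0 := by
  have h : HasFDerivAt (fun q : ℝ × E3 => f q.2) ((fderiv ℝ f p.2).comp (ContinuousLinearMap.snd ℝ ℝ E3)) p :=
    (hf.hasFDerivAt).comp p hasFDerivAt_snd
  rw [h.fderiv]
  simp [dS]

theorem b3d_xx {x : E3} (i j : Fin 3) : DifferentiableAt ℝ (fun y : E3 => y i * y j) x := by
  fun_prop

theorem b3d_xxn {x : E3} (hx : x ≠ 0) (i j : Fin 3) : DifferentiableAt ℝ (fun y : E3 => y i * y j / ‖y‖ ^ 4) x := by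
  have h1 : DifferentiableAt ℝ (fun y : E3 => ‖y‖ ^ 4) x :=
    ((contDiffAt_norm ℝ hx).differentiableAt (n := ∞) (by simp)).fun_pow 4
  have h2 : DifferentiableAt ℝ (fun y : E3 => (‖y‖ ^ 4)⁻¹) x := h1.fun_inv (pow_ne_zero _ (norm_ne_zero_iff.mpr hx))
  simp only [div_eq_mul_inv]
  exact (b3d_xx i j).fun_mul h2

theorem b3d_comp {f : E3 → ℝ} {p : ℝ × E3} (hf : DifferentiableAt ℝ f p.2) :
    DifferentiableAt ℝ (fun q : ℝ × E3 => f q.2) p := DifferentiableAt.comp p hf differentiableAt_snd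

theorem b3d_PP (hR : RegI G Ψ W I) {s : ℝ} (hs : s ∈ I) {x : E3} (hx : x ≠ 0) (i j : Fin 3) :
    fderiv ℝ (fun q => PP G Ψ q i j) (s, x) dS = 2 * chi G Ψ i j (s, x) := by
  have hp := hR.mem s hs x hx
  have hxd : DifferentiableAt ℝ (fun q : ℝ × E3 => (fun y : E3 => y i * y j / ‖y‖ ^ 4) q.2) (s, x) :=
    b3d_comp (f := fun y : E3 => y i * y j / ‖y‖ ^ 4) (p := (s, x)) (b3d_xxn hx i j)
  have h : fderiv ℝ (fun q : ℝ × E3 => hh G Ψ i j q + (fun y : E3 => y i * y j / ‖y‖ ^ 4) q.2) (s, x) =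
      fderiv ℝ (hh G Ψ i j) (s, x) + fderiv ℝ (fun q : ℝ × E3 => (fun y : E3 => y i * y j / ‖y‖ ^ 4) q.2) (s, x) :=
    fderiv_fun_add ((hh_smooth hR hp i j).differentiableAt (by simp))
      hxd
  change fderiv ℝ (fun q : ℝ × E3 => hh G Ψ i j q + (fun y : E3 => y i * y j / ‖y‖ ^ 4) q.2) (s, x) dS = _
  rw [h]
  change fderiv ℝ (hh G Ψ i j) (s, x) dS +
    fderiv ℝ (fun q : ℝ × E3 => (fun y : E3 => y i * y j / ‖y‖ ^ 4) q.2) (s, x) dS = _
  have hc : fderiv ℝ (fun q : ℝ × E3 => (fun y : E3 => y i * y j / ‖y‖ ^ 4) q.2) (s, x) dS = 0 :=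
    b3d_const (f := fun y : E3 => y i * y j / ‖y‖ ^ 4) (p := (s, x)) (b3d_xxn hx i j)
  rw [hc, hh_ds hR hs hx]
  ring

theorem b3d_Pinv (p : ℝ × E3) (i j : Fin 3) : (PP G Ψ p)⁻¹ i j = QQ G Ψ i j p + p.2 i * p.2 j := by
  unfold QQ; ring

theorem b3d_Pinv_smooth (hR : RegI G Ψ W I) {p : ℝ × E3} (hp : p ∈ W) (i j : Fin 3) :
    DifferentiableAt ℝ (fun q => (PP G Ψ q)⁻¹ i j) p := by
  have h : (fun q => (PP G Ψ q)⁻¹ i j) = fun q => QQ G Ψ i j q + q.2 i * q.2 j := by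
    funext q; exact b3d_Pinv q i j
  rw [h]
  exact ((QQ_smooth hR hp i j).differentiableAt (by simp)).fun_add (b3d_comp (b3d_xx i j))

/-- The derivative of the inverse matrix is `- P⁻¹ P' P⁻¹`, `P' = 2 χ`, `χ x = 0`. -/
theorem QQ_ds (hR : RegI G Ψ W I) {s : ℝ} (hs : s ∈ I) {x : E3} (hx : x ≠ 0) (a b : Fin 3) :
    fderiv ℝ (QQ G Ψ a b) (s, x) dS = -2 * ∑ i, ∑ j, QQ G Ψ a i (s, x) * chi G Ψ i j (s, x) * QQ G Ψ j b (s, x) := by
  have hp := hR.mem s hs x hx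
  have h1 := b3d_inv (M := PP G Ψ) (p := (s, x))
    ((b3b_ev hR hp).mono fun q hq => (PP_det hR hq).ne')
    (fun i j => (PP_smooth hR hp i j).differentiableAt (by simp)) (fun i j => b3d_Pinv_smooth hR hp i j) dS a b
  have h2 : fderiv ℝ (QQ G Ψ a b) (s, x) dS = fderiv ℝ (fun q => (PP G Ψ q)⁻¹ a b) (s, x) dS := by
    have h : fderiv ℝ (fun q : ℝ × E3 => (PP G Ψ q)⁻¹ a b - (fun y : E3 => y a * y b) q.2) (s, x) =
        fderiv ℝ (fun q => (PP G Ψ q)⁻¹ a b) (s, x) - fderiv ℝ (fun q : ℝ × E3 => (fun y : E3 => y a * y b) q.2) (s, x) :=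
      fderiv_fun_sub (b3d_Pinv_smooth hR hp a b) (b3d_comp (b3d_xx a b))
    change fderiv ℝ (fun q : ℝ × E3 => (PP G Ψ q)⁻¹ a b - (fun y : E3 => y a * y b) q.2) (s, x) dS = _
    rw [h]
    change fderiv ℝ (fun q => (PP G Ψ q)⁻¹ a b) (s, x) dS -
      fderiv ℝ (fun q : ℝ × E3 => (fun y : E3 => y a * y b) q.2) (s, x) dS = _
    rw [b3d_const (b3d_xx a b), sub_zero]
  rw [h2, h1]
  simp only [b3d_PP hR hs hx, b3d_Pinv]
  have hr1 : ∀ i, ∑ j, chi G Ψ i j (s, x) * x j = 0 := fun i => chi_rad hR hs hx i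
  have hr2 : ∀ j, ∑ i, chi G Ψ i j (s, x) * x i = 0 := fun j => by
    rw [← chi_rad hR hs hx j]
    exact Finset.sum_congr rfl fun i _ => by rw [chi_symm hR hs hx i j]
  simp only [Fin.sum_univ_three] at hr1 hr2 ⊢
  linear_combination (-2 * x a * QQ G Ψ 0 b (s, x) - 2 * x a * (x 0 * x b)) * hr2 0 +
    (-2 * x a * QQ G Ψ 1 b (s, x) - 2 * x a * (x 1 * x b)) * hr2 1 +
    (-2 * x a * QQ G Ψ 2 b (s, x) - 2 * x a * (x 2 * x b)) * hr2 2 +
    (-2 * QQ G Ψ a 0 (s, x) * x b) * hr1 0 + (-2 * QQ G Ψ a 1 (s, x) * x b) * hr1 1 +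
    (-2 * QQ G Ψ a 2 (s, x) * x b) * hr1 2

/-- `(det P)' = det P · tr (P⁻¹ P')`. -/
theorem dA_ds (hR : RegI G Ψ W I) {s : ℝ} (hs : s ∈ I) {x : E3} (hx : x ≠ 0) :
    fderiv ℝ (dA G Ψ) (s, x) dS = exl G Ψ (s, x) * dA G Ψ (s, x) := by
  have hp := hR.mem s hs x hx
  have hd := PP_det hR hp
  have hM : ∀ i j, DifferentiableAt ℝ (fun q => PP G Ψ q i j) (s, x) :=
    fun i j => (PP_smooth hR hp i j).differentiableAt (by simp)
  have h1 := b3d_det (M := PP G Ψ) (p := (s, x)) hd.ne' hM dS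
  have hdiff : DifferentiableAt ℝ (fun q => (PP G Ψ q).det) (s, x) := by
    have : (fun q => (PP G Ψ q).det) = fun q => ∑ σ : Equiv.Perm (Fin 3),
        (Equiv.Perm.sign σ : ℤ) * ∏ i, PP G Ψ q (σ i) i := by
      funext q; rw [Matrix.det_apply']
    rw [this]
    refine DifferentiableAt.fun_sum fun σ _ => ?_
    refine (differentiableAt_const _).fun_mul ?_
    simp only [Fin.prod_univ_three]
    exact ((hM _ _).fun_mul (hM _ _)).fun_mul (hM _ _)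
  have h2 : HasFDerivAt (dA G Ψ) ((1 / (2 * Real.sqrt (PP G Ψ (s, x)).det)) •
      fderiv ℝ (fun q => (PP G Ψ q).det) (s, x)) (s, x) := hdiff.hasFDerivAt.sqrt hd.ne'
  rw [h2.fderiv]
  change 1 / (2 * Real.sqrt (PP G Ψ (s, x)).det) * fderiv ℝ (fun q => (PP G Ψ q).det) (s, x) dS = _
  rw [h1]
  have hs2 : Real.sqrt (PP G Ψ (s, x)).det * Real.sqrt (PP G Ψ (s, x)).det = (PP G Ψ (s, x)).det :=
    Real.mul_self_sqrt hd.le
  have hs0 : Real.sqrt (PP G Ψ (s, x)).det ≠ 0 := (Real.sqrt_pos.mpr hd).ne'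
  have h3 : ∑ i, ∑ j, (PP G Ψ (s, x))⁻¹ j i * fderiv ℝ (fun q => PP G Ψ q i j) (s, x) dS =
      2 * exl G Ψ (s, x) := by
    simp only [b3d_PP hR hs hx, b3d_Pinv]
    unfold exl
    have hr2 : ∀ j, ∑ i, chi G Ψ i j (s, x) * x i = 0 := fun j => by
      rw [← chi_rad hR hs hx j]
      exact Finset.sum_congr rfl fun i _ => by rw [chi_symm hR hs hx i j]
    have hs01 := chi_symm hR hs hx 0 1
    have hs02 := chi_symm hR hs hx 0 2
    have hs12 := chi_symm hR hs hx 1 2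
    simp only [Fin.sum_univ_three] at hr2 ⊢
    linear_combination 2 * x 0 * hr2 0 + 2 * x 1 * hr2 1 + 2 * x 2 * hr2 2 +
      2 * (QQ G Ψ 1 0 (s, x) - QQ G Ψ 0 1 (s, x)) * hs01 + 2 * (QQ G Ψ 2 0 (s, x) - QQ G Ψ 0 2 (s, x)) * hs02 +
      2 * (QQ G Ψ 2 1 (s, x) - QQ G Ψ 1 2 (s, x)) * hs12
  rw [h3]
  unfold dA
  rw [div_mul_eq_mul_div, div_eq_iff (mul_ne_zero two_ne_zero hs0)]
  linear_combination (-2 * exl G Ψ (s, x)) * hs2

end H17Y
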