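import Pool.Agent.Lib.H17Y.B2E
import Pool.Agent.Lib.H17W.B3E
import Pool.Agent.Lib.H17Y.R0

set_option autoImplicit false

/-!
# H17Y (port of H17W to intervals), chunk B3F (S/M): first order structure equations

Auxiliary names start with `b3f_`.
-/

open MeasureTheory Filter Topology Set
open scoped ContDiff

namespace H17Y

open H17W

open H17T (E4 pt pos)
open Pool.Agent.Lib.PenroseSph (E3 S2 sm)

variable {G : E4 → Matrix (Fin 4) (Fin 4) ℝ} {Ψ : ℝ × E3 → E4} {W : Set (ℝ × E3)} {I : Set ℝ}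

/-- The derivative of the inverse of a matrix. -/
theorem b3f_inv {E : Type*} [NormedAddCommGroup E] [NormedSpace ℝ E] {M : E → Matrix (Fin 3) (Fin 3) ℝ} {p : E}
    (hdet : ∀ᶠ q in 𝓝 p, (M q).det ≠ 0) (hM : ∀ i j, DifferentiableAt ℝ (fun q => M q i j) p)
    (hN : ∀ i j, DifferentiableAt ℝ (fun q => (M q)⁻¹ i j) p) (v : E) (a b : Fin 3) :
    fderiv ℝ (fun q => (M q)⁻¹ a b) p v =
      -∑ i, ∑ j, (M p)⁻¹ a i * fderiv ℝ (fun q => M q i j) p v * (M p)⁻¹ j b := by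
  set dM : Matrix (Fin 3) (Fin 3) ℝ := Matrix.of fun i j => fderiv ℝ (fun q => M q i j) p v with hdM
  set dN : Matrix (Fin 3) (Fin 3) ℝ := Matrix.of fun i j => fderiv ℝ (fun q => (M q)⁻¹ i j) p v with hdN
  have h1 : dM * (M p)⁻¹ + M p * dN = 0 := by
    ext i j
    have he : (fun q => ∑ l, M q i l * (M q)⁻¹ l j) =ᶠ[𝓝 p] fun _ => (1 : Matrix (Fin 3) (Fin 3) ℝ) i j := by
      filter_upwards [hdet] with q hq
      have : (M q * (M q)⁻¹) i j = (1 : Matrix (Fin 3) (Fin 3) ℝ) i j := by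
        rw [Matrix.mul_nonsing_inv _ (Ne.isUnit hq)]
      rw [← this, Matrix.mul_apply]
    have h2 := he.fderiv_eq (𝕜 := ℝ)
    have hs : fderiv ℝ (fun q => ∑ l, M q i l * (M q)⁻¹ l j) p = ∑ l, fderiv ℝ (fun q => M q i l * (M q)⁻¹ l j) p :=
      fderiv_fun_sum (fun l _ => (hM i l).fun_mul (hN l j))
    rw [hs, fderiv_fun_const] at h2
    have h3 := congrArg (fun T : E →L[ℝ] ℝ => T v) h2
    simp only [ContinuousLinearMap.sum_apply, Pi.zero_apply, ContinuousLinearMap.zero_apply] at h3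
    rw [Matrix.add_apply, Matrix.mul_apply, Matrix.mul_apply, ← Finset.sum_add_distrib, Matrix.zero_apply]
    rw [← h3]
    refine Finset.sum_congr rfl fun l _ => ?_
    rw [fderiv_fun_mul (hM i l) (hN l j)]
    simp only [ContinuousLinearMap.add_apply, ContinuousLinearMap.smul_apply, smul_eq_mul, hdM, hdN, Matrix.of_apply]
    ring
  have hu : IsUnit (M p).det := Ne.isUnit hdet.self_of_nhds
  have h2 : dN = -((M p)⁻¹ * dM * (M p)⁻¹) := by
    have h3 : (M p)⁻¹ * (dM * (M p)⁻¹ + M p * dN) = 0 := by rw [h1, mul_zero]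
    rw [Matrix.mul_add, ← Matrix.mul_assoc (M p)⁻¹ (M p) dN, Matrix.nonsing_inv_mul _ hu, Matrix.one_mul,
      ← Matrix.mul_assoc] at h3
    exact eq_neg_of_add_eq_zero_right h3
  have h3 : dN a b = -((M p)⁻¹ * dM * (M p)⁻¹) a b := by rw [h2, Matrix.neg_apply]
  rw [hdN, Matrix.of_apply] at h3
  rw [h3, Matrix.mul_apply]
  congr 1
  simp only [Matrix.mul_apply, Finset.sum_mul, hdM, Matrix.of_apply]
  rw [Finset.sum_comm]

theorem b3f_slice {F : ℝ × E3 → ℝ} {s : ℝ} {x : E3} (hF : DifferentiableAt ℝ F (s, x)) (i : Fin 3) :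
    H31R.pd i (fun y => F (s, y)) x = fderiv ℝ F (s, x) (dX i) := by
  have h : HasFDerivAt (fun y => F (s, y)) ((fderiv ℝ F (s, x)).comp (ContinuousLinearMap.inr ℝ ℝ E3)) x :=
    (hF.hasFDerivAt).comp x (hasFDerivAt_prodMk_right s x)
  unfold H31R.pd
  rw [h.fderiv]
  rfl

/-- `cc` is symmetric. -/
theorem cc_symm (hR : RegI G Ψ W I) {s : ℝ} (hs : s ∈ I) {x : E3} (hx : x ≠ 0) (k i j : Fin 3) :
    cc G Ψ k i j (s, x) = cc G Ψ k j i (s, x) :=
  chr_symm (cyl_metAt (PP_cyl hR hs) hx) k i j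

theorem b3f_Pinv (p : ℝ × E3) (i j : Fin 3) : (PP G Ψ p)⁻¹ i j = QQ G Ψ i j p + p.2 i * p.2 j := by
  unfold QQ; ring

theorem b3f_coord (p : ℝ × E3) (i : Fin 3) : ContDiffAt ℝ ∞ (fun q : ℝ × E3 => q.2 i) p :=
  ((EuclideanSpace.proj i : E3 →L[ℝ] ℝ).contDiff.comp contDiff_snd).contDiffAt

theorem b3f_Pinv_smooth (hR : RegI G Ψ W I) {p : ℝ × E3} (hp : p ∈ W) (i j : Fin 3) :
    ContDiffAt ℝ ∞ (fun q => (PP G Ψ q)⁻¹ i j) p := by
  have h : (fun q => (PP G Ψ q)⁻¹ i j) = fun q => QQ G Ψ i j q + q.2 i * q.2 j := by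
    funext q; exact b3f_Pinv q i j
  rw [h]
  exact (QQ_smooth hR hp i j).add ((b3f_coord p i).mul (b3f_coord p j))

theorem b3f_PPd (hR : RegI G Ψ W I) {p : ℝ × E3} (hp : p ∈ W) (i j : Fin 3) :
    DifferentiableAt ℝ (fun q => PP G Ψ q i j) p := (PP_smooth hR hp i j).differentiableAt (by simp)

/-- `cc` is smooth. For `s ≥ 0`; the Christoffel symbols are algebraic in `P⁻¹` and the derivatives
`fderiv ℝ (fun q => PP q i j) (s, x) (dX k)`, which are smooth functions of `(s, x)`. -/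
theorem cc_smooth (hR : RegI G Ψ W I) {p : ℝ × E3} (hp : p ∈ W) (k i j : Fin 3) : ContDiffAt ℝ ∞ (cc G Ψ k i j) p := by
  have he : cc G Ψ k i j =ᶠ[𝓝 p] fun q => (1 / 2) * ∑ l, (PP G Ψ q)⁻¹ k l *
      (fderiv ℝ (fun q => PP G Ψ q j l) q (dX i) + fderiv ℝ (fun q => PP G Ψ q i l) q (dX j) -
        fderiv ℝ (fun q => PP G Ψ q i j) q (dX l)) := by
    filter_upwards [hR.isOpen.mem_nhds hp] with q hq
    unfold cc H31R.chr
    congr 1
    refine Finset.sum_congr rfl fun l _ => ?_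
    have h1 := b3f_slice (s := q.1) (x := q.2) (b3f_PPd hR hq j l) i
    have h2 := b3f_slice (s := q.1) (x := q.2) (b3f_PPd hR hq i l) j
    have h3 := b3f_slice (s := q.1) (x := q.2) (b3f_PPd hR hq i j) l
    rw [h1, h2, h3]
  have hf : ∀ a b c, ContDiffAt ℝ ∞ (fun q => fderiv ℝ (fun q => PP G Ψ q a b) q (dX c)) p := by
    intro a b c
    exact ((PP_smooth hR hp a b).fderiv_right (m := ∞) (by simp)).clm_apply contDiffAt_const
  refine ContDiffAt.congr_of_eventuallyEq ?_ he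
  refine contDiffAt_const.mul (ContDiffAt.sum fun l _ => ?_)
  exact (b3f_Pinv_smooth hR hp k l).mul (((hf _ _ _).add (hf _ _ _)).sub (hf _ _ _))

theorem b3f_xxn_diff {x : E3} (hx : x ≠ 0) (j l : Fin 3) :
    DifferentiableAt ℝ (fun y : E3 => y j * y l / ‖y‖ ^ 4) x := by
  have h1 : DifferentiableAt ℝ (fun y : E3 => ‖y‖ ^ 4) x :=
    ((contDiffAt_norm ℝ hx).differentiableAt (n := ∞) (by simp)).fun_pow 4
  have h2 : DifferentiableAt ℝ (fun y : E3 => (‖y‖ ^ 4)⁻¹) x := h1.fun_inv (pow_ne_zero _ (norm_ne_zero_iff.mpr hx))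
  simp only [div_eq_mul_inv]
  exact ((b3e_coord x j).fun_mul (b3e_coord x l)).fun_mul h2

theorem b3f_xxn {x : E3} (hx : x ≠ 0) (i j l : Fin 3) : H31R.pd i (fun y : E3 => y j * y l / ‖y‖ ^ 4) x =
    ((if i = j then 1 else 0) * x l + x j * (if i = l then 1 else 0)) / ‖x‖ ^ 4 - 4 * x i * x j * x l / ‖x‖ ^ 6 := by
  have hn : ‖x‖ ≠ 0 := norm_ne_zero_iff.mpr hx
  have h1 := b3e_pd_mul ((b3f_xxn_diff hx j l).fun_mul (b3e_normsq x)) (b3e_normsq x) i
  rw [b3e_pd_mul (b3f_xxn_diff hx j l) (b3e_normsq x) i] at h1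
  have h2 : H31R.pd i (fun y : E3 => y j * y l / ‖y‖ ^ 4 * ‖y‖ ^ 2 * ‖y‖ ^ 2) x =
      (if i = j then 1 else 0) * x l + x j * (if i = l then 1 else 0) := by
    rw [← b3e_pd_coord x i j, ← b3e_pd_coord x i l, ← b3e_pd_mul (b3e_coord x j) (b3e_coord x l)]
    refine b3e_pd_congr ?_ i
    filter_upwards [b3e_ne hx] with y hy
    have : ‖y‖ ≠ 0 := norm_ne_zero_iff.mpr hy
    field_simp
  rw [h2, b3e_pd_normsq] at h1
  rw [h1]
  field_simp
  ring

/-- The derivative of `PP`. -/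
theorem b3f_PP (hR : RegI G Ψ W I) {s : ℝ} (hs : s ∈ I) {x : E3} (hx : x ≠ 0) (i j l : Fin 3) :
    H31R.pd i (fun y => PP G Ψ (s, y) j l) x = fderiv ℝ (hh G Ψ j l) (s, x) (dX i) +
      (((if i = j then 1 else 0) * x l + x j * (if i = l then 1 else 0)) / ‖x‖ ^ 4 - 4 * x i * x j * x l / ‖x‖ ^ 6) := by
  have hp := hR.mem s hs x hx
  have hd : DifferentiableAt ℝ (hh G Ψ j l) (s, x) := (hh_smooth hR hp j l).differentiableAt (by simp)
  rw [← b3f_xxn hx i j l, ← b3f_slice hd i]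
  have hd' : DifferentiableAt ℝ (fun y => hh G Ψ j l (s, y)) x :=
    hd.comp x (hasFDerivAt_prodMk_right s x).differentiableAt
  unfold H31R.pd
  change fderiv ℝ (fun y => hh G Ψ j l (s, y) + y j * y l / ‖y‖ ^ 4) x _ = _
  rw [fderiv_fun_add hd' (b3f_xxn_diff hx j l)]
  rfl

/-- Lowered: `∑ cc^m_ij h_ml = (∂_i h_jl + ∂_j h_il - ∂_l h_ij) / 2` (`chr_lower` for `PP(s, ·)`, `cyl_chr_up`; the terms which come
from `x_i x_j / |x|⁴` cancel). -/
theorem cc_lower (hR : RegI G Ψ W I) {s : ℝ} (hs : s ∈ I) {x : E3} (hx : x ≠ 0) (i j l : Fin 3) :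
    ∑ m, cc G Ψ m i j (s, x) * hh G Ψ m l (s, x) = (fderiv ℝ (hh G Ψ j l) (s, x) (dX i) + fderiv ℝ (hh G Ψ i l) (s, x) (dX j) -
      fderiv ℝ (hh G Ψ i j) (s, x) (dX l)) / 2 := by
  have hn : ‖x‖ ≠ 0 := norm_ne_zero_iff.mpr hx
  have hC := PP_cyl hR hs
  have h1 := chr_lower (cyl_metAt hC hx) i j l
  have h2 := cyl_chr_up hC hx i j
  rw [b3f_PP hR hs hx, b3f_PP hR hs hx, b3f_PP hR hs hx] at h1
  have hc1 : (if j = i then (1 : ℝ) else 0) = if i = j then 1 else 0 := by simp only [eq_comm]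
  have hc2 : (if l = i then (1 : ℝ) else 0) = if i = l then 1 else 0 := by simp only [eq_comm]
  have hc3 : (if l = j then (1 : ℝ) else 0) = if j = l then 1 else 0 := by simp only [eq_comm]
  rw [hc1, hc2, hc3] at h1
  have h3 : ∑ m, PP G Ψ (s, x) m l * H31R.chr (fun y => PP G Ψ (s, y)) m i j x =
      ∑ m, cc G Ψ m i j (s, x) * hh G Ψ m l (s, x) +
        (∑ m, H31R.chr (fun y => PP G Ψ (s, y)) m i j x * x m) * (x l / ‖x‖ ^ 4) := by
    rw [Finset.sum_mul, ← Finset.sum_add_distrib]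
    refine Finset.sum_congr rfl fun m _ => ?_
    change (hh G Ψ m l (s, x) + x m * x l / ‖x‖ ^ 4) * H31R.chr (fun y => PP G Ψ (s, y)) m i j x = H31R.chr (fun y => PP G Ψ (s, y)) m i j x * hh G Ψ m l (s, x) + _
    ring
  rw [h3, h2] at h1
  have h4 : ∑ m, cc G Ψ m i j (s, x) * hh G Ψ m l (s, x) = _ := eq_sub_of_add_eq h1
  rw [h4]
  field_simp
  ring

/-- `Q` is parallel (`compat` for `P`, the derivative of the inverse matrix, and `x` is parallel). -/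
theorem QQ_di (hR : RegI G Ψ W I) {s : ℝ} (hs : s ∈ I) {x : E3} (hx : x ≠ 0) (j i l : Fin 3) :
    fderiv ℝ (QQ G Ψ i l) (s, x) (dX j) = -∑ m, (cc G Ψ i j m (s, x) * QQ G Ψ m l (s, x) + cc G Ψ l j m (s, x) * QQ G Ψ i m (s, x)) := by
  have hp := hR.mem s hs x hx
  have hC := PP_cyl hR hs
  have hdet : (PP G Ψ (s, x)).det ≠ 0 := (PP_det hR hp).ne'
  have h1 := b3f_inv (M := PP G Ψ) (p := (s, x))
    ((hR.isOpen.eventually_mem hp).mono fun q hq => (PP_det hR hq).ne')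
    (fun i j => b3f_PPd hR hp i j) (fun i j => (b3f_Pinv_smooth hR hp i j).differentiableAt (by simp)) (dX j) i l
  set C : Matrix (Fin 3) (Fin 3) ℝ := Matrix.of fun m a => cc G Ψ m j a (s, x) with hCdef
  set M : Matrix (Fin 3) (Fin 3) ℝ := PP G Ψ (s, x) with hMdef
  have hdP : ∀ a b, fderiv ℝ (fun q => PP G Ψ q a b) (s, x) (dX j) = (C.transpose * M + M * C) a b := by
    intro a b
    rw [← b3f_slice (b3f_PPd hR hp a b) j, compat (cyl_metAt hC hx) a b j, Matrix.add_apply, Matrix.mul_apply,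
      Matrix.mul_apply, ← Finset.sum_add_distrib]
    refine Finset.sum_congr rfl fun m _ => ?_
    simp only [hCdef, Matrix.transpose_apply, Matrix.of_apply]
    change M m b * cc G Ψ m j a (s, x) + M a m * cc G Ψ m j b (s, x) = _
    ring
  have h2 : ∑ a, ∑ b, M⁻¹ i a * fderiv ℝ (fun q => PP G Ψ q a b) (s, x) (dX j) * M⁻¹ b l =
      (M⁻¹ * C.transpose + C * M⁻¹) i l := by
    have h3 : M⁻¹ * C.transpose + C * M⁻¹ = M⁻¹ * (C.transpose * M + M * C) * M⁻¹ := by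
      rw [Matrix.mul_add, Matrix.add_mul, ← Matrix.mul_assoc, Matrix.mul_assoc (M⁻¹ * C.transpose) M,
        Matrix.mul_nonsing_inv _ (Ne.isUnit hdet), Matrix.mul_one, ← Matrix.mul_assoc M⁻¹ M C,
        Matrix.nonsing_inv_mul _ (Ne.isUnit hdet), Matrix.one_mul]
    rw [h3, Matrix.mul_apply, Finset.sum_comm]
    refine Finset.sum_congr rfl fun b _ => ?_
    rw [Matrix.mul_apply (M := M⁻¹), Finset.sum_mul]
    exact Finset.sum_congr rfl fun a _ => by rw [hdP]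
  rw [h2] at h1
  have hQ : fderiv ℝ (QQ G Ψ i l) (s, x) (dX j) = fderiv ℝ (fun q => (PP G Ψ q)⁻¹ i l) (s, x) (dX j) -
      ((if j = i then 1 else 0) * x l + x i * (if j = l then 1 else 0)) := by
    have hqd : DifferentiableAt ℝ (QQ G Ψ i l) (s, x) := (QQ_smooth hR hp i l).differentiableAt (by simp)
    have hxd : DifferentiableAt ℝ (fun q : ℝ × E3 => q.2 i * q.2 l) (s, x) :=
      ((b3f_coord (s, x) i).mul (b3f_coord (s, x) l)).differentiableAt (by simp)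
    have he : (fun q => (PP G Ψ q)⁻¹ i l) = fun q => QQ G Ψ i l q + q.2 i * q.2 l := by
      funext q; exact b3f_Pinv q i l
    rw [he, fderiv_fun_add hqd hxd]
    change _ = fderiv ℝ (QQ G Ψ i l) (s, x) (dX j) + fderiv ℝ (fun q : ℝ × E3 => q.2 i * q.2 l) (s, x) (dX j) - _
    rw [← b3f_slice hxd j]
    change _ = fderiv ℝ (QQ G Ψ i l) (s, x) (dX j) + H31R.pd j (fun y : E3 => y i * y l) x - _
    rw [b3e_pd_mul (b3e_coord x i) (b3e_coord x l), b3e_pd_coord, b3e_pd_coord]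
    ring
  rw [hQ, h1, Matrix.add_apply, Matrix.mul_apply, Matrix.mul_apply]
  have hr1 := cyl_chr_rad hC hx l j
  have hr2 := cyl_chr_rad hC hx i j
  have hc1 : (if j = i then (1 : ℝ) else 0) = if i = j then 1 else 0 := by simp only [eq_comm]
  have hc2 : (if j = l then (1 : ℝ) else 0) = if l = j then 1 else 0 := by simp only [eq_comm]
  rw [hc1, hc2]
  have e1 : ∑ a, M⁻¹ i a * C.transpose a l = ∑ a, cc G Ψ l j a (s, x) * QQ G Ψ i a (s, x) +
      x i * ∑ a, H31R.chr (fun y => PP G Ψ (s, y)) l j a x * x a := by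
    rw [Finset.mul_sum, ← Finset.sum_add_distrib]
    refine Finset.sum_congr rfl fun a _ => ?_
    rw [hMdef, b3f_Pinv, hCdef, Matrix.transpose_apply, Matrix.of_apply]
    change (QQ G Ψ i a (s, x) + x i * x a) * cc G Ψ l j a (s, x) = _ + x i * (cc G Ψ l j a (s, x) * x a)
    ring
  have e2 : ∑ b, C i b * M⁻¹ b l = ∑ b, cc G Ψ i j b (s, x) * QQ G Ψ b l (s, x) +
      (∑ b, H31R.chr (fun y => PP G Ψ (s, y)) i j b x * x b) * x l := by
    rw [Finset.sum_mul, ← Finset.sum_add_distrib]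
    refine Finset.sum_congr rfl fun b _ => ?_
    rw [hMdef, b3f_Pinv, hCdef, Matrix.of_apply]
    change cc G Ψ i j b (s, x) * (QQ G Ψ b l (s, x) + x b * x l) = _ + cc G Ψ i j b (s, x) * x b * x l
    ring
  rw [e1, e2, hr1, hr2, Finset.sum_add_distrib]
  ring

/-- `∑ cc^m_ij x_m = δ_ij - 2 x_i x_j / |x|²`; for a one-form `v` with `∑ v_m x_m = 0` and `∑ cc^m_ij h_ma v^a = ∑ cc^m_ij v_m`:
`∑_a (∑_b Q^ab v_b) h_am = v_m` (`hQ_apply`). -/
theorem cc_contract (hR : RegI G Ψ W I) {s : ℝ} (hs : s ∈ I) {x : E3} (hx : x ≠ 0) {v : Fin 3 → ℝ} (hv : ∑ i, v i * x i = 0) (i j : Fin 3) :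
    ∑ m, ∑ a, cc G Ψ m i j (s, x) * (∑ b, QQ G Ψ a b (s, x) * v b) * hh G Ψ a m (s, x) = ∑ m, cc G Ψ m i j (s, x) * v m := by
  refine Finset.sum_congr rfl fun m _ => ?_
  rw [← hQ_apply hR (hR.mem s hs x hx) (v := v) hv m, Finset.mul_sum]
  exact Finset.sum_congr rfl fun a _ => by ring

end H17Y
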