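import Pool.Agent.Lib.H17Y.B3C
import Pool.Agent.Lib.H17W.A5
import Pool.Agent.Lib.H17Y.R0
import Pool.Agent.Lib.H17W.B4B

set_option autoImplicit false

/-!
# H17Y (port of H17W to intervals), chunk B4B (M): the derivative of `X_j`, Raychaudhuri's equation

Auxiliary names start with `b4b_`.
-/

open MeasureTheory Filter Topology Set
open scoped ContDiff

namespace H17Y

open H17W

open H17T (E4 pt pos)
open Pool.Agent.Lib.PenroseSph (E3 S2 sm)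

variable {G : E4 → Matrix (Fin 4) (Fin 4) ℝ} {Ψ : ℝ × E3 → E4} {W : Set (ℝ × E3)} {I : Set ℝ}

/-- Smoothness near a point of `W`. -/
theorem b4b_ev (hR : RegI G Ψ W I) {p : ℝ × E3} (hp : p ∈ W) : ∀ᶠ q in 𝓝 p, q ∈ W := hR.isOpen.mem_nhds hp

theorem b4b_Lev (hR : RegI G Ψ W I) {p : ℝ × E3} (hp : p ∈ W) :
    ∀ᶠ q in 𝓝 p, ∀ a, ContDiffAt ℝ ∞ (fun z => LL Ψ z a) q := by
  filter_upwards [b4b_ev hR hp] with q hq a
  exact LL_smooth hR hq a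

theorem b4b_Phev (hR : RegI G Ψ W I) {p : ℝ × E3} (hp : p ∈ W) : ∀ᶠ q in 𝓝 p, ContDiffAt ℝ ∞ (Ph Ψ) q := by
  filter_upwards [b4b_ev hR hp] with q hq
  exact hR.smooth q hq

/-- `∂_s χ_ij = <R(L,X_i)L,X_j> + χ_i^a χ_aj`: `D_s D_i L = D_i D_s L + R(L,X_i)L` (`cov_comm`), `D_s L (s, ·) = 0` (`cov_slice`),
`<D_i L, D_s X_j> = <D_i L, D_j L>` (`DsX`, `ip_LL`). -/
theorem chi_ds (hR : RegI G Ψ W I) {s : ℝ} (hs : s ∈ I) {x : E3} (hx : x ≠ 0) (i j : Fin 3) :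
    fderiv ℝ (chi G Ψ i j) (s, x) dS =
      ip G (Ph Ψ (s, x)) (riem G (Ph Ψ (s, x)) (LL Ψ (s, x)) (XX Ψ i (s, x)) (LL Ψ (s, x))) (XX Ψ j (s, x)) +
        ∑ a, ∑ b, QQ G Ψ a b (s, x) * chi G Ψ i a (s, x) * chi G Ψ j b (s, x) := by
  have hp : (s, x) ∈ W := hR.mem s hs x hx
  have hmet := hR.met _ hp
  have hPh : DifferentiableAt ℝ (Ph Ψ) (s, x) := (hR.smooth _ hp).differentiableAt (by simp)
  have hX : ∀ a, DifferentiableAt ℝ (fun q => XX Ψ j q a) (s, x) := fun a => (XX_smooth hR hp j a).differentiableAt (by simp)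
  have hcov : ∀ v : ℝ × E3, ∀ a, DifferentiableAt ℝ (fun q => cov G (Ph Ψ) (LL Ψ) q v a) (s, x) := by
    intro v a
    have h := cov_smooth (G := G) hmet (b4b_Phev hR hp) (b4b_Lev hR hp) v
    exact (h.self_of_nhds a).differentiableAt (by simp)
  have h1 := ip_cov (G := G) hmet hPh (hcov (dX i)) hX dS
  have h2 := cov_comm (G := G) hmet (b4b_Phev hR hp) (b4b_Lev hR hp) dS (dX i)
  have h3 : cov G (Ph Ψ) (fun q => cov G (Ph Ψ) (LL Ψ) q dS) (s, x) (dX i) = 0 := by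
    rw [cov_slice (G := G) (Ψ := Ψ) (A := fun q => cov G (Ph Ψ) (LL Ψ) q dS) (B := fun _ => 0) (s := s)
      (fun y hy => hR.geo s hs y hy) hx (hcov dS) (fun a => by simp) i]
    funext a
    simp [cov, gam]
  rw [h3, sub_zero] at h2
  rw [h2, DsX hR hp j, ip_LL hR hs hx i j] at h1
  exact h1

/-- `Ric(L,L) = - Q^ij <R(L,X_i)L,X_j>` (`Ric_frame`, `riem_skew`, `riem_anti`). -/
theorem ee_eq (hR : RegI G Ψ W I) {s : ℝ} (hs : s ∈ I) {x : E3} (hx : x ≠ 0) :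
    ee G Ψ (s, x) = -∑ i, ∑ j, QQ G Ψ i j (s, x) *
      ip G (Ph Ψ (s, x)) (riem G (Ph Ψ (s, x)) (LL Ψ (s, x)) (XX Ψ i (s, x)) (LL Ψ (s, x))) (XX Ψ j (s, x)) := by
  have hp : (s, x) ∈ W := hR.mem s hs x hx
  have hmet := hR.met _ hp
  have h := Ric_frame hmet (nframe hR hs hx) (LL Ψ (s, x)) (LL Ψ (s, x))
  have h1 : ip G (Ph Ψ (s, x)) (riem G (Ph Ψ (s, x)) (LL Ψ (s, x)) (LL Ψ (s, x)) (LL Ψ (s, x))) (kk G Ψ (s, x)) = 0 := by
    have h0 : riem G (Ph Ψ (s, x)) (LL Ψ (s, x)) (LL Ψ (s, x)) (LL Ψ (s, x)) = 0 := by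
      have h00 := riem_anti (G := G) (p := Ph Ψ (s, x)) (LL Ψ (s, x)) (LL Ψ (s, x)) (LL Ψ (s, x))
      exact self_eq_neg.mp h00
    rw [h0, b4b_ip_zero]
  have h2 : ip G (Ph Ψ (s, x)) (riem G (Ph Ψ (s, x)) (kk G Ψ (s, x)) (LL Ψ (s, x)) (LL Ψ (s, x))) (LL Ψ (s, x)) = 0 := by
    have h00 := riem_skew hmet (kk G Ψ (s, x)) (LL Ψ (s, x)) (LL Ψ (s, x)) (LL Ψ (s, x))
    linarith
  rw [h1, h2] at h
  unfold ee
  rw [h, zero_div, add_zero, add_zero, ← Finset.sum_neg_distrib]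
  refine Finset.sum_congr rfl fun i _ => ?_
  rw [← Finset.sum_neg_distrib]
  refine Finset.sum_congr rfl fun j _ => ?_
  rw [riem_anti (XX Ψ i (s, x)) (LL Ψ (s, x)) (LL Ψ (s, x)), b4b_ip_neg]
  ring

end H17Y
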