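import Pool.Agent.Lib.H17Y.B4B
import Pool.Agent.Lib.H17Y.B3D
import Pool.Agent.Lib.H17Y.R0
import Pool.Agent.Lib.H17W.B4C

set_option autoImplicit false

/-!
# H17Y (port of H17W to intervals), chunk B4C (M): the derivative of `X_j`, Raychaudhuri's equation

Auxiliary names start with `b4c_`.
-/

open MeasureTheory Filter Topology Set
open scoped ContDiff

namespace H17Y

open H17W

open H17T (E4 pt pos)
open Pool.Agent.Lib.PenroseSph (E3 S2 sm)

variable {G : E4 → Matrix (Fin 4) (Fin 4) ℝ} {Ψ : ℝ × E3 → E4} {W : Set (ℝ × E3)} {I : Set ℝ}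

/-- Raychaudhuri's equation (`QQ_ds`, `chi_ds`, `ee_eq`). -/
theorem ray (hR : RegI G Ψ W I) {s : ℝ} (hs : s ∈ I) {x : E3} (hx : x ≠ 0) :
    fderiv ℝ (exl G Ψ) (s, x) dS =
      -(∑ i, ∑ j, ∑ a, ∑ b, QQ G Ψ i a (s, x) * QQ G Ψ j b (s, x) * chi G Ψ i j (s, x) * chi G Ψ a b (s, x)) - ee G Ψ (s, x) := by
  have hp : (s, x) ∈ W := hR.mem s hs x hx
  have hQd : ∀ i j, DifferentiableAt ℝ (QQ G Ψ i j) (s, x) := fun i j => (QQ_smooth hR hp i j).differentiableAt (by simp)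
  have hcd : ∀ i j, DifferentiableAt ℝ (chi G Ψ i j) (s, x) := fun i j => (chi_smooth hR hp i j).differentiableAt (by simp)
  have h1 : fderiv ℝ (exl G Ψ) (s, x) dS = ∑ i, ∑ j, (fderiv ℝ (QQ G Ψ i j) (s, x) dS * chi G Ψ i j (s, x) +
      QQ G Ψ i j (s, x) * fderiv ℝ (chi G Ψ i j) (s, x) dS) := by
    have h : HasFDerivAt (exl G Ψ) (∑ i, ∑ j, (QQ G Ψ i j (s, x) • fderiv ℝ (chi G Ψ i j) (s, x) +
        chi G Ψ i j (s, x) • fderiv ℝ (QQ G Ψ i j) (s, x))) (s, x) := by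
      unfold exl
      refine HasFDerivAt.fun_sum fun i _ => HasFDerivAt.fun_sum fun j _ => ?_
      exact (hQd i j).hasFDerivAt.mul (hcd i j).hasFDerivAt
    rw [h.fderiv]
    simp only [sum_apply, add_apply, smul_apply, smul_eq_mul]
    refine Finset.sum_congr rfl fun i _ => Finset.sum_congr rfl fun j _ => ?_
    ring
  rw [h1, ee_eq hR hs hx]
  have h2 := b4c_alg (fun i j => QQ G Ψ i j (s, x)) (fun i j => chi G Ψ i j (s, x))
    (fun i j => ip G (Ph Ψ (s, x)) (riem G (Ph Ψ (s, x)) (LL Ψ (s, x)) (XX Ψ i (s, x)) (LL Ψ (s, x))) (XX Ψ j (s, x)))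
    (fun i j => QQ_symm hR hp i j)
  simp only [QQ_ds hR hs hx, chi_ds hR hs hx]
  rw [sub_neg_eq_add]
  exact h2

/-- `Q = Q P Q`. -/
theorem b4c_Qpos (hR : RegI G Ψ W I) {p : ℝ × E3} (hp : p ∈ W) (ξ : Fin 3 → ℝ) :
    0 ≤ ∑ i, ∑ j, QQ G Ψ i j p * ξ i * ξ j := by
  set η : Fin 3 → ℝ := fun i => ∑ j, QQ G Ψ i j p * ξ j with hη
  have h1 : 0 ≤ ∑ i, ∑ j, PP G Ψ p i j * η i * η j := by
    by_cases h0 : η = 0
    · simp [h0]
    · exact (hR.pos p hp η h0).le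
  have hxη : ∑ i, p.2 i * η i = 0 := by
    have : ∑ i, p.2 i * η i = ∑ j, (∑ i, QQ G Ψ j i p * p.2 i) * ξ j := by
      simp only [hη, Finset.mul_sum, Finset.sum_mul]
      rw [Finset.sum_comm]
      refine Finset.sum_congr rfl fun j _ => Finset.sum_congr rfl fun i _ => ?_
      rw [QQ_symm hR hp i j]
      ring
    rw [this]
    simp [QQ_rad hR hp]
  have hPη : ∀ i, ∑ j, PP G Ψ p i j * η j = ξ i - p.2 i * (∑ m, p.2 m * ξ m) / ‖p.2‖ ^ 2 := by
    intro i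
    have e1 : ∑ j, PP G Ψ p i j * η j = (∑ j, hh G Ψ i j p * η j) + p.2 i / ‖p.2‖ ^ 4 * ∑ j, p.2 j * η j := by
      rw [Finset.mul_sum, ← Finset.sum_add_distrib]
      refine Finset.sum_congr rfl fun j _ => ?_
      simp only [PP, Matrix.of_apply]
      ring
    have e2 : ∑ j, hh G Ψ i j p * η j = ∑ m, (∑ j, hh G Ψ i j p * QQ G Ψ j m p) * ξ m := by
      simp only [hη, Finset.mul_sum, Finset.sum_mul]
      rw [Finset.sum_comm]
      refine Finset.sum_congr rfl fun j _ => Finset.sum_congr rfl fun m _ => ?_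
      ring
    rw [e1, hxη, e2]
    simp only [hQ hR hp]
    rw [mul_zero, add_zero]
    have e3 : ∀ m, ((if i = m then (1 : ℝ) else 0) - p.2 i * p.2 m / ‖p.2‖ ^ 2) * ξ m =
        (if i = m then ξ m else 0) - p.2 i * (p.2 m * ξ m) / ‖p.2‖ ^ 2 := by
      intro m
      split_ifs <;> ring
    rw [Finset.sum_congr rfl fun m _ => e3 m, Finset.sum_sub_distrib, Finset.sum_ite_eq, ← Finset.sum_div, ← Finset.mul_sum]
    simp
  have h2 : ∑ i, ∑ j, PP G Ψ p i j * η i * η j = ∑ i, ∑ j, QQ G Ψ i j p * ξ i * ξ j := by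
    have e1 : ∀ i, ∑ j, PP G Ψ p i j * η i * η j = η i * (ξ i - p.2 i * (∑ m, p.2 m * ξ m) / ‖p.2‖ ^ 2) := by
      intro i
      rw [← hPη i, Finset.mul_sum]
      refine Finset.sum_congr rfl fun j _ => ?_
      ring
    rw [Finset.sum_congr rfl fun i _ => e1 i]
    have e2 : ∑ i, η i * (ξ i - p.2 i * (∑ m, p.2 m * ξ m) / ‖p.2‖ ^ 2) =
        (∑ i, η i * ξ i) - (∑ i, p.2 i * η i) * ((∑ m, p.2 m * ξ m) / ‖p.2‖ ^ 2) := by
      rw [Finset.sum_mul, ← Finset.sum_sub_distrib]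
      refine Finset.sum_congr rfl fun i _ => ?_
      ring
    rw [e2, hxη, zero_mul, sub_zero]
    refine Finset.sum_congr rfl fun i _ => ?_
    simp only [hη, Finset.sum_mul]
    refine Finset.sum_congr rfl fun j _ => ?_
    ring
  rw [h2] at h1
  exact h1

/-- Cauchy-Schwarz for the trace of a symmetric form on a plane: `(Q^ij χ_ij)² ≤ 2 |χ|²`. `Q` is positive semidefinite of rank two:
diagonalise, or: for all real `t` the form `χ - t h` has nonnegative square `|χ - t h|² = |χ|² - 2 t exL + 2 t² ≥ 0` (`|A|² ≥ 0` for a symmetric `A`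
with `A x = 0`: with `Q = ∑_c v_c v_cᵀ` it is `∑ (A(v_c, v_d))²`), take `t = exL / 2`. -/
theorem chi_cs (hR : RegI G Ψ W I) {s : ℝ} (hs : s ∈ I) {x : E3} (hx : x ≠ 0) :
    exl G Ψ (s, x) ^ 2 / 2 ≤
      ∑ i, ∑ j, ∑ a, ∑ b, QQ G Ψ i a (s, x) * QQ G Ψ j b (s, x) * chi G Ψ i j (s, x) * chi G Ψ a b (s, x) := by
  have hp : (s, x) ∈ W := hR.mem s hs x hx
  have hN : ‖x‖ ^ 2 ≠ 0 := pow_ne_zero 2 (norm_ne_zero_iff.mpr hx)
  exact b4c_cs (fun i j => QQ G Ψ i j (s, x)) (fun i j => hh G Ψ i j (s, x)) (fun i j => chi G Ψ i j (s, x)) (fun i => x i)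
    (‖x‖ ^ 2) hN (EuclideanSpace.real_norm_sq_eq x).symm (fun i j => QQ_symm hR hp i j) (b4c_Qpos hR hp) (fun i => QQ_rad hR hp i)
    (fun i j => hQ hR hp i j)

end H17Y
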