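import Pool.Agent.Lib.H17Y.B4A
import Pool.Agent.Lib.H17Y.B3C
import Pool.Agent.Lib.H17W.A5
import Pool.Agent.Lib.H17Y.R0

set_option autoImplicit false

/-!
# H17Y (port of H17W to intervals), chunk B6C (M): Gauss' equation, the equation for the expansion `θ`

Auxiliary names start with `b6c_`.
-/

open MeasureTheory Filter Topology Set
open scoped ContDiff

namespace H17Y

open H17W

open H17T (E4 pt pos)
open Pool.Agent.Lib.PenroseSph (E3 S2 sm)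

variable {G : E4 → Matrix (Fin 4) (Fin 4) ℝ} {Ψ : ℝ × E3 → E4} {W : Set (ℝ × E3)} {I : Set ℝ}

theorem b6c_PhEv (hR : RegI G Ψ W I) {p : ℝ × E3} (hp : p ∈ W) : ∀ᶠ q in 𝓝 p, ContDiffAt ℝ ∞ (Ph Ψ) q :=
  Filter.eventually_of_mem (hR.isOpen.mem_nhds hp) hR.smooth

theorem b6c_XEv (hR : RegI G Ψ W I) {p : ℝ × E3} (hp : p ∈ W) (k : Fin 3) :
    ∀ᶠ q in 𝓝 p, ∀ a, ContDiffAt ℝ ∞ (fun z => XX Ψ k z a) q :=
  Filter.eventually_of_mem (hR.isOpen.mem_nhds hp) fun _ hq a => XX_smooth hR hq k a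

theorem b6c_kEv (hR : RegI G Ψ W I) {p : ℝ × E3} (hp : p ∈ W) :
    ∀ᶠ q in 𝓝 p, ∀ a, ContDiffAt ℝ ∞ (fun z => kk G Ψ z a) q :=
  Filter.eventually_of_mem (hR.isOpen.mem_nhds hp) fun _ hq a => kk_smooth hR hq a

theorem b6c_covEv (hR : RegI G Ψ W I) {p : ℝ × E3} (hp : p ∈ W) (v : ℝ × E3) :
    ∀ᶠ q in 𝓝 p, ∀ a, ContDiffAt ℝ ∞ (fun z => cov G (Ph Ψ) (kk G Ψ) z v a) q :=
  cov_smooth (hR.met p hp) (b6c_PhEv hR hp) (b6c_kEv hR hp) v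

/-- `<Z, X_j>` for `Z = ∑ ζ^a X_a`. -/
theorem b6c_zX (hR : RegI G Ψ W I) {s : ℝ} (hs : s ∈ I) {x : E3} (hx : x ≠ 0) (j : Fin 3) :
    ip G (Ph Ψ (s, x)) ((-2 : ℝ) • ∑ a, zetU G Ψ a (s, x) • XX Ψ a (s, x)) (XX Ψ j (s, x)) = -2 * zet G Ψ j (s, x) := by
  have hp : (s, x) ∈ W := hR.mem s hs x hx
  have h1 := hQ_apply hR hp (v := fun i => zet G Ψ i (s, x)) (by simpa using zet_rad hR hs hx) j
  rw [ip_smul_left]
  congr 1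
  rw [← h1]
  have hh' : ∀ a, ip G (Ph Ψ (s, x)) (XX Ψ a (s, x)) (XX Ψ j (s, x)) = hh G Ψ a j (s, x) := fun _ => rfl
  simp only [Fin.sum_univ_three, ip_add_left, ip_smul_left, hh', zetU]

/-- `<Z, D_i X_j>` for `Z = ∑ ζ^a X_a`. -/
theorem b6c_zDX (hR : RegI G Ψ W I) {s : ℝ} (hs : s ∈ I) {x : E3} (hx : x ≠ 0) (i j : Fin 3) :
    ip G (Ph Ψ (s, x)) ((-2 : ℝ) • ∑ a, zetU G Ψ a (s, x) • XX Ψ a (s, x)) (cov G (Ph Ψ) (XX Ψ j) (s, x) (dX i)) =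
      -2 * ∑ m, cc G Ψ m i j (s, x) * zet G Ψ m (s, x) := by
  have hp : (s, x) ∈ W := hR.mem s hs x hx
  have hM := hR.met _ hp
  have h1 := cc_contract hR hs hx (v := fun i => zet G Ψ i (s, x)) (by simpa using zet_rad hR hs hx) i j
  rw [ip_smul_left]
  congr 1
  rw [← h1]
  have hh' : ∀ a, ip G (Ph Ψ (s, x)) (XX Ψ a (s, x)) (cov G (Ph Ψ) (XX Ψ j) (s, x) (dX i)) =
      ∑ m, cc G Ψ m i j (s, x) * hh G Ψ m a (s, x) := by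
    intro a
    rw [ip_symm hM]
    exact ip_DXX hR hs hx i j a
  have hsy : ∀ a b, hh G Ψ a b (s, x) = hh G Ψ b a (s, x) := hh_symm hR hp
  simp only [Fin.sum_univ_three, ip_add_left, ip_smul_left, hh', zetU]
  rw [hsy 1 0, hsy 2 0, hsy 2 1]
  ring

/-- `D_s D_i k = D_i D_s k + R(L,X_i)k`; `<D_i D_s k, X_j> = ∂_i <D_s k, X_j> - <D_s k, D_i X_j>` with `<D_s k, X_j> = - 2 ζ_j`
(for all `s > 0`) and `<D_s k, D_i X_j> = - 2 ∑ cc^m_ij ζ_m` (`Dsk`, `DXX`, `cc_contract`, `zet_rad`); `<D_i k, D_s X_j> = <D_i k, D_j L>`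
(`DsX`, `ip_kL`). -/
theorem kap_ds (hR : RegI G Ψ W I) {s : ℝ} (hs : s ∈ interior I) {x : E3} (hx : x ≠ 0) (i j : Fin 3) :
    fderiv ℝ (kap G Ψ i j) (s, x) dS =
      ip G (Ph Ψ (s, x)) (riem G (Ph Ψ (s, x)) (LL Ψ (s, x)) (XX Ψ i (s, x)) (kk G Ψ (s, x))) (XX Ψ j (s, x)) -
        2 * (fderiv ℝ (zet G Ψ j) (s, x) (dX i) - ∑ m, cc G Ψ m i j (s, x) * zet G Ψ m (s, x)) +
        (∑ a, ∑ b, QQ G Ψ a b (s, x) * kap G Ψ i a (s, x) * chi G Ψ j b (s, x)) - 2 * zet G Ψ i (s, x) * zet G Ψ j (s, x) := by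
  have hp : (s, x) ∈ W := hR.mem s (interior_subset hs) x hx
  have hM := hR.met _ hp
  have hPh : DifferentiableAt ℝ (Ph Ψ) (s, x) := (hR.smooth _ hp).differentiableAt (by simp)
  have hX : ∀ l a, DifferentiableAt ℝ (fun y => XX Ψ l y a) (s, x) := fun l a =>
    (XX_smooth hR hp l a).differentiableAt (by simp)
  have hC : ∀ v, ∀ a, DifferentiableAt ℝ (fun y => cov G (Ph Ψ) (kk G Ψ) y v a) (s, x) := fun v a =>
    ((b6c_covEv hR hp v).self_of_nhds a).differentiableAt (by simp)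
  -- derivative of `κ`
  have e1 : fderiv ℝ (kap G Ψ i j) (s, x) dS =
      ip G (Ph Ψ (s, x)) (cov G (Ph Ψ) (fun q => cov G (Ph Ψ) (kk G Ψ) q (dX i)) (s, x) dS) (XX Ψ j (s, x)) +
      ip G (Ph Ψ (s, x)) (cov G (Ph Ψ) (kk G Ψ) (s, x) (dX i)) (cov G (Ph Ψ) (XX Ψ j) (s, x) dS) :=
    ip_cov (G := G) (Φ := Ph Ψ) (A := fun q => cov G (Ph Ψ) (kk G Ψ) q (dX i)) (B := XX Ψ j) hM hPh (hC (dX i)) (hX j) dS
  -- commutation
  have h1 := cov_comm (G := G) (Φ := Ph Ψ) (A := kk G Ψ) hM (b6c_PhEv hR hp) (b6c_kEv hR hp) dS (dX i)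
  have h2 : cov G (Ph Ψ) (fun q => cov G (Ph Ψ) (kk G Ψ) q (dX i)) (s, x) dS =
      riem G (Ph Ψ (s, x)) (LL Ψ (s, x)) (XX Ψ i (s, x)) (kk G Ψ (s, x)) +
      cov G (Ph Ψ) (fun q => cov G (Ph Ψ) (kk G Ψ) q dS) (s, x) (dX i) := by
    rw [sub_eq_iff_eq_add] at h1
    exact h1
  -- derivative of `<D_s k, X_j>`
  have e2 := ip_cov (G := G) (Φ := Ph Ψ) (A := fun q => cov G (Ph Ψ) (kk G Ψ) q dS) (B := XX Ψ j) hM hPh (hC dS) (hX j) (dX i)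
  have e3 : fderiv ℝ (fun q => ip G (Ph Ψ q) (cov G (Ph Ψ) (kk G Ψ) q dS) (XX Ψ j q)) (s, x) =
      fderiv ℝ (fun q => -2 * zet G Ψ j q) (s, x) := by
    refine fd_open (F := fun q => ip G (Ph Ψ q) (cov G (Ph Ψ) (kk G Ψ) q dS) (XX Ψ j q)) (K := fun q => -2 * zet G Ψ j q) ?_ hs hx
    intro t ht y hy
    show ip G (Ph Ψ (t, y)) (cov G (Ph Ψ) (kk G Ψ) (t, y) dS) (XX Ψ j (t, y)) = -2 * zet G Ψ j (t, y)
    rw [Dsk hR ht hy]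
    exact b6c_zX hR (interior_subset ht) hy j
  have e4 : fderiv ℝ (fun q => -2 * zet G Ψ j q) (s, x) (dX i) = -2 * fderiv ℝ (zet G Ψ j) (s, x) (dX i) := by
    have hz : DifferentiableAt ℝ (zet G Ψ j) (s, x) := (zet_smooth hR hp j).differentiableAt (by simp)
    have h5 : HasFDerivAt (fun q => -2 * zet G Ψ j q) ((-2 : ℝ) • fderiv ℝ (zet G Ψ j) (s, x)) (s, x) := hz.hasFDerivAt.const_mul (-2)
    rw [h5.fderiv]
    rfl
  have e5 : ip G (Ph Ψ (s, x)) (cov G (Ph Ψ) (fun q => cov G (Ph Ψ) (kk G Ψ) q dS) (s, x) (dX i)) (XX Ψ j (s, x)) =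
      -2 * fderiv ℝ (zet G Ψ j) (s, x) (dX i) + 2 * ∑ m, cc G Ψ m i j (s, x) * zet G Ψ m (s, x) := by
    rw [e3, e4, Dsk hR hs hx, b6c_zDX hR (interior_subset hs) hx i j] at e2
    linarith
  rw [e1, h2, ip_add_left, e5, DsX hR hp, ip_kL hR (interior_subset hs) hx i j]
  ring

end H17Y
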