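import Pool.Agent.Lib.H17Y.E0

set_option autoImplicit false

/-!
# H17Y, chunk C1 (M): positions of nearly round cuts

Port of `H17W.E1A` (there `Φ s = Ψ`, `τ s = s`, `r s = s`).
Auxiliary names start with `c1_`.
-/

open MeasureTheory Filter Topology Set Asymptotics
open scoped ContDiff

namespace H17Y

open H17W
open H17T (E4 pt pos tang slice second DEC)
open H17B (eta dl)
open Pool.Agent.Lib.PenroseSph (E3 Tens S2 sm pd)

variable {G : E4 → Matrix (Fin 4) (Fin 4) ℝ} {e m : ℝ} {Φ : ℝ → ℝ × E3 → E4} {τ r : ℝ → ℝ} {W : ℝ → Set (ℝ × E3)} {I : ℝ → Set ℝ}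

/-- Eventually everything is defined. -/
theorem c_ev (h : Cuts G e Φ τ r W I) : ∀ᶠ p : ℝ × E3 in Inf, ‖p.2‖ = 1 ∧ 1 ≤ p.1 ∧ p.1 ≤ r p.1 ∧
    RegI G (Φ p.1) (W p.1) (I p.1) ∧ τ p.1 ∈ I p.1 ∧ (τ p.1, p.2) ∈ W p.1 := by
  obtain ⟨C, R, hC⟩ := h.far
  refine inf_iff.2 ⟨max R 1, fun s hs n => ?_⟩
  obtain ⟨h1, h2, h3, _⟩ := hC s ((le_max_left _ _).trans hs)
  exact ⟨by simp, (le_max_right _ _).trans hs, h3, h1, h2, h1.mem _ h2 _ e2b_sph⟩

theorem c_r (h : Cuts G e Φ τ r W I) : Os 1 fun p => r p.1 := by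
  obtain ⟨C, R, hC⟩ := h.far
  refine Os.of_bound C R fun s hs hs0 n => ?_
  obtain ⟨_, _, h3, h4, _⟩ := hC s hs
  rw [zpow_one, abs_of_nonneg (hs0.le.trans h3)]
  exact h4

theorem c_rinv (h : Cuts G e Φ τ r W I) : Os (-1) fun p => 1 / r p.1 := by
  obtain ⟨C, R, hC⟩ := h.far
  refine Os.of_bound 1 R fun s hs hs0 n => ?_
  obtain ⟨_, _, h3, _⟩ := hC s hs
  have hr : 0 < r s := hs0.trans_le h3
  rw [zpow_neg_one, one_mul, abs_of_pos (by positivity), one_div]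
  exact inv_anti₀ hs0 h3

theorem c1_dev {Ψ : ℝ × E3 → E4} {ρ t C : ℝ} {n : S2} (h : ∀ i : Fin 3, |devr Ψ ρ t (Fin.succ i) n| ≤ C) (i : Fin 3) :
    |pos (Ψ (t, (n : E3))) i - ρ * (n : E3) i| ≤ C := by
  have h1 := h i
  unfold devr at h1
  have hn : ‖(n : E3)‖ = 1 := by simp
  rw [hn, inv_one, one_smul, Fin.cases_succ, div_one] at h1
  rwa [e1a_pos]

theorem c_pos (h : Cuts G e Φ τ r W I) (i : Fin 3) :
    Os 0 fun p => pos (Ph (Φ p.1) (τ p.1, p.2)) i - r p.1 * p.2 i := by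
  obtain ⟨C, R, hC⟩ := h.far
  refine Os.of_bound C R fun s hs _ n => ?_
  obtain ⟨_, _, _, _, h5, _⟩ := hC s hs
  rw [ph_sph, zpow_zero, mul_one]
  exact c1_dev (h5 n).1 i

theorem c_rho (h : Cuts G e Φ τ r W I) : Os 0 fun p => ‖pos (Ph (Φ p.1) (τ p.1, p.2))‖ - r p.1 := by
  obtain ⟨C, R, hC⟩ := h.far
  refine Os.of_bound (3 * C) R fun s hs hs0 n => ?_
  obtain ⟨_, _, h3, _, h5, _⟩ := hC s hs
  rw [ph_sph, zpow_zero, mul_one]
  have hr : 0 < r s := hs0.trans_le h3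
  have hn : ‖(n : E3)‖ = 1 := by simp
  have h1 : ‖r s • (n : E3)‖ = r s := by rw [norm_smul, hn, mul_one, Real.norm_of_nonneg hr.le]
  have h2 := abs_norm_sub_norm_le (pos (Φ s (τ s, (n : E3)))) (r s • (n : E3))
  rw [h1] at h2
  refine h2.trans ((e1a_norm _).trans ?_)
  have h3 : ∀ i, |(pos (Φ s (τ s, (n : E3))) - r s • (n : E3)) i| ≤ C := by
    intro i
    have := c1_dev (h5 n).1 i
    simpa using this
  have a0 := h3 0
  have a1 := h3 1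
  have a2 := h3 2
  linarith

end H17Y
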