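import Pool.Agent.Lib.H17Y.C1

set_option autoImplicit false

/-!
# H17Y, chunk C2 (M): tangent vectors of nearly round cuts

Port of `H17W.E2B` (with `p.1` replaced by `r p.1` and `dev Ψ s` by `devr (Φ s) (r s) (τ s)`) and of `e1_met0`, `e1_minv` of `H17W.E1B`.
Auxiliary names start with `c2_`.
-/

open MeasureTheory Filter Topology Set Asymptotics
open scoped ContDiff

namespace H17Y

open H17W
open H17T (E4 pt pos tang slice second DEC)
open H17B (eta dl)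
open Pool.Agent.Lib.PenroseSph (E3 Tens S2 sm pd)

variable {G : E4 → Matrix (Fin 4) (Fin 4) ℝ} {e m : ℝ} {Φ : ℝ → ℝ × E3 → E4} {τ r : ℝ → ℝ} {W : ℝ → Set (ℝ × E3)} {I : ℝ → Set ℝ}

theorem c2_diff {Ψ : ℝ × E3 → E4} {W : Set (ℝ × E3)} {I : Set ℝ} (h : RegI G Ψ W I) {s : ℝ} (hs : s ∈ I) {x : E3} (hx : x ≠ 0)
    (a : Fin 4) : DifferentiableAt ℝ (fun p => Ph Ψ p a) (s, x) := by
  have h1 := (h.smooth (s, x) (h.mem s hs x hx)).differentiableAt (by simp)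
  exact (differentiableAt_euclidean.1 h1) a

theorem c_xdev {Ψ : ℝ × E3 → E4} {W : Set (ℝ × E3)} {I : Set ℝ} (hR : RegI G Ψ W I) {s : ℝ} (hs : s ∈ I) {x : E3} (hx : x ≠ 0)
    (ρ : ℝ) (i : Fin 3) : XX Ψ i (s, x) 0 = pd i (devr Ψ ρ s 0) x ∧
    ∀ l : Fin 3, XX Ψ i (s, x) l.succ = pd i (devr Ψ ρ s l.succ) x + ρ * pd i (fun y : E3 => y l / ‖y‖) x := by
  have hd := c2_diff hR hs hx
  refine ⟨?_, fun l => ?_⟩
  · show fderiv ℝ (fun y => Ph Ψ y 0) (s, x) (dX i) = _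
    rw [eq_pd (hd 0) i]
    unfold pd
    congr 1
    have e : (fun y : E3 => Ph Ψ (s, y) 0) = devr Ψ ρ s 0 := by
      funext y
      unfold devr Ph
      simp
    rw [e]
  · show fderiv ℝ (fun y => Ph Ψ y l.succ) (s, x) (dX i) = _
    rw [eq_pd (hd l.succ) i]
    have h1 : DifferentiableAt ℝ (fun y : E3 => Ph Ψ (s, y) l.succ) x := e2b_slice (hd l.succ)
    have h2 : DifferentiableAt ℝ (fun y : E3 => ρ * (y l / ‖y‖)) x := (e2b_ray hx l).const_mul ρ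
    have e : devr Ψ ρ s l.succ = fun y : E3 => Ph Ψ (s, y) l.succ - ρ * (y l / ‖y‖) := by
      funext y
      unfold devr Ph
      simp
    rw [e]
    unfold pd
    rw [fderiv_fun_sub h1 h2, fderiv_const_mul (e2b_ray hx l)]
    simp

theorem c_xx0 (h : Cuts G e Φ τ r W I) (i : Fin 3) : Os 0 fun p => XX (Φ p.1) i (τ p.1, p.2) 0 := by
  obtain ⟨C, R, hC⟩ := h.far
  refine Os.of_bound C R fun s hs hs0 n => ?_
  obtain ⟨h1, h2, _, _, h5, _⟩ := hC s hs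
  show |XX (Φ s) i (τ s, (n : E3)) 0| ≤ _
  rw [(c_xdev h1 h2 e2b_sph (r s) i).1, zpow_zero, mul_one]
  exact (h5 n).2.1 0 i

theorem c_xx (h : Cuts G e Φ τ r W I) (i l : Fin 3) :
    Os 0 fun p => XX (Φ p.1) i (τ p.1, p.2) l.succ - r p.1 * ((if i = l then 1 else 0) - p.2 i * p.2 l) := by
  obtain ⟨C, R, hC⟩ := h.far
  refine Os.of_bound C R fun s hs hs0 n => ?_
  obtain ⟨h1, h2, _, _, h5, _⟩ := hC s hs
  show |XX (Φ s) i (τ s, (n : E3)) l.succ - r s * ((if i = l then 1 else 0) - (n : E3) i * (n : E3) l)| ≤ _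
  have hn : ‖(n : E3)‖ = 1 := by simp
  rw [(c_xdev h1 h2 e2b_sph (r s) i).2 l, e2_ray e2b_sph, hn, zpow_zero, mul_one]
  have e : pd i (devr (Φ s) (r s) (τ s) l.succ) (n : E3) + r s * (((if i = l then 1 else 0) - (n : E3) i * (n : E3) l / 1 ^ 2) / 1) -
      r s * ((if i = l then 1 else 0) - (n : E3) i * (n : E3) l) = pd i (devr (Φ s) (r s) (τ s) l.succ) n := by
    ring
  rw [e]
  exact (h5 n).2.1 l.succ i

theorem c2_proj (h : Cuts G e Φ τ r W I) (i l : Fin 3) :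
    Os 1 fun p : ℝ × E3 => r p.1 * ((if i = l then 1 else 0) - p.2 i * p.2 l) := by
  have h1 : Os 0 fun p : ℝ × E3 => ((if i = l then 1 else 0 : ℝ) - p.2 i * p.2 l) :=
    (Os.const _).sub ((Os.coord i).mul (Os.coord l) (by norm_num))
  exact (c_r h).mul h1 (by norm_num)

theorem c_xx1 (h : Cuts G e Φ τ r W I) (i : Fin 3) (a : Fin 4) : Os 1 fun p => XX (Φ p.1) i (τ p.1, p.2) a := by
  refine Fin.cases ?_ (fun l => ?_) a
  · exact (c_xx0 h i).mono (by norm_num)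
  · have h1 := ((c_xx h i l).mono (show (0 : ℤ) ≤ 1 by norm_num)).add (c2_proj h i l)
    refine h1.congr (Eventually.of_forall fun p => ?_)
    ring

theorem c2_gen {Ψ : ℝ × E3 → E4} {W : Set (ℝ × E3)} {I : Set ℝ} (h : RegI G Ψ W I) {s : ℝ} (hs : s ∈ I) (n : S2) (a : Fin 4) :
    LL Ψ (s, (n : E3)) a = gen Ψ s n a := by
  have h1 := eq_ds (c2_diff h hs (e2b_sph (n := n)) a)
  show fderiv ℝ (fun y => Ph Ψ y a) (s, (n : E3)) dS = deriv (fun t : ℝ => Ψ (t, (n : E3)) a) s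
  rw [← h1.deriv]
  congr 1
  funext t
  rw [ph_sph]

theorem c2_le {C s ρ : ℝ} (hs : 0 < s) (h : s ≤ ρ) : C / ρ ≤ |C| * s ^ (-1 : ℤ) := by
  rw [zpow_neg_one, ← div_eq_mul_inv]
  have h1 : C / ρ ≤ |C| / ρ := div_le_div_of_nonneg_right (le_abs_self C) (hs.le.trans h)
  exact h1.trans (div_le_div_of_nonneg_left (abs_nonneg C) hs h)

theorem c_ll0 (h : Cuts G e Φ τ r W I) : Os (-1) fun p => LL (Φ p.1) (τ p.1, p.2) 0 - e := by
  obtain ⟨C, R, hC⟩ := h.far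
  refine Os.of_bound |C| R fun s hs hs0 n => ?_
  obtain ⟨h1, h2, h3, _, h5, _⟩ := hC s hs
  show |LL (Φ s) (τ s, (n : E3)) 0 - e| ≤ _
  rw [c2_gen h1 h2 n]
  exact (h5 n).2.2.2.1.trans (c2_le hs0 h3)

theorem c_ll (h : Cuts G e Φ τ r W I) (i : Fin 3) : Os (-1) fun p => LL (Φ p.1) (τ p.1, p.2) i.succ - p.2 i := by
  obtain ⟨C, R, hC⟩ := h.far
  refine Os.of_bound |C| R fun s hs hs0 n => ?_
  obtain ⟨h1, h2, h3, _, h5, _⟩ := hC s hs
  show |LL (Φ s) (τ s, (n : E3)) i.succ - (n : E3) i| ≤ _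
  rw [c2_gen h1 h2 n]
  exact ((h5 n).2.2.2.2 i).trans (c2_le hs0 h3)

theorem c_llb (h : Cuts G e Φ τ r W I) (a : Fin 4) : Os 0 fun p => LL (Φ p.1) (τ p.1, p.2) a := by
  refine Fin.cases ?_ (fun l => ?_) a
  · have h1 := ((c_ll0 h).mono (show (-1 : ℤ) ≤ 0 by norm_num)).add (Os.const e)
    refine h1.congr (Eventually.of_forall fun p => ?_)
    ring
  · have h1 := ((c_ll h l).mono (show (-1 : ℤ) ≤ 0 by norm_num)).add (Os.coord l)
    refine h1.congr (Eventually.of_forall fun p => ?_)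
    ring

theorem c_met1 (h : Cuts G e Φ τ r W I) (a b : Fin 4) : Os (-1) fun p => G (Ph (Φ p.1) (τ p.1, p.2)) a b - eta a b := by
  obtain ⟨C, R, hC⟩ := h.far
  refine Os.of_bound C R fun s hs hs0 n => ?_
  obtain ⟨_, _, _, _, _, h6⟩ := hC s hs
  rw [ph_sph, zpow_neg_one, ← div_eq_mul_inv]
  exact h6 n a b

theorem c_met0 (h : Cuts G e Φ τ r W I) (a b : Fin 4) : Os 0 fun p => G (Ph (Φ p.1) (τ p.1, p.2)) a b := by
  have h1 := (c_met1 h a b).mono (show (-1 : ℤ) ≤ 0 by norm_num)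
  refine (h1.add (Os.const (eta a b))).congr (Eventually.of_forall fun p => ?_)
  ring

theorem c_minv (h : Cuts G e Φ τ r W I) (a b : Fin 4) : Os (-1) fun p => (G (Ph (Φ p.1) (τ p.1, p.2)))⁻¹ a b - eta a b := by
  have h1 := inv_Os (A := fun p => G (Ph (Φ p.1) (τ p.1, p.2))) H17B.b5_eta_det (fun i j => c_met1 h i j) a b
  rw [H17B.b5_eta_inv] at h1
  exact h1

end H17Y
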