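import Pool.Agent.Lib.H17Y.C2
import Pool.Agent.Lib.H17W.E3A

set_option autoImplicit false

/-!
# H17Y, chunk C3 (M): the induced metric of nearly round cuts

Port of `H17W.E3A` (`e3_hh`, `e3a_prod`, `e3a_eta`): `hh = sum G_ab X_i^a X_j^b`, `G = eta + O(1/s)`, `X_i^0 = O(1)`, `X_i^l = r (δ_il - n_i n_l) + O(1)`,
`sum_l (δ_il - n_i n_l)(δ_jl - n_j n_l) = δ_ij - n_i n_j`.
Auxiliary names start with `c3_`.
-/

open MeasureTheory Filter Topology Set Asymptotics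
open scoped ContDiff

namespace H17Y

open H17W
open H17T (E4 pt pos tang slice second DEC)
open H17B (eta dl)
open Pool.Agent.Lib.PenroseSph (E3 Tens S2 sm pd)

variable {G : E4 → Matrix (Fin 4) (Fin 4) ℝ} {e m : ℝ} {Φ : ℝ → ℝ × E3 → E4} {τ r : ℝ → ℝ} {W : ℝ → Set (ℝ × E3)} {I : ℝ → Set ℝ}

theorem c_hh (h : Cuts G e Φ τ r W I) (i j : Fin 3) :
    Os 1 fun p => hh G (Φ p.1) i j (τ p.1, p.2) - r p.1 ^ 2 * ((if i = j then 1 else 0) - p.2 i * p.2 j) := by
  have hA : Os 1 fun p => ∑ a, ∑ b, (G (Ph (Φ p.1) (τ p.1, p.2)) a b - eta a b) * XX (Φ p.1) i (τ p.1, p.2) a *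
      XX (Φ p.1) j (τ p.1, p.2) b := by
    refine Os.sum _ fun a _ => Os.sum _ fun b _ => ?_
    exact ((c_met1 h a b).mul (c_xx1 h i a) (j := 0) (by norm_num)).mul (c_xx1 h j b) (by norm_num)
  have hB : Os 1 fun p => XX (Φ p.1) i (τ p.1, p.2) 0 * XX (Φ p.1) j (τ p.1, p.2) 0 :=
    ((c_xx0 h i).mul (c_xx0 h j) (j := 0) (by norm_num)).mono (by norm_num)
  have hP : ∀ k l : Fin 3, Os 1 fun p => r p.1 * ((if k = l then 1 else 0) - p.2 k * p.2 l) := fun k l =>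
    (c_r h).mul (e3a_pl k l) (by norm_num)
  have hC : ∀ l : Fin 3, Os 1 fun p => XX (Φ p.1) i (τ p.1, p.2) l.succ * XX (Φ p.1) j (τ p.1, p.2) l.succ -
      (r p.1 * ((if i = l then 1 else 0) - p.2 i * p.2 l)) * (r p.1 * ((if j = l then 1 else 0) - p.2 j * p.2 l)) := fun l =>
    e3a_prod (c_xx h i l) (c_xx1 h j l.succ) (hP i l) (c_xx h j l)
  have hS := (hA.sub hB).add (Os.sum Finset.univ fun l _ => hC l)
  refine hS.congr ?_
  filter_upwards [inf_norm] with p hp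
  have hn := e3a_sq hp
  have e1 : hh G (Φ p.1) i j (τ p.1, p.2) = ∑ a, ∑ b, (G (Ph (Φ p.1) (τ p.1, p.2)) a b - eta a b) *
      XX (Φ p.1) i (τ p.1, p.2) a * XX (Φ p.1) j (τ p.1, p.2) b -
      XX (Φ p.1) i (τ p.1, p.2) 0 * XX (Φ p.1) j (τ p.1, p.2) 0 +
      ∑ l : Fin 3, XX (Φ p.1) i (τ p.1, p.2) l.succ * XX (Φ p.1) j (τ p.1, p.2) l.succ := by
    unfold hh ipp ip
    have : ∀ a b, G (Ph (Φ p.1) (τ p.1, p.2)) a b * XX (Φ p.1) i (τ p.1, p.2) a * XX (Φ p.1) j (τ p.1, p.2) b =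
        (G (Ph (Φ p.1) (τ p.1, p.2)) a b - eta a b) * XX (Φ p.1) i (τ p.1, p.2) a * XX (Φ p.1) j (τ p.1, p.2) b +
        eta a b * XX (Φ p.1) i (τ p.1, p.2) a * XX (Φ p.1) j (τ p.1, p.2) b := by
      intro a b
      ring
    simp only [this, Finset.sum_add_distrib]
    rw [e3a_eta]
    ring
  rw [e1]
  rw [Finset.sum_sub_distrib]
  have e3 : ∑ l : Fin 3, (r p.1 * ((if i = l then 1 else 0) - p.2 i * p.2 l)) * (r p.1 * ((if j = l then 1 else 0) - p.2 j * p.2 l)) =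
      r p.1 ^ 2 * ((if i = j then 1 else 0) - p.2 i * p.2 j) := by
    have e4 : ∑ l : Fin 3, ((if i = l then (1 : ℝ) else 0) - p.2 i * p.2 l) * ((if j = l then 1 else 0) - p.2 j * p.2 l) =
        (if i = j then 1 else 0) - p.2 i * p.2 j := by
      have e5 : ∀ l : Fin 3, ((if i = l then (1 : ℝ) else 0) - p.2 i * p.2 l) * ((if j = l then 1 else 0) - p.2 j * p.2 l) =
          (if i = l then (if j = l then (1 : ℝ) else 0) else 0) - (if i = l then p.2 j * p.2 l else 0) -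
          (if j = l then p.2 i * p.2 l else 0) + p.2 i * p.2 j * p.2 l ^ 2 := by
        intro l
        split_ifs <;> ring
      simp only [e5, Finset.sum_add_distrib, Finset.sum_sub_distrib, Finset.sum_ite_eq, Finset.mem_univ, if_true]
      rw [← Finset.mul_sum, Fin.sum_univ_three, hn]
      by_cases hij : i = j
      · subst hij
        simp
      · rw [if_neg hij, if_neg (Ne.symm hij)]
        ring
    rw [← e4, Finset.mul_sum]
    refine Finset.sum_congr rfl fun l _ => ?_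
    ring
  rw [e3]
  ring

end H17Y
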