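import Pool.Agent.Lib.H17Y.C3

set_option autoImplicit false

/-!
# H17Y, chunk C4 (M): inverse metric and area density of nearly round cuts

Port of `H17W.E3B`. With `M_ij = PP_ij / r² + (1 - 1/r²) n_i n_j` (`e3_mat` with `s := r p.1`): `M = 1 + O(1/s)` (`c_hh`), `det PP = r⁴ det M`, `QQ_ij = (M⁻¹_ij - n_i n_j) / r²`
(`PP_rad`, `b2a_PPsymm`, `PP_det` of `H17Y.B2A`); `inv_Os`, `det_Os` with `A0 = 1`. So `QQ_ij - (δ_ij - n_i n_j)/r² = (M⁻¹_ij - δ_ij) / r² = O(s⁻³)`; `dA = r² sqrt (det M)` (`e3b_sqrt`).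
`c_w`: `|sqrt a - r| ≤ |a - r²| / r` for `a ≥ 0`, `r > 0`.
Auxiliary names start with `c4_`.
-/

open MeasureTheory Filter Topology Set Asymptotics
open scoped ContDiff

namespace H17Y

open H17W
open H17T (E4 pt pos tang slice second DEC)
open H17B (eta dl)
open Pool.Agent.Lib.PenroseSph (E3 Tens S2 sm pd)

variable {G : E4 → Matrix (Fin 4) (Fin 4) ℝ} {e m : ℝ} {Φ : ℝ → ℝ × E3 → E4} {τ r : ℝ → ℝ} {W : ℝ → Set (ℝ × E3)} {I : ℝ → Set ℝ}

/-- The matrix `M`. -/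
noncomputable def c4M (G : E4 → Matrix (Fin 4) (Fin 4) ℝ) (Φ : ℝ → ℝ × E3 → E4) (τ r : ℝ → ℝ) (p : ℝ × E3) :
    Matrix (Fin 3) (Fin 3) ℝ :=
  Matrix.of fun i j => PP G (Φ p.1) (τ p.1, p.2) i j / r p.1 ^ 2 + (1 - 1 / r p.1 ^ 2) * (p.2 i * p.2 j)

theorem c4_all (h : Cuts G e Φ τ r W I) : ∀ᶠ p in Inf, 1 ≤ r p.1 ∧ ‖p.2‖ = 1 ∧
    (PP G (Φ p.1) (τ p.1, p.2)).det = r p.1 ^ 4 * (c4M G Φ τ r p).det ∧
    ∀ i j, QQ G (Φ p.1) i j (τ p.1, p.2) = ((c4M G Φ τ r p)⁻¹ i j - p.2 i * p.2 j) / r p.1 ^ 2 := by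
  filter_upwards [c_ev h] with p hp
  obtain ⟨hn, h1, h2, hR, _, hW⟩ := hp
  have hr : 1 ≤ r p.1 := h1.trans h2
  have hq := e3a_sq hn
  have hm := e3_mat (P := PP G (Φ p.1) (τ p.1, p.2)) (n := fun i => p.2 i) (s := r p.1) (lt_of_lt_of_le one_pos hr).ne'
    (by rw [Fin.sum_univ_three]; exact hq) (b2a_PPsymm hR hW) (fun i => by
      have := PP_rad hR hW i
      simp only [hn] at this
      simpa using this) (PP_det hR hW).ne'
  exact ⟨hr, hn, hm.1, hm.2⟩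

theorem c4_M (h : Cuts G e Φ τ r W I) (i j : Fin 3) :
    Os (-1) fun p => c4M G Φ τ r p i j - (1 : Matrix (Fin 3) (Fin 3) ℝ) i j := by
  have h1 := (c_hh h i j).mul ((c_rinv h).mul (c_rinv h) (j := -2) (by norm_num)) (j := -1) (by norm_num)
  refine h1.congr ?_
  filter_upwards [c4_all h] with p hp
  obtain ⟨hr, hn, _⟩ := hp
  have hp0 : r p.1 ≠ 0 := (lt_of_lt_of_le one_pos hr).ne'
  have e1 : PP G (Φ p.1) (τ p.1, p.2) i j = hh G (Φ p.1) i j (τ p.1, p.2) + p.2 i * p.2 j := by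
    unfold PP
    rw [Matrix.of_apply]
    simp only [hn]
    ring
  unfold c4M
  rw [Matrix.of_apply, e1, Matrix.one_apply]
  field_simp
  ring

theorem c4_inv (h : Cuts G e Φ τ r W I) (i j : Fin 3) :
    Os (-1) fun p => (c4M G Φ τ r p)⁻¹ i j - (if i = j then 1 else 0) := by
  have h1 := inv_Os (A := c4M G Φ τ r) (A0 := 1) (by simp) (c4_M h) i j
  refine h1.congr (Eventually.of_forall fun p => ?_)
  rw [inv_one, Matrix.one_apply]

theorem c4_r2 (h : Cuts G e Φ τ r W I) : Os (-2) fun p => 1 / r p.1 ^ 2 := by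
  refine ((c_rinv h).mul (c_rinv h) (j := -2) (by norm_num)).congr (Eventually.of_forall fun p => ?_)
  ring

theorem c_qq (h : Cuts G e Φ τ r W I) (i j : Fin 3) :
    Os (-3) fun p => QQ G (Φ p.1) i j (τ p.1, p.2) - ((if i = j then 1 else 0) - p.2 i * p.2 j) / r p.1 ^ 2 := by
  refine ((c4_inv h i j).mul (c4_r2 h) (j := -3) (by norm_num)).congr ?_
  filter_upwards [c4_all h] with p hp
  rw [hp.2.2.2 i j]
  ring

theorem c_qq2 (h : Cuts G e Φ τ r W I) (i j : Fin 3) : Os (-2) fun p => QQ G (Φ p.1) i j (τ p.1, p.2) := by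
  refine (((c_qq h i j).mono (show (-3 : ℤ) ≤ -2 by norm_num)).add ((e3a_pl i j).mul (c4_r2 h) (j := -2) (by norm_num))).congr
    (Eventually.of_forall fun p => ?_)
  ring

theorem c_dA (h : Cuts G e Φ τ r W I) : Os 1 fun p => dA G (Φ p.1) (τ p.1, p.2) - r p.1 ^ 2 := by
  have h1 := det_Os (A := c4M G Φ τ r) (A0 := 1) (c4_M h)
  have h2 : Os (-1) fun p => Real.sqrt (c4M G Φ τ r p).det - 1 := by
    refine IsBigO.trans (IsBigO.of_bound 1 (Eventually.of_forall fun p => ?_)) h1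
    rw [Real.norm_eq_abs, Real.norm_eq_abs, one_mul, Matrix.det_one]
    exact e3b_sqrt _
  refine (((c_r h).mul (c_r h) (j := 2) (by norm_num)).mul h2 (j := 1) (by norm_num)).congr ?_
  filter_upwards [c4_all h] with p hp
  have e1 : dA G (Φ p.1) (τ p.1, p.2) = r p.1 ^ 2 * Real.sqrt (c4M G Φ τ r p).det := by
    unfold dA
    rw [hp.2.2.1, show r p.1 ^ 4 = (r p.1 ^ 2) ^ 2 by ring, Real.sqrt_mul (sq_nonneg _), Real.sqrt_sq (sq_nonneg _)]
  rw [e1]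
  ring

theorem c_w (h : Cuts G e Φ τ r W I) : Os 0 fun p => Real.sqrt (dA G (Φ p.1) (τ p.1, p.2)) - r p.1 := by
  have h1 := (c_dA h).mul (c_rinv h) (j := 0) (by norm_num)
  refine IsBigO.trans (IsBigO.of_bound 1 ?_) h1
  filter_upwards [c4_all h] with p hp
  have hr : 0 < r p.1 := lt_of_lt_of_le one_pos hp.1
  have ha : 0 ≤ dA G (Φ p.1) (τ p.1, p.2) := Real.sqrt_nonneg _
  rw [Real.norm_eq_abs, Real.norm_eq_abs, one_mul, abs_mul, abs_of_pos (one_div_pos.2 hr), mul_one_div, le_div_iff₀ hr]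
  have h2 : dA G (Φ p.1) (τ p.1, p.2) - r p.1 ^ 2 = (Real.sqrt (dA G (Φ p.1) (τ p.1, p.2)) - r p.1) *
      (Real.sqrt (dA G (Φ p.1) (τ p.1, p.2)) + r p.1) := by
    have := Real.mul_self_sqrt ha
    linear_combination -this
  rw [h2, abs_mul]
  have h3 : r p.1 ≤ |Real.sqrt (dA G (Φ p.1) (τ p.1, p.2)) + r p.1| := by
    rw [abs_of_nonneg (by positivity)]
    linarith [Real.sqrt_nonneg (dA G (Φ p.1) (τ p.1, p.2))]
  exact mul_le_mul_of_nonneg_left h3 (abs_nonneg _)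

end H17Y
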