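import Pool.Agent.Lib.H17Y.C4

set_option autoImplicit false

/-!
# H17Y, chunk C5 (M): the second null normal of nearly round cuts

Compare `H17W.E4A` (`e4_zp`, `e4_inv`, `e4_kk`; there only `O(1)` is proved). `Zp = ZZ - sum QQ_ij X_j^0 X_i = (-1, 0) + O(1/s)`: `ZZ^a = (G⁻¹)^a0 = eta a 0 + O(1/s)` (`c_minv`), the sum is `O(s⁻²) O(1) O(s)`.
`<Zp, Zp> = -1 + O(1/s)` (`c_met1`). `L = (e, n) + O(1/s)`, `e² = 1`, so `1 / L^0 = e + O(1/s)` (`1/L - e = e (e - L)/L` as `e² = 1`, and `|L^0| ≥ 1/2`).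
`k = 2 / L^0 (Zp - <Zp,Zp> / (2 L^0) L)`: time component `2 e (-1 + (1/2) e e) = -e`, space components `2 e (e/2) n = n`.
Auxiliary names start with `c5_`.
-/

open MeasureTheory Filter Topology Set Asymptotics
open scoped ContDiff

namespace H17Y

open H17W
open H17T (E4 pt pos tang slice second DEC)
open H17B (eta dl)
open Pool.Agent.Lib.PenroseSph (E3 Tens S2 sm pd)

variable {G : E4 → Matrix (Fin 4) (Fin 4) ℝ} {e m : ℝ} {Φ : ℝ → ℝ × E3 → E4} {τ r : ℝ → ℝ} {W : ℝ → Set (ℝ × E3)} {I : ℝ → Set ℝ}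

theorem c5_prod {a b a' b' : ℝ × E3 → ℝ} (ha : Os (-1) fun p => a p - a' p) (hb : Os (-1) fun p => b p - b' p)
    (ha' : Os 0 a') (hb' : Os 0 b') : Os (-1) fun p => a p * b p - a' p * b' p := by
  have h1 : Os 0 b := by
    refine ((hb.mono (show (-1 : ℤ) ≤ 0 by norm_num)).add hb').congr (Eventually.of_forall fun p => ?_)
    ring
  refine ((ha.mul h1 (j := -1) (by norm_num)).add (ha'.mul hb (j := -1) (by norm_num))).congr
    (Eventually.of_forall fun p => ?_)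
  ring

theorem c5_zp (h : Cuts G e Φ τ r W I) (a : Fin 4) : Os (-1) fun p => Zp G (Φ p.1) (τ p.1, p.2) a - eta a 0 := by
  have h3 : Os (-1) fun p => ∑ i, ∑ j, QQ G (Φ p.1) i j (τ p.1, p.2) * XX (Φ p.1) j (τ p.1, p.2) 0 *
      XX (Φ p.1) i (τ p.1, p.2) a := by
    refine Os.sum _ fun i _ => Os.sum _ fun j _ => ?_
    exact ((c_qq2 h i j).mul (c_xx0 h j) (j := -2) (by norm_num)).mul (c_xx1 h i a) (by norm_num)
  refine ((c_minv h a 0).sub h3).congr (Eventually.of_forall fun p => ?_)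
  unfold Zp ZZ
  ring

theorem c5_zz (h : Cuts G e Φ τ r W I) :
    Os (-1) fun p => ipp G (Φ p.1) (Zp G (Φ p.1)) (Zp G (Φ p.1)) (τ p.1, p.2) - (-1) := by
  have hz := c5_zp h
  have hz0 : ∀ a, Os 0 fun p => Zp G (Φ p.1) (τ p.1, p.2) a := by
    intro a
    refine (((hz a).mono (show (-1 : ℤ) ≤ 0 by norm_num)).add (Os.const (eta a 0))).congr (Eventually.of_forall fun p => ?_)
    ring
  have hA : Os (-1) fun p => ∑ a, ∑ b, (G (Ph (Φ p.1) (τ p.1, p.2)) a b - eta a b) *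
      Zp G (Φ p.1) (τ p.1, p.2) a * Zp G (Φ p.1) (τ p.1, p.2) b := by
    refine Os.sum _ fun a _ => Os.sum _ fun b _ => ?_
    exact ((c_met1 h a b).mul (hz0 a) (j := -1) (by norm_num)).mul (hz0 b) (by norm_num)
  have hB : Os (-1) fun p => Zp G (Φ p.1) (τ p.1, p.2) 0 * Zp G (Φ p.1) (τ p.1, p.2) 0 - (-1) * (-1) := by
    have g : Os (-1) fun p => Zp G (Φ p.1) (τ p.1, p.2) 0 - (-1) := by
      refine (hz 0).congr (Eventually.of_forall fun p => ?_)
      simp [eta]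
    exact c5_prod g g (Os.const _) (Os.const _)
  have hC : ∀ l : Fin 3, Os (-1) fun p => Zp G (Φ p.1) (τ p.1, p.2) l.succ * Zp G (Φ p.1) (τ p.1, p.2) l.succ := by
    intro l
    have g : Os (-1) fun p => Zp G (Φ p.1) (τ p.1, p.2) l.succ := by
      refine (hz l.succ).congr (Eventually.of_forall fun p => ?_)
      simp [eta, Fin.succ_ne_zero]
    exact g.mul (hz0 l.succ) (by norm_num)
  refine ((hA.sub hB).add (Os.sum Finset.univ fun l _ => hC l)).congr (Eventually.of_forall fun p => ?_)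
  have h2 := e3a_eta (Zp G (Φ p.1) (τ p.1, p.2)) (Zp G (Φ p.1) (τ p.1, p.2))
  unfold ipp ip
  have : ∀ a b, G (Ph (Φ p.1) (τ p.1, p.2)) a b * Zp G (Φ p.1) (τ p.1, p.2) a * Zp G (Φ p.1) (τ p.1, p.2) b =
      (G (Ph (Φ p.1) (τ p.1, p.2)) a b - eta a b) * Zp G (Φ p.1) (τ p.1, p.2) a * Zp G (Φ p.1) (τ p.1, p.2) b +
      eta a b * Zp G (Φ p.1) (τ p.1, p.2) a * Zp G (Φ p.1) (τ p.1, p.2) b := by
    intro a b
    ring
  simp only [this, Finset.sum_add_distrib]
  rw [h2]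
  ring

theorem c5_big (h : Cuts G e Φ τ r W I) : ∀ᶠ p in Inf, 1 / 2 ≤ |LL (Φ p.1) (τ p.1, p.2) 0| := by
  have h1 := (c_ll0 h).tendsto
  have h3 := (Metric.tendsto_nhds.1 h1) (1 / 2) (by norm_num)
  refine h3.mono fun p hp => ?_
  rw [Real.dist_eq, sub_zero] at hp
  have h5 := abs_lt.1 hp
  rcases h.sign with he | he
  · rw [abs_of_pos (by rw [he] at h5; linarith)]
    rw [he] at h5
    linarith
  · rw [abs_of_neg (by rw [he] at h5; linarith)]
    rw [he] at h5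
    linarith

theorem c5_inv (h : Cuts G e Φ τ r W I) : Os (-1) fun p => 1 / LL (Φ p.1) (τ p.1, p.2) 0 - e := by
  have hi : Os 0 fun p => 1 / LL (Φ p.1) (τ p.1, p.2) 0 := by
    refine IsBigO.of_bound 2 ?_
    refine (c5_big h).mono fun p hp => ?_
    rw [zpow_zero, norm_one, mul_one, Real.norm_eq_abs, abs_div, abs_one]
    rw [div_le_iff₀ (by linarith)]
    linarith
  have he : e * e = 1 := by
    rcases h.sign with he | he <;> rw [he] <;> norm_num
  refine ((Os.const_mul (c_ll0 h) (-e)).mul hi (j := -1) (by norm_num)).congr ?_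
  refine (c5_big h).mono fun p hp => ?_
  have hne : LL (Φ p.1) (τ p.1, p.2) 0 ≠ 0 := by
    intro h0
    rw [h0, abs_zero] at hp
    linarith
  field_simp
  linear_combination he

/-- The null normal is `2 e η_a0 + ℓ_a`, if `L = ℓ + O(1/s)`. -/
theorem c5_main (h : Cuts G e Φ τ r W I) (a : Fin 4) {l : ℝ × E3 → ℝ} (hl0 : Os 0 l)
    (hl : Os (-1) fun p => LL (Φ p.1) (τ p.1, p.2) a - l p) :
    Os (-1) fun p => kk G (Φ p.1) (τ p.1, p.2) a - (2 * e * eta a 0 + l p) := by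
  have he : e * e = 1 := by
    rcases h.sign with he | he <;> rw [he] <;> norm_num
  have h1 := c5_prod (c5_zz h) (c5_inv h) (Os.const _) (Os.const _)
  have h2 := c5_prod h1 hl (Os.const (-1 * e)) hl0
  have h3 : Os (-1) fun p => (Zp G (Φ p.1) (τ p.1, p.2) a - 1 / 2 *
      (ipp G (Φ p.1) (Zp G (Φ p.1)) (Zp G (Φ p.1)) (τ p.1, p.2) * (1 / LL (Φ p.1) (τ p.1, p.2) 0) *
        LL (Φ p.1) (τ p.1, p.2) a)) - (eta a 0 - 1 / 2 * (-1 * e * l p)) := by
    refine ((c5_zp h a).sub (Os.const_mul h2 (1 / 2))).congr (Eventually.of_forall fun p => ?_)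
    ring
  have h4 : Os 0 fun p => eta a 0 - 1 / 2 * (-1 * e * l p) :=
    (Os.const _).sub (Os.const_mul (Os.const_mul hl0 (-1 * e)) (1 / 2))
  have h5 := Os.const_mul (c5_prod (c5_inv h) h3 (Os.const _) h4) 2
  refine h5.congr (Eventually.of_forall fun p => ?_)
  unfold kk
  linear_combination (- l p) * he

theorem c_kk0 (h : Cuts G e Φ τ r W I) : Os (-1) fun p => kk G (Φ p.1) (τ p.1, p.2) 0 + e := by
  refine (c5_main h 0 (Os.const e) (c_ll0 h)).congr (Eventually.of_forall fun p => ?_)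
  simp [eta]
  ring

theorem c_kk (h : Cuts G e Φ τ r W I) (i : Fin 3) : Os (-1) fun p => kk G (Φ p.1) (τ p.1, p.2) i.succ - p.2 i := by
  refine (c5_main h i.succ (Os.coord i) (c_ll h i)).congr (Eventually.of_forall fun p => ?_)
  simp [eta, Fin.succ_ne_zero]

theorem c_kkb (h : Cuts G e Φ τ r W I) (a : Fin 4) : Os 0 fun p => kk G (Φ p.1) (τ p.1, p.2) a := by
  refine Fin.cases ?_ (fun l => ?_) a
  · have h1 := ((c_kk0 h).mono (show (-1 : ℤ) ≤ 0 by norm_num)).sub (Os.const e)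
    refine h1.congr (Eventually.of_forall fun p => ?_)
    ring
  · have h1 := ((c_kk h l).mono (show (-1 : ℤ) ≤ 0 by norm_num)).add (Os.coord l)
    refine h1.congr (Eventually.of_forall fun p => ?_)
    ring

end H17Y
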