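import Pool.Agent.Lib.H17Y.C2

set_option autoImplicit false

/-!
# H17Y, chunk D1 (M): the metric in the Schwarzschild zone

Port of `H17W.E1B` (`e1_met`) and `H17W.E1C` (`e1_dmet`, `e1_chr`).
Auxiliary names start with `d1_`.
-/

open MeasureTheory Filter Topology Set Asymptotics
open scoped ContDiff

namespace H17Y

open H17W
open H17T (E4 pt pos tang slice second DEC)
open H17B (eta dl)
open Pool.Agent.Lib.PenroseSph (E3 Tens S2 sm pd)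

variable {G : E4 → Matrix (Fin 4) (Fin 4) ℝ} {e m : ℝ} {Φ : ℝ → ℝ × E3 → E4} {τ r : ℝ → ℝ} {W : ℝ → Set (ℝ × E3)} {I : ℝ → Set ℝ}

theorem d1_half (h : Cuts G e Φ τ r W I) : ∃ R : ℝ, 1 ≤ R ∧ ∀ s : ℝ, R ≤ s → ∀ n : S2,
    s ≤ r s ∧ r s / 2 ≤ ‖pos (Ph (Φ s) (τ s, (n : E3)))‖ ∧ s / 2 ≤ ‖pos (Ph (Φ s) (τ s, (n : E3)))‖ := by
  obtain ⟨C, R, hR, hC, hb⟩ := (c_rho h).bound
  obtain ⟨C', R', hC'⟩ := h.far
  refine ⟨max (max R (2 * C)) R', hR.trans ((le_max_left _ _).trans (le_max_left _ _)), fun s hs n => ?_⟩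
  have hs1 : max R (2 * C) ≤ s := (le_max_left _ _).trans hs
  have h1 := hb s ((le_max_left _ _).trans hs1) n
  have h2 : 2 * C ≤ s := (le_max_right _ _).trans hs1
  obtain ⟨_, _, h3, _⟩ := hC' s ((le_max_right _ _).trans hs)
  simp only [zpow_zero, mul_one] at h1
  rw [abs_le] at h1
  exact ⟨h3, by linarith [h1.1], by linarith [h1.1]⟩

theorem d_inv (h : Cuts G e Φ τ r W I) : Os (-2) fun p => 1 / ‖pos (Ph (Φ p.1) (τ p.1, p.2))‖ - 1 / r p.1 := by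
  obtain ⟨C, R, hR, hC, hb⟩ := (c_rho h).bound
  obtain ⟨R', hR', hh⟩ := d1_half h
  refine Os.of_bound (2 * C) (max R R') fun s hs hs0 n => ?_
  have h1 := hb s ((le_max_left _ _).trans hs) n
  obtain ⟨h3, h4, h5⟩ := hh s ((le_max_right _ _).trans hs) n
  simp only [zpow_zero, mul_one] at h1
  set ρ := ‖pos (Ph (Φ s) (τ s, (n : E3)))‖ with hρ
  have hr : 0 < r s := hs0.trans_le h3
  have hρ0 : 0 < ρ := by linarith
  show |1 / ρ - 1 / r s| ≤ 2 * C * s ^ (-2 : ℤ)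
  have e1 : 1 / ρ - 1 / r s = (r s - ρ) / (ρ * r s) := by
    field_simp
  have e2 : 2 * C * s ^ (-2 : ℤ) = C / (s / 2 * s) := by
    rw [e1b_zpow2]
    field_simp
  rw [e1, e2, abs_div, abs_of_pos (mul_pos hρ0 hr)]
  apply div_le_div₀ hC _ (by positivity) (mul_le_mul h5 h3 hs0.le hρ0.le)
  rw [abs_sub_comm]
  exact h1

theorem d_met (h : Ends G e m Φ τ r W I) (a b : Fin 4) :
    Os (-2) fun p => G (Ph (Φ p.1) (τ p.1, p.2)) a b - eta a b - 2 * m * dl a b * (1 / r p.1) := by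
  have h1 : Os (-2) fun p => G (Ph (Φ p.1) (τ p.1, p.2)) a b - schw m (Ph (Φ p.1) (τ p.1, p.2)) a b := by
    obtain ⟨C, R, hC⟩ := h.schw
    obtain ⟨R', hR', hb⟩ := d1_half h.cuts
    refine Os.of_bound (4 * max C 0) (max R R') fun s hs hs0 n => ?_
    have h2 := (hC s ((le_max_left _ _).trans hs) n a b).1
    obtain ⟨_, _, h3⟩ := hb s ((le_max_right _ _).trans hs) n
    show |G (Ph (Φ s) (τ s, (n : E3))) a b - schw m (Ph (Φ s) (τ s, (n : E3))) a b| ≤ _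
    rw [ph_sph] at h3 ⊢
    refine h2.trans ?_
    rw [e1b_zpow2]
    have hρ0 : 0 < ‖pos (Φ s (τ s, (n : E3)))‖ := by linarith
    have e1 : C / ‖pos (Φ s (τ s, (n : E3)))‖ ^ 2 ≤ max C 0 / ‖pos (Φ s (τ s, (n : E3)))‖ ^ 2 :=
      div_le_div_of_nonneg_right (le_max_left _ _) (by positivity)
    have e2 : max C 0 / ‖pos (Φ s (τ s, (n : E3)))‖ ^ 2 ≤ max C 0 / (s / 2) ^ 2 :=
      div_le_div_of_nonneg_left (le_max_right _ _) (by positivity) (by gcongr)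
    refine e1.trans (e2.trans (le_of_eq ?_))
    field_simp
    norm_num
  have h2 := Os.const_mul (d_inv h.cuts) (2 * m * dl a b)
  refine (h1.add h2).congr (Eventually.of_forall fun p => ?_)
  show G (Ph (Φ p.1) (τ p.1, p.2)) a b - schw m (Ph (Φ p.1) (τ p.1, p.2)) a b +
    2 * m * dl a b * (1 / ‖pos (Ph (Φ p.1) (τ p.1, p.2))‖ - 1 / r p.1) = _
  rw [schw_eq]
  ring

theorem d1_om (h : Cuts G e Φ τ r W I) (c : Fin 4) :
    Os (-2) fun p => -(‖pos (Ph (Φ p.1) (τ p.1, p.2))‖ ^ 2)⁻¹ * H17B.om (pos (Ph (Φ p.1) (τ p.1, p.2))) c := by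
  obtain ⟨R, hR, hb⟩ := d1_half h
  refine Os.of_bound 4 R fun s hs hs0 n => ?_
  obtain ⟨_, _, h1⟩ := hb s hs n
  have h2 := e1c_om_le (pos (Ph (Φ s) (τ s, (n : E3)))) c
  show |-(‖pos (Ph (Φ s) (τ s, (n : E3)))‖ ^ 2)⁻¹ * H17B.om (pos (Ph (Φ s) (τ s, (n : E3)))) c| ≤ _
  have hρ0 : 0 < ‖pos (Ph (Φ s) (τ s, (n : E3)))‖ := by linarith
  rw [abs_mul, abs_neg, abs_of_pos (by positivity), e1b_zpow2]
  have e2 : (‖pos (Ph (Φ s) (τ s, (n : E3)))‖ ^ 2)⁻¹ ≤ ((s / 2) ^ 2)⁻¹ := by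
    apply inv_anti₀ (by positivity)
    gcongr
  calc (‖pos (Ph (Φ s) (τ s, (n : E3)))‖ ^ 2)⁻¹ * |H17B.om (pos (Ph (Φ s) (τ s, (n : E3)))) c|
      ≤ ((s / 2) ^ 2)⁻¹ * 1 := mul_le_mul e2 h2 (abs_nonneg _) (by positivity)
    _ = 4 * (1 / s ^ 2) := by
      field_simp
      norm_num

theorem d1_diff (h : Ends G e m Φ τ r W I) (c a b : Fin 4) :
    Os (-3) fun p => H31R.pd c (fun q => G q a b - schw m q a b) (Ph (Φ p.1) (τ p.1, p.2)) := by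
  obtain ⟨C, R, hC⟩ := h.schw
  obtain ⟨R', hR', hb⟩ := d1_half h.cuts
  refine Os.of_bound (8 * max C 0) (max R R') fun s hs hs0 n => ?_
  have h2 := (hC s ((le_max_left _ _).trans hs) n a b).2 c
  obtain ⟨_, _, h3⟩ := hb s ((le_max_right _ _).trans hs) n
  show |H31R.pd c (fun q => G q a b - schw m q a b) (Ph (Φ s) (τ s, (n : E3)))| ≤ _
  rw [ph_sph] at h3 ⊢
  refine h2.trans ?_
  rw [e1b_zpow3]
  have hρ0 : 0 < ‖pos (Φ s (τ s, (n : E3)))‖ := by linarith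
  have e1 : C / ‖pos (Φ s (τ s, (n : E3)))‖ ^ 3 ≤ max C 0 / ‖pos (Φ s (τ s, (n : E3)))‖ ^ 3 :=
    div_le_div_of_nonneg_right (le_max_left _ _) (by positivity)
  have e2 : max C 0 / ‖pos (Φ s (τ s, (n : E3)))‖ ^ 3 ≤ max C 0 / (s / 2) ^ 3 :=
    div_le_div_of_nonneg_left (le_max_right _ _) (by positivity) (by gcongr)
  refine e1.trans (e2.trans (le_of_eq ?_))
  field_simp
  norm_num

theorem d1_split (h : Ends G e m Φ τ r W I) (c a b : Fin 4) : ∀ᶠ p in Inf,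
    H31R.pd c (fun q => G q a b - schw m q a b) (Ph (Φ p.1) (τ p.1, p.2)) +
      2 * m * dl a b * (-(‖pos (Ph (Φ p.1) (τ p.1, p.2))‖ ^ 2)⁻¹ * H17B.om (pos (Ph (Φ p.1) (τ p.1, p.2))) c) =
    H31R.pd c (fun q => G q a b) (Ph (Φ p.1) (τ p.1, p.2)) := by
  obtain ⟨R, hR, hb⟩ := d1_half h.cuts
  obtain ⟨C', R', hC'⟩ := h.cuts.far
  refine inf_iff.2 ⟨max R R', fun s hs n => ?_⟩
  obtain ⟨_, _, h1⟩ := hb s ((le_max_left _ _).trans hs) n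
  obtain ⟨hreg, hτ, _⟩ := hC' s ((le_max_right _ _).trans hs)
  have hs0 : 0 < s := by linarith [(le_max_left R R').trans hs]
  have hq : pos (Ph (Φ s) (τ s, (n : E3))) ≠ 0 := norm_pos_iff.1 (by linarith)
  have hG : DifferentiableAt ℝ (fun q => G q a b) (Ph (Φ s) (τ s, (n : E3))) :=
    ((hreg.met (τ s, (n : E3)) (hreg.mem _ hτ _ e2b_sph)).smooth.self_of_nhds a b).differentiableAt
      (by simp)
  obtain ⟨d1, d2⟩ := e1c_schw hq m c a b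
  rw [← d2]
  unfold H31R.pd
  rw [fderiv_fun_sub hG d1, ContinuousLinearMap.sub_apply, sub_add_cancel]

theorem d_dmet (h : Ends G e m Φ τ r W I) (c a b : Fin 4) :
    Os (-2) fun p => H31R.pd c (fun q => G q a b) (Ph (Φ p.1) (τ p.1, p.2)) := by
  have h1 := (d1_diff h c a b).mono (show (-3 : ℤ) ≤ -2 by norm_num)
  have h2 := Os.const_mul (d1_om h.cuts c) (2 * m * dl a b)
  exact (h1.add h2).congr (d1_split h c a b)

theorem d_chr (h : Ends G e m Φ τ r W I) (c a b : Fin 4) : Os (-2) fun p => H31R.chr G c a b (Ph (Φ p.1) (τ p.1, p.2)) := by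
  have hinv : ∀ i j : Fin 4, Os 0 fun p => (G (Ph (Φ p.1) (τ p.1, p.2)))⁻¹ i j := by
    intro i j
    have h1 := (c_minv h.cuts i j).mono (show (-1 : ℤ) ≤ 0 by norm_num)
    refine (h1.add (Os.const (eta i j))).congr (Eventually.of_forall fun p => ?_)
    ring
  unfold H31R.chr
  refine Os.const_mul (Os.sum _ fun l _ => ?_) _
  refine (hinv c l).mul (l := -2) ?_ (by norm_num)
  exact ((d_dmet h a b l).add (d_dmet h b a l)).sub (d_dmet h l a b)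

theorem d1_pos1 (h : Cuts G e Φ τ r W I) (i : Fin 3) : Os 1 fun p => pos (Ph (Φ p.1) (τ p.1, p.2)) i := by
  have h1 := ((c_pos h i).mono (show (0 : ℤ) ≤ 1 by norm_num)).add ((c_r h).mul (Os.coord i) (j := 1) (by norm_num))
  refine h1.congr (Eventually.of_forall fun p => ?_)
  ring

theorem d_rad (h : Ends G e m Φ τ r W I) (a b : Fin 4) :
    Os (-2) fun p => (∑ i : Fin 3, pos (Ph (Φ p.1) (τ p.1, p.2)) i * H31R.pd i.succ (fun q => G q a b) (Ph (Φ p.1) (τ p.1, p.2))) +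
      2 * m * dl a b * (1 / r p.1) := by
  have h1 : Os (-2) fun p => ∑ i : Fin 3, pos (Ph (Φ p.1) (τ p.1, p.2)) i *
      H31R.pd i.succ (fun q => G q a b - schw m q a b) (Ph (Φ p.1) (τ p.1, p.2)) :=
    Os.sum _ fun i _ => (d1_pos1 h.cuts i).mul (d1_diff h i.succ a b) (by norm_num)
  have h2 := (Os.const_mul (d_inv h.cuts) (2 * m * dl a b)).neg
  refine (h1.add h2).congr ?_
  obtain ⟨R, hR, hb⟩ := d1_half h.cuts
  have hpos : ∀ᶠ p : ℝ × E3 in Inf, 0 < ‖pos (Ph (Φ p.1) (τ p.1, p.2))‖ :=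
    inf_iff.2 ⟨R, fun s hs n => by
      obtain ⟨_, _, h1⟩ := hb s hs n
      show 0 < ‖pos (Ph (Φ s) (τ s, (n : E3)))‖
      linarith⟩
  filter_upwards [d1_split h (Fin.succ 0) a b, d1_split h (Fin.succ 1) a b, d1_split h (Fin.succ 2) a b, hpos] with p h0 h1 h2 hp
  have hom : ∀ i : Fin 3, H17B.om (pos (Ph (Φ p.1) (τ p.1, p.2))) i.succ =
      pos (Ph (Φ p.1) (τ p.1, p.2)) i / ‖pos (Ph (Φ p.1) (τ p.1, p.2))‖ := fun i => rfl
  rw [hom] at h0 h1 h2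
  have hn : ‖pos (Ph (Φ p.1) (τ p.1, p.2))‖ ^ 2 = pos (Ph (Φ p.1) (τ p.1, p.2)) 0 ^ 2 + pos (Ph (Φ p.1) (τ p.1, p.2)) 1 ^ 2 +
      pos (Ph (Φ p.1) (τ p.1, p.2)) 2 ^ 2 := by
    rw [EuclideanSpace.real_norm_sq_eq, Fin.sum_univ_three]
  simp only [Fin.sum_univ_three]
  rw [← h0, ← h1, ← h2]
  set ρ := ‖pos (Ph (Φ p.1) (τ p.1, p.2))‖ with hρ
  set x0 := pos (Ph (Φ p.1) (τ p.1, p.2)) 0
  set x1 := pos (Ph (Φ p.1) (τ p.1, p.2)) 1
  set x2 := pos (Ph (Φ p.1) (τ p.1, p.2)) 2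
  have key : x0 * (-(ρ ^ 2)⁻¹ * (x0 / ρ)) + x1 * (-(ρ ^ 2)⁻¹ * (x1 / ρ)) + x2 * (-(ρ ^ 2)⁻¹ * (x2 / ρ)) = -(1 / ρ) := by
    have e : x0 * (-(ρ ^ 2)⁻¹ * (x0 / ρ)) + x1 * (-(ρ ^ 2)⁻¹ * (x1 / ρ)) + x2 * (-(ρ ^ 2)⁻¹ * (x2 / ρ)) =
        -((x0 ^ 2 + x1 ^ 2 + x2 ^ 2) / (ρ ^ 2 * ρ)) := by
      field_simp
      ring
    rw [e, ← hn]
    field_simp
  linear_combination (-(2 * m * dl a b)) * key

end H17Y
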