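import Pool.Agent.Lib.H17Y.D1
import Pool.Agent.Lib.H17Y.C4

set_option autoImplicit false

/-!
# H17Y, chunk D10 (M/L): the area density of the end cuts

Write `v_il = pd i (devr (Φ s) (r s) (τ s) l.succ) n = O(1)` and `P_il = δ_il - n_i n_l`. By `c_xdev`, `e2_ray`: `X_i^l = r P_il + v_il`, `X_i^0 = O(1)`. (1) `sum_i n_i v_il = 0` (`devr` is homogeneous of degree zero; or: `sum_i n_i X_i^l = 0` and `sum_i n_i P_il = 0`).
(2) `hh_ij = sum_ab G_ab X_i^a X_j^b` with `G_ab = eta_ab + 2 m dl_ab / r + O(s⁻²)`: `hh_ij = (1 + 2m/r) sum_l X_i^l X_j^l + O(1) = r² P_ij + r B_ij + O(1)`, `B_ij = 2 m P_ij + sum_l (P_il v_jl + P_jl v_il)`.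
(3) If `h` is symmetric, `h n = 0`, `|n| = 1`: `det (h + n nᵀ) = ((tr h)² - tr h²)/2` (polynomial identity; or `det_add_vecMulVec`). With (2): `det PP = r⁴ + r³ (2 tr B - tr(P B)) + O(r²)` since `((tr P)² - tr P²)/2 = 1`, `tr P tr B - tr (P B) = 2 tr B - tr (P B)`, and
`tr (P B) = tr B` as `B n = 0`: (`sum_j n_j B_ij = sum_l P_il sum_j n_j v_jl = 0`). `tr B = 4 m + 2 sum_il P_il v_il = 4 m + 2 sum_i v_ii` by (1). So `dA = sqrt (det PP) = r² + r (2 m + sum_i v_ii) + O(1)`.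
(`sqrt (r⁴ + r³ b + O(r²)) = r² + r b/2 + O(1)`: `|sqrt u - v| ≤ |u - v²| / v` for `u ≥ 0`, `v > 0`.) (4) `sqrt dA = r + (2m + sum v_ii)/2 + O(1/s)` by the same inequality.
Auxiliary names start with `d10_`.
-/

open MeasureTheory Filter Topology Set Asymptotics
open scoped ContDiff

namespace H17Y

open H17W
open H17T (E4 pt pos tang slice second DEC)
open H17B (eta dl)
open Pool.Agent.Lib.PenroseSph (E3 Tens S2 sm pd)

variable {G : E4 → Matrix (Fin 4) (Fin 4) ℝ} {e m : ℝ} {Φ : ℝ → ℝ × E3 → E4} {τ r : ℝ → ℝ} {W : ℝ → Set (ℝ × E3)} {I : ℝ → Set ℝ}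

/-- The derivatives of the deviation. -/
noncomputable def d10v (Φ : ℝ → ℝ × E3 → E4) (τ r : ℝ → ℝ) (i l : Fin 3) (p : ℝ × E3) : ℝ :=
  pd i (devr (Φ p.1) (r p.1) (τ p.1) l.succ) p.2

/-- `P_ij = δ_ij - n_i n_j`. -/
def d10P (i j : Fin 3) (p : ℝ × E3) : ℝ := (if i = j then 1 else 0) - p.2 i * p.2 j

/-- The matrix `S`. -/
noncomputable def d10S (Φ : ℝ → ℝ × E3 → E4) (τ r : ℝ → ℝ) (i j : Fin 3) (p : ℝ × E3) : ℝ :=
  ∑ l, (d10P i l p * d10v Φ τ r j l p + d10P j l p * d10v Φ τ r i l p)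

/-- The matrix `B`. -/
noncomputable def d10B (m : ℝ) (Φ : ℝ → ℝ × E3 → E4) (τ r : ℝ → ℝ) (i j : Fin 3) (p : ℝ × E3) : ℝ :=
  2 * m * d10P i j p + d10S Φ τ r i j p

theorem d10_v (h : Cuts G e Φ τ r W I) (i l : Fin 3) : Os 0 (d10v Φ τ r i l) := by
  obtain ⟨C, R, hC⟩ := h.far
  refine Os.of_bound C R fun s hs _ n => ?_
  obtain ⟨_, _, _, _, h5, _⟩ := hC s hs
  rw [zpow_zero, mul_one]
  exact (h5 n).2.1 l.succ i

theorem d10_P (i j : Fin 3) : Os 0 (d10P i j) := (Os.const _).sub ((Os.coord i).mul (Os.coord j) (by norm_num))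

theorem d10_S (h : Cuts G e Φ τ r W I) (i j : Fin 3) : Os 0 (d10S Φ τ r i j) :=
  Os.sum _ fun l _ => ((d10_P i l).mul (d10_v h j l) (by norm_num)).add ((d10_P j l).mul (d10_v h i l) (by norm_num))

theorem d10_B (h : Cuts G e Φ τ r W I) (m : ℝ) (i j : Fin 3) : Os 0 (d10B m Φ τ r i j) :=
  (Os.const_mul (d10_P i j) (2 * m)).add (d10_S h i j)

theorem d10_xx (h : Cuts G e Φ τ r W I) : ∀ᶠ p in Inf, ∀ i l : Fin 3,
    XX (Φ p.1) i (τ p.1, p.2) l.succ = r p.1 * d10P i l p + d10v Φ τ r i l p := by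
  filter_upwards [c_ev h] with p hp i l
  obtain ⟨hn, _, _, hR, hI, _⟩ := hp
  have hne : p.2 ≠ 0 := by
    intro h0
    rw [h0, norm_zero] at hn
    exact zero_ne_one hn
  rw [(c_xdev hR hI hne (r p.1) i).2 l, e2_ray hne, hn]
  unfold d10v d10P
  ring

theorem d10_PP {n : E3} (hn : ‖n‖ = 1) (s : ℝ) (i j : Fin 3) : ∑ l, d10P i l (s, n) * d10P j l (s, n) = d10P i j (s, n) := by
  have h1 := e3a_sq hn
  unfold d10P
  have e5 : ∀ l : Fin 3, ((if i = l then (1 : ℝ) else 0) - n i * n l) * ((if j = l then 1 else 0) - n j * n l) =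
      (if i = l then (if j = l then (1 : ℝ) else 0) else 0) - (if i = l then n j * n l else 0) -
      (if j = l then n i * n l else 0) + n i * n j * n l ^ 2 := by
    intro l
    split_ifs <;> ring
  simp only [e5, Finset.sum_add_distrib, Finset.sum_sub_distrib, Finset.sum_ite_eq, Finset.mem_univ, if_true]
  rw [← Finset.mul_sum, Fin.sum_univ_three, h1]
  by_cases hij : i = j
  · subst hij
    simp
  · rw [if_neg hij, if_neg (Ne.symm hij)]
    ring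

theorem d10_Pn {n : E3} (hn : ‖n‖ = 1) (s : ℝ) (l : Fin 3) : ∑ i, n i * d10P i l (s, n) = 0 := by
  have h1 := e3a_sq hn
  unfold d10P
  have e5 : ∀ i : Fin 3, n i * ((if i = l then (1 : ℝ) else 0) - n i * n l) =
      (if i = l then n i else 0) - n l * n i ^ 2 := by
    intro i
    split_ifs <;> ring
  simp only [e5, Finset.sum_sub_distrib, Finset.sum_ite_eq', Finset.mem_univ, if_true]
  rw [← Finset.mul_sum, Fin.sum_univ_three, h1]
  ring

theorem d10_rad (h : Cuts G e Φ τ r W I) : ∀ᶠ p in Inf, ∀ l : Fin 3, ∑ i, p.2 i * d10v Φ τ r i l p = 0 := by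
  filter_upwards [c_ev h, d10_xx h] with p hp hx l
  obtain ⟨hn, _, _, hR, hI, hW⟩ := hp
  have h1 := XX_rad (Ψ := Φ p.1) (hR.ne _ hW) ((hR.smooth _ hW).differentiableAt (by simp)) l.succ
  have h2 : ∑ i, p.2 i * XX (Φ p.1) i (τ p.1, p.2) l.succ = r p.1 * (∑ i, p.2 i * d10P i l (p.1, p.2)) +
      ∑ i, p.2 i * d10v Φ τ r i l p := by
    rw [Finset.mul_sum, ← Finset.sum_add_distrib]
    refine Finset.sum_congr rfl fun i _ => ?_
    rw [hx i l]
    ring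
  rw [d10_Pn hn] at h2
  simp only at h1
  rw [h1] at h2
  linarith

theorem d10_trB (h : Cuts G e Φ τ r W I) (m : ℝ) : ∀ᶠ p in Inf, ∑ i, d10B m Φ τ r i i p = 4 * m + 2 * ∑ i, d10v Φ τ r i i p := by
  filter_upwards [d10_rad h, inf_norm] with p hp hn
  have h1 := e3a_sq hn
  have h2 : ∑ i, ∑ l, d10P i l p * d10v Φ τ r i l p = ∑ i, d10v Φ τ r i i p := by
    have e1 : ∀ i, ∑ l, d10P i l p * d10v Φ τ r i l p = d10v Φ τ r i i p - ∑ l, p.2 l * (p.2 i * d10v Φ τ r i l p) := by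
      intro i
      have e2 : ∀ l, d10P i l p * d10v Φ τ r i l p = (if i = l then d10v Φ τ r i l p else 0) -
          p.2 l * (p.2 i * d10v Φ τ r i l p) := by
        intro l
        unfold d10P
        split_ifs <;> ring
      simp only [e2, Finset.sum_sub_distrib, Finset.sum_ite_eq, Finset.mem_univ, if_true]
    simp only [e1, Finset.sum_sub_distrib]
    rw [Finset.sum_comm]
    have e3 : ∑ l, ∑ i, p.2 l * (p.2 i * d10v Φ τ r i l p) = 0 := by
      refine Finset.sum_eq_zero fun l _ => ?_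
      rw [← Finset.mul_sum, hp l, mul_zero]
    rw [e3, sub_zero]
  have h3 : ∑ i, d10P i i p = 2 := by
    unfold d10P
    simp only [if_true, Finset.sum_sub_distrib, Fin.sum_univ_three]
    linear_combination -h1
  have h4 : ∀ i, d10B m Φ τ r i i p = 2 * m * d10P i i p + 2 * ∑ l, d10P i l p * d10v Φ τ r i l p := by
    intro i
    unfold d10B d10S
    rw [Finset.mul_sum]
    congr 1
    refine Finset.sum_congr rfl fun l _ => ?_
    ring
  simp only [h4, Finset.sum_add_distrib, ← Finset.mul_sum]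
  rw [h2, h3]
  ring

theorem d10_hh (h : Ends G e m Φ τ r W I) (i j : Fin 3) :
    Os 0 fun p => hh G (Φ p.1) i j (τ p.1, p.2) - (r p.1 ^ 2 * d10P i j p + r p.1 * d10B m Φ τ r i j p) := by
  have hA : Os 0 fun p => ∑ a, ∑ b, (G (Ph (Φ p.1) (τ p.1, p.2)) a b - eta a b - 2 * m * dl a b * (1 / r p.1)) *
      XX (Φ p.1) i (τ p.1, p.2) a * XX (Φ p.1) j (τ p.1, p.2) b := by
    refine Os.sum _ fun a _ => Os.sum _ fun b _ => ?_
    exact ((d_met h a b).mul (c_xx1 h.cuts i a) (j := -1) (by norm_num)).mul (c_xx1 h.cuts j b) (by norm_num)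
  have h00 : Os 0 fun p => XX (Φ p.1) i (τ p.1, p.2) 0 * XX (Φ p.1) j (τ p.1, p.2) 0 :=
    (c_xx0 h.cuts i).mul (c_xx0 h.cuts j) (by norm_num)
  have hr1 := c_rinv h.cuts
  have hB : Os 0 fun p => (2 * m * (1 / r p.1)) * (XX (Φ p.1) i (τ p.1, p.2) 0 * XX (Φ p.1) j (τ p.1, p.2) 0) :=
    ((Os.const_mul hr1 (2 * m)).mul h00 (j := -1) (by norm_num)).mono (by norm_num)
  have hV : Os 0 fun p => ∑ l, d10v Φ τ r i l p * d10v Φ τ r j l p :=
    Os.sum _ fun l _ => (d10_v h.cuts i l).mul (d10_v h.cuts j l) (by norm_num)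
  have hV1 : Os 0 fun p => (2 * m * (1 / r p.1)) * ∑ l, d10v Φ τ r i l p * d10v Φ τ r j l p :=
    ((Os.const_mul hr1 (2 * m)).mul hV (j := -1) (by norm_num)).mono (by norm_num)
  have hS : Os 0 fun p => 2 * m * d10S Φ τ r i j p := Os.const_mul (d10_S h.cuts i j) (2 * m)
  refine (((((hA.sub h00).add hB).add hV).add hV1).add hS).congr ?_
  filter_upwards [c_ev h.cuts, d10_xx h.cuts] with p hp hx
  obtain ⟨hn, h1, h2, _⟩ := hp
  have hr : r p.1 ≠ 0 := (zero_lt_one.trans_le (h1.trans h2)).ne'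
  have hrr : r p.1 * (1 / r p.1) = 1 := mul_one_div_cancel hr
  have e1 := e3a_eta (XX (Φ p.1) i (τ p.1, p.2)) (XX (Φ p.1) j (τ p.1, p.2))
  have e2 : ∑ a, ∑ b, dl a b * XX (Φ p.1) i (τ p.1, p.2) a * XX (Φ p.1) j (τ p.1, p.2) b =
      XX (Φ p.1) i (τ p.1, p.2) 0 * XX (Φ p.1) j (τ p.1, p.2) 0 +
      ∑ l : Fin 3, XX (Φ p.1) i (τ p.1, p.2) l.succ * XX (Φ p.1) j (τ p.1, p.2) l.succ := by
    have e3 : ∀ a, ∑ b, dl a b * XX (Φ p.1) i (τ p.1, p.2) a * XX (Φ p.1) j (τ p.1, p.2) b =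
        XX (Φ p.1) i (τ p.1, p.2) a * XX (Φ p.1) j (τ p.1, p.2) a := by
      intro a
      simp [dl]
    simp only [e3]
    rw [Fin.sum_univ_succ]
  have e4 : hh G (Φ p.1) i j (τ p.1, p.2) =
      ∑ a, ∑ b, (G (Ph (Φ p.1) (τ p.1, p.2)) a b - eta a b - 2 * m * dl a b * (1 / r p.1)) *
        XX (Φ p.1) i (τ p.1, p.2) a * XX (Φ p.1) j (τ p.1, p.2) b +
      ∑ a, ∑ b, eta a b * XX (Φ p.1) i (τ p.1, p.2) a * XX (Φ p.1) j (τ p.1, p.2) b +
      2 * m * (1 / r p.1) * ∑ a, ∑ b, dl a b * XX (Φ p.1) i (τ p.1, p.2) a * XX (Φ p.1) j (τ p.1, p.2) b := by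
    unfold hh ipp ip
    rw [Finset.mul_sum, ← Finset.sum_add_distrib, ← Finset.sum_add_distrib]
    refine Finset.sum_congr rfl fun a _ => ?_
    rw [Finset.mul_sum, ← Finset.sum_add_distrib, ← Finset.sum_add_distrib]
    refine Finset.sum_congr rfl fun b _ => ?_
    ring
  have e5 : ∑ l : Fin 3, XX (Φ p.1) i (τ p.1, p.2) l.succ * XX (Φ p.1) j (τ p.1, p.2) l.succ =
      r p.1 ^ 2 * d10P i j p + r p.1 * d10S Φ τ r i j p + ∑ l, d10v Φ τ r i l p * d10v Φ τ r j l p := by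
    have e6 := d10_PP hn p.1 i j
    have e7 : d10P i j p = ∑ l, d10P i l p * d10P j l p := e6.symm
    rw [e7]
    unfold d10S
    rw [Finset.mul_sum, Finset.mul_sum, ← Finset.sum_add_distrib, ← Finset.sum_add_distrib]
    refine Finset.sum_congr rfl fun l _ => ?_
    rw [hx i l, hx j l]
    ring
  rw [e4, e1, e2, e5]
  unfold d10B
  linear_combination (-2 * m * r p.1 * d10P i j p - 2 * m * d10S Φ τ r i j p) * hrr

theorem d10_M (h : Ends G e m Φ τ r W I) (i j : Fin 3) :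
    Os (-2) fun p => c4M G Φ τ r p i j - (1 : Matrix (Fin 3) (Fin 3) ℝ) i j - d10B m Φ τ r i j p * (1 / r p.1) := by
  refine ((d10_hh h i j).mul (c4_r2 h.cuts) (j := -2) (by norm_num)).congr ?_
  filter_upwards [c4_all h.cuts] with p hp
  obtain ⟨hr, hn, _⟩ := hp
  have hp0 : r p.1 ≠ 0 := (lt_of_lt_of_le one_pos hr).ne'
  have e1 : PP G (Φ p.1) (τ p.1, p.2) i j = hh G (Φ p.1) i j (τ p.1, p.2) + p.2 i * p.2 j := by
    unfold PP
    rw [Matrix.of_apply]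
    simp only [hn]
    ring
  unfold c4M
  rw [Matrix.of_apply, e1, Matrix.one_apply]
  unfold d10P
  field_simp
  ring

theorem d10_det3 (A : Matrix (Fin 3) (Fin 3) ℝ) : A.det - 1 - ∑ i, (A i i - 1) =
    ((A 0 0 - 1) * (A 1 1 - 1) + (A 0 0 - 1) * (A 2 2 - 1) + (A 1 1 - 1) * (A 2 2 - 1) - A 0 1 * A 1 0 - A 0 2 * A 2 0 -
      A 1 2 * A 2 1) + ((A 0 0 - 1) * ((A 1 1 - 1) * (A 2 2 - 1)) - (A 0 0 - 1) * (A 1 2 * A 2 1) -
      (A 1 1 - 1) * (A 0 2 * A 2 0) - (A 2 2 - 1) * (A 0 1 * A 1 0) + A 0 1 * (A 1 2 * A 2 0) + A 0 2 * (A 1 0 * A 2 1)) := by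
  rw [Matrix.det_fin_three, Fin.sum_univ_three]
  ring

theorem d10_det (h : Ends G e m Φ τ r W I) :
    Os (-2) fun p => (c4M G Φ τ r p).det - 1 - (∑ i, d10B m Φ τ r i i p) * (1 / r p.1) := by
  have hM := c4_M h.cuts
  have hd : ∀ i, Os (-1) fun p => c4M G Φ τ r p i i - 1 := by
    intro i
    have := hM i i
    rwa [Matrix.one_apply_eq] at this
  have ho : ∀ i j, i ≠ j → Os (-1) fun p => c4M G Φ τ r p i j := by
    intro i j hij
    have := hM i j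
    rw [Matrix.one_apply_ne hij] at this
    simpa using this
  have o01 := ho 0 1 (by decide)
  have o02 := ho 0 2 (by decide)
  have o10 := ho 1 0 (by decide)
  have o12 := ho 1 2 (by decide)
  have o20 := ho 2 0 (by decide)
  have o21 := ho 2 1 (by decide)
  have m2 : ∀ {F F' : ℝ × E3 → ℝ}, Os (-1) F → Os (-1) F' → Os (-2) fun p => F p * F' p := fun a b => a.mul b (by norm_num)
  have m3 : ∀ {F F' : ℝ × E3 → ℝ}, Os (-1) F → Os (-2) F' → Os (-2) fun p => F p * F' p := fun a b =>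
    (a.mul b (j := -3) (by norm_num)).mono (by norm_num)
  have h1 := (((((m2 (hd 0) (hd 1)).add (m2 (hd 0) (hd 2))).add (m2 (hd 1) (hd 2))).sub (m2 o01 o10)).sub (m2 o02 o20)).sub
    (m2 o12 o21)
  have h2 := (((((m3 (hd 0) (m2 (hd 1) (hd 2))).sub (m3 (hd 0) (m2 o12 o21))).sub (m3 (hd 1) (m2 o02 o20))).sub
    (m3 (hd 2) (m2 o01 o10))).add (m3 o01 (m2 o12 o20))).add (m3 o02 (m2 o10 o21))
  have h3 : Os (-2) fun p => ∑ i, (c4M G Φ τ r p i i - 1 - d10B m Φ τ r i i p * (1 / r p.1)) := by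
    refine Os.sum _ fun i _ => ?_
    have := d10_M h i i
    rwa [Matrix.one_apply_eq] at this
  refine ((h1.add h2).add h3).congr (Eventually.of_forall fun p => ?_)
  rw [← d10_det3]
  simp only [Fin.sum_univ_three]
  ring

/-- `|sqrt u - v| ≤ 2 |u - v²|` for `v ≥ 1/2`. -/
theorem d10_sqrt {k : ℤ} {u v : ℝ × E3 → ℝ} (hv : ∀ᶠ p in Inf, 1 / 2 ≤ v p) (hu : ∀ᶠ p in Inf, 0 ≤ u p)
    (h : Os k fun p => u p - v p ^ 2) : Os k fun p => Real.sqrt (u p) - v p := by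
  refine IsBigO.trans (IsBigO.of_bound 2 ?_) h
  filter_upwards [hv, hu] with p h1 h2
  rw [Real.norm_eq_abs, Real.norm_eq_abs]
  have h3 := Real.mul_self_sqrt h2
  have e1 : u p - v p ^ 2 = (Real.sqrt (u p) - v p) * (Real.sqrt (u p) + v p) := by
    linear_combination -h3
  have h4 : 1 / 2 ≤ |Real.sqrt (u p) + v p| := by
    rw [abs_of_nonneg (by positivity)]
    linarith [Real.sqrt_nonneg (u p)]
  rw [e1, abs_mul]
  nlinarith [abs_nonneg (Real.sqrt (u p) - v p)]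

/-- The leading term of `det M - 1`. -/
noncomputable def d10t (m : ℝ) (Φ : ℝ → ℝ × E3 → E4) (τ r : ℝ → ℝ) (p : ℝ × E3) : ℝ :=
  (∑ i, d10B m Φ τ r i i p) * (1 / r p.1)

theorem d10_t (h : Cuts G e Φ τ r W I) (m : ℝ) : Os (-1) (d10t m Φ τ r) :=
  (Os.sum (Finset.univ : Finset (Fin 3)) fun i _ => d10_B h m i i).mul (c_rinv h) (by norm_num)

theorem d10_half {F : ℝ × E3 → ℝ} (h : Os (-1) F) (c : ℝ) : ∀ᶠ p in Inf, 1 / 2 ≤ 1 + c * F p := by
  have h1 := (Os.const_mul h c).tendsto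
  have h3 := (Metric.tendsto_nhds.1 h1) (1 / 2) (by norm_num)
  refine h3.mono fun p hp => ?_
  rw [Real.dist_eq, sub_zero] at hp
  have h5 := abs_lt.1 hp
  linarith [h5.1]

theorem d10_s1 (h : Ends G e m Φ τ r W I) :
    Os (-2) fun p => Real.sqrt (c4M G Φ τ r p).det - (1 + 1 / 2 * d10t m Φ τ r p) := by
  have ht := d10_t h.cuts m
  refine d10_sqrt (d10_half ht _) ?_ ?_
  · filter_upwards [c4_all h.cuts, c_ev h.cuts] with p hp hq
    have hr : 0 < r p.1 := lt_of_lt_of_le one_pos hp.1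
    have h1 := PP_det hq.2.2.2.1 hq.2.2.2.2.2
    rw [hp.2.2.1] at h1
    exact (pos_of_mul_pos_right h1 (by positivity)).le
  · have h2 : Os (-2) fun p => 1 / 4 * (d10t m Φ τ r p * d10t m Φ τ r p) :=
      Os.const_mul (ht.mul ht (by norm_num)) _
    refine ((d10_det h).sub h2).congr (Eventually.of_forall fun p => ?_)
    unfold d10t
    ring

theorem d10_s2 (h : Ends G e m Φ τ r W I) :
    Os (-2) fun p => Real.sqrt (Real.sqrt (c4M G Φ τ r p).det) - (1 + 1 / 4 * d10t m Φ τ r p) := by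
  have ht := d10_t h.cuts m
  refine d10_sqrt (d10_half ht _) (Eventually.of_forall fun p => Real.sqrt_nonneg _) ?_
  have h2 : Os (-2) fun p => 1 / 16 * (d10t m Φ τ r p * d10t m Φ τ r p) :=
    Os.const_mul (ht.mul ht (by norm_num)) _
  refine ((d10_s1 h).sub h2).congr (Eventually.of_forall fun p => ?_)
  ring

theorem d10_dA (h : Cuts G e Φ τ r W I) : ∀ᶠ p in Inf, dA G (Φ p.1) (τ p.1, p.2) = r p.1 ^ 2 * Real.sqrt (c4M G Φ τ r p).det := by
  filter_upwards [c4_all h] with p hp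
  unfold dA
  rw [hp.2.2.1, show r p.1 ^ 4 = (r p.1 ^ 2) ^ 2 by ring, Real.sqrt_mul (sq_nonneg _), Real.sqrt_sq (sq_nonneg _)]

theorem d_area (h : Ends G e m Φ τ r W I) :
    Os 0 fun p => dA G (Φ p.1) (τ p.1, p.2) -
      (r p.1 ^ 2 + r p.1 * (2 * m + ∑ i : Fin 3, pd i (devr (Φ p.1) (r p.1) (τ p.1) i.succ) p.2)) := by
  have h1 := ((c_r h.cuts).mul (c_r h.cuts) (j := 2) (by norm_num)).mul (d10_s1 h) (j := 0) (by norm_num)
  refine h1.congr ?_
  filter_upwards [d10_dA h.cuts, d10_trB h.cuts m, c4_all h.cuts] with p hp ht hr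
  have hr0 : r p.1 ≠ 0 := (lt_of_lt_of_le one_pos hr.1).ne'
  have hrr : r p.1 * (1 / r p.1) = 1 := mul_one_div_cancel hr0
  rw [hp]
  unfold d10t
  rw [ht]
  have e1 : ∑ i : Fin 3, pd i (devr (Φ p.1) (r p.1) (τ p.1) i.succ) p.2 = ∑ i, d10v Φ τ r i i p := rfl
  rw [e1]
  linear_combination (-(1 / 2) * r p.1 * (4 * m + 2 * ∑ i, d10v Φ τ r i i p)) * hrr

theorem d_wa (h : Ends G e m Φ τ r W I) :
    Os (-1) fun p => Real.sqrt (dA G (Φ p.1) (τ p.1, p.2)) -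
      (r p.1 + m + (∑ i : Fin 3, pd i (devr (Φ p.1) (r p.1) (τ p.1) i.succ) p.2) / 2) := by
  have h1 := (c_r h.cuts).mul (d10_s2 h) (j := -1) (by norm_num)
  refine h1.congr ?_
  filter_upwards [d10_dA h.cuts, d10_trB h.cuts m, c4_all h.cuts] with p hp ht hr
  have hr0 : r p.1 ≠ 0 := (lt_of_lt_of_le one_pos hr.1).ne'
  have hrr : r p.1 * (1 / r p.1) = 1 := mul_one_div_cancel hr0
  have hrp : 0 ≤ r p.1 := zero_le_one.trans hr.1
  rw [hp, Real.sqrt_mul (sq_nonneg _), Real.sqrt_sq hrp]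
  unfold d10t
  rw [ht]
  have e1 : ∑ i : Fin 3, pd i (devr (Φ p.1) (r p.1) (τ p.1) i.succ) p.2 = ∑ i, d10v Φ τ r i i p := rfl
  rw [e1]
  linear_combination (-(1 / 4) * (4 * m + 2 * ∑ i, d10v Φ τ r i i p)) * hrr

end H17Y
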