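import Pool.Agent.Lib.H17Y.D10

set_option autoImplicit false

/-!
# H17Y, chunk D11 (M): the mean value of the area radius

(a) `d_rho2`: `x = r n + η`, `η_i = devr (Φ s) (r s) (τ s) i.succ n = O(1)`: `|x|² = r² + 2 r n·η + |η|²`, and `| |x| - (r + n·η) | = | |x|² - (r + n·η)² | / (|x| + r + n·η) = O(1)/s`.
(b) `d11_flux`: `Z_i (x) = devr Ψ ρ s i.succ x / |x|²` is homogeneous of degree `-2` and smooth for `x ≠ 0`; `H17W.flux` (file `H17W.C1`) gives `∫ sum_i ∂_i Z_i = 0`,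
and on the sphere `∂_i Z_i = ∂_i devr_i - 2 n_i devr_i`. (c) `d_meanw`: `w - |x| - m = (sum ∂_i devr_i - 2 n·devr)/2 + O(1/s)` (`d_wa`, `d_rho2`); integrate (the integral of an `Os (-1)` function is `O(1/s)`, `e9b_int`; continuity from smoothness in `W`).
Auxiliary names start with `d11_`.
-/

open MeasureTheory Filter Topology Set Asymptotics
open scoped ContDiff

namespace H17Y

open H17W
open H17T (E4 pt pos tang slice second DEC)
open H17B (eta dl)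
open Pool.Agent.Lib.PenroseSph (E3 Tens S2 sm pd)

variable {G : E4 → Matrix (Fin 4) (Fin 4) ℝ} {e m : ℝ} {Φ : ℝ → ℝ × E3 → E4} {τ r : ℝ → ℝ} {W : ℝ → Set (ℝ × E3)} {I : ℝ → Set ℝ}

theorem d11_n (n : S2) (i : Fin 3) : |(n : E3) i| ≤ 1 := by
  have h : |(n : E3) i| ≤ ‖(n : E3)‖ := by
    rw [← Real.norm_eq_abs]
    exact PiLp.norm_apply_le (n : E3) i
  have h1 : ‖(n : E3)‖ = 1 := by simp
  rwa [h1] at h

theorem d11_sq (v : E3) : ‖v‖ ^ 2 = v 0 ^ 2 + v 1 ^ 2 + v 2 ^ 2 := by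
  rw [EuclideanSpace.norm_sq_eq, Fin.sum_univ_three]
  simp only [Real.norm_eq_abs, sq_abs]

theorem d11_alg {r C X : ℝ} {n η x : Fin 3 → ℝ} (hX : 0 ≤ X) (hXX : X ^ 2 = x 0 ^ 2 + x 1 ^ 2 + x 2 ^ 2)
    (hn : n 0 ^ 2 + n 1 ^ 2 + n 2 ^ 2 = 1) (hx : ∀ i, x i = r * n i + η i) (hC : ∀ i, |η i| ≤ C) (hn1 : ∀ i, |n i| ≤ 1) (hr : 6 * C ≤ r)
    (hr0 : 0 < r) : |X - (r + ∑ i : Fin 3, n i * η i)| ≤ 18 * C ^ 2 / r := by
  have hC0 : 0 ≤ C := (abs_nonneg _).trans (hC 0)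
  have hb : ∀ i, |n i * η i| ≤ C := fun i => by
    rw [abs_mul]
    have h1 := mul_le_mul (hn1 i) (hC i) (abs_nonneg _) zero_le_one
    linarith
  rw [Fin.sum_univ_three]
  obtain ⟨q, hq⟩ : ∃ q : ℝ, q = n 0 * η 0 + n 1 * η 1 + n 2 * η 2 := ⟨_, rfl⟩
  rw [← hq]
  have hq1 : |q| ≤ 3 * C := by
    rw [hq]
    have h0 := abs_le.1 (hb 0)
    have h1 := abs_le.1 (hb 1)
    have h2 := abs_le.1 (hb 2)
    rw [abs_le]
    constructor <;> linarith [h0.1, h0.2, h1.1, h1.2, h2.1, h2.2]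
  have hq2 := abs_le.1 hq1
  have hy : r / 2 ≤ r + q := by linarith [hq2.1]
  have hsq : ∀ i, η i ^ 2 ≤ C ^ 2 := fun i => sq_le_sq' (abs_le.1 (hC i)).1 (abs_le.1 (hC i)).2
  have e : X ^ 2 - (r + q) ^ 2 = (η 0 ^ 2 + η 1 ^ 2 + η 2 ^ 2) - q ^ 2 := by
    rw [hXX, hx 0, hx 1, hx 2, hq]
    linear_combination r ^ 2 * hn
  have hs0 := hsq 0
  have hs1 := hsq 1
  have hs2 := hsq 2
  have hq3 : q ^ 2 ≤ (3 * C) ^ 2 := sq_le_sq' hq2.1 hq2.2
  have h3 : |X ^ 2 - (r + q) ^ 2| ≤ 9 * C ^ 2 := by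
    rw [e, abs_le]
    constructor <;> nlinarith [sq_nonneg (η 0), sq_nonneg (η 1), sq_nonneg (η 2), sq_nonneg q, sq_nonneg C]
  have h4 : X ^ 2 - (r + q) ^ 2 = (X - (r + q)) * (X + (r + q)) := by ring
  rw [h4, abs_mul, abs_of_nonneg (by linarith : 0 ≤ X + (r + q))] at h3
  rw [le_div_iff₀ hr0]
  have h5 := abs_nonneg (X - (r + q))
  nlinarith

theorem d11_ph {Ψ : ℝ × E3 → E4} {W : Set (ℝ × E3)} {I : Set ℝ} (hR : RegI G Ψ W I) {s : ℝ} (hs : s ∈ I) {x : E3} (hx : x ≠ 0)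
    (a : Fin 4) : ContDiffAt ℝ ∞ (fun y : E3 => Ph Ψ (s, y) a) x := by
  have h1 := contDiffAt_euclidean.1 (hR.smooth (s, x) (hR.mem s hs x hx)) a
  have h2 : ContDiffAt ℝ ∞ (fun y : E3 => ((s, y) : ℝ × E3)) x := by fun_prop
  exact ContDiffAt.comp (g := fun p => Ph Ψ p a) x h1 h2

theorem d11_dev {Ψ : ℝ × E3 → E4} {W : Set (ℝ × E3)} {I : Set ℝ} (hR : RegI G Ψ W I) {s : ℝ} (hs : s ∈ I) (ρ : ℝ) {x : E3}
    (hx : x ≠ 0) (i : Fin 3) : ContDiffAt ℝ ∞ (devr Ψ ρ s i.succ) x := by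
  have h1 : ContDiffAt ℝ ∞ (fun y : E3 => ρ * (y i / ‖y‖)) x := by
    refine contDiffAt_const.mul (ContDiffAt.div (by fun_prop) (contDiffAt_norm ℝ hx) (norm_ne_zero_iff.2 hx))
  have e : devr Ψ ρ s i.succ = fun y : E3 => Ph Ψ (s, y) i.succ - ρ * (y i / ‖y‖) := by
    funext y
    unfold devr Ph
    simp
  rw [e]
  exact (d11_ph hR hs hx i.succ).sub h1

theorem d11_hom {Ψ : ℝ × E3 → E4} (ρ s : ℝ) (i : Fin 3) (x : E3) {c : ℝ} (hc : 0 < c) :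
    devr Ψ ρ s i.succ (c • x) = devr Ψ ρ s i.succ x := by
  have h1 : ‖c • x‖⁻¹ • (c • x) = ‖x‖⁻¹ • x := by
    rw [norm_smul, Real.norm_of_nonneg hc.le, smul_smul]
    congr 1
    rw [mul_inv]
    field_simp
  have h2 : (c • x) i / ‖c • x‖ = x i / ‖x‖ := by
    rw [norm_smul, Real.norm_of_nonneg hc.le]
    show c * x i / (c * ‖x‖) = _
    rw [mul_div_mul_left _ _ hc.ne']
  unfold devr
  rw [h1, Fin.cases_succ, Fin.cases_succ, h2]

theorem d11_pd {f : E3 → ℝ} {n : E3} (hn : ‖n‖ = 1) (hf : DifferentiableAt ℝ f n) (i : Fin 3) :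
    pd i (fun y => f y * (‖y‖ ^ 2)⁻¹) n = pd i f n - 2 * n i * f n := by
  have h2 : HasFDerivAt (fun y : E3 => ‖y‖ ^ 2) (2 • (innerSL ℝ n)) n := (hasStrictFDerivAt_norm_sq n).hasFDerivAt
  have h0 : ‖n‖ ^ 2 ≠ 0 := by
    rw [hn]
    norm_num
  have h3 := (hasDerivAt_inv h0).comp_hasFDerivAt n h2
  have h4 := hf.hasFDerivAt.mul h3
  have h5 : (fun y => f y * (‖y‖ ^ 2)⁻¹) = f * ((fun y : ℝ => y⁻¹) ∘ fun y : E3 => ‖y‖ ^ 2) := rfl
  unfold pd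
  rw [h5, h4.fderiv]
  simp only [ContinuousLinearMap.add_apply, ContinuousLinearMap.smul_apply, Function.comp_apply, hn, innerSL_apply_apply,
    EuclideanSpace.inner_single_right, smul_eq_mul, nsmul_eq_mul]
  simp
  ring

theorem d_rho2 (h : Cuts G e Φ τ r W I) :
    Os (-1) fun p => ‖pos (Ph (Φ p.1) (τ p.1, p.2))‖ -
      (r p.1 + ∑ i : Fin 3, p.2 i * devr (Φ p.1) (r p.1) (τ p.1) i.succ p.2) := by
  obtain ⟨C, R, hC⟩ := h.far
  refine Os.of_bound (18 * C ^ 2) (max R (max 1 (6 * C))) fun s hs hs0 n => ?_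
  obtain ⟨h1, h2, h3, _, h5, _⟩ := hC s ((le_max_left _ _).trans hs)
  have hs6 : 6 * C ≤ s := (le_max_right _ _).trans ((le_max_right _ _).trans hs)
  have hr : 0 < r s := hs0.trans_le h3
  have hn : ‖(n : E3)‖ = 1 := by simp
  have hd : ∀ i : Fin 3, devr (Φ s) (r s) (τ s) i.succ (n : E3) = pos (Ph (Φ s) (τ s, (n : E3))) i - r s * (n : E3) i := by
    intro i
    unfold devr
    rw [hn, inv_one, one_smul, Fin.cases_succ, div_one, ph_sph, e1a_pos]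
  have hn3 := d11_sq (n : E3)
  rw [hn] at hn3
  have key := d11_alg (r := r s) (C := C) (X := ‖pos (Ph (Φ s) (τ s, (n : E3)))‖) (n := fun i => (n : E3) i)
    (η := fun i => devr (Φ s) (r s) (τ s) i.succ (n : E3)) (x := fun i => pos (Ph (Φ s) (τ s, (n : E3))) i) (norm_nonneg _)
    (d11_sq _) (by linarith) (fun i => by rw [hd i]; ring) (fun i => (h5 n).1 i) (d11_n n) (hs6.trans h3) hr
  refine key.trans ?_
  rw [zpow_neg_one, ← div_eq_mul_inv]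
  exact div_le_div_of_nonneg_left (by positivity) hs0 h3

theorem d11_flux {Ψ : ℝ × E3 → E4} {W : Set (ℝ × E3)} {I : Set ℝ} (hR : RegI G Ψ W I) {s : ℝ} (hs : s ∈ I) (ρ : ℝ) :
    ∫ n : S2, ((∑ i : Fin 3, pd i (devr Ψ ρ s i.succ) (n : E3)) -
      2 * ∑ i : Fin 3, (n : E3) i * devr Ψ ρ s i.succ (n : E3)) ∂sm = 0 := by
  have h1 := flux (Z := fun x i => devr Ψ ρ s i.succ x * (‖x‖ ^ 2)⁻¹) (fun x hx i => ?_) (fun x hx c hc i => ?_)
  · rw [← h1]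
    refine integral_congr_ae (Eventually.of_forall fun n => ?_)
    have hn : ‖(n : E3)‖ = 1 := by simp
    show (∑ i : Fin 3, pd i (devr Ψ ρ s i.succ) (n : E3)) - 2 * ∑ i : Fin 3, (n : E3) i * devr Ψ ρ s i.succ (n : E3) =
      ∑ i, pd i (fun y : E3 => devr Ψ ρ s i.succ y * (‖y‖ ^ 2)⁻¹) (n : E3)
    rw [Finset.mul_sum, ← Finset.sum_sub_distrib]
    refine Finset.sum_congr rfl fun i _ => ?_
    rw [d11_pd hn ((d11_dev hR hs ρ e2b_sph i).differentiableAt (by simp)) i]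
    ring
  · have h2 : ContDiffAt ℝ 1 (fun y : E3 => (‖y‖ ^ 2)⁻¹) x :=
      ((contDiffAt_norm ℝ hx).pow 2).inv (pow_ne_zero 2 (norm_ne_zero_iff.2 hx))
    exact ((d11_dev hR hs ρ hx i).of_le (by simp)).mul h2
  · show devr Ψ ρ s i.succ (c • x) * (‖c • x‖ ^ 2)⁻¹ = devr Ψ ρ s i.succ x * (‖x‖ ^ 2)⁻¹ / c ^ 2
    rw [d11_hom ρ s i x hc, norm_smul, Real.norm_of_nonneg hc.le, mul_pow, mul_inv]
    field_simp

theorem d_meanw (h : Ends G e m Φ τ r W I) : ∃ K R : ℝ, ∀ s : ℝ, R ≤ s →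
    |∫ n : S2, (Real.sqrt (dA G (Φ s) (τ s, (n : E3))) - ‖pos (Ph (Φ s) (τ s, (n : E3)))‖ - m) ∂sm| ≤ K / s := by
  have hF : Os (-1) fun p => (Real.sqrt (dA G (Φ p.1) (τ p.1, p.2)) -
      (r p.1 + m + (∑ i : Fin 3, pd i (devr (Φ p.1) (r p.1) (τ p.1) i.succ) p.2) / 2)) -
      (‖pos (Ph (Φ p.1) (τ p.1, p.2))‖ - (r p.1 + ∑ i : Fin 3, p.2 i * devr (Φ p.1) (r p.1) (τ p.1) i.succ p.2)) :=
    (d_wa h).sub (d_rho2 h.cuts)
  obtain ⟨K, R, hR1, hK, hb⟩ := hF.bound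
  obtain ⟨C, R', hC⟩ := h.cuts.far
  refine ⟨K * (4 * Real.pi), max R R', fun s hs => ?_⟩
  obtain ⟨hreg, hmem, _⟩ := hC s ((le_max_right _ _).trans hs)
  have hs0 : 0 < s := lt_of_lt_of_le one_pos (hR1.trans ((le_max_left _ _).trans hs))
  have hb' := hb s ((le_max_left _ _).trans hs)
  obtain ⟨F, hFd⟩ : ∃ F : S2 → ℝ, F = fun n : S2 => (Real.sqrt (dA G (Φ s) (τ s, (n : E3))) -
      (r s + m + (∑ i : Fin 3, pd i (devr (Φ s) (r s) (τ s) i.succ) (n : E3)) / 2)) -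
      (‖pos (Ph (Φ s) (τ s, (n : E3)))‖ - (r s + ∑ i : Fin 3, (n : E3) i * devr (Φ s) (r s) (τ s) i.succ (n : E3))) := ⟨_, rfl⟩
  obtain ⟨g, hg⟩ : ∃ g : S2 → ℝ, g = fun n : S2 => (1 / 2) * ((∑ i : Fin 3, pd i (devr (Φ s) (r s) (τ s) i.succ) (n : E3)) -
      2 * ∑ i : Fin 3, (n : E3) i * devr (Φ s) (r s) (τ s) i.succ (n : E3)) := ⟨_, rfl⟩
  have hsplit : (fun n : S2 => Real.sqrt (dA G (Φ s) (τ s, (n : E3))) - ‖pos (Ph (Φ s) (τ s, (n : E3)))‖ - m) = fun n => F n + g n := by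
    funext n
    rw [hFd, hg]
    ring
  have hFb : ∀ n, |F n| ≤ K / s := fun n => by
    rw [hFd]
    have h1 := hb' n
    rw [zpow_neg_one, ← div_eq_mul_inv] at h1
    exact h1
  have hgi : Integrable g sm := by
    rw [hg]
    refine Integrable.const_mul ?_ _
    refine d3d_int (F := fun x : E3 => (∑ i : Fin 3, pd i (devr (Φ s) (r s) (τ s) i.succ) x) -
      2 * ∑ i : Fin 3, x i * devr (Φ s) (r s) (τ s) i.succ x) fun x hx => ?_
    refine ContinuousAt.sub (tendsto_finset_sum _ fun i _ => d3d_pdc (d11_dev hreg hmem _ hx i) i)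
      (continuousAt_const.mul (tendsto_finset_sum _ fun i _ => ?_))
    exact ContinuousAt.mul (by fun_prop) (d11_dev hreg hmem _ hx i).continuousAt
  have hg0 : ∫ n, g n ∂sm = 0 := by
    rw [hg, integral_const_mul, d11_flux hreg hmem, mul_zero]
  rw [hsplit]
  by_cases hi : Integrable F sm
  · rw [integral_add hi hgi, hg0, add_zero]
    refine (e9b_int hFb).trans (le_of_eq ?_)
    ring
  · have hni : ¬ Integrable (fun n => F n + g n) sm := fun hcon => hi (by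
      have h2 := hcon.sub hgi
      refine h2.congr (Eventually.of_forall fun n => ?_)
      show F n + g n - g n = F n
      ring)
    rw [integral_undef hni, abs_zero]
    have hpi := Real.pi_pos
    positivity

end H17Y
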