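import Pool.Agent.Lib.H17W.EB

set_option autoImplicit false

/-!
# H17Y, chunk D12 (M): the end cut, pure inequality

Everything is expressed with `r`; `4 π` is the measure of the sphere (`sm_univ`); continuous functions on the sphere are integrable (`integrable_S2`). Put `w = r + β`, `ρ = r + b`, `p = r + p1`, `p' = r + p1'`, `E = 2r + x1`, `T = 2r + y1`, all of `β, b, p1, p1', x1, y1` bounded by `K`; `O(.)` below with constants depending
on `K`, `m` only. (1) `p p' = r² + r(p1+p1') + p1 p1' = ρ² + 2mρ + O(1)` gives `p1 + p1' = 2b + 2m + O(1/r)`. (2) `p T + p' E = 4 r² + 2 r (p1+p1') + r (x1+y1) + O(1)`. (3) `2 Q w² = 4 r² + 8 r β - 4 m r + O(1)`. (4) `hI`: `r ∫ (x1+y1) = 8 r ∫ β - 16 π m r - 4 r ∫ (b + m) + O(1)`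
and `∫ (β - b - m) = O(1/r)` (`hw`), so `∫ (x1 + y1) = 4 ∫ β - 16 π m + O(1/r)`. (5) `sqrt (16 π ∫ w²) = 8 π r + 2 ∫ β + O(1/r)` (`|sqrt u - v| ≤ |u - v²|/v`, `16 π ∫ w² = 64 π² r² + 32 π r ∫ β + O(1)`), `∫ T = 8 π r + ∫ y1`, `2 r (1 - E/(2w)) = 2 β - x1 + O(1/r)`.
Sum: `8 π r + 2 ∫ β - 8 π r - ∫ y1 + 2 ∫ β - ∫ x1 + O(1/r) = 16 π m + O(1/r)`.
Auxiliary names start with `d12_`.
-/

open MeasureTheory Filter Topology Set Asymptotics
open scoped ContDiff

namespace H17Y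

open H17W
open H17T (E4 pt pos tang slice second DEC)
open H17B (eta dl)
open Pool.Agent.Lib.PenroseSph (E3 Tens S2 sm pd)


theorem d12_lin {k : ℕ} (c : Fin k → ℝ) (f : Fin k → S2 → ℝ) (hf : ∀ i, Continuous (f i)) :
    ∫ n, ∑ i, c i * f i n ∂sm = ∑ i, c i * ∫ n, f i n ∂sm := by
  have hi : ∀ i ∈ (Finset.univ : Finset (Fin k)), Integrable (fun n : S2 => c i * f i n) sm := fun i _ =>
    Pool.Agent.Lib.PenroseSph.integrable_S2 (continuous_const.mul (hf i))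
  rw [integral_finsetSum _ hi]
  simp only [integral_const_mul]

theorem d12_bd {F : S2 → ℝ} {c : ℝ} (h : ∀ n, |F n| ≤ c) : |∫ n, F n ∂sm| ≤ c * (4 * Real.pi) := by
  have h1 := norm_integral_le_of_norm_le_const (μ := sm) (f := F) (C := c) (Filter.Eventually.of_forall fun n => by
    rw [Real.norm_eq_abs]; exact h n)
  rw [Real.norm_eq_abs, Pool.Agent.Lib.PenroseSph.sm_univ] at h1
  exact h1

theorem d12_const (c : ℝ) : ∫ _n : S2, c ∂sm = c * (4 * Real.pi) := by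
  rw [integral_const, Pool.Agent.Lib.PenroseSph.sm_univ, smul_eq_mul, mul_comm]

/-- the first pointwise estimate -/
theorem d12_f1 {m K r E T p p' ρ : ℝ} (hK : 0 ≤ K) (hE : |E - 2 * r| ≤ K) (hT : |T - 2 * r| ≤ K) (hp : |p - r| ≤ K) (hp' : |p' - r| ≤ K)
    (hρ : |ρ - r| ≤ K) (hpp : |p * p' - (ρ ^ 2 + 2 * m * ρ)| ≤ K) :
    |p * T + p' * E - (4 * r * ρ + 4 * m * r + r * T + r * E - 4 * r ^ 2)| ≤ 2 * K + 6 * K ^ 2 + 4 * |m| * K := by
  have e : p * T + p' * E - (4 * r * ρ + 4 * m * r + r * T + r * E - 4 * r ^ 2) =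
      2 * (p * p' - (ρ ^ 2 + 2 * m * ρ)) - 2 * ((p - r) * (p' - r)) + (p - r) * (T - 2 * r) + (p' - r) * (E - 2 * r) +
        2 * ((ρ - r) * (ρ - r)) + 4 * (m * (ρ - r)) := by ring
  have hm2 : ∀ x y : ℝ, |x| ≤ K → |y| ≤ K → |x * y| ≤ K ^ 2 := by
    intro x y hx hy
    rw [abs_mul, sq]
    exact mul_le_mul hx hy (abs_nonneg _) hK
  have h1 := abs_le.1 hpp
  have h2 := abs_le.1 (hm2 _ _ hp hp')
  have h3 := abs_le.1 (hm2 _ _ hp hT)
  have h4 := abs_le.1 (hm2 _ _ hp' hE)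
  have h5 := abs_le.1 (hm2 _ _ hρ hρ)
  have h6 : |m * (ρ - r)| ≤ |m| * K := by
    rw [abs_mul]
    exact mul_le_mul_of_nonneg_left hρ (abs_nonneg _)
  have h7 := abs_le.1 h6
  rw [e, abs_le]
  constructor <;> linarith

/-- the second pointwise estimate -/
theorem d12_f2 {m K r w Q : ℝ} (hK : 0 ≤ K) (hr : 2 * K ≤ r) (hr1 : 1 ≤ r) (hw : |w - r| ≤ K) (hQ : |Q - (2 - 2 * m / r)| ≤ K / r ^ 2) :
    |2 * (Q * w ^ 2) - (8 * r * w - 4 * r ^ 2 - 4 * m * r)| ≤ 4 * K ^ 2 + 12 * |m| * K + 8 * K := by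
  have hr0 : 0 < r := by linarith
  have e : 2 * (Q * w ^ 2) - (8 * r * w - 4 * r ^ 2 - 4 * m * r) =
      4 * ((w - r) * (w - r)) - 4 * (m * ((w - r) * ((w + r) / r))) + 2 * ((Q - (2 - 2 * m / r)) * w ^ 2) := by
    field_simp
    ring
  have hw2 := abs_le.1 hw
  have h1 : |(w - r) * (w - r)| ≤ K ^ 2 := by
    rw [abs_mul, sq]
    exact mul_le_mul hw hw (abs_nonneg _) hK
  have h2 : |m * ((w - r) * ((w + r) / r))| ≤ |m| * (K * 3) := by
    rw [abs_mul, abs_mul]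
    refine mul_le_mul_of_nonneg_left (mul_le_mul hw ?_ (abs_nonneg _) hK) (abs_nonneg _)
    rw [abs_div, abs_of_pos hr0, div_le_iff₀ hr0, abs_le]
    constructor <;> linarith
  have h3 : |(Q - (2 - 2 * m / r)) * w ^ 2| ≤ 4 * K := by
    rw [abs_mul]
    have hww : |w ^ 2| ≤ 4 * r ^ 2 := by
      rw [abs_pow]
      have : |w| ≤ 2 * r := by
        rw [abs_le]
        constructor <;> linarith
      calc |w| ^ 2 ≤ (2 * r) ^ 2 := pow_le_pow_left₀ (abs_nonneg _) this 2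
        _ = 4 * r ^ 2 := by ring
    calc |Q - (2 - 2 * m / r)| * |w ^ 2| ≤ K / r ^ 2 * (4 * r ^ 2) := mul_le_mul hQ hww (abs_nonneg _) (by positivity)
      _ = 4 * K := by field_simp
  have g1 := abs_le.1 h1
  have g2 := abs_le.1 h2
  have g3 := abs_le.1 h3
  rw [e, abs_le]
  constructor <;> linarith

/-- the third pointwise estimate -/
theorem d12_f3 {K r w E : ℝ} (hK : 0 ≤ K) (hr : 2 * K ≤ r) (hr1 : 1 ≤ r) (hw : |w - r| ≤ K) (hE : |E - 2 * r| ≤ K) :
    |2 * r * (1 - E / (2 * w)) - (2 * w - E)| ≤ 6 * K ^ 2 / r := by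
  have hr0 : 0 < r := by linarith
  have hw2 := abs_le.1 hw
  have hw3 : r / 2 ≤ w := by linarith
  have hw0 : 0 < w := by linarith
  have e : 2 * r * (1 - E / (2 * w)) - (2 * w - E) = -((2 * w - E) * (w - r) / w) := by
    field_simp
    ring
  have hE2 := abs_le.1 hE
  have h1 : |(2 * w - E)| ≤ 3 * K := by
    rw [abs_le]
    constructor <;> linarith
  rw [e, abs_neg, abs_div, abs_mul, abs_of_pos hw0]
  calc |2 * w - E| * |w - r| / w ≤ 3 * K * K / (r / 2) := by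
        refine div_le_div₀ (by positivity) (mul_le_mul h1 hw (abs_nonneg _) (by positivity)) (by positivity) hw3
    _ = 6 * K ^ 2 / r := by
        field_simp
        ring

/-- the square root -/
theorem d12_sqrt {K r : ℝ} {w : S2 → ℝ} (hw : Continuous w) (hK : 0 ≤ K) (hr : 2 * K ≤ r) (hr1 : 1 ≤ r) (h : ∀ n, |w n - r| ≤ K) :
    |Real.sqrt (16 * Real.pi * ∫ n, w n ^ 2 ∂sm) - 2 * ∫ n, w n ∂sm| ≤ 16 * Real.pi * K ^ 2 / r := by
  have hr0 : 0 < r := by linarith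
  obtain ⟨V, hV⟩ : ∃ V : ℝ, V = ∫ n, (w n - r) ∂sm := ⟨_, rfl⟩
  obtain ⟨Y, hY⟩ : ∃ Y : ℝ, Y = ∫ n, (w n - r) ^ 2 ∂sm := ⟨_, rfl⟩
  have hVb : |V| ≤ K * (4 * Real.pi) := by rw [hV]; exact d12_bd h
  have hYb : Y ≤ K ^ 2 * (4 * Real.pi) := by
    rw [hY]
    refine (le_abs_self _).trans (d12_bd fun n => ?_)
    rw [abs_pow]
    exact pow_le_pow_left₀ (abs_nonneg _) (h n) 2
  have hw1 : ∫ n, w n ∂sm = V + r * (4 * Real.pi) := by
    rw [hV, integral_sub (Pool.Agent.Lib.PenroseSph.integrable_S2 hw) (Pool.Agent.Lib.PenroseSph.integrable_S2 continuous_const), d12_const]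
    ring
  have hw2 : ∫ n, w n ^ 2 ∂sm = Y + 2 * r * V + r ^ 2 * (4 * Real.pi) := by
    have e1 := d12_lin (k := 3) ![1, 2 * r, r ^ 2] ![fun n => (w n - r) ^ 2, fun n => w n - r, fun _ => 1] (by
      intro i
      fin_cases i
      · exact (hw.sub continuous_const).pow 2
      · exact hw.sub continuous_const
      · exact continuous_const)
    simp only [Fin.sum_univ_three, Matrix.cons_val_zero, Matrix.cons_val_one, Matrix.cons_val] at e1
    rw [d12_const] at e1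
    have e2 : (fun n => w n ^ 2) = fun n => 1 * (w n - r) ^ 2 + 2 * r * (w n - r) + r ^ 2 * 1 := by
      funext n
      ring
    rw [e2, e1, ← hV, ← hY]
    ring
  obtain ⟨A, hA⟩ : ∃ A : ℝ, A = 4 * Real.pi := ⟨_, rfl⟩
  have hA0 : 0 < A := by rw [hA]; positivity
  rw [← hA] at hVb hYb hw1 hw2
  have e16 : 16 * Real.pi = 4 * A := by rw [hA]; ring
  rw [e16, hw1, hw2]
  have hVb2 := abs_le.1 hVb
  have hlow : A * r ≤ 2 * (V + r * A) := by nlinarith
  have hcs : V ^ 2 ≤ A * Y := by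
    -- Cauchy-Schwarz: the integral of the square of `A (w - r) - V` is nonnegative
    have h0 : 0 ≤ ∫ n, (A * (w n - r) - V) ^ 2 ∂sm := integral_nonneg fun n => sq_nonneg _
    have e1 := d12_lin (k := 3) ![A ^ 2, -(2 * A * V), V ^ 2] ![fun n => (w n - r) ^ 2, fun n => w n - r, fun _ => 1] (by
      intro i
      fin_cases i
      · exact (hw.sub continuous_const).pow 2
      · exact hw.sub continuous_const
      · exact continuous_const)
    simp only [Fin.sum_univ_three, Matrix.cons_val_zero, Matrix.cons_val_one, Matrix.cons_val] at e1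
    rw [d12_const, ← hA] at e1
    have e2 : (fun n => (A * (w n - r) - V) ^ 2) = fun n => A ^ 2 * (w n - r) ^ 2 + -(2 * A * V) * (w n - r) + V ^ 2 * 1 := by
      funext n
      ring
    rw [e2, e1, ← hV, ← hY] at h0
    have h2 : 0 ≤ A * (A * Y - V ^ 2) := by nlinarith
    have := nonneg_of_mul_nonneg_right h2 hA0
    linarith
  have hsq : 0 ≤ 4 * A * (Y + 2 * r * V + r ^ 2 * A) := by
    have : 0 ≤ (V + r * A) ^ 2 := sq_nonneg _
    nlinarith
  obtain ⟨S, hS⟩ : ∃ S : ℝ, S = Real.sqrt (4 * A * (Y + 2 * r * V + r ^ 2 * A)) := ⟨_, rfl⟩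
  have hS0 : 0 ≤ S := by rw [hS]; exact Real.sqrt_nonneg _
  have hS2 : S ^ 2 = 4 * A * (Y + 2 * r * V + r ^ 2 * A) := by rw [hS]; exact Real.sq_sqrt hsq
  rw [← hS]
  have hdiff : (S - 2 * (V + r * A)) * (S + 2 * (V + r * A)) = 4 * (A * Y - V ^ 2) := by nlinarith
  have hAr : 0 < A * r := by positivity
  have hden : A * r ≤ S + 2 * (V + r * A) := by linarith
  have hnum : 4 * (A * Y - V ^ 2) ≤ 4 * A * (K ^ 2 * A) := by nlinarith [sq_nonneg V, mul_le_mul_of_nonneg_left hYb hA0.le]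
  have hge : 0 ≤ S - 2 * (V + r * A) := by
    by_contra hneg
    rw [not_le] at hneg
    have : (S - 2 * (V + r * A)) * (S + 2 * (V + r * A)) < 0 := mul_neg_of_neg_of_pos hneg (by linarith)
    linarith
  rw [abs_of_nonneg hge, le_div_iff₀ hr0]
  have h5 : (S - 2 * (V + r * A)) * (A * r) ≤ 4 * A * (K ^ 2 * A) := by
    calc (S - 2 * (V + r * A)) * (A * r) ≤ (S - 2 * (V + r * A)) * (S + 2 * (V + r * A)) := mul_le_mul_of_nonneg_left hden hge
      _ ≤ _ := by rw [hdiff]; exact hnum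
  have h6 : A * ((S - 2 * (V + r * A)) * r) ≤ A * (4 * A * K ^ 2) := by linarith
  exact le_of_mul_le_mul_left h6 hA0

theorem end_pure (m K : ℝ) : ∃ K' R : ℝ, ∀ r : ℝ, R ≤ r → ∀ E T p p' ρ w Q : S2 → ℝ, Continuous E → Continuous T → Continuous p →
    Continuous p' → Continuous ρ → Continuous w → Continuous Q → (∀ n, |E n - 2 * r| ≤ K) → (∀ n, |T n - 2 * r| ≤ K) →
    (∀ n, |p n - r| ≤ K) → (∀ n, |p' n - r| ≤ K) → (∀ n, |ρ n - r| ≤ K) → (∀ n, |w n - r| ≤ K) →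
    (∀ n, |p n * p' n - (ρ n ^ 2 + 2 * m * ρ n)| ≤ K) → (∀ n, |Q n - (2 - 2 * m / r)| ≤ K / r ^ 2) →
    (∫ n, (p n * T n + p' n * E n) ∂sm = 2 * ∫ n, Q n * w n ^ 2 ∂sm) → |∫ n, (w n - ρ n - m) ∂sm| ≤ K / r →
    |Real.sqrt (16 * Real.pi * ∫ n, w n ^ 2 ∂sm) - (∫ n, T n ∂sm) + 2 * r * (∫ n, (1 - E n / (2 * w n)) ∂sm) -
      16 * Real.pi * m| ≤ K' / r := by
  refine ⟨16 * Real.pi * K ^ 2 + 6 * K ^ 2 * (4 * Real.pi) + ((2 * K + 6 * K ^ 2 + 4 * |m| * K) + (4 * K ^ 2 + 12 * |m| * K + 8 * K)) * (4 * Real.pi) +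
    4 * K, max (2 * K) 1, ?_⟩
  intro r hR E T p p' ρ w Q cE cT cp cp' cρ cw cQ hE hT hp hp' hρ hw hpp hQ hI hW
  have hr : 2 * K ≤ r := (le_max_left _ _).trans hR
  have hr1 : 1 ≤ r := (le_max_right _ _).trans hR
  have hr0 : 0 < r := by linarith
  have hK : 0 ≤ K := by
    obtain ⟨n⟩ : Nonempty S2 := inferInstance
    exact (abs_nonneg _).trans (hw n)
  have hwpos : ∀ n, w n ≠ 0 := by
    intro n
    have := abs_le.1 (hw n)
    have h2 : 0 < w n := by linarith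
    exact h2.ne'
  have int : ∀ {F : S2 → ℝ}, Continuous F → Integrable F sm := fun hF => Pool.Agent.Lib.PenroseSph.integrable_S2 hF
  obtain ⟨A, hA⟩ : ∃ A : ℝ, A = 4 * Real.pi := ⟨_, rfl⟩
  have hA0 : 0 < A := by rw [hA]; positivity
  -- (c)
  have hc : |4 * (∫ n, ρ n ∂sm) + 8 * m * A + (∫ n, T n ∂sm) + (∫ n, E n ∂sm) - 8 * (∫ n, w n ∂sm)| ≤
      ((2 * K + 6 * K ^ 2 + 4 * |m| * K) + (4 * K ^ 2 + 12 * |m| * K + 8 * K)) * A / r := by
    have h1 := d12_bd (F := fun n => (p n * T n + p' n * E n - (4 * r * ρ n + 4 * m * r + r * T n + r * E n - 4 * r ^ 2)) -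
      (2 * (Q n * w n ^ 2) - (8 * r * w n - 4 * r ^ 2 - 4 * m * r)))
      (c := (2 * K + 6 * K ^ 2 + 4 * |m| * K) + (4 * K ^ 2 + 12 * |m| * K + 8 * K)) (fun n =>
        (abs_sub _ _).trans (add_le_add (d12_f1 hK (hE n) (hT n) (hp n) (hp' n) (hρ n) (hpp n)) (d12_f2 hK hr hr1 (hw n) (hQ n))))
    have e1 := d12_lin (k := 7) ![1, -2, -(4 * r), -(8 * m * r), -r, -r, 8 * r]
      ![fun n => p n * T n + p' n * E n, fun n => Q n * w n ^ 2, ρ, fun _ => 1, T, E, w] (by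
      intro i
      fin_cases i
      · exact (cp.mul cT).add (cp'.mul cE)
      · exact cQ.mul (cw.pow 2)
      · exact cρ
      · exact continuous_const
      · exact cT
      · exact cE
      · exact cw)
    have e2 : (fun n => (p n * T n + p' n * E n - (4 * r * ρ n + 4 * m * r + r * T n + r * E n - 4 * r ^ 2)) -
      (2 * (Q n * w n ^ 2) - (8 * r * w n - 4 * r ^ 2 - 4 * m * r))) = fun n => ∑ i, (![1, -2, -(4 * r), -(8 * m * r), -r, -r, 8 * r] : Fin 7 → ℝ) i *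
        (![fun n => p n * T n + p' n * E n, fun n => Q n * w n ^ 2, ρ, fun _ => 1, T, E, w] : Fin 7 → S2 → ℝ) i n := by
      funext n
      simp only [Fin.sum_univ_seven, Matrix.cons_val_zero, Matrix.cons_val_one, Matrix.cons_val]
      ring
    rw [e2, e1] at h1
    simp only [Fin.sum_univ_seven, Matrix.cons_val_zero, Matrix.cons_val_one, Matrix.cons_val] at h1
    rw [d12_const, ← hA, hI] at h1
    rw [le_div_iff₀ hr0]
    have e3 : ∀ X : ℝ, |X| * r = |-(X * r)| := fun X => by rw [abs_neg, abs_mul, abs_of_pos hr0]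
    rw [e3]
    refine le_trans (le_of_eq ?_) h1
    congr 1
    ring
  -- (d)
  have hd : |(∫ n, w n ∂sm) - (∫ n, ρ n ∂sm) - m * A| ≤ K / r := by
    have e1 := d12_lin (k := 3) ![1, -1, -m] ![w, ρ, fun _ => 1] (by
      intro i
      fin_cases i
      · exact cw
      · exact cρ
      · exact continuous_const)
    have e2 : (fun n => w n - ρ n - m) = fun n => ∑ i, (![1, -1, -m] : Fin 3 → ℝ) i * (![w, ρ, fun _ => 1] : Fin 3 → S2 → ℝ) i n := by
      funext n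
      simp only [Fin.sum_univ_three, Matrix.cons_val_zero, Matrix.cons_val_one, Matrix.cons_val]
      ring
    rw [e2, e1] at hW
    simp only [Fin.sum_univ_three, Matrix.cons_val_zero, Matrix.cons_val_one, Matrix.cons_val] at hW
    rw [d12_const, ← hA] at hW
    refine le_trans (le_of_eq ?_) hW
    congr 1
    ring
  -- (e)
  have he := d12_sqrt cw hK hr hr1 hw
  -- (f)
  have hf : |2 * r * (∫ n, (1 - E n / (2 * w n)) ∂sm) - (2 * (∫ n, w n ∂sm) - (∫ n, E n ∂sm))| ≤ 6 * K ^ 2 * A / r := by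
    have h1 := d12_bd (F := fun n => 2 * r * (1 - E n / (2 * w n)) - (2 * w n - E n)) (c := 6 * K ^ 2 / r)
      (fun n => d12_f3 hK hr hr1 (hw n) (hE n))
    have c1 : Continuous fun n => 1 - E n / (2 * w n) :=
      continuous_const.sub (cE.div (continuous_const.mul cw) (fun n => mul_ne_zero two_ne_zero (hwpos n)))
    have e1 := d12_lin (k := 3) ![2 * r, -2, 1] ![fun n => 1 - E n / (2 * w n), w, E] (by
      intro i
      fin_cases i
      · exact c1
      · exact cw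
      · exact cE)
    have e2 : (fun n => 2 * r * (1 - E n / (2 * w n)) - (2 * w n - E n)) =
        fun n => ∑ i, (![2 * r, -2, 1] : Fin 3 → ℝ) i * (![fun n => 1 - E n / (2 * w n), w, E] : Fin 3 → S2 → ℝ) i n := by
      funext n
      simp only [Fin.sum_univ_three, Matrix.cons_val_zero, Matrix.cons_val_one, Matrix.cons_val]
      ring
    rw [e2, e1] at h1
    simp only [Fin.sum_univ_three, Matrix.cons_val_zero, Matrix.cons_val_one, Matrix.cons_val] at h1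
    rw [← hA] at h1
    have e4 : 6 * K ^ 2 / r * A = 6 * K ^ 2 * A / r := by ring
    rw [e4] at h1
    refine le_trans (le_of_eq ?_) h1
    congr 1
    ring
  have e16 : 16 * Real.pi = 4 * A := by rw [hA]; ring
  rw [e16] at he ⊢
  have g1 := abs_le.1 hc
  have g2 := abs_le.1 hd
  have g3 := abs_le.1 he
  have g4 := abs_le.1 hf
  rw [← hA]
  have hsum : (4 * A * K ^ 2 + 6 * K ^ 2 * A + (2 * K + 6 * K ^ 2 + 4 * |m| * K + (4 * K ^ 2 + 12 * |m| * K + 8 * K)) * A + 4 * K) / r =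
      4 * A * K ^ 2 / r + 6 * K ^ 2 * A / r + ((2 * K + 6 * K ^ 2 + 4 * |m| * K) + (4 * K ^ 2 + 12 * |m| * K + 8 * K)) * A / r + 4 * (K / r) := by
    ring
  rw [hsum, abs_le]
  constructor <;> linarith

end H17Y
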