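import Pool.Agent.Lib.H17Y.D1

set_option autoImplicit false

/-!
# H17Y, chunk D2 (M): second derivatives of the end cuts

Port of `H17W.E2C`.
Auxiliary names start with `d2_`.
-/

open MeasureTheory Filter Topology Set Asymptotics
open scoped ContDiff

namespace H17Y

open H17W
open H17T (E4 pt pos tang slice second DEC)
open H17B (eta dl)
open Pool.Agent.Lib.PenroseSph (E3 Tens S2 sm pd)

variable {G : E4 → Matrix (Fin 4) (Fin 4) ℝ} {e m : ℝ} {Φ : ℝ → ℝ × E3 → E4} {τ r : ℝ → ℝ} {W : ℝ → Set (ℝ × E3)} {I : ℝ → Set ℝ}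

theorem d2_eq {Ψ : ℝ × E3 → E4} {W : Set (ℝ × E3)} {I : Set ℝ} (h : RegI G Ψ W I) {s : ℝ} (hs : s ∈ I) (ρ : ℝ) (k i : Fin 3) (n : S2) :
    fderiv ℝ (fun q => XX Ψ i q 0) (s, (n : E3)) (dX k) = pd k (fun y => pd i (devr Ψ ρ s 0) y) n ∧
    ∀ l : Fin 3, fderiv ℝ (fun q => XX Ψ i q l.succ) (s, (n : E3)) (dX k) = pd k (fun y => pd i (devr Ψ ρ s l.succ) y) n +
      ρ * pd k (fun y : E3 => pd i (fun z : E3 => z l / ‖z‖) y) n := by
  have hne : (n : E3) ≠ 0 := e2b_sph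
  have hd : ∀ a, DifferentiableAt ℝ (fun q => XX Ψ i q a) (s, (n : E3)) := fun a =>
    (XX_smooth h (h.mem s hs n hne) i a).differentiableAt (by simp)
  have hnear : ∀ᶠ y : E3 in 𝓝 (n : E3), y ≠ 0 := isOpen_ne.mem_nhds hne
  refine ⟨?_, fun l => ?_⟩
  · rw [eq_pd (hd 0) k]
    have e : (fun y => XX Ψ i (s, y) 0) =ᶠ[𝓝 (n : E3)] fun y => pd i (devr Ψ ρ s 0) y := by
      filter_upwards [hnear] with y hy
      exact (c_xdev h hs hy ρ i).1
    unfold pd at e ⊢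
    rw [e.fderiv_eq]
  · rw [eq_pd (hd l.succ) k]
    have hX := e2b_slice (hd l.succ)
    have hR := e2c_rayd i l hne
    have e : (fun y => pd i (devr Ψ ρ s l.succ) y) =ᶠ[𝓝 (n : E3)]
        fun y => XX Ψ i (s, y) l.succ - ρ * pd i (fun z : E3 => z l / ‖z‖) y := by
      filter_upwards [hnear] with y hy
      rw [(c_xdev h hs hy ρ i).2 l]
      ring
    have e2 : pd k (fun y => pd i (devr Ψ ρ s l.succ) y) n =
        pd k (fun y => XX Ψ i (s, y) l.succ - ρ * pd i (fun z : E3 => z l / ‖z‖) y) n := by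
      show fderiv ℝ _ _ _ = fderiv ℝ _ _ _
      rw [e.fderiv_eq]
    rw [e2]
    show fderiv ℝ (fun y => XX Ψ i (s, y) l.succ) (n : E3) _ =
      fderiv ℝ (fun y => XX Ψ i (s, y) l.succ - ρ * pd i (fun z : E3 => z l / ‖z‖) y) (n : E3) _ +
        ρ * fderiv ℝ (fun y : E3 => pd i (fun z : E3 => z l / ‖z‖) y) (n : E3) _
    rw [fderiv_fun_sub hX (hR.const_mul ρ), fderiv_const_mul hR]
    simp

theorem d_dxx0 (h : Cuts G e Φ τ r W I) (k i : Fin 3) :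
    Os 0 fun p => fderiv ℝ (fun q => XX (Φ p.1) i q 0) (τ p.1, p.2) (dX k) := by
  obtain ⟨C, R, hC⟩ := h.far
  refine Os.of_bound C R fun s hs hs0 n => ?_
  obtain ⟨h1, h2, _, _, h5, _⟩ := hC s hs
  show |fderiv ℝ (fun q => XX (Φ s) i q 0) (τ s, (n : E3)) (dX k)| ≤ _
  rw [(d2_eq h1 h2 (r s) k i n).1, zpow_zero, mul_one]
  exact (h5 n).2.2.1 0 k i

theorem d_dxx (h : Cuts G e Φ τ r W I) (k i l : Fin 3) :
    Os 0 fun p => fderiv ℝ (fun q => XX (Φ p.1) i q l.succ) (τ p.1, p.2) (dX k) - r p.1 * (3 * p.2 i * p.2 l * p.2 k -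
      (if i = l then 1 else 0) * p.2 k - (if i = k then 1 else 0) * p.2 l - (if l = k then 1 else 0) * p.2 i) := by
  obtain ⟨C, R, hC⟩ := h.far
  refine Os.of_bound C R fun s hs hs0 n => ?_
  obtain ⟨h1, h2, _, _, h5, _⟩ := hC s hs
  have hn : ‖(n : E3)‖ = 1 := by simp
  show |fderiv ℝ (fun q => XX (Φ s) i q l.succ) (τ s, (n : E3)) (dX k) - r s * (3 * (n : E3) i * (n : E3) l * (n : E3) k -
      (if i = l then 1 else 0) * (n : E3) k - (if i = k then 1 else 0) * (n : E3) l - (if l = k then 1 else 0) * (n : E3) i)| ≤ _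
  rw [(d2_eq h1 h2 (r s) k i n).2 l, e2_ray2 hn k i l, zpow_zero, mul_one, add_sub_cancel_right]
  exact (h5 n).2.2.1 l.succ k i

theorem d2_chr (h : Ends G e m Φ τ r W I) (k i : Fin 3) (a : Fin 4) :
    Os 0 fun p => ∑ b, ∑ c, H31R.chr G a b c (Ph (Φ p.1) (τ p.1, p.2)) * XX (Φ p.1) k (τ p.1, p.2) b *
      XX (Φ p.1) i (τ p.1, p.2) c := by
  refine Os.sum _ fun b _ => Os.sum _ fun c _ => ?_
  exact ((d_chr h a b c).mul (c_xx1 h.cuts k b) (j := -1) (by norm_num)).mul (c_xx1 h.cuts i c) (by norm_num)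

theorem d_cov0 (h : Ends G e m Φ τ r W I) (k i : Fin 3) :
    Os 0 fun p => cov G (Ph (Φ p.1)) (XX (Φ p.1) i) (τ p.1, p.2) (dX k) 0 :=
  (d_dxx0 h.cuts k i).add (d2_chr h k i 0)

theorem d_cov (h : Ends G e m Φ τ r W I) (k i l : Fin 3) :
    Os 0 fun p => cov G (Ph (Φ p.1)) (XX (Φ p.1) i) (τ p.1, p.2) (dX k) l.succ - r p.1 * (3 * p.2 i * p.2 l * p.2 k -
      (if i = l then 1 else 0) * p.2 k - (if i = k then 1 else 0) * p.2 l - (if l = k then 1 else 0) * p.2 i) := by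
  refine ((d_dxx h.cuts k i l).add (d2_chr h k i l.succ)).congr (Eventually.of_forall fun p => ?_)
  have e : cov G (Ph (Φ p.1)) (XX (Φ p.1) i) (τ p.1, p.2) (dX k) l.succ =
      fderiv ℝ (fun q => XX (Φ p.1) i q l.succ) (τ p.1, p.2) (dX k) +
      ∑ b, ∑ c, H31R.chr G l.succ b c (Ph (Φ p.1) (τ p.1, p.2)) * XX (Φ p.1) k (τ p.1, p.2) b *
      XX (Φ p.1) i (τ p.1, p.2) c := rfl
  rw [e]
  ring

end H17Y
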