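import Pool.Agent.Lib.H17Y.E0
import Pool.Agent.Lib.H17W.E7A

set_option autoImplicit false

/-!
# H17Y, chunk D6 (M): the divergence of the position field, II

Exact identity. `cov (DD) (dX i) = (X_i - X_i^0 xi) + gam (X_i, D)` (the derivative of `DD^a` in the direction `dX i` is `X_i^a` for `a = l.succ`, `0` for `a = 0`; `xi = ∂_T`).
By the symmetry of `QQ` (`QQ_symm`): `sum QQ_ij <gam(X_i,D), X_j> = (1/2) sum QQ_ij (<gam(X_i,D), X_j> + <X_i, gam(X_j,D)>) = (1/2) sum QQ_ij sum_ab (D·∂ G_ab) X_i^a X_j^b`, where for every vector `D` with components `D^c`: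
`<gam(u,D), w> + <u, gam(w,D)> = sum_abc D^c ∂_c G_ab u^a w^b` (compare `H17W.e5_kill`, the case `D = xi`, and `e5a_lower`). `sum QQ_ij <X_i, X_j> = 2` (`hQ` gives `sum_j hh_ij QQ_jk = δ_ik - x_i x_k/|x|²`; see also `H17W.B2A`).
Auxiliary names start with `d6_`.
-/

open MeasureTheory Filter Topology Set Asymptotics
open scoped ContDiff

namespace H17Y

open H17W
open H17T (E4 pt pos tang slice second DEC)
open H17B (eta dl)
open Pool.Agent.Lib.PenroseSph (E3 Tens S2 sm pd)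

variable {G : E4 → Matrix (Fin 4) (Fin 4) ℝ} {Ψ : ℝ × E3 → E4} {W : Set (ℝ × E3)} {I : Set ℝ}

theorem d6_left {p : E4} (h : MetAt G p) (u w D : Fin 4 → ℝ) :
    ip G p (gam G p u D) w = ∑ a, ∑ b, (∑ c, D c * (1 / 2 * (H31R.pd a (fun y => G y c b) p +
      H31R.pd c (fun y => G y a b) p - H31R.pd b (fun y => G y a c) p))) * u a * w b := by
  have e1 : ip G p (gam G p u D) w =
      ∑ l, ∑ b, ∑ a, (∑ c, G p l b * H31R.chr G l a c p * D c) * u a * w b := by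
    unfold ip
    refine Finset.sum_congr rfl fun l _ => Finset.sum_congr rfl fun b _ => ?_
    unfold gam
    rw [Finset.mul_sum, Finset.sum_mul]
    refine Finset.sum_congr rfl fun a _ => ?_
    rw [Finset.mul_sum, Finset.sum_mul, Finset.sum_mul, Finset.sum_mul]
    exact Finset.sum_congr rfl fun c _ => by ring
  have e2 : ∀ a b : Fin 4, (∑ c, D c * (1 / 2 * (H31R.pd a (fun y => G y c b) p +
      H31R.pd c (fun y => G y a b) p - H31R.pd b (fun y => G y a c) p))) * u a * w b =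
      ∑ l, (∑ c, G p l b * H31R.chr G l a c p * D c) * u a * w b := by
    intro a b
    rw [← Finset.sum_mul, ← Finset.sum_mul, Finset.sum_comm]
    congr 2
    refine Finset.sum_congr rfl fun c _ => ?_
    rw [← e5a_lower h a c b, ← Finset.sum_mul, mul_comm]
  simp_rw [e2]
  rw [e1, Finset.sum_comm]
  calc ∑ b, ∑ l, ∑ a, (∑ c, G p l b * H31R.chr G l a c p * D c) * u a * w b
      = ∑ b, ∑ a, ∑ l, (∑ c, G p l b * H31R.chr G l a c p * D c) * u a * w b :=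
        Finset.sum_congr rfl fun b _ => Finset.sum_comm
    _ = _ := Finset.sum_comm

theorem d6_killp {p : E4} (hm : MetAt G p) (u w D : Fin 4 → ℝ) :
    ip G p (gam G p u D) w + ip G p u (gam G p w D) =
      ∑ a, ∑ b, (∑ c, D c * H31R.pd c (fun q => G q a b) p) * u a * w b := by
  rw [e5a_ipcomm hm u, d6_left hm, d6_left hm]
  rw [Finset.sum_comm (f := fun a b => (∑ c, D c * (1 / 2 * (H31R.pd a (fun y => G y c b) p +
      H31R.pd c (fun y => G y a b) p - H31R.pd b (fun y => G y a c) p))) * w a * u b),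
    ← Finset.sum_add_distrib]
  refine Finset.sum_congr rfl fun a _ => ?_
  rw [← Finset.sum_add_distrib]
  refine Finset.sum_congr rfl fun b _ => ?_
  have e : (∑ c, D c * H31R.pd c (fun q => G q a b) p) =
      (∑ c, D c * (1 / 2 * (H31R.pd a (fun y => G y c b) p +
      H31R.pd c (fun y => G y a b) p - H31R.pd b (fun y => G y a c) p))) +
      (∑ c, D c * (1 / 2 * (H31R.pd b (fun y => G y c a) p +
      H31R.pd c (fun y => G y b a) p - H31R.pd a (fun y => G y b c) p))) := by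
    rw [← Finset.sum_add_distrib]
    refine Finset.sum_congr rfl fun c _ => ?_
    rw [e5a_pd hm b a c, e5a_pd hm c b a, e5a_pd hm c a b]
    ring
  rw [e]
  ring

/-- The connection is metric. -/
theorem d6_kill (hR : RegI G Ψ W I) {p : ℝ × E3} (hp : p ∈ W) (u w D : Fin 4 → ℝ) :
    ip G (Ph Ψ p) (gam G (Ph Ψ p) u D) w + ip G (Ph Ψ p) u (gam G (Ph Ψ p) w D) =
      ∑ a, ∑ b, (∑ c, D c * H31R.pd c (fun q => G q a b) (Ph Ψ p)) * u a * w b := by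
  exact d6_killp (hR.met p hp) u w D


theorem d6_two (hR : RegI G Ψ W I) {p : ℝ × E3} (hp : p ∈ W) : ∑ i, ∑ j, QQ G Ψ i j p * hh G Ψ i j p = 2 := by
  have h1 : ∀ i, ∑ j, QQ G Ψ i j p * hh G Ψ i j p = 1 - p.2 i * p.2 i / ‖p.2‖ ^ 2 := by
    intro i
    have h2 := hQ hR hp i i
    rw [if_pos rfl] at h2
    rw [← h2]
    refine Finset.sum_congr rfl fun j _ => ?_
    rw [QQ_symm hR hp i j]
    ring
  have hx := b2a_norm p
  have hne : ‖p.2‖ ≠ 0 := norm_ne_zero_iff.2 (hR.ne p hp)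
  simp only [h1]
  rw [Fin.sum_univ_three]
  rw [Fin.sum_univ_three] at hx
  field_simp
  rw [hx]
  ring


theorem d6_cov (hR : RegI G Ψ W I) {s : ℝ} (hs : s ∈ I) {x : E3} (hx : x ≠ 0) :
    ∑ i, ∑ j, QQ G Ψ i j (s, x) * ip G (Ph Ψ (s, x)) (cov G (Ph Ψ) (DD Ψ) (s, x) (dX i)) (XX Ψ j (s, x)) =
    2 - (∑ i, ∑ j, QQ G Ψ i j (s, x) * (XX Ψ i (s, x) 0 * ip G (Ph Ψ (s, x)) xi (XX Ψ j (s, x)))) +
      (∑ i, ∑ j, QQ G Ψ i j (s, x) * ∑ a, ∑ b, (∑ l : Fin 3, pos (Ph Ψ (s, x)) l *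
        H31R.pd l.succ (fun q => G q a b) (Ph Ψ (s, x))) * XX Ψ i (s, x) a * XX Ψ j (s, x) b) / 2 := by
  have hp : (s, x) ∈ W := hR.mem s hs x hx
  have hm := hR.met _ hp
  have hcov : ∀ i, cov G (Ph Ψ) (DD Ψ) (s, x) (dX i) =
      (XX Ψ i (s, x) + (-(XX Ψ i (s, x) 0)) • xi) + gam G (Ph Ψ (s, x)) (XX Ψ i (s, x)) (DD Ψ (s, x)) := by
    intro i
    funext a
    show fderiv ℝ (fun y => DD Ψ y a) (s, x) (dX i) + gam G (Ph Ψ (s, x)) (vel (Ph Ψ) (s, x) (dX i)) (DD Ψ (s, x)) a =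
      (XX Ψ i (s, x) a + (-(XX Ψ i (s, x) 0)) * xi a) + gam G (Ph Ψ (s, x)) (XX Ψ i (s, x)) (DD Ψ (s, x)) a
    congr 1
    refine Fin.cases ?_ (fun l => ?_) a
    · have h1 : (fun y : ℝ × E3 => DD Ψ y 0) = fun _ => 0 := rfl
      rw [h1]
      simp [xi]
    · have h1 : (fun y : ℝ × E3 => DD Ψ y l.succ) = fun y => Ph Ψ y l.succ := by
        funext y
        show pos (Ph Ψ y) l = Ph Ψ y l.succ
        fin_cases l <;> rfl
      rw [h1]
      have h2 : xi l.succ = 0 := by simp [xi, Fin.succ_ne_zero]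
      rw [h2, mul_zero, add_zero]
      rfl
  have hone : ∀ i j, ip G (Ph Ψ (s, x)) (cov G (Ph Ψ) (DD Ψ) (s, x) (dX i)) (XX Ψ j (s, x)) =
      hh G Ψ i j (s, x) - XX Ψ i (s, x) 0 * ip G (Ph Ψ (s, x)) xi (XX Ψ j (s, x)) +
      ip G (Ph Ψ (s, x)) (gam G (Ph Ψ (s, x)) (XX Ψ i (s, x)) (DD Ψ (s, x))) (XX Ψ j (s, x)) := by
    intro i j
    rw [hcov i, ip_add_left, ip_add_left, ip_smul_left]
    show hh G Ψ i j (s, x) + _ + _ = _
    ring
  have hD : ∀ i j, ∑ a, ∑ b, (∑ l : Fin 3, pos (Ph Ψ (s, x)) l *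
        H31R.pd l.succ (fun q => G q a b) (Ph Ψ (s, x))) * XX Ψ i (s, x) a * XX Ψ j (s, x) b =
      ip G (Ph Ψ (s, x)) (gam G (Ph Ψ (s, x)) (XX Ψ i (s, x)) (DD Ψ (s, x))) (XX Ψ j (s, x)) +
      ip G (Ph Ψ (s, x)) (gam G (Ph Ψ (s, x)) (XX Ψ j (s, x)) (DD Ψ (s, x))) (XX Ψ i (s, x)) := by
    intro i j
    have h1 := d6_kill hR hp (XX Ψ i (s, x)) (XX Ψ j (s, x)) (DD Ψ (s, x))
    rw [ip_symm hm (XX Ψ i (s, x))] at h1
    rw [h1]
    refine Finset.sum_congr rfl fun a _ => Finset.sum_congr rfl fun b _ => ?_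
    congr 2
    rw [Fin.sum_univ_succ (f := fun c => DD Ψ (s, x) c * H31R.pd c (fun q => G q a b) (Ph Ψ (s, x)))]
    have h2 : DD Ψ (s, x) 0 = 0 := rfl
    rw [h2, zero_mul, zero_add]
    rfl
  simp only [hone, hD]
  set A : Fin 3 → Fin 3 → ℝ := fun i j =>
    ip G (Ph Ψ (s, x)) (gam G (Ph Ψ (s, x)) (XX Ψ i (s, x)) (DD Ψ (s, x))) (XX Ψ j (s, x)) with hA
  have h2 := d6_two hR hp
  have hQ : ∀ i j, QQ G Ψ i j (s, x) = QQ G Ψ j i (s, x) := fun i j => QQ_symm hR hp i j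
  have hs2 : ∑ i, ∑ j, QQ G Ψ i j (s, x) * A j i = ∑ i, ∑ j, QQ G Ψ i j (s, x) * A i j := by
    rw [Finset.sum_comm]
    refine Finset.sum_congr rfl fun i _ => Finset.sum_congr rfl fun j _ => ?_
    rw [hQ j i]
  have e1 : ∑ i, ∑ j, QQ G Ψ i j (s, x) * (hh G Ψ i j (s, x) - XX Ψ i (s, x) 0 * ip G (Ph Ψ (s, x)) xi (XX Ψ j (s, x)) + A i j) =
      (∑ i, ∑ j, QQ G Ψ i j (s, x) * hh G Ψ i j (s, x)) -
      (∑ i, ∑ j, QQ G Ψ i j (s, x) * (XX Ψ i (s, x) 0 * ip G (Ph Ψ (s, x)) xi (XX Ψ j (s, x)))) +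
      ∑ i, ∑ j, QQ G Ψ i j (s, x) * A i j := by
    simp only [← Finset.sum_add_distrib, ← Finset.sum_sub_distrib]
    exact Finset.sum_congr rfl fun i _ => Finset.sum_congr rfl fun j _ => by ring
  have e2 : ∑ i, ∑ j, QQ G Ψ i j (s, x) * (A i j + A j i) = 2 * ∑ i, ∑ j, QQ G Ψ i j (s, x) * A i j := by
    have e3 : ∑ i, ∑ j, QQ G Ψ i j (s, x) * (A i j + A j i) =
        ∑ i, ∑ j, QQ G Ψ i j (s, x) * A i j + ∑ i, ∑ j, QQ G Ψ i j (s, x) * A j i := by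
      simp only [← Finset.sum_add_distrib]
      exact Finset.sum_congr rfl fun i _ => Finset.sum_congr rfl fun j _ => by ring
    rw [e3, hs2]
    ring
  show ∑ i, ∑ j, QQ G Ψ i j (s, x) * (hh G Ψ i j (s, x) - XX Ψ i (s, x) 0 * ip G (Ph Ψ (s, x)) xi (XX Ψ j (s, x)) + A i j) =
    2 - (∑ i, ∑ j, QQ G Ψ i j (s, x) * (XX Ψ i (s, x) 0 * ip G (Ph Ψ (s, x)) xi (XX Ψ j (s, x)))) +
    (∑ i, ∑ j, QQ G Ψ i j (s, x) * (A i j + A j i)) / 2
  rw [e1, e2, h2]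
  ring


end H17Y
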