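import Pool.Agent.Lib.H17Y.D5
import Pool.Agent.Lib.H17Y.D6
import Pool.Agent.Lib.H17Y.D2
import Pool.Agent.Lib.H17Y.C5

set_option autoImplicit false

/-!
# H17Y, chunk D7 (M): the divergence of the position field, III

`d5_id` and `d6_cov`. `xi`: `<xi, X_j> = sum_b G_0b X_j^b = O(1)` (`eta_0b X_j^b = - X_j^0 = O(1)`, the rest `O(1/s) O(s)`), so the second term of `d6_cov` is `O(s⁻²) O(1) O(1)`. Third term: by `d_rad` it is
`(1/2) sum QQ_ij sum_ab (-2 m dl a b / r + O(s⁻²)) X_i^a X_j^b = - (m/r) sum QQ_ij sum_a X_i^a X_j^a + O(s⁻²)` (`dl` is the identity matrix), and `sum_ij QQ_ij sum_a X_i^a X_j^a = sum QQ_ij hh_ij + O(1/s) = 2 + O(1/s)`: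
`hh_ij - sum_a X_i^a X_j^a = sum_ab (G_ab - eta_ab) X_i^a X_j^b - 2 X_i^0 X_j^0 = O(s)`, times `QQ = O(s⁻²)`.
Auxiliary names start with `d7_`.
-/

open MeasureTheory Filter Topology Set Asymptotics
open scoped ContDiff

namespace H17Y

open H17W
open H17T (E4 pt pos tang slice second DEC)
open H17B (eta dl)
open Pool.Agent.Lib.PenroseSph (E3 Tens S2 sm pd)

variable {G : E4 → Matrix (Fin 4) (Fin 4) ℝ} {e m : ℝ} {Φ : ℝ → ℝ × E3 → E4} {τ r : ℝ → ℝ} {W : ℝ → Set (ℝ × E3)} {I : ℝ → Set ℝ}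

theorem d7_xi (h : Cuts G e Φ τ r W I) (j : Fin 3) :
    Os 0 fun p => ip G (Ph (Φ p.1) (τ p.1, p.2)) xi (XX (Φ p.1) j (τ p.1, p.2)) := by
  have h1 : Os 0 fun p => G (Ph (Φ p.1) (τ p.1, p.2)) 0 0 * XX (Φ p.1) j (τ p.1, p.2) 0 :=
    (c_met0 h 0 0).mul (c_xx0 h j) (by norm_num)
  have h2 : ∀ l : Fin 3, Os (-1) fun p => G (Ph (Φ p.1) (τ p.1, p.2)) 0 l.succ := by
    intro l
    refine (c_met1 h 0 l.succ).congr (Eventually.of_forall fun p => ?_)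
    simp [eta, (Fin.succ_ne_zero l).symm]
  have h3 : Os 0 fun p => ∑ l : Fin 3, G (Ph (Φ p.1) (τ p.1, p.2)) 0 l.succ * XX (Φ p.1) j (τ p.1, p.2) l.succ :=
    Os.sum _ fun l _ => (h2 l).mul (c_xx1 h j l.succ) (by norm_num)
  exact (h1.add h3).congr (Eventually.of_forall fun p => (e6_ip G _ _).symm)

theorem d7_first (h : Ends G e m Φ τ r W I) : Os (-2) fun p => ∑ i, ∑ j, QQ G (Φ p.1) i j (τ p.1, p.2) *
    (XX (Φ p.1) i (τ p.1, p.2) 0 * ip G (Ph (Φ p.1) (τ p.1, p.2)) xi (XX (Φ p.1) j (τ p.1, p.2))) := by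
  refine Os.sum _ fun i _ => Os.sum _ fun j _ => ?_
  exact (c_qq2 h.cuts i j).mul ((c_xx0 h.cuts i).mul (d7_xi h.cuts j) (j := 0) (by norm_num)) (by norm_num)

/-- The error of the radial derivative of the metric. -/
noncomputable def d7_E (G : E4 → Matrix (Fin 4) (Fin 4) ℝ) (m : ℝ) (Φ : ℝ → ℝ × E3 → E4) (τ r : ℝ → ℝ) (a b : Fin 4) (p : ℝ × E3) : ℝ :=
  (∑ i : Fin 3, pos (Ph (Φ p.1) (τ p.1, p.2)) i * H31R.pd i.succ (fun q => G q a b) (Ph (Φ p.1) (τ p.1, p.2))) +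
      2 * m * dl a b * (1 / r p.1)

theorem d7_second (h : Ends G e m Φ τ r W I) : Os (-2) fun p => ∑ i, ∑ j, QQ G (Φ p.1) i j (τ p.1, p.2) *
    ∑ a, ∑ b, d7_E G m Φ τ r a b p * XX (Φ p.1) i (τ p.1, p.2) a * XX (Φ p.1) j (τ p.1, p.2) b := by
  refine Os.sum _ fun i _ => Os.sum _ fun j _ => ?_
  refine (c_qq2 h.cuts i j).mul (l := 0) (Os.sum _ fun a _ => Os.sum _ fun b _ => ?_) (by norm_num)
  exact ((d_rad h a b).mul (c_xx1 h.cuts i a) (j := -1) (by norm_num)).mul (c_xx1 h.cuts j b) (by norm_num)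

theorem d7_third (h : Ends G e m Φ τ r W I) : Os (-1) fun p => (∑ i, ∑ j, QQ G (Φ p.1) i j (τ p.1, p.2) *
    ∑ a, ∑ b, dl a b * XX (Φ p.1) i (τ p.1, p.2) a * XX (Φ p.1) j (τ p.1, p.2) b) - 2 := by
  have h1 : ∀ i j : Fin 3, Os 1 fun p => 2 * (XX (Φ p.1) i (τ p.1, p.2) 0 * XX (Φ p.1) j (τ p.1, p.2) 0) -
      ∑ a, ∑ b, (G (Ph (Φ p.1) (τ p.1, p.2)) a b - eta a b) * XX (Φ p.1) i (τ p.1, p.2) a * XX (Φ p.1) j (τ p.1, p.2) b := by
    intro i j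
    refine (Os.const_mul ((c_xx0 h.cuts i).mul (c_xx0 h.cuts j) (j := 1) (by norm_num)) 2).sub
      (Os.sum _ fun a _ => Os.sum _ fun b _ => ?_)
    exact ((c_met1 h.cuts a b).mul (c_xx1 h.cuts i a) (j := 0) (by norm_num)).mul (c_xx1 h.cuts j b) (by norm_num)
  have h2 : Os (-1) fun p => ∑ i, ∑ j, QQ G (Φ p.1) i j (τ p.1, p.2) *
      (2 * (XX (Φ p.1) i (τ p.1, p.2) 0 * XX (Φ p.1) j (τ p.1, p.2) 0) -
      ∑ a, ∑ b, (G (Ph (Φ p.1) (τ p.1, p.2)) a b - eta a b) * XX (Φ p.1) i (τ p.1, p.2) a * XX (Φ p.1) j (τ p.1, p.2) b) :=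
    Os.sum _ fun i _ => Os.sum _ fun j _ => (c_qq2 h.cuts i j).mul (h1 i j) (by norm_num)
  refine h2.congr ?_
  filter_upwards [c_ev h.cuts] with p hp
  obtain ⟨hn, _, _, hR, _, hW⟩ := hp
  have h3 := d6_two hR hW
  have h4 : ∀ i j : Fin 3, ∑ a, ∑ b, dl a b * XX (Φ p.1) i (τ p.1, p.2) a * XX (Φ p.1) j (τ p.1, p.2) b =
      hh G (Φ p.1) i j (τ p.1, p.2) + (2 * (XX (Φ p.1) i (τ p.1, p.2) 0 * XX (Φ p.1) j (τ p.1, p.2) 0) -
      ∑ a, ∑ b, (G (Ph (Φ p.1) (τ p.1, p.2)) a b - eta a b) * XX (Φ p.1) i (τ p.1, p.2) a * XX (Φ p.1) j (τ p.1, p.2) b) := by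
    intro i j
    have e0 : hh G (Φ p.1) i j (τ p.1, p.2) =
        ∑ a, ∑ b, G (Ph (Φ p.1) (τ p.1, p.2)) a b * XX (Φ p.1) i (τ p.1, p.2) a * XX (Φ p.1) j (τ p.1, p.2) b := rfl
    have e1 : ∑ a, ∑ b, (dl a b - eta a b) * XX (Φ p.1) i (τ p.1, p.2) a * XX (Φ p.1) j (τ p.1, p.2) b =
        2 * (XX (Φ p.1) i (τ p.1, p.2) 0 * XX (Φ p.1) j (τ p.1, p.2) 0) := by
      have hval : ∀ a b : Fin 4, dl a b - eta a b = if a = 0 then (if b = 0 then 2 else 0) else 0 := by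
        intro a b
        by_cases ha : a = 0
        · subst ha
          by_cases hb : b = 0
          · subst hb
            norm_num [dl, eta]
          · have hb' : ¬ (0 : Fin 4) = b := fun h => hb h.symm
            simp [dl, eta, hb, hb']
        · by_cases hb : a = b
          · subst hb
            simp [dl, eta, ha]
          · simp [dl, eta, ha, hb]
      simp only [hval]
      rw [Finset.sum_eq_single (0 : Fin 4), Finset.sum_eq_single (0 : Fin 4)]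
      · simp only [if_true]
        ring
      · intro b _ hb
        simp [hb]
      · intro hh
        exact absurd (Finset.mem_univ _) hh
      · intro a _ ha
        simp [ha]
      · intro hh
        exact absurd (Finset.mem_univ _) hh
    rw [← e1, e0]
    simp only [← Finset.sum_sub_distrib, ← Finset.sum_add_distrib]
    exact Finset.sum_congr rfl fun a _ => Finset.sum_congr rfl fun b _ => by ring
  have e5 : (∑ i, ∑ j, QQ G (Φ p.1) i j (τ p.1, p.2) *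
      ∑ a, ∑ b, dl a b * XX (Φ p.1) i (τ p.1, p.2) a * XX (Φ p.1) j (τ p.1, p.2) b) -
      ∑ i, ∑ j, QQ G (Φ p.1) i j (τ p.1, p.2) * hh G (Φ p.1) i j (τ p.1, p.2) =
      ∑ i, ∑ j, QQ G (Φ p.1) i j (τ p.1, p.2) *
      (2 * (XX (Φ p.1) i (τ p.1, p.2) 0 * XX (Φ p.1) j (τ p.1, p.2) 0) -
      ∑ a, ∑ b, (G (Ph (Φ p.1) (τ p.1, p.2)) a b - eta a b) * XX (Φ p.1) i (τ p.1, p.2) a * XX (Φ p.1) j (τ p.1, p.2) b) := by
    simp only [← Finset.sum_sub_distrib]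
    refine Finset.sum_congr rfl fun i _ => Finset.sum_congr rfl fun j _ => ?_
    rw [h4 i j]
    ring
  rw [h3] at e5
  exact e5.symm

theorem d7 (h : Ends G e m Φ τ r W I) :
    Os (-2) fun p => divD G (Φ p.1) (τ p.1, p.2) + (ip G (Ph (Φ p.1) (τ p.1, p.2)) (DD (Φ p.1) (τ p.1, p.2)) (LL (Φ p.1) (τ p.1, p.2)) *
      tht G (Φ p.1) (τ p.1, p.2) + ip G (Ph (Φ p.1) (τ p.1, p.2)) (DD (Φ p.1) (τ p.1, p.2)) (kk G (Φ p.1) (τ p.1, p.2)) *
      exl G (Φ p.1) (τ p.1, p.2)) / 2 - (2 - 2 * m * (1 / r p.1)) := by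
  have h1 : Os (-2) fun p => (1 / 2) * (∑ i, ∑ j, QQ G (Φ p.1) i j (τ p.1, p.2) *
      ∑ a, ∑ b, d7_E G m Φ τ r a b p * XX (Φ p.1) i (τ p.1, p.2) a * XX (Φ p.1) j (τ p.1, p.2) b) := Os.const_mul (d7_second h) _
  have h2 : Os (-2) fun p => m * ((1 / r p.1) * ((∑ i, ∑ j, QQ G (Φ p.1) i j (τ p.1, p.2) *
      ∑ a, ∑ b, dl a b * XX (Φ p.1) i (τ p.1, p.2) a * XX (Φ p.1) j (τ p.1, p.2) b) - 2)) :=
    Os.const_mul ((c_rinv h.cuts).mul (d7_third h) (by norm_num)) _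
  refine ((h1.sub h2).sub (d7_first h)).congr ?_
  filter_upwards [c_ev h.cuts] with p hp
  obtain ⟨hn, _, _, hR, hτ, hW⟩ := hp
  have hx : p.2 ≠ 0 := by
    rw [← norm_ne_zero_iff, hn]
    exact one_ne_zero
  rw [d5_id hR hτ hx, d6_cov hR hτ hx]
  have e1 : ∑ i, ∑ j, QQ G (Φ p.1) i j (τ p.1, p.2) *
      ∑ a, ∑ b, d7_E G m Φ τ r a b p * XX (Φ p.1) i (τ p.1, p.2) a * XX (Φ p.1) j (τ p.1, p.2) b =
      (∑ i, ∑ j, QQ G (Φ p.1) i j (τ p.1, p.2) * ∑ a, ∑ b, (∑ l : Fin 3, pos (Ph (Φ p.1) (τ p.1, p.2)) l *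
        H31R.pd l.succ (fun q => G q a b) (Ph (Φ p.1) (τ p.1, p.2))) * XX (Φ p.1) i (τ p.1, p.2) a * XX (Φ p.1) j (τ p.1, p.2) b) +
      2 * m * (1 / r p.1) * ∑ i, ∑ j, QQ G (Φ p.1) i j (τ p.1, p.2) *
        ∑ a, ∑ b, dl a b * XX (Φ p.1) i (τ p.1, p.2) a * XX (Φ p.1) j (τ p.1, p.2) b := by
    unfold d7_E
    simp only [Finset.mul_sum (a := 2 * m * (1 / r p.1)), ← Finset.sum_add_distrib]
    refine Finset.sum_congr rfl fun i _ => Finset.sum_congr rfl fun j _ => ?_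
    rw [mul_left_comm, ← mul_add]
    congr 1
    rw [Finset.mul_sum, ← Finset.sum_add_distrib]
    refine Finset.sum_congr rfl fun a _ => ?_
    rw [Finset.mul_sum, ← Finset.sum_add_distrib]
    refine Finset.sum_congr rfl fun b _ => ?_
    ring
  rw [e1]
  ring


end H17Y
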