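import Pool.Agent.Lib.H17Y.D5

set_option autoImplicit false

/-!
# H17Y, chunk D8 (S/M): the divergence of the position field, IV

`div_zero` of `H17Y.D3A` for `al x j = aD G Ψ j (s, x)`: smooth (`d5_smooth`, `XX_smooth`, `ip_smooth`), homogeneous of degree `-1` (`Ph_hom`, `XX_hom`; `DD Ψ` depends on `Ph Ψ` only), `sum_j x_j aD_j = 0` (`XX_rad`).
Compare `int_dzet` in `H17Y.D3D`.
Auxiliary names start with `d8_`.
-/

open MeasureTheory Filter Topology Set Asymptotics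
open scoped ContDiff

namespace H17Y

open H17W
open H17T (E4 pt pos tang slice second DEC)
open H17B (eta dl)
open Pool.Agent.Lib.PenroseSph (E3 Tens S2 sm pd)

variable {G : E4 → Matrix (Fin 4) (Fin 4) ℝ} {Ψ : ℝ × E3 → E4} {W : Set (ℝ × E3)} {I : Set ℝ}

theorem d8_sm (hR : RegI G Ψ W I) {p : ℝ × E3} (hp : p ∈ W) (j : Fin 3) : ContDiffAt ℝ ∞ (aD G Ψ j) p :=
  b2c_ip hR (A := DD Ψ) (B := XX Ψ j) (fun _ hq a => d5_smooth hR hq a) (fun _ hq a => XX_smooth hR hq j a) hp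

theorem d8_hom (s : ℝ) (x : E3) {c : ℝ} (hc : 0 < c) (j : Fin 3) : aD G Ψ j (s, c • x) = aD G Ψ j (s, x) / c := by
  have h1 : DD Ψ (s, c • x) = DD Ψ (s, x) := by
    unfold DD
    rw [Ph_hom s x hc]
  unfold aD
  rw [h1, Ph_hom s x hc, XX_hom s x hc, ip_smul_right]
  field_simp

theorem d8_rad (hR : RegI G Ψ W I) {s : ℝ} (hs : s ∈ I) {x : E3} (hx : x ≠ 0) : ∑ j, aD G Ψ j (s, x) * x j = 0 := by
  have hp := hR.mem s hs x hx
  have h1 : ∑ j, x j • XX Ψ j (s, x) = 0 := by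
    funext a
    have h2 := XX_rad (Ψ := Ψ) (p := (s, x)) hx ((hR.smooth _ hp).differentiableAt (by simp)) a
    rw [Finset.sum_apply]
    simpa using h2
  have h2 := b3b_ip_sum_right (G := G) (Ph Ψ (s, x)) (fun j => x j) (fun j => XX Ψ j (s, x)) (DD Ψ (s, x))
  rw [h1, b3b_ip_zero_right] at h2
  rw [h2]
  exact Finset.sum_congr rfl fun j _ => mul_comm _ _

theorem d8_int (hR : RegI G Ψ W I) {s : ℝ} (hs : s ∈ I) :
    ∫ n : S2, divD G Ψ (s, (n : E3)) * dA G Ψ (s, (n : E3)) ∂sm = 0 := by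
  rw [← div_zero hR hs (al := fun x j => aD G Ψ j (s, x))
    (fun x hx i => d3d_slice (d8_sm hR (hR.mem s hs x hx) i))
    (fun x _ c hc i => d8_hom s x hc i) (fun x hx => d8_rad hR hs hx)]
  refine integral_congr_ae (Eventually.of_forall fun n => ?_)
  have hm := hR.mem s hs n (d3d_ne n)
  simp only [divD, divf]
  congr 1
  refine Finset.sum_congr rfl fun i _ => Finset.sum_congr rfl fun j _ => ?_
  rw [d3d_pd (d8_sm hR hm j) i]


theorem d8_cont (hR : RegI G Ψ W I) {s : ℝ} (hs : s ∈ I) : Continuous fun n : S2 => divD G Ψ (s, (n : E3)) := by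
  have h1 : ∀ x : E3, x ≠ 0 → ContinuousAt (fun y : E3 => divD G Ψ (s, y)) x := by
    intro x hx
    have hm := hR.mem s hs x hx
    unfold divD
    refine tendsto_finset_sum _ fun i _ => tendsto_finset_sum _ fun j _ => ?_
    refine ContinuousAt.mul (d3d_c0 (QQ_smooth hR hm i j)) ?_
    refine ContinuousAt.sub (d3d_c1 (d8_sm hR hm j) _) ?_
    exact tendsto_finset_sum _ fun m _ => ContinuousAt.mul (d3d_cc hR hs m i j hx) (d3d_c0 (d8_sm hR hm m))
  exact continuous_iff_continuousAt.2 fun n =>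
    ContinuousAt.comp (f := fun n : S2 => (n : E3)) (h1 n (d3d_ne n)) continuous_subtype_val.continuousAt


end H17Y
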