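import Pool.Agent.Lib.H17Y.D1
import Pool.Agent.Lib.H17Y.C5

set_option autoImplicit false

/-!
# H17Y, chunk D9 (M): scalar products of the position field

`DD^0 = 0`, `DD^l = r n_l + O(1)` (`c_pos`). (a) `<D, L> = sum G_ab D^a L^b = sum_l r n_l n_l + O(1)` (`G - eta = O(1/s)`, `D = O(s)`, `L^l = n_l + O(1/s)`), same for `k` (`c_kk`). (b) `ip_expand` / `j_split` with `nframe`:
`<D, D> = sum QQ_ij <D,X_i><D,X_j> + <D,L><D,k>`. `<D, D> = sum_l |x_l|² (1 + 2m/r) + O(1) = |x|² + 2 m |x| + O(1)` (`d_met`: `G_ab = eta_ab + 2 m dl_ab / r + O(s⁻²)`, `|x| = r + O(1)`).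
`<D, X_i> = O(s)`: `sum_l x_l X_i^l + O(1/s) O(s) O(s)`, and `sum_l x_l X_i^l = sum_l (r n_l + O(1)) (r (δ_il - n_i n_l) + O(1)) = O(s)` since `sum_l n_l (δ_il - n_i n_l) = 0`; hence `sum QQ <D,X><D,X> = O(1)` (`c_qq2`).
Auxiliary names start with `d9_`.
-/

open MeasureTheory Filter Topology Set Asymptotics
open scoped ContDiff

namespace H17Y

open H17W
open H17T (E4 pt pos tang slice second DEC)
open H17B (eta dl)
open Pool.Agent.Lib.PenroseSph (E3 Tens S2 sm pd)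

variable {G : E4 → Matrix (Fin 4) (Fin 4) ℝ} {e m : ℝ} {Φ : ℝ → ℝ × E3 → E4} {τ r : ℝ → ℝ} {W : ℝ → Set (ℝ × E3)} {I : ℝ → Set ℝ}

theorem d9_zero (Ψ : ℝ × E3 → E4) (q : ℝ × E3) : DD Ψ q 0 = 0 := rfl

theorem d9_succ (Ψ : ℝ × E3 → E4) (q : ℝ × E3) (l : Fin 3) : DD Ψ q l.succ = pos (Ph Ψ q) l := rfl

theorem d9_D1 (h : Cuts G e Φ τ r W I) (a : Fin 4) : Os 1 fun p => DD (Φ p.1) (τ p.1, p.2) a := by
  refine Fin.cases ?_ (fun l => ?_) a
  · simp only [d9_zero]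
    exact (Os.const 0).mono (by norm_num)
  · simp only [d9_succ]
    exact d1_pos1 h l

/-- `<u, w>` is the Minkowski product up to an error. -/
theorem d9_ip (h : Cuts G e Φ τ r W I) {k l j : ℤ} (hj : k + l - 1 ≤ j) {u w : ℝ × E3 → Fin 4 → ℝ} (hu : ∀ a, Os k fun p => u p a)
    (hw : ∀ a, Os l fun p => w p a) :
    Os j fun p => ip G (Ph (Φ p.1) (τ p.1, p.2)) (u p) (w p) - (-(u p 0 * w p 0) + ∑ l : Fin 3, u p l.succ * w p l.succ) := by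
  have hA : Os j fun p => ∑ a, ∑ b, (G (Ph (Φ p.1) (τ p.1, p.2)) a b - eta a b) * u p a * w p b := by
    refine Os.sum _ fun a _ => Os.sum _ fun b _ => ?_
    exact ((c_met1 h a b).mul (hu a) (j := k - 1) (by omega)).mul (hw b) (by omega)
  refine hA.congr (Eventually.of_forall fun p => ?_)
  rw [← e3a_eta (u p) (w p)]
  unfold ip
  rw [← Finset.sum_sub_distrib]
  refine Finset.sum_congr rfl fun a _ => ?_
  rw [← Finset.sum_sub_distrib]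
  refine Finset.sum_congr rfl fun b _ => ?_
  ring

theorem d9_dot (h : Cuts G e Φ τ r W I) {V : ℝ × E3 → Fin 4 → ℝ} (h0 : Os 0 fun p => V p 0)
    (h1 : ∀ l : Fin 3, Os (-1) fun p => V p l.succ - p.2 l) :
    Os 0 fun p => ip G (Ph (Φ p.1) (τ p.1, p.2)) (DD (Φ p.1) (τ p.1, p.2)) (V p) - r p.1 := by
  have hV : ∀ a, Os 0 fun p => V p a := by
    intro a
    refine Fin.cases h0 (fun l => ?_) a
    refine (((h1 l).mono (show (-1 : ℤ) ≤ 0 by norm_num)).add (Os.coord l)).congr (Eventually.of_forall fun p => ?_)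
    ring
  have hA := d9_ip h (k := 1) (l := 0) (j := 0) (by norm_num) (u := fun p => DD (Φ p.1) (τ p.1, p.2)) (w := V) (d9_D1 h) hV
  have hC : ∀ l : Fin 3, Os 0 fun p => DD (Φ p.1) (τ p.1, p.2) l.succ * V p l.succ - r p.1 * (p.2 l * p.2 l) := by
    intro l
    have g1 := (c_pos h l).mul (hV l.succ) (j := 0) (by norm_num)
    have g2 := ((c_r h).mul (Os.coord l) (j := 1) (by norm_num)).mul (h1 l) (j := 0) (by norm_num)
    refine (g1.add g2).congr (Eventually.of_forall fun p => ?_)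
    rw [d9_succ]
    ring
  refine (hA.add (Os.sum Finset.univ fun l _ => hC l)).congr ?_
  filter_upwards [inf_norm] with p hp
  have hn := e3a_sq hp
  rw [d9_zero, Finset.sum_sub_distrib, ← Finset.mul_sum]
  have e1 : ∑ l : Fin 3, p.2 l * p.2 l = 1 := by
    rw [Fin.sum_univ_three, ← hn]
    ring
  rw [e1]
  ring

theorem d_DL (h : Ends G e m Φ τ r W I) :
    Os 0 fun p => ip G (Ph (Φ p.1) (τ p.1, p.2)) (DD (Φ p.1) (τ p.1, p.2)) (LL (Φ p.1) (τ p.1, p.2)) - r p.1 :=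
  d9_dot h.cuts (V := fun p => LL (Φ p.1) (τ p.1, p.2)) (c_llb h.cuts 0) (c_ll h.cuts)

theorem d_Dk (h : Ends G e m Φ τ r W I) :
    Os 0 fun p => ip G (Ph (Φ p.1) (τ p.1, p.2)) (DD (Φ p.1) (τ p.1, p.2)) (kk G (Φ p.1) (τ p.1, p.2)) - r p.1 :=
  d9_dot h.cuts (V := fun p => kk G (Φ p.1) (τ p.1, p.2)) (c_kkb h.cuts 0) (c_kk h.cuts)

theorem d9_rho1 (h : Cuts G e Φ τ r W I) : Os 1 fun p => ‖pos (Ph (Φ p.1) (τ p.1, p.2))‖ := by
  refine (((c_rho h).mono (show (0 : ℤ) ≤ 1 by norm_num)).add (c_r h)).congr (Eventually.of_forall fun p => ?_)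
  ring

theorem d9_DX (h : Cuts G e Φ τ r W I) (i : Fin 3) :
    Os 1 fun p => ip G (Ph (Φ p.1) (τ p.1, p.2)) (DD (Φ p.1) (τ p.1, p.2)) (XX (Φ p.1) i (τ p.1, p.2)) := by
  have hA := d9_ip h (k := 1) (l := 1) (j := 1) (by norm_num) (u := fun p => DD (Φ p.1) (τ p.1, p.2))
    (w := fun p => XX (Φ p.1) i (τ p.1, p.2)) (d9_D1 h) (c_xx1 h i)
  have hC : ∀ l : Fin 3, Os 1 fun p => DD (Φ p.1) (τ p.1, p.2) l.succ * XX (Φ p.1) i (τ p.1, p.2) l.succ -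
      r p.1 * r p.1 * (p.2 l * ((if i = l then 1 else 0) - p.2 i * p.2 l)) := by
    intro l
    have g1 := (c_pos h l).mul (c_xx1 h i l.succ) (j := 1) (by norm_num)
    have g2 := ((c_r h).mul (Os.coord l) (j := 1) (by norm_num)).mul (c_xx h i l) (j := 1) (by norm_num)
    refine (g1.add g2).congr (Eventually.of_forall fun p => ?_)
    rw [d9_succ]
    ring
  refine (hA.add (Os.sum Finset.univ fun l _ => hC l)).congr ?_
  filter_upwards [inf_norm] with p hp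
  have hn := e3a_sq hp
  rw [d9_zero, Finset.sum_sub_distrib, ← Finset.mul_sum]
  have e1 : ∑ l : Fin 3, p.2 l * ((if i = l then 1 else 0) - p.2 i * p.2 l) = 0 := by
    have e5 : ∀ l : Fin 3, p.2 l * ((if i = l then 1 else 0) - p.2 i * p.2 l) =
        (if i = l then p.2 l else 0) - p.2 i * p.2 l ^ 2 := by
      intro l
      split_ifs <;> ring
    simp only [e5, Finset.sum_sub_distrib, Finset.sum_ite_eq, Finset.mem_univ, if_true]
    rw [← Finset.mul_sum, Fin.sum_univ_three, hn]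
    ring
  rw [e1]
  ring

theorem d9_DD (h : Ends G e m Φ τ r W I) :
    Os 0 fun p => ip G (Ph (Φ p.1) (τ p.1, p.2)) (DD (Φ p.1) (τ p.1, p.2)) (DD (Φ p.1) (τ p.1, p.2)) -
      (‖pos (Ph (Φ p.1) (τ p.1, p.2))‖ ^ 2 + 2 * m * ‖pos (Ph (Φ p.1) (τ p.1, p.2))‖) := by
  have hA : Os 0 fun p => ∑ a, ∑ b, (G (Ph (Φ p.1) (τ p.1, p.2)) a b - eta a b - 2 * m * dl a b * (1 / r p.1)) *
      DD (Φ p.1) (τ p.1, p.2) a * DD (Φ p.1) (τ p.1, p.2) b := by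
    refine Os.sum _ fun a _ => Os.sum _ fun b _ => ?_
    exact ((d_met h a b).mul (d9_D1 h.cuts a) (j := -1) (by norm_num)).mul (d9_D1 h.cuts b) (by norm_num)
  have hB : Os 0 fun p => 2 * m * (‖pos (Ph (Φ p.1) (τ p.1, p.2))‖ * (‖pos (Ph (Φ p.1) (τ p.1, p.2))‖ - r p.1) * (1 / r p.1)) :=
    Os.const_mul (((d9_rho1 h.cuts).mul (c_rho h.cuts) (j := 1) (by norm_num)).mul (c_rinv h.cuts) (by norm_num)) _
  refine (hA.add hB).congr ?_
  filter_upwards [c_ev h.cuts] with p hp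
  obtain ⟨hn, h1, h2, _⟩ := hp
  have hr : r p.1 ≠ 0 := (zero_lt_one.trans_le (h1.trans h2)).ne'
  have hρ : ‖pos (Ph (Φ p.1) (τ p.1, p.2))‖ ^ 2 = ∑ l : Fin 3, DD (Φ p.1) (τ p.1, p.2) l.succ * DD (Φ p.1) (τ p.1, p.2) l.succ := by
    rw [EuclideanSpace.real_norm_sq_eq]
    refine Finset.sum_congr rfl fun l _ => ?_
    rw [d9_succ]
    ring
  have e1 := e3a_eta (DD (Φ p.1) (τ p.1, p.2)) (DD (Φ p.1) (τ p.1, p.2))
  rw [d9_zero, ← hρ] at e1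
  have e2 : ∑ a, ∑ b, dl a b * DD (Φ p.1) (τ p.1, p.2) a * DD (Φ p.1) (τ p.1, p.2) b =
      ‖pos (Ph (Φ p.1) (τ p.1, p.2))‖ ^ 2 := by
    have e3 : ∀ a, ∑ b, dl a b * DD (Φ p.1) (τ p.1, p.2) a * DD (Φ p.1) (τ p.1, p.2) b =
        DD (Φ p.1) (τ p.1, p.2) a * DD (Φ p.1) (τ p.1, p.2) a := by
      intro a
      simp [dl]
    simp only [e3]
    rw [Fin.sum_univ_succ, d9_zero, hρ]
    ring
  have e4 : ip G (Ph (Φ p.1) (τ p.1, p.2)) (DD (Φ p.1) (τ p.1, p.2)) (DD (Φ p.1) (τ p.1, p.2)) =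
      ∑ a, ∑ b, (G (Ph (Φ p.1) (τ p.1, p.2)) a b - eta a b - 2 * m * dl a b * (1 / r p.1)) *
        DD (Φ p.1) (τ p.1, p.2) a * DD (Φ p.1) (τ p.1, p.2) b +
      ∑ a, ∑ b, eta a b * DD (Φ p.1) (τ p.1, p.2) a * DD (Φ p.1) (τ p.1, p.2) b +
      2 * m * (1 / r p.1) * ∑ a, ∑ b, dl a b * DD (Φ p.1) (τ p.1, p.2) a * DD (Φ p.1) (τ p.1, p.2) b := by
    unfold ip
    rw [Finset.mul_sum, ← Finset.sum_add_distrib, ← Finset.sum_add_distrib]
    refine Finset.sum_congr rfl fun a _ => ?_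
    rw [Finset.mul_sum, ← Finset.sum_add_distrib, ← Finset.sum_add_distrib]
    refine Finset.sum_congr rfl fun b _ => ?_
    ring
  have hrr : r p.1 * (1 / r p.1) = 1 := mul_one_div_cancel hr
  rw [e4, e1, e2]
  linear_combination (-2 * m * ‖pos (Ph (Φ p.1) (τ p.1, p.2))‖) * hrr

theorem d_DDLk (h : Ends G e m Φ τ r W I) :
    Os 0 fun p => ip G (Ph (Φ p.1) (τ p.1, p.2)) (DD (Φ p.1) (τ p.1, p.2)) (LL (Φ p.1) (τ p.1, p.2)) *
      ip G (Ph (Φ p.1) (τ p.1, p.2)) (DD (Φ p.1) (τ p.1, p.2)) (kk G (Φ p.1) (τ p.1, p.2)) -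
      (‖pos (Ph (Φ p.1) (τ p.1, p.2))‖ ^ 2 + 2 * m * ‖pos (Ph (Φ p.1) (τ p.1, p.2))‖) := by
  have hQ : Os 0 fun p => ∑ i, ∑ j, QQ G (Φ p.1) i j (τ p.1, p.2) *
      ip G (Ph (Φ p.1) (τ p.1, p.2)) (DD (Φ p.1) (τ p.1, p.2)) (XX (Φ p.1) i (τ p.1, p.2)) *
      ip G (Ph (Φ p.1) (τ p.1, p.2)) (DD (Φ p.1) (τ p.1, p.2)) (XX (Φ p.1) j (τ p.1, p.2)) := by
    refine Os.sum _ fun i _ => Os.sum _ fun j _ => ?_
    exact ((c_qq2 h.cuts i j).mul (d9_DX h.cuts i) (j := -1) (by norm_num)).mul (d9_DX h.cuts j) (by norm_num)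
  refine ((d9_DD h).sub hQ).congr ?_
  filter_upwards [c_ev h.cuts] with p hp
  obtain ⟨hn, h1, h2, hR, hI, hW⟩ := hp
  have hne : p.2 ≠ 0 := by
    intro h0
    rw [h0, norm_zero] at hn
    exact zero_ne_one hn
  have g1 := ip_expand (hR.met _ hW) (nframe hR hI hne) (DD (Φ p.1) (τ p.1, p.2)) (DD (Φ p.1) (τ p.1, p.2))
  rw [g1]
  ring

end H17Y
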