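import Pool.Agent.Lib.H17Y.D4
import Pool.Agent.Lib.H17Y.D7
import Pool.Agent.Lib.H17Y.D8
import Pool.Agent.Lib.H17Y.D9
import Pool.Agent.Lib.H17Y.D11
import Pool.Agent.Lib.H17Y.D12

set_option autoImplicit false

/-!
# H17Y, chunk D13 (M): the mass at the end cuts

`end_pure` with `r := r s`, `E = exl dA`, `T = tht dA`, `p = <D, L>`, `p' = <D, k>`, `ρ = |x|`, `w = sqrt dA` (`w² = dA > 0` by `PP_det`), `Q = divD + (<D,L> tht + <D,k> exl)/2`. The bounds are `d_exA`, `d_thA`, `d_DL`, `d_Dk`, `c_rho`, `c_w`, `d_DDLk`, `d7` (`Os.bound`; `s ≤ r ≤ C s` turns `K/s²` into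
`K C²/r²`), `d_meanw`; `hI`: `2 Q dA = 2 divD dA + p T + p' E` and `∫ divD dA = 0` (`d8_int`). Continuity: all fields are smooth in `W` (`eb_cont`, `H17Y.B2D`). `E/(2w) = exl w / 2`. Finally `K'/r ≤ |K'|/s`.
Auxiliary names start with `d13_`.
-/

open MeasureTheory Filter Topology Set Asymptotics
open scoped ContDiff

namespace H17Y

open H17W
open H17T (E4 pt pos tang slice second DEC)
open H17B (eta dl)
open Pool.Agent.Lib.PenroseSph (E3 Tens S2 sm pd)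

variable {G : E4 → Matrix (Fin 4) (Fin 4) ℝ} {e m : ℝ} {Φ : ℝ → ℝ × E3 → E4} {τ r : ℝ → ℝ} {W : ℝ → Set (ℝ × E3)} {I : ℝ → Set ℝ}

/-- The function `Q`. -/
noncomputable def d13Q (G : E4 → Matrix (Fin 4) (Fin 4) ℝ) (Ψ : ℝ × E3 → E4) (q : ℝ × E3) : ℝ :=
  divD G Ψ q + (ip G (Ph Ψ q) (DD Ψ q) (LL Ψ q) * tht G Ψ q + ip G (Ph Ψ q) (DD Ψ q) (kk G Ψ q) * exl G Ψ q) / 2

section Cont

variable {Ψ : ℝ × E3 → E4} {V : Set (ℝ × E3)} {J : Set ℝ} {s : ℝ}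

theorem d13_cL (hR : RegI G Ψ V J) (hs : s ∈ J) :
    Continuous fun n : S2 => ip G (Ph Ψ (s, (n : E3))) (DD Ψ (s, (n : E3))) (LL Ψ (s, (n : E3))) :=
  eb_cont (F := ipp G Ψ (DD Ψ) (LL Ψ)) fun n =>
    (b2c_ip hR (fun _ hq a => d5_smooth hR hq a) (fun _ hq a => LL_smooth hR hq a)
      (hR.mem s hs n (d3d_ne n))).continuousAt

theorem d13_ck (hR : RegI G Ψ V J) (hs : s ∈ J) :
    Continuous fun n : S2 => ip G (Ph Ψ (s, (n : E3))) (DD Ψ (s, (n : E3))) (kk G Ψ (s, (n : E3))) :=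
  eb_cont (F := ipp G Ψ (DD Ψ) (kk G Ψ)) fun n =>
    (b2c_ip hR (fun _ hq a => d5_smooth hR hq a) (fun _ hq a => kk_smooth hR hq a)
      (hR.mem s hs n (d3d_ne n))).continuousAt

theorem d13_cA (hR : RegI G Ψ V J) (hs : s ∈ J) : Continuous fun n : S2 => dA G Ψ (s, (n : E3)) :=
  eb_cont fun n => (dA_smooth hR (hR.mem s hs n (d3d_ne n))).continuousAt

theorem d13_ce (hR : RegI G Ψ V J) (hs : s ∈ J) : Continuous fun n : S2 => exl G Ψ (s, (n : E3)) :=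
  eb_cont fun n => (exl_smooth hR (hR.mem s hs n (d3d_ne n))).continuousAt

theorem d13_ct (hR : RegI G Ψ V J) (hs : s ∈ J) : Continuous fun n : S2 => tht G Ψ (s, (n : E3)) :=
  eb_cont fun n => (tht_smooth hR (hR.mem s hs n (d3d_ne n))).continuousAt

theorem d13_cr (hR : RegI G Ψ V J) (hs : s ∈ J) : Continuous fun n : S2 => ‖pos (Ph Ψ (s, (n : E3)))‖ :=
  eb_cont (F := fun q => ‖pos (Ph Ψ q)‖) fun n =>
    (ContinuousAt.comp (g := pos) H17T.pos_smooth.continuous.continuousAt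
      (hR.smooth _ (hR.mem s hs n (d3d_ne n))).continuousAt).norm

theorem d13_cQ (hR : RegI G Ψ V J) (hs : s ∈ J) : Continuous fun n : S2 => d13Q G Ψ (s, (n : E3)) :=
  (d8_cont hR hs).add ((((d13_cL hR hs).mul (d13_ct hR hs)).add ((d13_ck hR hs).mul (d13_ce hR hs))).div_const 2)

theorem d13_I (hR : RegI G Ψ V J) (hs : s ∈ J) :
    ∫ n : S2, (ip G (Ph Ψ (s, (n : E3))) (DD Ψ (s, (n : E3))) (LL Ψ (s, (n : E3))) * (tht G Ψ (s, (n : E3)) * dA G Ψ (s, (n : E3))) +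
      ip G (Ph Ψ (s, (n : E3))) (DD Ψ (s, (n : E3))) (kk G Ψ (s, (n : E3))) * (exl G Ψ (s, (n : E3)) * dA G Ψ (s, (n : E3)))) ∂sm =
    2 * ∫ n : S2, d13Q G Ψ (s, (n : E3)) * Real.sqrt (dA G Ψ (s, (n : E3))) ^ 2 ∂sm := by
  have h1 : ∀ n : S2, ip G (Ph Ψ (s, (n : E3))) (DD Ψ (s, (n : E3))) (LL Ψ (s, (n : E3))) * (tht G Ψ (s, (n : E3)) * dA G Ψ (s, (n : E3))) +
      ip G (Ph Ψ (s, (n : E3))) (DD Ψ (s, (n : E3))) (kk G Ψ (s, (n : E3))) * (exl G Ψ (s, (n : E3)) * dA G Ψ (s, (n : E3))) =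
      2 * (d13Q G Ψ (s, (n : E3)) * Real.sqrt (dA G Ψ (s, (n : E3))) ^ 2) - 2 * (divD G Ψ (s, (n : E3)) * dA G Ψ (s, (n : E3))) := by
    intro n
    have h2 : Real.sqrt (dA G Ψ (s, (n : E3))) ^ 2 = dA G Ψ (s, (n : E3)) := Real.sq_sqrt (Real.sqrt_nonneg _)
    rw [h2]
    unfold d13Q
    ring
  have i1 : Integrable (fun n : S2 => 2 * (d13Q G Ψ (s, (n : E3)) * Real.sqrt (dA G Ψ (s, (n : E3))) ^ 2)) sm :=
    Pool.Agent.Lib.PenroseSph.integrable_S2 (continuous_const.mul ((d13_cQ hR hs).mul ((d13_cA hR hs).sqrt.pow 2)))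
  have i2 : Integrable (fun n : S2 => 2 * (divD G Ψ (s, (n : E3)) * dA G Ψ (s, (n : E3)))) sm :=
    Pool.Agent.Lib.PenroseSph.integrable_S2 (continuous_const.mul ((d8_cont hR hs).mul (d13_cA hR hs)))
  rw [integral_congr_ae (Eventually.of_forall h1), integral_sub i1 i2, integral_const_mul, integral_const_mul, d8_int hR hs,
    mul_zero, sub_zero]

end Cont

theorem ends_mass (h : Ends G e m Φ τ r W I) : ∃ K R : ℝ, ∀ s : ℝ, R ≤ s →
    |Real.sqrt (16 * Real.pi * ∫ n : S2, dA G (Φ s) (τ s, (n : E3)) ∂sm) -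
      (∫ n : S2, tht G (Φ s) (τ s, (n : E3)) * dA G (Φ s) (τ s, (n : E3)) ∂sm) +
      2 * r s * (∫ n : S2, (1 - exl G (Φ s) (τ s, (n : E3)) * Real.sqrt (dA G (Φ s) (τ s, (n : E3))) / 2) ∂sm) -
      16 * Real.pi * m| ≤ K / s := by
  obtain ⟨C, R, hC⟩ := h.cuts.far
  obtain ⟨C₁, R₁, hR₁, hC₁, b₁⟩ := (d_exA h).bound
  obtain ⟨C₂, R₂, hR₂, hC₂, b₂⟩ := (d_thA h).bound
  obtain ⟨C₃, R₃, hR₃, hC₃, b₃⟩ := (d_DL h).bound
  obtain ⟨C₄, R₄, hR₄, hC₄, b₄⟩ := (d_Dk h).bound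
  obtain ⟨C₅, R₅, hR₅, hC₅, b₅⟩ := (c_rho h.cuts).bound
  obtain ⟨C₆, R₆, hR₆, hC₆, b₆⟩ := (c_w h.cuts).bound
  obtain ⟨C₇, R₇, hR₇, hC₇, b₇⟩ := (d_DDLk h).bound
  obtain ⟨C₈, R₈, hR₈, hC₈, b₈⟩ := (d7 h).bound
  obtain ⟨C₉, R₉, b₉⟩ := d_meanw h
  set K : ℝ := C₁ + C₂ + C₃ + C₄ + C₅ + C₆ + C₇ + C₈ * C ^ 2 + |C₉| * |C| with hK
  have hn8 : 0 ≤ C₈ * C ^ 2 := by positivity
  have hn9 : 0 ≤ |C₉| * |C| := by positivity
  obtain ⟨K', R', hend⟩ := end_pure m K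
  refine ⟨|K'|, R + |R| + (R' + |R'|) + (R₁ + R₂ + R₃ + R₄ + R₅ + R₆ + R₇ + R₈) + (R₉ + |R₉|) + |R| + |R'| + |R₉|, fun s hs => ?_⟩
  have a0 := abs_nonneg R
  have a1 := abs_nonneg R'
  have a2 := abs_nonneg R₉
  have a3 := neg_abs_le R
  have a4 := neg_abs_le R'
  have a5 := neg_abs_le R₉
  obtain ⟨hreg, hτ, hr1, hr2, _, _⟩ := hC s (by linarith)
  have hs1 : 1 ≤ s := by linarith
  have hs0 : 0 < s := by linarith
  have hr0 : 0 < r s := by linarith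
  have c1 := b₁ s (by linarith)
  have c2 := b₂ s (by linarith)
  have c3 := b₃ s (by linarith)
  have c4 := b₄ s (by linarith)
  have c5 := b₅ s (by linarith)
  have c6 := b₆ s (by linarith)
  have c7 := b₇ s (by linarith)
  have c8 := b₈ s (by linarith)
  have c9 := b₉ s (by linarith)
  simp only [zpow_zero, mul_one] at c1 c2 c3 c4 c5 c6 c7
  have hfin := hend (r s) (by linarith) (fun n => exl G (Φ s) (τ s, (n : E3)) * dA G (Φ s) (τ s, (n : E3)))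
    (fun n => tht G (Φ s) (τ s, (n : E3)) * dA G (Φ s) (τ s, (n : E3)))
    (fun n => ip G (Ph (Φ s) (τ s, (n : E3))) (DD (Φ s) (τ s, (n : E3))) (LL (Φ s) (τ s, (n : E3))))
    (fun n => ip G (Ph (Φ s) (τ s, (n : E3))) (DD (Φ s) (τ s, (n : E3))) (kk G (Φ s) (τ s, (n : E3))))
    (fun n => ‖pos (Ph (Φ s) (τ s, (n : E3)))‖) (fun n => Real.sqrt (dA G (Φ s) (τ s, (n : E3))))
    (fun n => d13Q G (Φ s) (τ s, (n : E3)))
    ((d13_ce hreg hτ).mul (d13_cA hreg hτ)) ((d13_ct hreg hτ).mul (d13_cA hreg hτ)) (d13_cL hreg hτ) (d13_ck hreg hτ)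
    (d13_cr hreg hτ) (d13_cA hreg hτ).sqrt (d13_cQ hreg hτ)
    (fun n => (c1 n).trans (by linarith)) (fun n => (c2 n).trans (by linarith)) (fun n => (c3 n).trans (by linarith))
    (fun n => (c4 n).trans (by linarith)) (fun n => (c5 n).trans (by linarith)) (fun n => (c6 n).trans (by linarith))
    (fun n => (c7 n).trans (by linarith)) (fun n => ?_) (d13_I hreg hτ) ?_
  · have e1 : ∀ n : S2, Real.sqrt (dA G (Φ s) (τ s, (n : E3))) ^ 2 = dA G (Φ s) (τ s, (n : E3)) := fun n =>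
      Real.sq_sqrt (Real.sqrt_nonneg _)
    have e2 : ∀ n : S2, exl G (Φ s) (τ s, (n : E3)) * dA G (Φ s) (τ s, (n : E3)) / (2 * Real.sqrt (dA G (Φ s) (τ s, (n : E3)))) =
        exl G (Φ s) (τ s, (n : E3)) * Real.sqrt (dA G (Φ s) (τ s, (n : E3))) / 2 := by
      intro n
      have h0 : 0 < dA G (Φ s) (τ s, (n : E3)) := Real.sqrt_pos.2 (PP_det hreg (hreg.mem _ hτ n (d3d_ne n)))
      have h1 : 0 < Real.sqrt (dA G (Φ s) (τ s, (n : E3))) := Real.sqrt_pos.2 h0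
      have h2 := Real.mul_self_sqrt h0.le
      rw [div_eq_div_iff (by positivity) (by norm_num)]
      linear_combination (-2 * exl G (Φ s) (τ s, (n : E3))) * h2
    simp only [e1, e2] at hfin
    refine hfin.trans ?_
    have e3 : K' / r s ≤ |K'| / r s := div_le_div_of_nonneg_right (le_abs_self _) hr0.le
    exact e3.trans (div_le_div_of_nonneg_left (abs_nonneg _) hs0 hr1)
  · have g1 := c8 n
    have e1 : C₈ * s ^ (-2 : ℤ) ≤ C₈ * C ^ 2 / r s ^ 2 := by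
      rw [e1b_zpow2, mul_div_assoc]
      refine mul_le_mul_of_nonneg_left ?_ hC₈
      rw [div_le_div_iff₀ (by positivity) (by positivity)]
      nlinarith
    have e2 : C₈ * C ^ 2 / r s ^ 2 ≤ K / r s ^ 2 := div_le_div_of_nonneg_right (by linarith) (by positivity)
    refine le_trans (le_of_eq ?_) (g1.trans (e1.trans e2))
    show |d13Q G (Φ s) (τ s, (n : E3)) - (2 - 2 * m / r s)| = |d13Q G (Φ s) (τ s, (n : E3)) - (2 - 2 * m * (1 / r s))|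
    congr 2
    ring
  · refine c9.trans ?_
    have e1 : C₉ / s ≤ |C₉| * |C| / r s := by
      have e3 : r s ≤ |C| * s := hr2.trans (mul_le_mul_of_nonneg_right (le_abs_self _) hs0.le)
      have e4 : C₉ / s ≤ |C₉| / s := div_le_div_of_nonneg_right (le_abs_self _) hs0.le
      refine e4.trans ?_
      rw [div_le_div_iff₀ hs0 hr0]
      nlinarith [abs_nonneg C₉]
    exact e1.trans (div_le_div_of_nonneg_right (by linarith) hr0.le)

end H17Y
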