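import Pool.Agent.Lib.H17W.D2B
import Pool.Agent.Lib.H17Y.B1D
import Pool.Agent.Lib.H17Y.B3A
import Pool.Agent.Lib.H17W.A5

set_option autoImplicit false

/-!
# H17Y (port of H17W to finite pieces), chunk D2B (M): the dominant energy condition

Auxiliary names start with `d2b_`.
-/

open MeasureTheory Filter Topology Set
open scoped ContDiff

namespace H17Y

open H17W

open H17T (E4 pt pos DEC ein)
open Pool.Agent.Lib.PenroseSph (E3 S2 sm)

variable {U : Set E4} {G : E4 → Matrix (Fin 4) (Fin 4) ℝ} {Ψ : ℝ × E3 → E4} {W : Set (ℝ × E3)} {T : ℝ}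

theorem ee_nonneg (hN : NullPiece U G T Ψ) (hR : RegI G Ψ W (Icc 0 T)) {s : ℝ} (hs : s ∈ Icc 0 T) (n : S2) :
    0 ≤ ee G Ψ (s, (n : E3)) := by
  have hn := d2b_ne n
  have hD : DEC G (Ph Ψ (s, (n : E3))) := by
    rw [d2b_Ph]
    exact hN.dec s hs n
  exact dec_self hD (hR.time _ (hR.mem s hs _ hn)) (hR.null s hs _ hn)

/-- abstract version of `dec_quad` -/
theorem d2b_abs (hG : SpaceTime U G) {p : E4} (hp : p ∈ U) (hM : MetAt G p) (hD : DEC G p) {X : Fin 3 → Fin 4 → ℝ}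
    {Q : Fin 3 → Fin 3 → ℝ} {L k : Fin 4 → ℝ} (hF : NFrame (G p) X Q L k) (hLL : ip G p L L = 0) (hkk : ip G p k k = 0)
    (hLk : ip G p L k = 2) (hLX : ∀ i, ip G p L (X i) = 0) (hkX : ∀ i, ip G p k (X i) = 0) (hQ : ∀ i j, Q i j = Q j i)
    (hap : ∀ i, ∑ a, (∑ b, Q a b * Ric G p L (X b)) * ip G p (X a) (X i) = Ric G p L (X i)) (t : ℝ) :
    0 ≤ (∑ i, ∑ j, Q i j * Ric G p (X i) (X j)) - 2 * t * (∑ a, ∑ b, Q a b * Ric G p L (X a) * Ric G p L (X b)) +
      t ^ 2 * (∑ a, ∑ b, Q a b * Ric G p L (X a) * Ric G p L (X b)) * Ric G p L L := by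
  set N := ∑ a, ∑ b, Q a b * Ric G p L (X a) * Ric G p L (X b) with hN
  obtain ⟨v, hv⟩ : ∃ v : Fin 3 → ℝ, ∀ a, v a = ∑ b, Q a b * Ric G p L (X b) := ⟨_, fun _ => rfl⟩
  obtain ⟨Z, hZ⟩ : ∃ Z : Fin 4 → ℝ, Z = v 0 • X 0 + (v 1 • X 1 + v 2 • X 2) := ⟨_, rfl⟩
  have hNv : N = v 0 * Ric G p L (X 0) + (v 1 * Ric G p L (X 1) + v 2 * Ric G p L (X 2)) := by
    have : N = ∑ a, v a * Ric G p L (X a) := by
      rw [hN]
      refine Finset.sum_congr rfl fun a _ => ?_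
      rw [hv, Finset.sum_mul]
      refine Finset.sum_congr rfl fun b _ => ?_
      ring
    rw [this, Fin.sum_univ_three]
    ring
  have hZR : Ric G p L Z = N := by
    rw [hZ, d2b_Ric_add_right, d2b_Ric_add_right, d2b_Ric_smul_right, d2b_Ric_smul_right, d2b_Ric_smul_right, hNv]
  have hZX : ∀ i, ip G p Z (X i) = Ric G p L (X i) := by
    intro i
    rw [← hap i, Fin.sum_univ_three, hZ, ip_add_left, ip_add_left, ip_smul_left, ip_smul_left, ip_smul_left,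
      ← hv, ← hv, ← hv]
    ring
  have hZZ : ip G p Z Z = N := by
    have : ip G p Z Z = v 0 * ip G p Z (X 0) + (v 1 * ip G p Z (X 1) + v 2 * ip G p Z (X 2)) := by
      nth_rw 2 [hZ]
      rw [ip_add_right, ip_add_right, ip_smul_right, ip_smul_right, ip_smul_right]
    rw [this, hZX, hZX, hZX, hNv]
  have hLZ : ip G p L Z = 0 := by
    rw [hZ, ip_add_right, ip_add_right, ip_smul_right, ip_smul_right, ip_smul_right, hLX, hLX, hLX]
    ring
  have hkZ : ip G p k Z = 0 := by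
    rw [hZ, ip_add_right, ip_add_right, ip_smul_right, ip_smul_right, ip_smul_right, hkX, hkX, hkX]
    ring
  have hkL : ip G p k L = 2 := by rw [ip_symm hM, hLk]
  have hZL : ip G p Z L = 0 := by rw [ip_symm hM, hLZ]
  have hZk : ip G p Z k = 0 := by rw [ip_symm hM, hkZ]
  obtain ⟨Y, hY⟩ : ∃ Y : Fin 4 → ℝ, Y = k + ((2 * t) • Z + (-(t ^ 2 * N)) • L) := ⟨_, rfl⟩
  have hLY : ip G p L Y = 2 := by
    rw [hY, ip_add_right, ip_add_right, ip_smul_right, ip_smul_right, hLk, hLZ, hLL]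
    ring
  have hkY : ip G p k Y = -(t ^ 2 * N) * 2 := by
    rw [hY, ip_add_right, ip_add_right, ip_smul_right, ip_smul_right, hkk, hkZ, hkL]
    ring
  have hZY : ip G p Z Y = 2 * t * N := by
    rw [hY, ip_add_right, ip_add_right, ip_smul_right, ip_smul_right, hZk, hZZ, hZL]
    ring
  have hYY : ip G p Y Y = 0 := by
    have : ip G p Y Y = ip G p k Y + ((2 * t) * ip G p Z Y + (-(t ^ 2 * N)) * ip G p L Y) := by
      nth_rw 1 [hY]
      rw [ip_add_left, ip_add_left, ip_smul_left, ip_smul_left]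
    rw [this, hkY, hZY, hLY]
    ring
  have h1 := dec_null hG hp hD hLL hYY (by rw [hLY]; norm_num)
  rw [hLY, scal_frame hM hF, Ric_symm hM k L] at h1
  have h2 : Ric G p L Y = Ric G p L k + (2 * t * N + (-(t ^ 2 * N)) * Ric G p L L) := by
    rw [hY, d2b_Ric_add_right, d2b_Ric_add_right, d2b_Ric_smul_right, d2b_Ric_smul_right, hZR]
  rw [h2] at h1
  linarith

/-- `G(L, k) = - rr` (`scal_frame` for `nframe`, `Ric_symm`): `dec_null` with `a = L`, `b = Y = k + 2 t X - t² |X|² L`, which is null with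
`<L, Y> = 2`, gives `0 ≤ rr - 2 t Ric(L, X) + t² |X|² Ric(L, L)` for `X = ∑ v^a X_a`, `v^a = ∑ Q^ab j_b`, where `Ric(L, X) = |X|² = ∑ Q^ab j_a j_b`. -/
theorem dec_quad (hG : SpaceTime U G) (hN : NullPiece U G T Ψ) (hR : RegI G Ψ W (Icc 0 T)) {s : ℝ} (hs : s ∈ Icc 0 T) (n : S2) (t : ℝ) :
    0 ≤ rr G Ψ (s, (n : E3)) - 2 * t * (∑ a, ∑ b, QQ G Ψ a b (s, (n : E3)) * jj G Ψ a (s, (n : E3)) * jj G Ψ b (s, (n : E3))) +
      t ^ 2 * (∑ a, ∑ b, QQ G Ψ a b (s, (n : E3)) * jj G Ψ a (s, (n : E3)) * jj G Ψ b (s, (n : E3))) * ee G Ψ (s, (n : E3)) := by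
  have hn := d2b_ne n
  have hW := hR.mem s hs _ hn
  have hD : DEC G (Ph Ψ (s, (n : E3))) := by
    rw [d2b_Ph]
    exact hN.dec s hs n
  have hU : Ph Ψ (s, (n : E3)) ∈ U := by
    rw [d2b_Ph]
    exact hN.mem s hs n
  have hM := hR.met _ hW
  have hPh : DifferentiableAt ℝ (Ph Ψ) (s, (n : E3)) := (hR.smooth _ hW).differentiableAt (by simp)
  have hrad : ∑ i, jj G Ψ i (s, (n : E3)) * (n : E3) i = 0 := by
    have h1 : Ric G (Ph Ψ (s, (n : E3))) (LL Ψ (s, (n : E3)))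
        ((n : E3) 0 • XX Ψ 0 (s, (n : E3)) + ((n : E3) 1 • XX Ψ 1 (s, (n : E3)) + (n : E3) 2 • XX Ψ 2 (s, (n : E3)))) = 0 := by
      have h2 : ((n : E3) 0 • XX Ψ 0 (s, (n : E3)) + ((n : E3) 1 • XX Ψ 1 (s, (n : E3)) + (n : E3) 2 • XX Ψ 2 (s, (n : E3)))) = 0 := by
        funext a
        have h3 := XX_rad (p := (s, (n : E3))) hn hPh a
        rw [Fin.sum_univ_three] at h3
        simp only [Pi.add_apply, Pi.smul_apply, smul_eq_mul, Pi.zero_apply]
        linarith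
      rw [h2, d2b_Ric_zero_right]
    rw [d2b_Ric_add_right, d2b_Ric_add_right, d2b_Ric_smul_right, d2b_Ric_smul_right, d2b_Ric_smul_right] at h1
    rw [Fin.sum_univ_three]
    unfold jj
    linarith
  have hap := fun i => hQ_apply hR hW (v := fun j => jj G Ψ j (s, (n : E3))) hrad i
  exact d2b_abs hG hU hM hD (nframe hR hs hn) (hR.null s hs _ hn) (kk_k hR hs hn) (kk_L hR hs hn) (hR.orth s hs _ hn)
    (kk_X hR hs hn) (fun i j => QQ_symm hR hW i j) hap t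

/-- From `dec_quad` (`t = 0`; `t = 1 / e`; if `e = 0`, large `t`). -/
theorem dec_data (hG : SpaceTime U G) (hN : NullPiece U G T Ψ) (hR : RegI G Ψ W (Icc 0 T)) {s : ℝ} (hs : s ∈ Icc 0 T) (n : S2) :
    0 ≤ rr G Ψ (s, (n : E3)) ∧ ∑ a, ∑ b, QQ G Ψ a b (s, (n : E3)) * jj G Ψ a (s, (n : E3)) * jj G Ψ b (s, (n : E3)) ≤
      ee G Ψ (s, (n : E3)) * rr G Ψ (s, (n : E3)) := by
  have hq := dec_quad hG hN hR hs n
  have he := ee_nonneg hN hR hs n
  generalize (∑ a, ∑ b, QQ G Ψ a b (s, (n : E3)) * jj G Ψ a (s, (n : E3)) * jj G Ψ b (s, (n : E3))) = N at hq ⊢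
  generalize ee G Ψ (s, (n : E3)) = e at hq he ⊢
  generalize rr G Ψ (s, (n : E3)) = r at hq ⊢
  have h0 := hq 0
  have hr : 0 ≤ r := by simpa using h0
  refine ⟨hr, ?_⟩
  rcases he.lt_or_eq with he | he
  · have h1 := hq (1 / e)
    have h2 : r - 2 * (1 / e) * N + (1 / e) ^ 2 * N * e = r - N / e := by
      field_simp
      ring
    rw [h2] at h1
    have h3 : N / e ≤ r := by linarith
    rw [div_le_iff₀ he] at h3
    linarith
  · rw [← he, zero_mul]
    by_contra hcon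
    have hN' : 0 < N := not_le.mp hcon
    have h1 := hq ((r + 1) / (2 * N))
    rw [← he, mul_zero, add_zero] at h1
    have h2 : 2 * ((r + 1) / (2 * N)) * N = r + 1 := by
      field_simp
    rw [h2] at h1
    linarith

end H17Y
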