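import Pool.Agent.Lib.H17Y.D2
import Pool.Agent.Lib.H17Y.C5

set_option autoImplicit false

/-!
# H17Y, chunk D3 (M): the second fundamental forms of the end cuts

`chi_ij = - <L, D_i X_j>` (`chi_eq` of `H17Y.B3B`, `kap_eq` for `k`). `<L, D_i X_j> = sum G_ab L^a (D_i X_j)^b`, `G = eta + O(1/s)`, `D_i X_j = O(s)`; `eta`: `- L^0 (D_iX_j)^0 + sum_l L^l (D_iX_j)^l = O(1) + sum_l n_l r (3 n_j n_l n_i - ...) + O(1)`
(`d_cov0`, `d_cov`, `c_ll`, `c_ll0`), and `sum_l n_l (3 n_j n_l n_i - δ_jl n_i - δ_ij n_l - δ_li n_j) = n_i n_j - δ_ij` for `|n| = 1` (`e3a_sq`, `e3a_eta`). For `kap` use `c_kk0`, `c_kk`.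
Auxiliary names start with `d3_`.
-/

open MeasureTheory Filter Topology Set Asymptotics
open scoped ContDiff

namespace H17Y

open H17W
open H17T (E4 pt pos tang slice second DEC)
open H17B (eta dl)
open Pool.Agent.Lib.PenroseSph (E3 Tens S2 sm pd)

variable {G : E4 → Matrix (Fin 4) (Fin 4) ℝ} {e m : ℝ} {Φ : ℝ → ℝ × E3 → E4} {τ r : ℝ → ℝ} {W : ℝ → Set (ℝ × E3)} {I : ℝ → Set ℝ}

theorem d3_T0 (j l i : Fin 3) : Os 0 fun p : ℝ × E3 => 3 * p.2 j * p.2 l * p.2 i -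
      (if j = l then 1 else 0) * p.2 i - (if j = i then 1 else 0) * p.2 l - (if l = i then 1 else 0) * p.2 j := by
  have h1 : Os 0 fun p : ℝ × E3 => 3 * p.2 j * p.2 l * p.2 i :=
    ((Os.const_mul (Os.coord j) 3).mul (Os.coord l) (j := 0) (by norm_num)).mul (Os.coord i) (by norm_num)
  have h2 : Os 0 fun p : ℝ × E3 => (if j = l then (1 : ℝ) else 0) * p.2 i := Os.const_mul (Os.coord i) _
  have h3 : Os 0 fun p : ℝ × E3 => (if j = i then (1 : ℝ) else 0) * p.2 l := Os.const_mul (Os.coord l) _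
  have h4 : Os 0 fun p : ℝ × E3 => (if l = i then (1 : ℝ) else 0) * p.2 j := Os.const_mul (Os.coord j) _
  exact ((h1.sub h2).sub h3).sub h4

theorem d3_sum {n : E3} (h : ‖n‖ = 1) (j i : Fin 3) : ∑ l : Fin 3, (3 * n j * n l * n i -
      (if j = l then 1 else 0) * n i - (if j = i then 1 else 0) * n l - (if l = i then 1 else 0) * n j) * n l =
    -((if i = j then 1 else 0) - n i * n j) := by
  have hn := e3a_sq h
  have e5 : ∀ l : Fin 3, (3 * n j * n l * n i -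
      (if j = l then 1 else 0) * n i - (if j = i then 1 else 0) * n l - (if l = i then 1 else 0) * n j) * n l =
      3 * n j * n i * n l ^ 2 - (if j = l then n i * n l else 0) - (if j = i then 1 else 0) * n l ^ 2 -
      (if l = i then n j * n l else 0) := by
    intro l
    split_ifs <;> ring
  simp only [e5, Finset.sum_sub_distrib, Finset.sum_ite_eq, Finset.sum_ite_eq', Finset.mem_univ, if_true]
  rw [← Finset.mul_sum, ← Finset.mul_sum, Fin.sum_univ_three, hn]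
  by_cases hij : i = j
  · subst hij
    simp
    ring
  · rw [if_neg hij, if_neg (Ne.symm hij)]
    ring

theorem d3_cov1 (h : Ends G e m Φ τ r W I) (k i : Fin 3) (a : Fin 4) :
    Os 1 fun p => cov G (Ph (Φ p.1)) (XX (Φ p.1) i) (τ p.1, p.2) (dX k) a := by
  refine Fin.cases ?_ (fun l => ?_) a
  · exact (d_cov0 h k i).mono (by norm_num)
  · have h1 := ((d_cov h k i l).mono (show (0 : ℤ) ≤ 1 by norm_num)).add
      ((c_r h.cuts).mul (d3_T0 i l k) (j := 1) (by norm_num))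
    refine h1.congr (Eventually.of_forall fun p => ?_)
    ring

theorem d3_main (h : Ends G e m Φ τ r W I) (i j : Fin 3) {V : ℝ × E3 → Fin 4 → ℝ} (h0 : Os 0 fun p => V p 0)
    (h1 : ∀ l : Fin 3, Os (-1) fun p => V p l.succ - p.2 l) :
    Os 0 fun p => ip G (Ph (Φ p.1) (τ p.1, p.2)) (cov G (Ph (Φ p.1)) (XX (Φ p.1) j) (τ p.1, p.2) (dX i)) (V p) +
      r p.1 * ((if i = j then 1 else 0) - p.2 i * p.2 j) := by
  have hV : ∀ a, Os 0 fun p => V p a := by
    intro a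
    refine Fin.cases h0 (fun l => ?_) a
    refine (((h1 l).mono (show (-1 : ℤ) ≤ 0 by norm_num)).add (Os.coord l)).congr (Eventually.of_forall fun p => ?_)
    ring
  have hA : Os 0 fun p => ∑ a, ∑ b, (G (Ph (Φ p.1) (τ p.1, p.2)) a b - eta a b) *
      cov G (Ph (Φ p.1)) (XX (Φ p.1) j) (τ p.1, p.2) (dX i) a * V p b := by
    refine Os.sum _ fun a _ => Os.sum _ fun b _ => ?_
    exact ((c_met1 h.cuts a b).mul (d3_cov1 h i j a) (j := 0) (by norm_num)).mul (hV b) (by norm_num)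
  have hB : Os 0 fun p => cov G (Ph (Φ p.1)) (XX (Φ p.1) j) (τ p.1, p.2) (dX i) 0 * V p 0 :=
    (d_cov0 h i j).mul h0 (by norm_num)
  have hC : ∀ l : Fin 3, Os 0 fun p => cov G (Ph (Φ p.1)) (XX (Φ p.1) j) (τ p.1, p.2) (dX i) l.succ * V p l.succ -
      r p.1 * ((3 * p.2 j * p.2 l * p.2 i - (if j = l then 1 else 0) * p.2 i - (if j = i then 1 else 0) * p.2 l -
        (if l = i then 1 else 0) * p.2 j) * p.2 l) := by
    intro l
    have g1 := (d_cov h i j l).mul (hV l.succ) (j := 0) (by norm_num)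
    have g2 := ((c_r h.cuts).mul (d3_T0 j l i) (j := 1) (by norm_num)).mul (h1 l) (j := 0) (by norm_num)
    refine (g1.add g2).congr (Eventually.of_forall fun p => ?_)
    ring
  have hS := (hA.sub hB).add (Os.sum Finset.univ fun l _ => hC l)
  refine hS.congr ?_
  filter_upwards [inf_norm] with p hp
  have e1 : ip G (Ph (Φ p.1) (τ p.1, p.2)) (cov G (Ph (Φ p.1)) (XX (Φ p.1) j) (τ p.1, p.2) (dX i)) (V p) =
      ∑ a, ∑ b, (G (Ph (Φ p.1) (τ p.1, p.2)) a b - eta a b) *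
      cov G (Ph (Φ p.1)) (XX (Φ p.1) j) (τ p.1, p.2) (dX i) a * V p b -
      cov G (Ph (Φ p.1)) (XX (Φ p.1) j) (τ p.1, p.2) (dX i) 0 * V p 0 +
      ∑ l : Fin 3, cov G (Ph (Φ p.1)) (XX (Φ p.1) j) (τ p.1, p.2) (dX i) l.succ * V p l.succ := by
    have h2 := e3a_eta (cov G (Ph (Φ p.1)) (XX (Φ p.1) j) (τ p.1, p.2) (dX i)) (V p)
    unfold ip
    have : ∀ a b, G (Ph (Φ p.1) (τ p.1, p.2)) a b *
        cov G (Ph (Φ p.1)) (XX (Φ p.1) j) (τ p.1, p.2) (dX i) a * V p b =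
        (G (Ph (Φ p.1) (τ p.1, p.2)) a b - eta a b) *
        cov G (Ph (Φ p.1)) (XX (Φ p.1) j) (τ p.1, p.2) (dX i) a * V p b +
        eta a b * cov G (Ph (Φ p.1)) (XX (Φ p.1) j) (τ p.1, p.2) (dX i) a * V p b := by
      intro a b
      ring
    simp only [this, Finset.sum_add_distrib]
    rw [h2]
    ring
  rw [e1, Finset.sum_sub_distrib, ← Finset.mul_sum, d3_sum hp]
  ring

theorem d_chi (h : Ends G e m Φ τ r W I) (i j : Fin 3) :
    Os 0 fun p => chi G (Φ p.1) i j (τ p.1, p.2) - r p.1 * ((if i = j then 1 else 0) - p.2 i * p.2 j) := by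
  have h1 := (d3_main h i j (V := fun p => LL (Φ p.1) (τ p.1, p.2)) (c_llb h.cuts 0) (c_ll h.cuts)).neg
  refine h1.congr ?_
  filter_upwards [c_ev h.cuts] with p hp
  obtain ⟨hn, _, _, hR, hI, _⟩ := hp
  have hne : p.2 ≠ 0 := by
    intro h0
    rw [h0, norm_zero] at hn
    exact zero_ne_one hn
  rw [chi_eq hR hI hne]
  ring

theorem d_kap (h : Ends G e m Φ τ r W I) (i j : Fin 3) :
    Os 0 fun p => kap G (Φ p.1) i j (τ p.1, p.2) - r p.1 * ((if i = j then 1 else 0) - p.2 i * p.2 j) := by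
  have h1 := (d3_main h i j (V := fun p => kk G (Φ p.1) (τ p.1, p.2)) (c_kkb h.cuts 0) (c_kk h.cuts)).neg
  refine h1.congr ?_
  filter_upwards [c_ev h.cuts] with p hp
  obtain ⟨hn, _, _, hR, hI, _⟩ := hp
  have hne : p.2 ≠ 0 := by
    intro h0
    rw [h0, norm_zero] at hn
    exact zero_ne_one hn
  rw [kap_eq hR hI hne]
  ring

end H17Y
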