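import Pool.Agent.Lib.H17Y.D3A
import Pool.Agent.Lib.H17Y.R0

set_option autoImplicit false

/-!
# H17Y (port of H17W to intervals), chunk D3C (M): divergences

Auxiliary names start with `d3c_`.
-/

open MeasureTheory Filter Topology Set
open scoped ContDiff

namespace H17Y

open H17W

open H17T (E4 pt pos)
open Pool.Agent.Lib.PenroseSph (E3 S2 sm pd)

variable {G : E4 → Matrix (Fin 4) (Fin 4) ℝ} {Ψ : ℝ × E3 → E4} {W : Set (ℝ × E3)} {I : Set ℝ}

/-- `div_form` and `flux` for `PP(s, ·)` (`PP_cyl`): `(P⁻¹)^ij = Q^ij + x_i x_j`, and `∑ x_i x_j (∂_i al_j - cc^k_ij al_k) = 0`,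
`∑_j (P⁻¹)^ij al_j = ∑_j Q^ij al_j`, since `∑ x_j al_j = 0` for all `x ≠ 0` (`cyl_chr_rad`). Homogeneity of the vector field: `dA_hom`,
`QQ_hom`. -/
theorem div_zero (hR : RegI G Ψ W I) {s : ℝ} (hs : s ∈ I) {al : E3 → Fin 3 → ℝ}
    (hal : ∀ x : E3, x ≠ 0 → ∀ i, ContDiffAt ℝ ∞ (fun y => al y i) x)
    (hom : ∀ x : E3, x ≠ 0 → ∀ c : ℝ, 0 < c → ∀ i, al (c • x) i = al x i / c)
    (rad : ∀ x : E3, x ≠ 0 → ∑ i, al x i * x i = 0) :
    ∫ n : S2, divf G Ψ al s n * dA G Ψ (s, (n : E3)) ∂sm = 0 := by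
  have hP := PP_cyl hR hs
  have hne : (∞ : WithTop ℕ∞) ≠ 0 := by simp
  have hn0 : ∀ n : S2, (n : E3) ≠ 0 := fun n h => by
    have h1 := mem_sphere_zero_iff_norm.1 n.2
    rw [h, norm_zero] at h1
    exact zero_ne_one h1
  have hinv : ∀ (y : E3) (i j : Fin 3), (PP G Ψ (s, y))⁻¹ i j = QQ G Ψ i j (s, y) + y i * y j := by
    intro y i j
    unfold QQ
    ring
  -- the vector field
  have hZ : ∀ x : E3, x ≠ 0 → ∀ i, ContDiffAt ℝ 1 (fun y => Real.sqrt (PP G Ψ (s, y)).det *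
      ∑ j, (PP G Ψ (s, y))⁻¹ i j * al y j) x := by
    intro x hx i
    have hp : (s, x) ∈ W := hR.mem s hs x hx
    have hsl : ContDiffAt ℝ 1 (fun y : E3 => ((s, y) : ℝ × E3)) x := contDiffAt_const.prodMk contDiffAt_id
    have hle : (1 : WithTop ℕ∞) ≤ ∞ := by exact_mod_cast le_top
    have h1 : ContDiffAt ℝ 1 (fun y => dA G Ψ (s, y)) x :=
      ContDiffAt.comp x (g := dA G Ψ) (f := fun y : E3 => ((s, y) : ℝ × E3)) ((dA_smooth hR hp).of_le hle) hsl
    have h2 : ∀ j, ContDiffAt ℝ 1 (fun y => QQ G Ψ i j (s, y)) x := fun j =>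
      ContDiffAt.comp x (g := QQ G Ψ i j) (f := fun y : E3 => ((s, y) : ℝ × E3)) ((QQ_smooth hR hp i j).of_le hle) hsl
    have h3 : ∀ j : Fin 3, ContDiffAt ℝ 1 (fun y : E3 => y j) x := fun j =>
      (contDiff_euclidean.1 contDiff_id j).contDiffAt
    simp only [hinv]
    exact h1.mul (ContDiffAt.sum fun j _ => ((h2 j).add ((h3 i).mul (h3 j))).mul ((hal x hx j).of_le hle))
  have hZh : ∀ x : E3, x ≠ 0 → ∀ c : ℝ, 0 < c → ∀ i, Real.sqrt (PP G Ψ (s, c • x)).det *
      ∑ j, (PP G Ψ (s, c • x))⁻¹ i j * al (c • x) j = (Real.sqrt (PP G Ψ (s, x)).det *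
      ∑ j, (PP G Ψ (s, x))⁻¹ i j * al x j) / c ^ 2 := by
    intro x hx c hc i
    have h1 : Real.sqrt (PP G Ψ (s, c • x)).det = Real.sqrt (PP G Ψ (s, x)).det / c ^ 3 := dA_hom hR hs hx hc
    have h2 : ∀ j, (PP G Ψ (s, c • x))⁻¹ i j * al (c • x) j = c * ((PP G Ψ (s, x))⁻¹ i j * al x j) := by
      intro j
      rw [hinv, hinv, QQ_hom hR hs hx hc, hom x hx c hc]
      simp only [PiLp.smul_apply, smul_eq_mul]
      field_simp
    simp only [h2]
    rw [h1, ← Finset.mul_sum]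
    field_simp
  have hfl := flux (Z := fun y i => Real.sqrt (PP G Ψ (s, y)).det * ∑ j, (PP G Ψ (s, y))⁻¹ i j * al y j) hZ hZh
  rw [← hfl]
  refine integral_congr_ae (Filter.Eventually.of_forall fun n => ?_)
  simp only []
  have hx := hn0 n
  have hald : ∀ i, DifferentiableAt ℝ (fun y => al y i) (n : E3) := fun i => (hal _ hx i).differentiableAt hne
  rw [← div_form hP hx hald]
  have hrad : ∀ i, ∑ j, (n : E3) j * (pd i (fun y => al y j) n - ∑ k, cc G Ψ k i j (s, (n : E3)) * al n k) = 0 := by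
    intro i
    have h1 : HasFDerivAt (fun y : E3 => ∑ j, al y j * y j)
        (∑ j, (al n j • (EuclideanSpace.proj j : E3 →L[ℝ] ℝ) + (n : E3) j • fderiv ℝ (fun y => al y j) n)) (n : E3) :=
      HasFDerivAt.fun_sum fun j _ => (hald j).hasFDerivAt.mul (EuclideanSpace.proj j : E3 →L[ℝ] ℝ).hasFDerivAt
    have h2 : (fun y : E3 => ∑ j, al y j * y j) =ᶠ[𝓝 (n : E3)] fun _ => (0 : ℝ) := by
      filter_upwards [isOpen_ne.mem_nhds hx] with y hy
      exact rad y hy
    have h3 : (∑ j, (al n j • (EuclideanSpace.proj j : E3 →L[ℝ] ℝ) + (n : E3) j • fderiv ℝ (fun y => al y j) n)) = 0 := by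
      rw [← h1.fderiv, h2.fderiv_eq]
      simp
    have h4 := congrArg (fun L : E3 →L[ℝ] ℝ => L (EuclideanSpace.single i 1)) h3
    have hpj : ∀ j : Fin 3, (EuclideanSpace.proj j : E3 →L[ℝ] ℝ) (EuclideanSpace.single i 1) = if j = i then (1 : ℝ) else 0 :=
      fun j => PiLp.single_apply 2 ℝ i 1 j
    simp only [_root_.sum_apply, _root_.add_apply, _root_.smul_apply, smul_eq_mul, _root_.zero_apply, hpj] at h4
    rw [Finset.sum_add_distrib] at h4
    have h5 : ∑ j, al n j * (if j = i then (1 : ℝ) else 0) = al n i := by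
      simp
    rw [h5] at h4
    have h6 : ∑ j, (n : E3) j * (pd i (fun y => al y j) n - ∑ k, cc G Ψ k i j (s, (n : E3)) * al n k) =
        (∑ j, (n : E3) j * fderiv ℝ (fun y => al y j) n (EuclideanSpace.single i 1)) -
          ∑ k, (∑ j, cc G Ψ k i j (s, (n : E3)) * (n : E3) j) * al n k := by
      have h7 : ∑ k, (∑ j, cc G Ψ k i j (s, (n : E3)) * (n : E3) j) * al n k =
          ∑ j, (n : E3) j * ∑ k, cc G Ψ k i j (s, (n : E3)) * al n k := by
        simp only [Finset.sum_mul, Finset.mul_sum]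
        rw [Finset.sum_comm]
        refine Finset.sum_congr rfl fun j _ => Finset.sum_congr rfl fun k _ => ?_
        ring
      rw [h7, ← Finset.sum_sub_distrib]
      refine Finset.sum_congr rfl fun j _ => ?_
      unfold Pool.Agent.Lib.PenroseSph.pd
      ring
    have h8 : ∀ k, ∑ j, cc G Ψ k i j (s, (n : E3)) * (n : E3) j = -(if k = i then 1 else 0) := fun k =>
      cyl_chr_rad hP hx k i
    rw [h6]
    simp only [h8]
    have h9 : ∑ k, -(if k = i then (1 : ℝ) else 0) * al n k = -al n i := by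
      simp
    rw [h9]
    linarith
  have hkey : ∑ i, ∑ j, (PP G Ψ (s, (n : E3)))⁻¹ i j * (pd i (fun y => al y j) n -
      ∑ k, H31R.chr (fun x => PP G Ψ (s, x)) k i j n * al n k) = divf G Ψ al s n := by
    unfold divf
    have h1 : ∀ i, ∑ j, (PP G Ψ (s, (n : E3)))⁻¹ i j * (pd i (fun y => al y j) n -
        ∑ k, H31R.chr (fun x => PP G Ψ (s, x)) k i j n * al n k) =
        (∑ j, QQ G Ψ i j (s, (n : E3)) * (pd i (fun y => al y j) n - ∑ k, cc G Ψ k i j (s, (n : E3)) * al n k)) +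
        (n : E3) i * ∑ j, (n : E3) j * (pd i (fun y => al y j) n - ∑ k, cc G Ψ k i j (s, (n : E3)) * al n k) := by
      intro i
      rw [Finset.mul_sum, ← Finset.sum_add_distrib]
      refine Finset.sum_congr rfl fun j _ => ?_
      rw [hinv]
      unfold cc
      ring
    simp only [h1, hrad, mul_zero, add_zero]
  rw [hkey]
  unfold dA
  ring

end H17Y
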