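import Pool.Agent.Lib.H17W.D3D
import Pool.Agent.Lib.H17Y.D3A
import Pool.Agent.Lib.H17Y.D3C

set_option autoImplicit false

/-!
# H17Y (port of H17W to finite pieces), chunk D3D (M): divergences

Auxiliary names start with `d3d_`.
-/

open MeasureTheory Filter Topology Set
open scoped ContDiff

namespace H17Y

open H17W

open H17T (E4 pt pos)
open Pool.Agent.Lib.PenroseSph (E3 S2 sm pd)

variable {G : E4 → Matrix (Fin 4) (Fin 4) ℝ} {Ψ : ℝ × E3 → E4} {W : Set (ℝ × E3)} {I : Set ℝ}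

theorem d3d_cc (hR : RegI G Ψ W I) {s : ℝ} (hs : s ∈ I) (k i j : Fin 3) {x : E3} (hx : x ≠ 0) :
    ContinuousAt (fun y : E3 => cc G Ψ k i j (s, y)) x := by
  have h1 := (chr_smooth (cyl_metAt (PP_cyl hR hs) hx) k i j).self_of_nhds
  exact h1.continuousAt

theorem d3d_dzet (hR : RegI G Ψ W I) {s : ℝ} (hs : s ∈ I) {x : E3} (hx : x ≠ 0) :
    ContinuousAt (fun y : E3 => dzet G Ψ (s, y)) x := by
  have hm := hR.mem s hs x hx
  unfold dzet
  refine tendsto_finset_sum _ fun i _ => tendsto_finset_sum _ fun j _ => ?_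
  refine ContinuousAt.mul (d3d_c0 (QQ_smooth hR hm i j)) ?_
  refine ContinuousAt.sub (d3d_c1 (zet_smooth hR hm j) _) ?_
  exact tendsto_finset_sum _ fun m _ => ContinuousAt.mul (d3d_cc hR hs m i j hx) (d3d_c0 (zet_smooth hR hm m))

/-- `div_zero` for `ζ` (`zet_hom`, `zet_rad`, `zet_smooth`). -/
theorem int_dzet (hR : RegI G Ψ W I) {s : ℝ} (hs : s ∈ I) : ∫ n : S2, dzet G Ψ (s, (n : E3)) * dA G Ψ (s, (n : E3)) ∂sm = 0 := by
  rw [← div_zero hR hs (al := fun x j => zet G Ψ j (s, x))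
    (fun x hx i => d3d_slice (zet_smooth hR (hR.mem s hs x hx) i))
    (fun x hx c hc i => zet_hom hR hs hx hc i) (fun x hx => zet_rad hR hs hx)]
  refine integral_congr_ae (Eventually.of_forall fun n => ?_)
  have hm := hR.mem s hs n (d3d_ne n)
  simp only [dzet, divf]
  congr 1
  refine Finset.sum_congr rfl fun i _ => Finset.sum_congr rfl fun j _ => ?_
  rw [d3d_pd (zet_smooth hR hm j) i]

/-- The Gauss-Bonnet theorem for the surfaces. -/
theorem int_scal (hR : RegI G Ψ W I) {s : ℝ} (hs : s ∈ I) :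
    ∫ n : S2, scal (fun y => PP G Ψ (s, y)) (n : E3) * dA G Ψ (s, (n : E3)) ∂sm = 8 * Real.pi :=
  gauss_bonnet (PP_cyl hR hs)

end H17Y
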