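import Pool.Agent.Lib.H17Y.D3

set_option autoImplicit false

/-!
# H17Y, chunk D4 (M): the expansions of the end cuts

`exl = sum QQ_ij chi_ij` with `QQ_ij = P_ij / r² + O(s⁻³)`, `chi_ij = r P_ij + O(1)`, `P_ij = δ_ij - n_i n_j`, `sum P_ij P_ij = 2` for `|n| = 1`: `exl = 2/r + O(s⁻²)` (`c_qq`, `d_chi`, `c_r`, `c_rinv`). Times `dA = r² + O(s)` (`c_dA`).
Auxiliary names start with `d4_`.
-/

open MeasureTheory Filter Topology Set Asymptotics
open scoped ContDiff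

namespace H17Y

open H17W
open H17T (E4 pt pos tang slice second DEC)
open H17B (eta dl)
open Pool.Agent.Lib.PenroseSph (E3 Tens S2 sm pd)

variable {G : E4 → Matrix (Fin 4) (Fin 4) ℝ} {e m : ℝ} {Φ : ℝ → ℝ × E3 → E4} {τ r : ℝ → ℝ} {W : ℝ → Set (ℝ × E3)} {I : ℝ → Set ℝ}

theorem d4_P2 {n : E3} (h : ‖n‖ = 1) :
    ∑ i : Fin 3, ∑ j : Fin 3, ((if i = j then (1 : ℝ) else 0) - n i * n j) * ((if i = j then 1 else 0) - n i * n j) = 2 := by
  have hn := e3a_sq h
  simp only [Fin.sum_univ_three]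
  simp
  linear_combination (n 0 ^ 2 + n 1 ^ 2 + n 2 ^ 2 - 1) * hn

theorem d4_main (h : Cuts G e Φ τ r W I) {K : Fin 3 → Fin 3 → ℝ × E3 → ℝ}
    (hK : ∀ i j, Os 0 fun p => K i j p - r p.1 * ((if i = j then 1 else 0) - p.2 i * p.2 j)) :
    Os (-2) fun p => ∑ i, ∑ j, QQ G (Φ p.1) i j (τ p.1, p.2) * K i j p - 2 / r p.1 := by
  have hP : ∀ i j : Fin 3, Os 1 fun p : ℝ × E3 => r p.1 * ((if i = j then 1 else 0) - p.2 i * p.2 j) := fun i j =>
    (c_r h).mul (e3a_pl i j) (by norm_num)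
  have hK1 : ∀ i j, Os 1 fun p => K i j p := by
    intro i j
    refine (((hK i j).mono (show (0 : ℤ) ≤ 1 by norm_num)).add (hP i j)).congr (Eventually.of_forall fun p => ?_)
    ring
  have hP2 : ∀ i j : Fin 3, Os (-2) fun p : ℝ × E3 => ((if i = j then 1 else 0) - p.2 i * p.2 j) / r p.1 ^ 2 := by
    intro i j
    refine ((((c_rinv h).mul (c_rinv h) (j := -2) (by norm_num))).mul (e3a_pl i j) (j := -2) (by norm_num)).congr
      (Eventually.of_forall fun p => ?_)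
    ring
  have hT : ∀ i j, Os (-2) fun p => QQ G (Φ p.1) i j (τ p.1, p.2) * K i j p -
      ((if i = j then 1 else 0) - p.2 i * p.2 j) / r p.1 ^ 2 * (r p.1 * ((if i = j then 1 else 0) - p.2 i * p.2 j)) := by
    intro i j
    have g1 := (c_qq h i j).mul (hK1 i j) (j := -2) (by norm_num)
    have g2 := (hP2 i j).mul (hK i j) (j := -2) (by norm_num)
    refine (g1.add g2).congr (Eventually.of_forall fun p => ?_)
    ring
  refine (Os.sum Finset.univ fun i _ => Os.sum Finset.univ fun j _ => hT i j).congr ?_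
  filter_upwards [c_ev h] with p hp
  obtain ⟨hn, h1, h2, _⟩ := hp
  have hr : r p.1 ≠ 0 := (zero_lt_one.trans_le (h1.trans h2)).ne'
  have e1 : ∀ i j : Fin 3, ((if i = j then (1 : ℝ) else 0) - p.2 i * p.2 j) / r p.1 ^ 2 *
      (r p.1 * ((if i = j then 1 else 0) - p.2 i * p.2 j)) =
      1 / r p.1 * (((if i = j then (1 : ℝ) else 0) - p.2 i * p.2 j) * ((if i = j then 1 else 0) - p.2 i * p.2 j)) := by
    intro i j
    field_simp
  simp only [Finset.sum_sub_distrib, e1]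
  simp only [← Finset.mul_sum]
  rw [d4_P2 hn]
  ring

theorem d_exl (h : Ends G e m Φ τ r W I) : Os (-2) fun p => exl G (Φ p.1) (τ p.1, p.2) - 2 / r p.1 :=
  d4_main h.cuts (K := fun i j p => chi G (Φ p.1) i j (τ p.1, p.2)) fun i j => d_chi h i j

theorem d_tht (h : Ends G e m Φ τ r W I) : Os (-2) fun p => tht G (Φ p.1) (τ p.1, p.2) - 2 / r p.1 :=
  d4_main h.cuts (K := fun i j p => kap G (Φ p.1) i j (τ p.1, p.2)) fun i j => d_kap h i j

theorem d4_A (h : Cuts G e Φ τ r W I) {F : ℝ × E3 → ℝ} (hF : Os (-2) fun p => F p - 2 / r p.1) :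
    Os 0 fun p => F p * dA G (Φ p.1) (τ p.1, p.2) - 2 * r p.1 := by
  have hA : Os 2 fun p => dA G (Φ p.1) (τ p.1, p.2) := by
    refine (((c_dA h).mono (show (1 : ℤ) ≤ 2 by norm_num)).add ((c_r h).mul (c_r h) (j := 2) (by norm_num))).congr
      (Eventually.of_forall fun p => ?_)
    ring
  have g1 := hF.mul hA (j := 0) (by norm_num)
  have g2 := Os.const_mul ((c_rinv h).mul (c_dA h) (j := 0) (by norm_num)) 2
  refine (g1.add g2).congr ?_
  filter_upwards [c_ev h] with p hp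
  obtain ⟨hn, h1, h2, _⟩ := hp
  have hr : r p.1 ≠ 0 := (zero_lt_one.trans_le (h1.trans h2)).ne'
  field_simp
  ring

theorem d_exA (h : Ends G e m Φ τ r W I) :
    Os 0 fun p => exl G (Φ p.1) (τ p.1, p.2) * dA G (Φ p.1) (τ p.1, p.2) - 2 * r p.1 :=
  d4_A h.cuts (d_exl h)

theorem d_thA (h : Ends G e m Φ τ r W I) :
    Os 0 fun p => tht G (Φ p.1) (τ p.1, p.2) * dA G (Φ p.1) (τ p.1, p.2) - 2 * r p.1 :=
  d4_A h.cuts (d_tht h)

end H17Y
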