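import Pool.Agent.Lib.H17Y.E0
import Pool.Agent.Lib.H17W.E7A

set_option autoImplicit false

/-!
# H17Y, chunk D5 (M): the divergence of the position field, I

Exact identity, compare `H17W.e7_id` (`E7A`). `fderiv (aD j) (dX i) = <D_i D, X_j> + <D, D_i X_j>` (`ip_cov`), `D_i X_j = sum_m cc^m_ij X_m - (kap_ij L + chi_ij k)/2` (`DXX` of `H17Y.B4A`), so
`fderiv (aD j) (dX i) - sum_m cc^m_ij aD m = <D_i D, X_j> - (kap_ij <D,L> + chi_ij <D,k>)/2`; sum with `QQ_ij` (`tht = sum QQ kap`, `exl = sum QQ chi`).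
Auxiliary names start with `d5_`.
-/

open MeasureTheory Filter Topology Set Asymptotics
open scoped ContDiff

namespace H17Y

open H17W
open H17T (E4 pt pos tang slice second DEC)
open H17B (eta dl)
open Pool.Agent.Lib.PenroseSph (E3 Tens S2 sm pd)

variable {G : E4 → Matrix (Fin 4) (Fin 4) ℝ} {Ψ : ℝ × E3 → E4} {W : Set (ℝ × E3)} {I : Set ℝ}

theorem d5_succ (q : ℝ × E3) (l : Fin 3) : DD Ψ q l.succ = Ph Ψ q l.succ := e1a_pos _ _

theorem d5_smooth (hR : RegI G Ψ W I) {p : ℝ × E3} (hp : p ∈ W) (a : Fin 4) : ContDiffAt ℝ ∞ (fun q => DD Ψ q a) p := by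
  refine Fin.cases ?_ (fun l => ?_) a
  · exact contDiffAt_const
  · simp only [d5_succ]
    exact contDiffAt_euclidean.1 (hR.smooth p hp) l.succ

theorem d5_br (hR : RegI G Ψ W I) {s : ℝ} (hs : s ∈ I) {x : E3} (hx : x ≠ 0) (i j : Fin 3) :
    fderiv ℝ (aD G Ψ j) (s, x) (dX i) - ∑ m, cc G Ψ m i j (s, x) * aD G Ψ m (s, x) =
      ip G (Ph Ψ (s, x)) (cov G (Ph Ψ) (DD Ψ) (s, x) (dX i)) (XX Ψ j (s, x)) -
      (kap G Ψ i j (s, x) * ip G (Ph Ψ (s, x)) (DD Ψ (s, x)) (LL Ψ (s, x)) +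
        chi G Ψ i j (s, x) * ip G (Ph Ψ (s, x)) (DD Ψ (s, x)) (kk G Ψ (s, x))) / 2 := by
  have hp := hR.mem s hs x hx
  have hm := hR.met _ hp
  have h1 := ip_cov hm ((hR.smooth _ hp).differentiableAt (by simp)) (A := DD Ψ) (B := XX Ψ j)
    (fun a => (d5_smooth hR hp a).differentiableAt (by simp))
    (fun a => (XX_smooth hR hp j a).differentiableAt (by simp)) (dX i)
  have h2 : fderiv ℝ (aD G Ψ j) (s, x) (dX i) =
      fderiv ℝ (fun y => ip G (Ph Ψ y) (DD Ψ y) (XX Ψ j y)) (s, x) (dX i) := rfl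
  rw [h2, h1, ip_symm hm (DD Ψ (s, x)) (cov G (Ph Ψ) (XX Ψ j) (s, x) (dX i)), DXX hR hs hx i j, b4a_ip_sub, b4a_ip_sub,
    b4a_ip_sum, ip_smul_left, ip_smul_left, ip_symm hm (LL Ψ (s, x)), ip_symm hm (kk G Ψ (s, x))]
  have h3 : ∀ m, ip G (Ph Ψ (s, x)) (XX Ψ m (s, x)) (DD Ψ (s, x)) = aD G Ψ m (s, x) := fun m => ip_symm hm _ _
  simp only [h3]
  ring

theorem d5_id (hR : RegI G Ψ W I) {s : ℝ} (hs : s ∈ I) {x : E3} (hx : x ≠ 0) :
    divD G Ψ (s, x) + (ip G (Ph Ψ (s, x)) (DD Ψ (s, x)) (LL Ψ (s, x)) * tht G Ψ (s, x) +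
      ip G (Ph Ψ (s, x)) (DD Ψ (s, x)) (kk G Ψ (s, x)) * exl G Ψ (s, x)) / 2 =
    ∑ i, ∑ j, QQ G Ψ i j (s, x) * ip G (Ph Ψ (s, x)) (cov G (Ph Ψ) (DD Ψ) (s, x) (dX i)) (XX Ψ j (s, x)) := by
  unfold divD tht exl
  simp only [d5_br hR hs hx]
  simp only [Fin.sum_univ_three]
  ring

end H17Y
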