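import Pool.Agent.Lib.H17W.EF
import Pool.Agent.Lib.H17W.EB
import Pool.Agent.Lib.H17Y.Defs

set_option autoImplicit false

/-!
# H17Y: the data of the null hypersurface are asymptotically flat (port of H17W to metrics which are flat up to `O(1/s)`)
-/

open MeasureTheory Filter Topology Set Asymptotics
open scoped ContDiff

namespace H17Y

open H17W
open H17T (E4 pt pos tang slice second DEC)
open H17B (eta dl)
open Pool.Agent.Lib.PenroseSph (E3 Tens S2 sm pd)

variable {G : E4 → Matrix (Fin 4) (Fin 4) ℝ} {Ψ : ℝ × E3 → E4} {W : Set (ℝ × E3)} {ε : ℝ}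

/-- The hypotheses at infinity. -/
structure FarM (G : E4 → Matrix (Fin 4) (Fin 4) ℝ) (Ψ : ℝ × E3 → E4) (W : Set (ℝ × E3)) (ε : ℝ) : Prop where
  reg : Reg G Ψ W
  cone : ConeFlat ε Ψ
  mink : ConeMink G Ψ

theorem schw_zero (p : E4) (a b : Fin 4) : schw 0 p a b = eta a b := by
  rw [schw_eq]
  ring

theorem e1_met1 (h : FarM G Ψ W ε) (a b : Fin 4) : Os (-1) fun p => G (Ph Ψ p) a b - eta a b := by
  obtain ⟨C, R, hC⟩ := h.mink
  refine Os.of_bound C R fun s hs hs0 n => ?_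
  have h1 := (hC s hs n a b).1
  rw [schw_zero] at h1
  rw [ph_sph, zpow_neg_one, ← div_eq_mul_inv]
  exact h1

theorem e1_met0 (h : FarM G Ψ W ε) (a b : Fin 4) : Os 0 fun p => G (Ph Ψ p) a b := by
  have h1 := (e1_met1 h a b).mono (show (-1 : ℤ) ≤ 0 by norm_num)
  refine (h1.add (Os.const (eta a b))).congr (Eventually.of_forall fun p => ?_)
  ring

theorem e2_xx0 (h : FarM G Ψ W ε) (i : Fin 3) : Os 0 fun p => XX Ψ i p 0 := by
  obtain ⟨C, hC⟩ := h.cone
  refine Os.of_bound C 1 fun s hs hs0 n => ?_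
  show |XX Ψ i (s, (n : E3)) 0| ≤ _
  rw [(e2_xdev h.reg hs0.le e2b_sph i).1, zpow_zero, mul_one]
  exact (hC s hs n).2.1 0 i

theorem e2_xx (h : FarM G Ψ W ε) (i l : Fin 3) :
    Os 0 fun p => XX Ψ i p l.succ - p.1 * ((if i = l then 1 else 0) - p.2 i * p.2 l) := by
  obtain ⟨C, hC⟩ := h.cone
  refine Os.of_bound C 1 fun s hs hs0 n => ?_
  show |XX Ψ i (s, (n : E3)) l.succ - s * ((if i = l then 1 else 0) - (n : E3) i * (n : E3) l)| ≤ _
  have h1 : ‖(n : E3)‖ = 1 := by simp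
  rw [(e2_xdev h.reg hs0.le e2b_sph i).2 l, e2_ray e2b_sph, h1, zpow_zero, mul_one]
  have e : pd i (dev Ψ s l.succ) (n : E3) + s * (((if i = l then 1 else 0) - (n : E3) i * (n : E3) l / 1 ^ 2) / 1) -
      s * ((if i = l then 1 else 0) - (n : E3) i * (n : E3) l) = pd i (dev Ψ s l.succ) (n : E3) := by
    ring
  rw [e]
  exact (hC s hs n).2.1 l.succ i

theorem e2_xx1 (h : FarM G Ψ W ε) (i : Fin 3) (a : Fin 4) : Os 1 fun p => XX Ψ i p a := by
  refine Fin.cases ?_ (fun l => ?_) a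
  · exact (e2_xx0 h i).mono (by norm_num)
  · have h1 := ((e2_xx h i l).mono (show (0 : ℤ) ≤ 1 by norm_num)).add (e2b_proj i l)
    refine h1.congr (Eventually.of_forall fun p => ?_)
    ring

theorem e2_ll0 (h : FarM G Ψ W ε) : Os (-1) fun p => LL Ψ p 0 - ε := by
  obtain ⟨C, hC⟩ := h.cone
  refine Os.of_bound C 1 fun s hs hs0 n => ?_
  show |LL Ψ (s, (n : E3)) 0 - ε| ≤ _
  rw [e2b_gen h.reg hs0.le n, zpow_neg_one, ← div_eq_mul_inv]
  exact (hC s hs n).2.2.2.1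

theorem e2_ll (h : FarM G Ψ W ε) (i : Fin 3) : Os (-1) fun p => LL Ψ p i.succ - p.2 i := by
  obtain ⟨C, hC⟩ := h.cone
  refine Os.of_bound C 1 fun s hs hs0 n => ?_
  show |LL Ψ (s, (n : E3)) i.succ - (n : E3) i| ≤ _
  rw [e2b_gen h.reg hs0.le n, zpow_neg_one, ← div_eq_mul_inv]
  exact (hC s hs n).2.2.2.2 i

theorem e2_llb (h : FarM G Ψ W ε) (a : Fin 4) : Os 0 fun p => LL Ψ p a := by
  refine Fin.cases ?_ (fun l => ?_) a
  · have h1 := ((e2_ll0 h).mono (show (-1 : ℤ) ≤ 0 by norm_num)).add (Os.const ε)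
    refine h1.congr (Eventually.of_forall fun p => ?_)
    ring
  · have h1 := ((e2_ll h l).mono (show (-1 : ℤ) ≤ 0 by norm_num)).add (Os.coord l)
    refine h1.congr (Eventually.of_forall fun p => ?_)
    ring

theorem e2_dxx0 (h : FarM G Ψ W ε) (k i : Fin 3) : Os 0 fun p => fderiv ℝ (fun q => XX Ψ i q 0) p (dX k) := by
  obtain ⟨C, hC⟩ := h.cone
  refine Os.of_bound C 1 fun s hs hs0 n => ?_
  rw [(e2c_eq h.reg hs0.le k i n).1, zpow_zero, mul_one]
  exact (hC s hs n).2.2.1 0 k i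

theorem e2_dxx (h : FarM G Ψ W ε) (k i l : Fin 3) :
    Os 0 fun p => fderiv ℝ (fun q => XX Ψ i q l.succ) p (dX k) - p.1 * (3 * p.2 i * p.2 l * p.2 k -
      (if i = l then 1 else 0) * p.2 k - (if i = k then 1 else 0) * p.2 l - (if l = k then 1 else 0) * p.2 i) := by
  obtain ⟨C, hC⟩ := h.cone
  refine Os.of_bound C 1 fun s hs hs0 n => ?_
  have h1 : ‖(n : E3)‖ = 1 := by simp
  show |fderiv ℝ (fun q => XX Ψ i q l.succ) (s, (n : E3)) (dX k) - s * (3 * (n : E3) i * (n : E3) l * (n : E3) k -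
      (if i = l then 1 else 0) * (n : E3) k - (if i = k then 1 else 0) * (n : E3) l - (if l = k then 1 else 0) * (n : E3) i)| ≤ _
  rw [(e2c_eq h.reg hs0.le k i n).2 l, e2_ray2 h1 k i l, zpow_zero, mul_one, add_sub_cancel_right]
  exact (hC s hs n).2.2.1 l.succ k i

theorem e2_dxx1 (h : FarM G Ψ W ε) (k i : Fin 3) (a : Fin 4) : Os 1 fun p => fderiv ℝ (fun q => XX Ψ i q a) p (dX k) := by
  refine Fin.cases ?_ (fun l => ?_) a
  · exact (e2_dxx0 h k i).mono (by norm_num)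
  · have hq : Os 0 fun p : ℝ × E3 => (3 * p.2 i * p.2 l * p.2 k -
      (if i = l then 1 else 0) * p.2 k - (if i = k then 1 else 0) * p.2 l - (if l = k then 1 else 0) * p.2 i) := by
      have a1 : Os 0 fun p : ℝ × E3 => 3 * p.2 i * p.2 l * p.2 k :=
        (((Os.coord i).const_mul 3).mul (Os.coord l) (j := 0) (by norm_num)).mul (Os.coord k) (by norm_num)
      exact ((a1.sub ((Os.coord k).const_mul _)).sub ((Os.coord l).const_mul _)).sub ((Os.coord i).const_mul _)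
    have h1 := ((e2_dxx h k i l).mono (show (0 : ℤ) ≤ 1 by norm_num)).add (Os.id.mul hq (j := 1) (by norm_num))
    refine h1.congr (Eventually.of_forall fun p => ?_)
    ring

theorem e3_hh (h : FarM G Ψ W ε) (i j : Fin 3) :
    Os 1 fun p => hh G Ψ i j p - p.1 ^ 2 * ((if i = j then 1 else 0) - p.2 i * p.2 j) := by
  have hA : Os 1 fun p => ∑ a, ∑ b, (G (Ph Ψ p) a b - eta a b) * XX Ψ i p a * XX Ψ j p b := by
    refine Os.sum _ fun a _ => Os.sum _ fun b _ => ?_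
    exact ((e1_met1 h a b).mul (e2_xx1 h i a) (j := 0) (by norm_num)).mul (e2_xx1 h j b) (by norm_num)
  have hB : Os 1 fun p => XX Ψ i p 0 * XX Ψ j p 0 :=
    ((e2_xx0 h i).mul (e2_xx0 h j) (j := 0) (by norm_num)).mono (by norm_num)
  have hP : ∀ k l : Fin 3, Os 1 fun p => p.1 * ((if k = l then 1 else 0) - p.2 k * p.2 l) := fun k l =>
    Os.id.mul (e3a_pl k l) (by norm_num)
  have hC : ∀ l : Fin 3, Os 1 fun p => XX Ψ i p l.succ * XX Ψ j p l.succ -
      (p.1 * ((if i = l then 1 else 0) - p.2 i * p.2 l)) * (p.1 * ((if j = l then 1 else 0) - p.2 j * p.2 l)) := fun l =>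
    e3a_prod (e2_xx h i l) (e2_xx1 h j l.succ) (hP i l) (e2_xx h j l)
  have hS := (hA.sub hB).add (Os.sum Finset.univ fun l _ => hC l)
  refine hS.congr ?_
  filter_upwards [inf_norm] with p hp
  have hn := e3a_sq hp
  have e1 : hh G Ψ i j p = ∑ a, ∑ b, (G (Ph Ψ p) a b - eta a b) * XX Ψ i p a * XX Ψ j p b - XX Ψ i p 0 * XX Ψ j p 0 +
      ∑ l : Fin 3, XX Ψ i p l.succ * XX Ψ j p l.succ := by
    unfold hh ipp ip
    have : ∀ a b, G (Ph Ψ p) a b * XX Ψ i p a * XX Ψ j p b =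
        (G (Ph Ψ p) a b - eta a b) * XX Ψ i p a * XX Ψ j p b + eta a b * XX Ψ i p a * XX Ψ j p b := by
      intro a b
      ring
    simp only [this, Finset.sum_add_distrib]
    rw [e3a_eta]
    ring
  rw [e1]
  rw [Finset.sum_sub_distrib]
  have e3 : ∑ l : Fin 3, (p.1 * ((if i = l then 1 else 0) - p.2 i * p.2 l)) * (p.1 * ((if j = l then 1 else 0) - p.2 j * p.2 l)) =
      p.1 ^ 2 * ((if i = j then 1 else 0) - p.2 i * p.2 j) := by
    have e4 : ∑ l : Fin 3, ((if i = l then (1 : ℝ) else 0) - p.2 i * p.2 l) * ((if j = l then 1 else 0) - p.2 j * p.2 l) =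
        (if i = j then 1 else 0) - p.2 i * p.2 j := by
      have e5 : ∀ l : Fin 3, ((if i = l then (1 : ℝ) else 0) - p.2 i * p.2 l) * ((if j = l then 1 else 0) - p.2 j * p.2 l) =
          (if i = l then (if j = l then (1 : ℝ) else 0) else 0) - (if i = l then p.2 j * p.2 l else 0) -
          (if j = l then p.2 i * p.2 l else 0) + p.2 i * p.2 j * p.2 l ^ 2 := by
        intro l
        split_ifs <;> ring
      simp only [e5, Finset.sum_add_distrib, Finset.sum_sub_distrib, Finset.sum_ite_eq, Finset.mem_univ, if_true]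
      rw [← Finset.mul_sum, Fin.sum_univ_three, hn]
      by_cases hij : i = j
      · subst hij
        simp
      · rw [if_neg hij, if_neg (Ne.symm hij)]
        ring
    rw [← e4, Finset.mul_sum]
    refine Finset.sum_congr rfl fun l _ => ?_
    ring
  rw [e3]
  ring

theorem e3b_all (h : FarM G Ψ W ε) : ∀ᶠ p in Inf, 1 ≤ p.1 ∧ ‖p.2‖ = 1 ∧
    (PP G Ψ p).det = p.1 ^ 4 * (e3M G Ψ p).det ∧
    ∀ i j, QQ G Ψ i j p = ((e3M G Ψ p)⁻¹ i j - p.2 i * p.2 j) / p.1 ^ 2 := by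
  filter_upwards [inf_ge 1, inf_norm] with p hp hn
  have h0 : p.2 ≠ 0 := by
    intro h0
    rw [h0, norm_zero] at hn
    exact zero_ne_one hn
  have hp0 : (0 : ℝ) ≤ p.1 := zero_le_one.trans hp
  have hC := j_cyl h.reg hp0
  have hdet := e3_det h.reg hp0 h0
  have hq := e3a_sq hn
  have hm := e3_mat (P := PP G Ψ p) (n := fun i => p.2 i) (s := p.1) (lt_of_lt_of_le one_pos hp).ne'
    (by rw [Fin.sum_univ_three]; exact hq) (hC.symm p.2 h0) (fun i => by
      have := hC.rad p.2 h0 i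
      rw [hn] at this
      simpa using this) hdet.ne'
  exact ⟨hp, hn, hm.1, hm.2⟩

theorem e3b_M (h : FarM G Ψ W ε) (i j : Fin 3) : Os (-1) fun p => e3M G Ψ p i j - (1 : Matrix (Fin 3) (Fin 3) ℝ) i j := by
  have h1 := (e3_hh h i j).mul (Os.pow_self (-2)) (j := -1) (by norm_num)
  refine h1.congr ?_
  filter_upwards [inf_ge 1, inf_norm] with p hp hn
  have hp0 : p.1 ≠ 0 := (lt_of_lt_of_le one_pos hp).ne'
  have e1 : PP G Ψ p i j = hh G Ψ i j p + p.2 i * p.2 j := by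
    unfold PP
    rw [Matrix.of_apply, hn]
    ring
  have e2 : (p.1 : ℝ) ^ (-2 : ℤ) = 1 / p.1 ^ 2 := by
    rw [zpow_neg]
    simp
  unfold e3M
  rw [Matrix.of_apply, e1, e2, Matrix.one_apply]
  field_simp
  ring

theorem e3_dA (h : FarM G Ψ W ε) : Os 1 fun p => dA G Ψ p - p.1 ^ 2 := by
  have h1 := det_Os (A := e3M G Ψ) (A0 := 1) (e3b_M h)
  have h2 : Os (-1) fun p => Real.sqrt (e3M G Ψ p).det - 1 := by
    refine IsBigO.trans (IsBigO.of_bound 1 (Eventually.of_forall fun p => ?_)) h1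
    rw [Real.norm_eq_abs, Real.norm_eq_abs, one_mul, Matrix.det_one]
    exact e3b_sqrt _
  refine ((Os.pow_self 2).mul h2 (j := 1) (by norm_num)).congr ?_
  filter_upwards [e3b_all h] with p hp
  have hp0 : (0 : ℝ) ≤ p.1 := zero_le_one.trans hp.1
  have e1 : dA G Ψ p = p.1 ^ 2 * Real.sqrt (e3M G Ψ p).det := by
    unfold dA
    rw [hp.2.2.1, show p.1 ^ 4 = (p.1 ^ 2) ^ 2 by ring, Real.sqrt_mul (sq_nonneg _), Real.sqrt_sq (sq_nonneg _)]
  have e2 : (p.1 : ℝ) ^ (2 : ℤ) = p.1 ^ 2 := by norm_cast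
  rw [e1, e2]
  ring

theorem e3_dA2 (h : FarM G Ψ W ε) : Os 2 (dA G Ψ) := by
  refine (((e3_dA h).mono (by norm_num)).add (Os.pow_self 2)).congr (Eventually.of_forall fun p => ?_)
  have e2 : (p.1 : ℝ) ^ (2 : ℤ) = p.1 ^ 2 := by norm_cast
  rw [e2]
  ring

theorem e3c_mem (h : FarM G Ψ W ε) : ∀ᶠ p in Inf, p ∈ W ∧ ‖p.2‖ = 1 := by
  filter_upwards [inf_ge 0, inf_norm] with p hp hn
  refine ⟨?_, hn⟩
  have h0 : p.2 ≠ 0 := by
    intro h0
    rw [h0, norm_zero] at hn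
    exact zero_ne_one hn
  exact h.reg.mem p.1 hp p.2 h0

/-- The derivatives of the components of the metric along the sphere. -/
theorem e3_dgp (h : FarM G Ψ W ε) (k : Fin 3) (a b : Fin 4) :
    Os (-1) fun p => fderiv ℝ (fun q => G (Ph Ψ q) a b) p (dX k) := by
  obtain ⟨C, R, hC⟩ := h.mink
  refine Os.of_bound C (max R 1) fun s hs hs0 n => ?_
  have h1 := (hC s ((le_max_left _ _).trans hs) n a b).2 k
  have hp := h.reg.mem s hs0.le n e2b_sph
  have hd : DifferentiableAt ℝ (fun q => G (Ph Ψ q) a b) (s, (n : E3)) := (j_met h.reg hp a b).differentiableAt (by simp)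
  rw [eq_pd hd k, zpow_neg_one, ← div_eq_mul_inv]
  exact h1

theorem e3_dhh (h : FarM G Ψ W ε) (k i j : Fin 3) :
    Os 1 fun p => fderiv ℝ (hh G Ψ i j) p (dX k) + p.1 ^ 2 * (2 * p.2 k * (if i = j then 1 else 0) +
      (if i = k then 1 else 0) * p.2 j + (if j = k then 1 else 0) * p.2 i - 4 * p.2 i * p.2 j * p.2 k) := by
  have hA : Os 1 fun p => ∑ a, ∑ b, fderiv ℝ (fun q => G (Ph Ψ q) a b) p (dX k) * XX Ψ i p a * XX Ψ j p b := by
    refine Os.sum _ fun a _ => Os.sum _ fun b _ => ?_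
    exact ((e3_dgp h k a b).mul (e2_xx1 h i a) (j := 0) (by norm_num)).mul (e2_xx1 h j b) (by norm_num)
  have hB : Os 1 fun p => ∑ a, ∑ b, (G (Ph Ψ p) a b - eta a b) * fderiv ℝ (fun q => XX Ψ i q a) p (dX k) * XX Ψ j p b := by
    refine Os.sum _ fun a _ => Os.sum _ fun b _ => ?_
    exact ((e1_met1 h a b).mul (e2_dxx1 h k i a) (j := 0) (by norm_num)).mul (e2_xx1 h j b) (by norm_num)
  have hC : Os 1 fun p => ∑ a, ∑ b, (G (Ph Ψ p) a b - eta a b) * XX Ψ i p a * fderiv ℝ (fun q => XX Ψ j q b) p (dX k) := by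
    refine Os.sum _ fun a _ => Os.sum _ fun b _ => ?_
    exact ((e1_met1 h a b).mul (e2_xx1 h i a) (j := 0) (by norm_num)).mul (e2_dxx1 h k j b) (by norm_num)
  have hD : Os 1 fun p => fderiv ℝ (fun q => XX Ψ i q 0) p (dX k) * XX Ψ j p 0 :=
    ((e2_dxx0 h k i).mul (e2_xx0 h j) (j := 0) (by norm_num)).mono (by norm_num)
  have hE : Os 1 fun p => XX Ψ i p 0 * fderiv ℝ (fun q => XX Ψ j q 0) p (dX k) :=
    ((e2_xx0 h i).mul (e2_dxx0 h k j) (j := 0) (by norm_num)).mono (by norm_num)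
  have hP : ∀ k l : Fin 3, Os 1 fun p => p.1 * ((if k = l then 1 else 0) - p.2 k * p.2 l) := fun k l =>
    Os.id.mul (e3a_pl k l) (by norm_num)
  have hQ : ∀ i l : Fin 3, Os 1 fun p => p.1 * (3 * p.2 i * p.2 l * p.2 k -
      (if i = l then 1 else 0) * p.2 k - (if i = k then 1 else 0) * p.2 l - (if l = k then 1 else 0) * p.2 i) := by
    intro i l
    refine Os.id.mul (k := 1) (l := 0) ?_ (by norm_num)
    refine Os.sub (Os.sub (Os.sub ?_ ((Os.coord k).const_mul _)) ((Os.coord l).const_mul _)) ((Os.coord i).const_mul _)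
    exact (((Os.coord i).const_mul 3).mul (Os.coord l) (j := 0) (by norm_num)).mul (Os.coord k) (by norm_num)
  have hF : ∀ l : Fin 3, Os 1 fun p => fderiv ℝ (fun q => XX Ψ i q l.succ) p (dX k) * XX Ψ j p l.succ -
      (p.1 * (3 * p.2 i * p.2 l * p.2 k - (if i = l then 1 else 0) * p.2 k - (if i = k then 1 else 0) * p.2 l -
        (if l = k then 1 else 0) * p.2 i)) * (p.1 * ((if j = l then 1 else 0) - p.2 j * p.2 l)) := fun l =>
    e3a_prod (e2_dxx h k i l) (e2_xx1 h j l.succ) (hQ i l) (e2_xx h j l)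
  have hF' : ∀ l : Fin 3, Os 1 fun p => fderiv ℝ (fun q => XX Ψ j q l.succ) p (dX k) * XX Ψ i p l.succ -
      (p.1 * (3 * p.2 j * p.2 l * p.2 k - (if j = l then 1 else 0) * p.2 k - (if j = k then 1 else 0) * p.2 l -
        (if l = k then 1 else 0) * p.2 j)) * (p.1 * ((if i = l then 1 else 0) - p.2 i * p.2 l)) := fun l =>
    e3a_prod (e2_dxx h k j l) (e2_xx1 h i l.succ) (hQ j l) (e2_xx h i l)
  have hS := ((((hA.add hB).add hC).sub hD).sub hE).add ((Os.sum Finset.univ fun l _ => hF l).add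
    (Os.sum Finset.univ fun l _ => hF' l))
  refine hS.congr ?_
  filter_upwards [e3c_mem h] with p hp
  obtain ⟨hpW, hn⟩ := hp
  rw [e3c_prod h.reg hpW]
  have e1 : ∀ a b, fderiv ℝ (fun q => G (Ph Ψ q) a b) p (dX k) * XX Ψ i p a * XX Ψ j p b +
      G (Ph Ψ p) a b * fderiv ℝ (fun q => XX Ψ i q a) p (dX k) * XX Ψ j p b +
      G (Ph Ψ p) a b * XX Ψ i p a * fderiv ℝ (fun q => XX Ψ j q b) p (dX k) =
      fderiv ℝ (fun q => G (Ph Ψ q) a b) p (dX k) * XX Ψ i p a * XX Ψ j p b +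
      (G (Ph Ψ p) a b - eta a b) * fderiv ℝ (fun q => XX Ψ i q a) p (dX k) * XX Ψ j p b +
      (G (Ph Ψ p) a b - eta a b) * XX Ψ i p a * fderiv ℝ (fun q => XX Ψ j q b) p (dX k) +
      eta a b * fderiv ℝ (fun q => XX Ψ i q a) p (dX k) * XX Ψ j p b +
      eta a b * XX Ψ i p a * fderiv ℝ (fun q => XX Ψ j q b) p (dX k) := by
    intro a b
    ring
  rw [Finset.sum_congr rfl fun a _ => Finset.sum_congr rfl fun b _ => e1 a b]
  simp only [Finset.sum_add_distrib]
  have e2 := e3a_eta (fun a => fderiv ℝ (fun q => XX Ψ i q a) p (dX k)) (fun b => XX Ψ j p b)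
  have e3 := e3a_eta (fun a => XX Ψ i p a) (fun b => fderiv ℝ (fun q => XX Ψ j q b) p (dX k))
  rw [e2, e3]
  have e4 := e3c_lead hn k i j
  have e5 := e3c_lead hn k j i
  rw [Finset.sum_sub_distrib, Finset.sum_sub_distrib]
  have e6 : ∀ i j : Fin 3, ∑ l : Fin 3, (p.1 * (3 * p.2 i * p.2 l * p.2 k - (if i = l then 1 else 0) * p.2 k -
      (if i = k then 1 else 0) * p.2 l - (if l = k then 1 else 0) * p.2 i)) * (p.1 * ((if j = l then 1 else 0) - p.2 j * p.2 l)) =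
      p.1 ^ 2 * ∑ l : Fin 3, ((3 * p.2 i * p.2 l * p.2 k - (if i = l then (1 : ℝ) else 0) * p.2 k - (if i = k then 1 else 0) * p.2 l -
      (if l = k then 1 else 0) * p.2 i) * ((if j = l then 1 else 0) - p.2 j * p.2 l)) := by
    intro i j
    rw [Finset.mul_sum]
    refine Finset.sum_congr rfl fun l _ => ?_
    ring
  rw [e6 i j, e6 j i, e4, e5]
  have e7 : (if j = i then (1 : ℝ) else 0) = if i = j then 1 else 0 := by
    simp only [eq_comm]
  have e8 : ∑ l : Fin 3, fderiv ℝ (fun q => XX Ψ j q l.succ) p (dX k) * XX Ψ i p l.succ =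
      ∑ l : Fin 3, XX Ψ i p l.succ * fderiv ℝ (fun q => XX Ψ j q l.succ) p (dX k) :=
    Finset.sum_congr rfl fun l _ => mul_comm _ _
  rw [e7, e8]
  ring

/-- The null hypersurface is asymptotically flat. -/
theorem flat (hR : Reg G Ψ W) {ε : ℝ} (hF : ConeFlat ε Ψ) (hS : ConeMink G Ψ) :
    ∃ C : ℝ, ∀ s : ℝ, 1 ≤ s → ∀ n : S2, ∀ i j,
      |hh G Ψ i j (s, n) - s ^ 2 * ((if i = j then 1 else 0) - (n : E3) i * (n : E3) j)| ≤ C * s ∧
      ∀ v : Fin 3 → ℝ, ∑ k, (n : E3) k * v k = 0 → (∑ k, v k ^ 2) = 1 →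
        |∑ k, v k * pd k (fun y => hh G Ψ i j (s, y) - s ^ 2 * ((if i = j then 1 else 0) - y i * y j)) n| ≤ C * s := by
  have hFar : FarM G Ψ W ε := ⟨hR, hF, hS⟩
  choose C1 h1 h2 using fun i j => (show Os 1 (efF G Ψ i j) from e3_hh hFar i j).global
    (fun s hs n => ef_cF hR i j hs n)
  choose C2 g1 g2 using fun k i j => (show Os 1 (efG G Ψ k i j) from e3_dhh hFar k i j).global
    (fun s hs n => ef_cG hR k i j hs n)
  refine ⟨(∑ i, ∑ j, C1 i j) + ∑ i, ∑ j, ∑ k, C2 k i j, fun s hs n i j => ⟨?_, ?_⟩⟩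
  · have a1 := h2 i j s hs n
    rw [zpow_one] at a1
    have b1 : C1 i j ≤ ∑ i, ∑ j, C1 i j :=
      (Finset.single_le_sum (f := fun j => C1 i j) (fun j _ => h1 i j) (Finset.mem_univ j)).trans
        (Finset.single_le_sum (f := fun i => ∑ j, C1 i j)
          (fun i _ => Finset.sum_nonneg fun j _ => h1 i j) (Finset.mem_univ i))
    have b2 : 0 ≤ ∑ i, ∑ j, ∑ k, C2 k i j :=
      Finset.sum_nonneg fun i _ => Finset.sum_nonneg fun j _ => Finset.sum_nonneg fun k _ => g1 k i j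
    refine a1.trans (mul_le_mul_of_nonneg_right (by linarith) (zero_le_one.trans hs))
  · intro v hv1 hv2
    have a1 : ∑ k, v k * pd k (fun y => hh G Ψ i j (s, y) - s ^ 2 * ((if i = j then 1 else 0) - y i * y j)) n =
        ∑ k, v k * efG G Ψ k i j (s, (n : E3)) := by
      simp only [ef_der hR _ i j hs n]
      have e : ∀ k, v k * (efG G Ψ k i j (s, (n : E3)) -
          s ^ 2 * (2 * (if i = j then 1 else 0) - 4 * (n : E3) i * (n : E3) j) * (n : E3) k) =
          v k * efG G Ψ k i j (s, (n : E3)) -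
          s ^ 2 * (2 * (if i = j then 1 else 0) - 4 * (n : E3) i * (n : E3) j) * ((n : E3) k * v k) := by
        intro k; ring
      simp only [e]
      rw [Finset.sum_sub_distrib, ← Finset.mul_sum, hv1, mul_zero, sub_zero]
    have hvk : ∀ k, |v k| ≤ 1 := by
      intro k
      have h3 : v k ^ 2 ≤ 1 := by
        rw [← hv2]
        exact Finset.single_le_sum (f := fun k => v k ^ 2) (fun k _ => sq_nonneg _) (Finset.mem_univ k)
      exact abs_le_one_iff_mul_self_le_one.mpr (by nlinarith)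
    have hs0 : 0 ≤ s := zero_le_one.trans hs
    have a2 : |∑ k, v k * efG G Ψ k i j (s, (n : E3))| ≤ ∑ k, C2 k i j * s := by
      refine (Finset.abs_sum_le_sum_abs _ _).trans (Finset.sum_le_sum fun k _ => ?_)
      rw [abs_mul]
      have a3 := g2 k i j s hs n
      rw [zpow_one] at a3
      calc |v k| * |efG G Ψ k i j (s, (n : E3))| ≤ 1 * |efG G Ψ k i j (s, (n : E3))| :=
            mul_le_mul_of_nonneg_right (hvk k) (abs_nonneg _)
        _ ≤ C2 k i j * s := by rw [one_mul]; exact a3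
    rw [a1]
    refine a2.trans ?_
    rw [← Finset.sum_mul]
    refine mul_le_mul_of_nonneg_right ?_ hs0
    have b1 : 0 ≤ ∑ i, ∑ j, C1 i j := Finset.sum_nonneg fun i _ => Finset.sum_nonneg fun j _ => h1 i j
    have b2 : ∑ k, C2 k i j ≤ ∑ i, ∑ j, ∑ k, C2 k i j :=
      (Finset.single_le_sum (f := fun j => ∑ k, C2 k i j)
        (fun j _ => Finset.sum_nonneg fun k _ => g1 k i j) (Finset.mem_univ j)).trans
        (Finset.single_le_sum (f := fun i => ∑ j, ∑ k, C2 k i j)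
          (fun i _ => Finset.sum_nonneg fun j _ => Finset.sum_nonneg fun k _ => g1 k i j) (Finset.mem_univ i))
    linarith

end H17Y
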