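import Pool.Agent.Lib.H17W.D4E
import Pool.Agent.Lib.H17Y.NE

set_option autoImplicit false

/-!
# H17Y: asymptotic flatness of the data of `Ψ`
-/

open MeasureTheory Filter Topology Set
open scoped ContDiff

namespace H17Y

open H17W
open H17T (E4 pt pos)
open Pool.Agent.Lib.PenroseSph (E3 S2 sm pd)

variable {U : Set E4} {G : E4 → Matrix (Fin 4) (Fin 4) ℝ} {Ψ : ℝ × E3 → E4} {W : Set (ℝ × E3)} {ψ : ℝ × E3 → ℝ}

/-- Asymptotic flatness. -/
theorem data_flat (hR : Reg G Ψ W) (hc : Cut W ψ) {ε : ℝ} (hF : ConeFlat ε Ψ) (hS : ConeMink G Ψ) :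
    (data G Ψ ψ).AsympFlat := by
  obtain ⟨C, hC⟩ := flat hR hF hS
  refine ⟨C, fun s hs n i j => ?_⟩
  have hs0 : (0 : ℝ) ≤ s := by linarith
  obtain ⟨h1, h2⟩ := hC s hs n i j
  refine ⟨?_, fun v hv hv1 => ?_⟩
  · show |ψ (s, (n : E3)) * hh G Ψ i j (s, (n : E3)) - s ^ 2 * ((if i = j then 1 else 0) - (n : E3) i * (n : E3) j)| ≤ C * s
    rw [cut_eq hc hs0 n, one_mul]
    exact h1
  · have h3 := h2 v hv hv1
    have hm := hR.mem s hs0 n (d3d_ne n)
    have h4 : (fun y : E3 => (data G Ψ ψ).g s y i j - s ^ 2 * NullPen.proj y i j) =ᶠ[𝓝 (n : E3)]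
        (fun y => hh G Ψ i j (s, y) - s ^ 2 * ((if i = j then 1 else 0) - y i * y j)) := by
      have h5 : Tendsto (fun y : E3 => ((s, y) : ℝ × E3)) (𝓝 (n : E3)) (𝓝 (s, (n : E3))) := d3d_pair.tendsto
      filter_upwards [h5.eventually (hc.one s hs0 n)] with y hy
      show ψ (s, y) * hh G Ψ i j (s, y) - s ^ 2 * ((if i = j then 1 else 0) - y i * y j) = _
      rw [hy, one_mul]
    have h6 : DifferentiableAt ℝ (fun y : E3 => hh G Ψ i j (s, y) - s ^ 2 * ((if i = j then 1 else 0) - y i * y j)) (n : E3) := by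
      have h7 : DifferentiableAt ℝ (fun y : E3 => hh G Ψ i j (s, y)) (n : E3) :=
        (d3d_slice (hh_smooth hR hm i j)).differentiableAt (by simp)
      have h8 : ∀ l : Fin 3, DifferentiableAt ℝ (fun y : E3 => y l) (n : E3) := fun l =>
        (EuclideanSpace.proj (𝕜 := ℝ) l : E3 →L[ℝ] ℝ).differentiableAt
      exact h7.sub (((differentiableAt_const _).sub ((h8 i).mul (h8 j))).const_mul _)
    have h9 : ∑ k, v k * NullPen.pd k (fun y => (data G Ψ ψ).g s y i j - s ^ 2 * NullPen.proj y i j) n =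
        ∑ k, v k * pd k (fun y => hh G Ψ i j (s, y) - s ^ 2 * ((if i = j then 1 else 0) - y i * y j)) n :=
      Finset.sum_congr rfl fun k _ => by rw [d4e_pd h4 h6 k]
    rw [h9]
    exact h3

end H17Y
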