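import Pool.Agent.Lib.H17Y.X1
import Pool.Agent.Lib.H17Y.N1

set_option autoImplicit false

/-!
# H17Y: definitions of the proof

`Cuts`: a family of cuts `Φ_s(τ_s, ·)` of null hypersurfaces, which are close to the round spheres of radius `r_s ~ s`. All fields at the cut are
functions of `p = (s, x)`, `|x| = 1`; `Os k F` (H17W.E0) means `F(s, n) = O(s^k)` uniformly in `n`.
-/

open MeasureTheory Filter Topology Set Asymptotics
open scoped ContDiff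

namespace H17Y

open H17W
open H17T (E4 pt pos tang slice second DEC)
open H17B (eta dl)
open Pool.Agent.Lib.PenroseSph (E3 Tens S2 sm pd)

/-- A family of nearly round cuts. -/
structure Cuts (G : E4 → Matrix (Fin 4) (Fin 4) ℝ) (e : ℝ) (Φ : ℝ → ℝ × E3 → E4) (τ r : ℝ → ℝ) (W : ℝ → Set (ℝ × E3))
    (I : ℝ → Set ℝ) : Prop where
  sign : e = 1 ∨ e = -1
  far : ∃ C R : ℝ, ∀ s : ℝ, R ≤ s → RegI G (Φ s) (W s) (I s) ∧ τ s ∈ I s ∧ s ≤ r s ∧ r s ≤ C * s ∧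
    Round e (r s) C (Φ s) (τ s) ∧ ∀ n : S2, ∀ a b, |G (Φ s (τ s, (n : E3))) a b - eta a b| ≤ C / s

/-- A family of nearly round cuts in the Schwarzschild zone. -/
structure Ends (G : E4 → Matrix (Fin 4) (Fin 4) ℝ) (e m : ℝ) (Φ : ℝ → ℝ × E3 → E4) (τ r : ℝ → ℝ) (W : ℝ → Set (ℝ × E3))
    (I : ℝ → Set ℝ) : Prop where
  cuts : Cuts G e Φ τ r W I
  schw : ∃ C R : ℝ, ∀ s : ℝ, R ≤ s → ∀ n : S2, NearSchw G m C (Φ s (τ s, (n : E3)))

variable (G : E4 → Matrix (Fin 4) (Fin 4) ℝ) (Ψ : ℝ × E3 → E4)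

/-- The position field `D = x^i ∂_i` along `Φ`. -/
noncomputable def DD (q : ℝ × E3) : Fin 4 → ℝ := fun a => Fin.cases 0 (fun i => pos (Ph Ψ q) i) a

/-- `<D, X_j>`. -/
noncomputable def aD (j : Fin 3) (q : ℝ × E3) : ℝ := ip G (Ph Ψ q) (DD Ψ q) (XX Ψ j q)

/-- The divergence of the tangential part of `D`. -/
noncomputable def divD (q : ℝ × E3) : ℝ :=
  ∑ i, ∑ j, QQ G Ψ i j q * (fderiv ℝ (aD G Ψ j) q (dX i) - ∑ m, cc G Ψ m i j q * aD G Ψ m q)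

/-- The extension of `κ` which is homogeneous of degree one. -/
noncomputable def KK (κ : E3 → E3) (x : E3) : E3 := ‖x‖ • κ (‖x‖⁻¹ • x)

/-- `M_ij = ∂_i K_j`. -/
noncomputable def MM (κ : E3 → E3) (x : E3) : Matrix (Fin 3) (Fin 3) ℝ := Matrix.of fun i j => pd i (fun y => KK κ y j) x

/-- The common cut of two null hypersurfaces: `Φ(0, n) = Ψ(s, κ n)`. -/
structure Glue (Ψ : ℝ × E3 → E4) (W₀ : Set (ℝ × E3)) (I₀ : Set ℝ) (s : ℝ) (Φ : ℝ × E3 → E4) (W : Set (ℝ × E3)) (I : Set ℝ)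
    (κ : E3 → E3) : Prop where
  reg : RegI G Ψ W₀ I₀
  mem : s ∈ I₀
  reg' : RegI G Φ W I
  mem' : (0 : ℝ) ∈ I
  bij : Set.BijOn κ (Metric.sphere (0 : E3) 1) (Metric.sphere (0 : E3) 1)
  smooth : ∀ n : S2, ContDiffAt ℝ ∞ (fun x : E3 => κ (‖x‖⁻¹ • x)) n
  start : ∀ n : S2, Φ (0, (n : E3)) = Ψ (s, κ n)

/-- `<L_Ψ, L_Φ> / 2` at the common cut. -/
noncomputable def al (s : ℝ) (Φ : ℝ × E3 → E4) (κ : E3 → E3) (x : E3) : ℝ :=
  ip G (Ph Ψ (s, KK κ x)) (LL Ψ (s, KK κ x)) (LL Φ (0, x)) / 2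

end H17Y
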