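import Pool.Agent.Lib.H17Y.E0

set_option autoImplicit false

/-!
# H17Y, chunk G1 (M): the homogeneous extension of a map of the sphere

`KK κ x = |x| κ(x/|x|)`. (a) `|K x| = |x|` as `κ` maps the sphere to itself. (b) homogeneity. (c) smooth at `x ≠ 0`: at a point `n` of the sphere `x ↦ κ(x/|x|)` is smooth by `h.smooth`; for general `x ≠ 0` it is
the composition with `y ↦ |x|⁻¹ y` (the function is homogeneous of degree 0: `κ(y/|y|) = f(|x|⁻¹ y)` with `f y = κ(y/|y|)`). (d) Euler: `sum_i x_i ∂_i K_j = K_j` (derivative of `t ↦ K(t x) = t K x` at `t = 1`).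
(e) derivative of `|K x|² = |x|²`: `2 sum_j K_j ∂_i K_j = 2 x_i`.
Auxiliary names start with `g1_`.
-/

open MeasureTheory Filter Topology Set Asymptotics
open scoped ContDiff

namespace H17Y

open H17W
open H17T (E4 pt pos tang slice second DEC)
open H17B (eta dl)
open Pool.Agent.Lib.PenroseSph (E3 Tens S2 sm pd)

variable {G : E4 → Matrix (Fin 4) (Fin 4) ℝ} {Ψ Φ : ℝ × E3 → E4} {W₀ W : Set (ℝ × E3)} {I₀ I : Set ℝ} {s : ℝ} {κ : E3 → E3}

theorem g1_unit {x : E3} (hx : x ≠ 0) : ‖x‖⁻¹ • x ∈ Metric.sphere (0 : E3) 1 := by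
  rw [mem_sphere_zero_iff_norm, norm_smul, norm_inv, norm_norm, inv_mul_cancel₀ (norm_ne_zero_iff.2 hx)]

theorem g1_norm (h : Glue G Ψ W₀ I₀ s Φ W I κ) {x : E3} (hx : x ≠ 0) : ‖KK κ x‖ = ‖x‖ ∧ KK κ x ≠ 0 ∧
    ‖KK κ x‖⁻¹ • KK κ x = κ (‖x‖⁻¹ • x) := by
  have h1 : ‖κ (‖x‖⁻¹ • x)‖ = 1 := mem_sphere_zero_iff_norm.1 (h.bij.mapsTo (g1_unit hx))
  have h2 : ‖KK κ x‖ = ‖x‖ := by
    unfold KK
    rw [norm_smul, norm_norm, h1, mul_one]
  have h3 : ‖x‖ ≠ 0 := norm_ne_zero_iff.2 hx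
  refine ⟨h2, ?_, ?_⟩
  · rw [← norm_ne_zero_iff, h2]
    exact h3
  · rw [h2]
    unfold KK
    rw [smul_smul, inv_mul_cancel₀ h3, one_smul]

theorem g1_dir {x : E3} {c : ℝ} (hc : 0 < c) : ‖c • x‖⁻¹ • (c • x) = ‖x‖⁻¹ • x := by
  rw [norm_smul, Real.norm_of_nonneg hc.le, mul_inv, smul_smul, mul_comm c⁻¹, mul_assoc, inv_mul_cancel₀ hc.ne', mul_one]

theorem g1_hom {x : E3} {c : ℝ} (hc : 0 < c) : KK κ (c • x) = c • KK κ x := by
  unfold KK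
  rw [g1_dir hc, norm_smul, Real.norm_of_nonneg hc.le, smul_smul]

theorem g1_smooth (h : Glue G Ψ W₀ I₀ s Φ W I κ) {x : E3} (hx : x ≠ 0) : ContDiffAt ℝ ∞ (KK κ) x := by
  have hpos : 0 < ‖x‖⁻¹ := inv_pos.2 (norm_pos_iff.2 hx)
  have h1 : ContDiffAt ℝ ∞ (fun y : E3 => κ (‖y‖⁻¹ • y)) (‖x‖⁻¹ • x) := h.smooth ⟨‖x‖⁻¹ • x, g1_unit hx⟩
  have h2 : ContDiffAt ℝ ∞ (fun y : E3 => ‖x‖⁻¹ • y) x := contDiffAt_id.const_smul ‖x‖⁻¹
  have h3 : ContDiffAt ℝ ∞ ((fun y : E3 => κ (‖y‖⁻¹ • y)) ∘ fun y : E3 => ‖x‖⁻¹ • y) x := ContDiffAt.comp x h1 h2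
  have h4 : ((fun y : E3 => κ (‖y‖⁻¹ • y)) ∘ fun y : E3 => ‖x‖⁻¹ • y) = fun y : E3 => κ (‖y‖⁻¹ • y) := by
    funext y
    simp only [Function.comp_apply]
    rw [g1_dir hpos]
  rw [h4] at h3
  exact (contDiffAt_norm ℝ hx).smul h3

theorem g1_fd (h : Glue G Ψ W₀ I₀ s Φ W I κ) {x : E3} (hx : x ≠ 0) : DifferentiableAt ℝ (KK κ) x :=
  (g1_smooth h hx).differentiableAt (by simp)

theorem g1_MM (h : Glue G Ψ W₀ I₀ s Φ W I κ) {x : E3} (hx : x ≠ 0) (i j : Fin 3) :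
    MM κ x i j = fderiv ℝ (KK κ) x (EuclideanSpace.single i 1) j := by
  have h1 := (g1_fd h hx).hasFDerivAt
  have h2 : HasFDerivAt (fun y => KK κ y j) ((EuclideanSpace.proj j : E3 →L[ℝ] ℝ).comp (fderiv ℝ (KK κ) x)) x :=
    (EuclideanSpace.proj j : E3 →L[ℝ] ℝ).hasFDerivAt.comp x h1
  change fderiv ℝ (fun y => KK κ y j) x (EuclideanSpace.single i 1) = _
  rw [h2.fderiv]
  rfl

theorem g1_euler (h : Glue G Ψ W₀ I₀ s Φ W I κ) {x : E3} (hx : x ≠ 0) (j : Fin 3) : ∑ i, x i * MM κ x i j = KK κ x j := by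
  have hsum : x = ∑ i, x i • (EuclideanSpace.single i (1 : ℝ) : E3) := by
    ext k
    simp only [PiLp.smul_apply, smul_eq_mul, WithLp.ofLp_sum, Finset.sum_apply]
    rw [Finset.sum_eq_single k]
    · simp
    · intro b _ hb
      simp [hb.symm]
    · intro hk
      exact absurd (Finset.mem_univ k) hk
  have h1 : ∑ i, x i * MM κ x i j = fderiv ℝ (KK κ) x x j := by
    have h0 : fderiv ℝ (KK κ) x x = ∑ i, x i • fderiv ℝ (KK κ) x (EuclideanSpace.single i (1 : ℝ)) := by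
      have h00 := congrArg (fun v : E3 => fderiv ℝ (KK κ) x v) hsum
      simp only [map_sum, map_smul] at h00
      exact h00
    rw [h0, WithLp.ofLp_sum, Finset.sum_apply]
    refine Finset.sum_congr rfl fun i _ => ?_
    rw [g1_MM h hx]
    rfl
  have h2 : HasDerivAt (fun t : ℝ => KK κ (t • x)) (fderiv ℝ (KK κ) x x) 1 := by
    have h3 : HasDerivAt (fun t : ℝ => t • x) ((1 : ℝ) • x) 1 := (hasDerivAt_id (1 : ℝ)).smul_const x
    have h4 : HasFDerivAt (KK κ) (fderiv ℝ (KK κ) x) ((1 : ℝ) • x) := by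
      rw [one_smul]
      exact (g1_fd h hx).hasFDerivAt
    have h5 := h4.comp_hasDerivAt (1 : ℝ) h3
    rw [one_smul] at h5
    exact h5
  have h3 : HasDerivAt (fun t : ℝ => KK κ (t • x)) (KK κ x) 1 := by
    have h4 : HasDerivAt (fun t : ℝ => t • KK κ x) ((1 : ℝ) • KK κ x) 1 := (hasDerivAt_id (1 : ℝ)).smul_const _
    rw [one_smul] at h4
    refine h4.congr_of_eventuallyEq ?_
    filter_upwards [lt_mem_nhds (zero_lt_one : (0 : ℝ) < 1)] with t ht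
    exact g1_hom ht
  rw [h1, h2.unique h3]

theorem g1_rad (h : Glue G Ψ W₀ I₀ s Φ W I κ) {x : E3} (hx : x ≠ 0) (i : Fin 3) : ∑ j, MM κ x i j * KK κ x j = x i := by
  have h1 : HasFDerivAt (fun y => ‖KK κ y‖ ^ 2) _ x := ((g1_fd h hx).hasFDerivAt).norm_sq
  have h2 : HasFDerivAt (fun y : E3 => ‖y‖ ^ 2) _ x := (hasFDerivAt_id x).norm_sq
  have h3 : HasFDerivAt (fun y : E3 => ‖KK κ y‖ ^ 2) _ x := h2.congr_of_eventuallyEq (by
    filter_upwards [isOpen_ne.mem_nhds hx] with y hy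
    rw [(g1_norm h hy).1])
  have h4 := congrArg (fun L : E3 →L[ℝ] ℝ => L (EuclideanSpace.single i 1)) (h1.unique h3)
  simp only [smul_apply, ContinuousLinearMap.comp_apply, innerSL_apply_apply, ContinuousLinearMap.id_apply, id,
    nsmul_eq_mul] at h4
  have h5 : inner ℝ (KK κ x) (fderiv ℝ (KK κ) x (EuclideanSpace.single i 1)) = ∑ j, MM κ x i j * KK κ x j := by
    rw [PiLp.inner_apply]
    refine Finset.sum_congr rfl fun j _ => ?_
    rw [g1_MM h hx]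
    simp
  have h6 : inner ℝ x (EuclideanSpace.single i (1 : ℝ) : E3) = x i := by
    rw [EuclideanSpace.inner_single_right]
    simp
  rw [h5, h6] at h4
  have : (2 : ℝ) * ∑ j, MM κ x i j * KK κ x j = 2 * x i := by exact_mod_cast h4
  linarith

theorem g1_inj (h : Glue G Ψ W₀ I₀ s Φ W I κ) : Set.InjOn (KK κ) {x | x ≠ 0} := by
  intro x hx y hy hxy
  obtain ⟨a1, a2, a3⟩ := g1_norm h hx
  obtain ⟨b1, b2, b3⟩ := g1_norm h hy
  have h1 : ‖x‖ = ‖y‖ := by rw [← a1, ← b1, hxy]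
  have h2 : κ (‖x‖⁻¹ • x) = κ (‖y‖⁻¹ • y) := by rw [← a3, ← b3, hxy]
  have h3 := h.bij.injOn (g1_unit hx) (g1_unit hy) h2
  have h4 : ‖x‖ ≠ 0 := norm_ne_zero_iff.2 hx
  rw [← h1] at h3
  have h5 := congrArg (fun z => ‖x‖ • z) h3
  simp only [smul_smul, mul_inv_cancel₀ h4, one_smul] at h5
  exact h5

end H17Y
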