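import Pool.Agent.Lib.H17Y.G1

set_option autoImplicit false

/-!
# H17Y, chunk G2 (M): the common cut, tangent vectors

`Ph Φ (0, x) = Φ(0, x/|x|) = Ψ(s, κ(x/|x|)) = Ph Ψ (s, K x)` (`h.start` at the point `x/|x|` of the sphere, `g1_norm`). The derivative in the direction `e_i` (chain rule for `y ↦ Ph Ψ (s, K y)`; `eq_pd`-like: `XX Φ i (0, x) a = pd i (fun y => Ph Φ (0, y) a) x`, and
`fderiv (Ph Ψ) (s, K x) (0, ∂_i K) = sum_j M_ij fderiv (Ph Ψ) (s, K x) (dX j)`).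
Auxiliary names start with `g2_`.
-/

open MeasureTheory Filter Topology Set Asymptotics
open scoped ContDiff

namespace H17Y

open H17W
open H17T (E4 pt pos tang slice second DEC)
open H17B (eta dl)
open Pool.Agent.Lib.PenroseSph (E3 Tens S2 sm pd)

variable {G : E4 → Matrix (Fin 4) (Fin 4) ℝ} {Ψ Φ : ℝ × E3 → E4} {W₀ W : Set (ℝ × E3)} {I₀ I : Set ℝ} {s : ℝ} {κ : E3 → E3}

theorem g2_ph (h : Glue G Ψ W₀ I₀ s Φ W I κ) {x : E3} (hx : x ≠ 0) : Ph Φ (0, x) = Ph Ψ (s, KK κ x) := by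
  have hn : ‖x‖ ≠ 0 := norm_ne_zero_iff.2 hx
  have h1 : ‖x‖⁻¹ • x ∈ Metric.sphere (0 : E3) 1 := by
    rw [mem_sphere_zero_iff_norm, norm_smul, norm_inv, norm_norm, inv_mul_cancel₀ hn]
  have h2 := h.start ⟨_, h1⟩
  unfold Ph
  change Φ (0, ‖x‖⁻¹ • x) = Ψ (s, ‖KK κ x‖⁻¹ • KK κ x)
  rw [(g1_norm h hx).2.2]
  exact h2

theorem g2_Kdiff (h : Glue G Ψ W₀ I₀ s Φ W I κ) {x : E3} (hx : x ≠ 0) : DifferentiableAt ℝ (KK κ) x :=
  (g1_smooth h hx).differentiableAt (by simp)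

/-- `∂_i K = (M_ij)_j`. -/
theorem g2_dK (h : Glue G Ψ W₀ I₀ s Φ W I κ) {x : E3} (hx : x ≠ 0) (i j : Fin 3) :
    (fderiv ℝ (KK κ) x (EuclideanSpace.single i (1 : ℝ))) j = MM κ x i j := by
  have hK := g2_Kdiff h hx
  have h1 : HasFDerivAt (fun y => KK κ y j) ((EuclideanSpace.proj j : E3 →L[ℝ] ℝ).comp (fderiv ℝ (KK κ) x)) x :=
    (EuclideanSpace.proj j : E3 →L[ℝ] ℝ).hasFDerivAt.comp x hK.hasFDerivAt
  change _ = pd i (fun y => KK κ y j) x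
  unfold pd
  rw [h1.fderiv]
  rfl

theorem g2_vec (v : E3) : ((0 : ℝ), v) = ∑ j, v j • dX j := by
  ext1
  · rw [Prod.fst_sum]
    simp [dX]
  · rw [Prod.snd_sum]
    ext k
    simp [dX, Pi.single_apply]

/-- Chain rule. -/
theorem g2_chain (h : Glue G Ψ W₀ I₀ s Φ W I κ) {x : E3} (hx : x ≠ 0) {F : ℝ × E3 → ℝ} (hF : DifferentiableAt ℝ F (s, KK κ x)) (i : Fin 3) :
    pd i (fun y => F (s, KK κ y)) x = ∑ j, MM κ x i j * fderiv ℝ F (s, KK κ x) (dX j) := by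
  have hK := g2_Kdiff h hx
  have h1 : HasFDerivAt (fun y : E3 => ((s, KK κ y) : ℝ × E3)) ((0 : E3 →L[ℝ] ℝ).prod (fderiv ℝ (KK κ) x)) x :=
    (hasFDerivAt_const s x).prodMk hK.hasFDerivAt
  have h2 : HasFDerivAt (fun y => F (s, KK κ y)) ((fderiv ℝ F (s, KK κ x)).comp ((0 : E3 →L[ℝ] ℝ).prod (fderiv ℝ (KK κ) x))) x :=
    HasFDerivAt.comp x (f := fun y : E3 => ((s, KK κ y) : ℝ × E3)) hF.hasFDerivAt h1
  unfold pd
  rw [h2.fderiv]
  change fderiv ℝ F (s, KK κ x) ((0 : ℝ), fderiv ℝ (KK κ) x (EuclideanSpace.single i (1 : ℝ))) = _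
  rw [g2_vec, map_sum]
  refine Finset.sum_congr rfl fun j _ => ?_
  rw [map_smul, g2_dK h hx i j]
  rfl

/-- The partial derivative in `x` for fixed first variable. -/
theorem g2_pd {F : ℝ × E3 → ℝ} {t : ℝ} {x : E3} (hF : DifferentiableAt ℝ F (t, x)) (i : Fin 3) :
    pd i (fun y => F (t, y)) x = fderiv ℝ F (t, x) (dX i) := by
  have h1 : HasFDerivAt (fun y : E3 => ((t, y) : ℝ × E3)) ((0 : E3 →L[ℝ] ℝ).prod (ContinuousLinearMap.id ℝ E3)) x :=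
    (hasFDerivAt_const t x).prodMk (hasFDerivAt_id x)
  have h2 : HasFDerivAt (fun y => F (t, y)) ((fderiv ℝ F (t, x)).comp ((0 : E3 →L[ℝ] ℝ).prod (ContinuousLinearMap.id ℝ E3))) x :=
    HasFDerivAt.comp x (f := fun y : E3 => ((t, y) : ℝ × E3)) hF.hasFDerivAt h1
  unfold pd
  rw [h2.fderiv]
  rfl

theorem g2_xx (h : Glue G Ψ W₀ I₀ s Φ W I κ) {x : E3} (hx : x ≠ 0) (i : Fin 3) :
    XX Φ i (0, x) = ∑ j, MM κ x i j • XX Ψ j (s, KK κ x) := by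
  funext a
  have hΦ : DifferentiableAt ℝ (Ph Φ) (0, x) :=
    (h.reg'.smooth _ (h.reg'.mem 0 h.mem' x hx)).differentiableAt (by simp)
  have hΨ : DifferentiableAt ℝ (Ph Ψ) (s, KK κ x) :=
    (h.reg.smooth _ (h.reg.mem s h.mem (KK κ x) (g1_norm h hx).2.1)).differentiableAt (by simp)
  have hΦa : DifferentiableAt ℝ (fun y => Ph Φ y a) (0, x) := differentiableAt_euclidean.1 hΦ a
  have hΨa : DifferentiableAt ℝ (fun y => Ph Ψ y a) (s, KK κ x) := differentiableAt_euclidean.1 hΨ a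
  have h1 : XX Φ i (0, x) a = pd i (fun y => Ph Φ (0, y) a) x := (g2_pd hΦa i).symm
  have h2 : (fun y => Ph Φ (0, y) a) =ᶠ[𝓝 x] fun y => Ph Ψ (s, KK κ y) a := by
    filter_upwards [isOpen_ne.mem_nhds hx] with y hy
    rw [g2_ph h hy]
  have h3 : pd i (fun y => Ph Φ (0, y) a) x = pd i (fun y => Ph Ψ (s, KK κ y) a) x := by
    unfold pd
    rw [h2.fderiv_eq]
  rw [h1, h3, g2_chain h hx hΨa i, Finset.sum_apply]
  rfl

end H17Y
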