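import Pool.Agent.Lib.H17Y.G2

set_option autoImplicit false

/-!
# H17Y, chunk G3 (M): the common cut, metric and area

(a) `g3_pp`: `hh Φ_ij = sum M_ik M_jl hh Ψ_kl` (`g2_ph`, `g2_xx`, bilinearity) and `x_i x_j / |x|⁴ = sum M_ik M_jl K_k K_l / |K|⁴` (`g1_rad`, `|K| = |x|`): `PP Φ (0,x) = M PP Ψ (s,Kx) Mᵀ`. (b) `det`: `det PP Φ = (det M)² det PP Ψ`, both determinants are positive (`PP_det`), so `det M ≠ 0`,
`dA Φ = |det M| dA Ψ`. (c) `PP Φ⁻¹ = M⁻ᵀ PP Ψ⁻¹ M⁻¹`, and `Mᵀ x = K` (`g1_euler`): `Mᵀ QQ Φ M = Mᵀ PP Φ⁻¹ M - Mᵀ x xᵀ M = PP Ψ⁻¹ - K Kᵀ = QQ Ψ`.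
Auxiliary names start with `g3_`.
-/

open MeasureTheory Filter Topology Set Asymptotics
open scoped ContDiff

namespace H17Y

open H17W
open H17T (E4 pt pos tang slice second DEC)
open H17B (eta dl)
open Pool.Agent.Lib.PenroseSph (E3 Tens S2 sm pd)

variable {G : E4 → Matrix (Fin 4) (Fin 4) ℝ} {Ψ Φ : ℝ × E3 → E4} {W₀ W : Set (ℝ × E3)} {I₀ I : Set ℝ} {s : ℝ} {κ : E3 → E3}

theorem g3_ip (p : E4) (c e : Fin 3 → ℝ) (A : Fin 3 → Fin 4 → ℝ) :
    ip G p (∑ i, c i • A i) (∑ j, e j • A j) = ∑ k, ∑ l, c k * e l * ip G p (A k) (A l) := by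
  have hl : ∀ b, ip G p (∑ i, c i • A i) b = ∑ i, c i * ip G p (A i) b := by
    intro b
    simp only [Fin.sum_univ_three, ip_add_left, ip_smul_left]
  have hr : ∀ a, ip G p a (∑ i, e i • A i) = ∑ i, e i * ip G p a (A i) := by
    intro b
    simp only [Fin.sum_univ_three, ip_add_right, ip_smul_right]
  rw [hl]
  refine Finset.sum_congr rfl fun k _ => ?_
  rw [hr, Finset.mul_sum]
  refine Finset.sum_congr rfl fun l _ => ?_
  ring

theorem g3_hh (h : Glue G Ψ W₀ I₀ s Φ W I κ) {x : E3} (hx : x ≠ 0) (i j : Fin 3) :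
    hh G Φ i j (0, x) = ∑ k, ∑ l, MM κ x i k * MM κ x j l * hh G Ψ k l (s, KK κ x) := by
  change ip G (Ph Φ (0, x)) (XX Φ i (0, x)) (XX Φ j (0, x)) = _
  rw [g2_ph h hx, g2_xx h hx i, g2_xx h hx j, g3_ip]
  rfl

theorem g3_pp (h : Glue G Ψ W₀ I₀ s Φ W I κ) {x : E3} (hx : x ≠ 0) :
    PP G Φ (0, x) = MM κ x * PP G Ψ (s, KK κ x) * (MM κ x).transpose := by
  ext i j
  have h1 : PP G Φ (0, x) i j = hh G Φ i j (0, x) + x i * x j / ‖x‖ ^ 4 := rfl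
  have h2 : ∀ k l, PP G Ψ (s, KK κ x) k l = hh G Ψ k l (s, KK κ x) + KK κ x k * KK κ x l / ‖x‖ ^ 4 := by
    intro k l
    have h3 : PP G Ψ (s, KK κ x) k l = hh G Ψ k l (s, KK κ x) + KK κ x k * KK κ x l / ‖KK κ x‖ ^ 4 := rfl
    rw [h3, (g1_norm h hx).1]
  have h4 : x i * x j / ‖x‖ ^ 4 = ∑ k, ∑ l, MM κ x i k * MM κ x j l * (KK κ x k * KK κ x l / ‖x‖ ^ 4) := by
    have h5 : x i * x j = ∑ k, ∑ l, MM κ x i k * MM κ x j l * (KK κ x k * KK κ x l) := by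
      rw [← g1_rad h hx i, ← g1_rad h hx j, Finset.sum_mul_sum]
      refine Finset.sum_congr rfl fun k _ => Finset.sum_congr rfl fun l _ => ?_
      ring
    rw [h5, Finset.sum_div]
    refine Finset.sum_congr rfl fun k _ => ?_
    rw [Finset.sum_div]
    refine Finset.sum_congr rfl fun l _ => ?_
    ring
  have h6 : (MM κ x * PP G Ψ (s, KK κ x) * (MM κ x).transpose) i j =
      ∑ k, ∑ l, MM κ x i k * MM κ x j l * PP G Ψ (s, KK κ x) k l := by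
    rw [Matrix.mul_apply]
    rw [Finset.sum_comm]
    refine Finset.sum_congr rfl fun l _ => ?_
    rw [Matrix.mul_apply, Finset.sum_mul]
    refine Finset.sum_congr rfl fun k _ => ?_
    rw [Matrix.transpose_apply]
    ring
  rw [h1, h6, g3_hh h hx, h4, ← Finset.sum_add_distrib]
  refine Finset.sum_congr rfl fun k _ => ?_
  rw [← Finset.sum_add_distrib]
  refine Finset.sum_congr rfl fun l _ => ?_
  rw [h2]
  ring

theorem g3_detPP (h : Glue G Ψ W₀ I₀ s Φ W I κ) {x : E3} (hx : x ≠ 0) :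
    (PP G Φ (0, x)).det = (MM κ x).det ^ 2 * (PP G Ψ (s, KK κ x)).det := by
  rw [g3_pp h hx, Matrix.det_mul, Matrix.det_mul, Matrix.det_transpose]
  ring

theorem g3_det (h : Glue G Ψ W₀ I₀ s Φ W I κ) {x : E3} (hx : x ≠ 0) : (MM κ x).det ≠ 0 := by
  intro h0
  have h1 := PP_det h.reg' (h.reg'.mem 0 h.mem' x hx)
  rw [g3_detPP h hx, h0] at h1
  simp at h1

theorem g3_dA (h : Glue G Ψ W₀ I₀ s Φ W I κ) {x : E3} (hx : x ≠ 0) : dA G Φ (0, x) = |(MM κ x).det| * dA G Ψ (s, KK κ x) := by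
  unfold dA
  rw [g3_detPP h hx, Real.sqrt_mul (sq_nonneg _), Real.sqrt_sq_eq_abs]

theorem g3_qq (h : Glue G Ψ W₀ I₀ s Φ W I κ) {x : E3} (hx : x ≠ 0) (k l : Fin 3) :
    ∑ i, ∑ j, MM κ x i k * MM κ x j l * QQ G Φ i j (0, x) = QQ G Ψ k l (s, KK κ x) := by
  have hM : IsUnit (MM κ x).det := (g3_det h hx).isUnit
  have hB : IsUnit (PP G Ψ (s, KK κ x)).det := (PP_det h.reg (h.reg.mem s h.mem _ (g1_norm h hx).2.1)).ne'.isUnit
  have hMt : IsUnit (MM κ x).transpose.det := by rwa [Matrix.det_transpose]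
  have h1 : (MM κ x).transpose * (PP G Φ (0, x))⁻¹ * MM κ x = (PP G Ψ (s, KK κ x))⁻¹ := by
    rw [g3_pp h hx, Matrix.mul_inv_rev, Matrix.mul_inv_rev, ← Matrix.mul_assoc, ← Matrix.mul_assoc,
      Matrix.mul_nonsing_inv _ hMt, Matrix.one_mul, Matrix.mul_assoc, Matrix.nonsing_inv_mul _ hM, Matrix.mul_one]
  have h2 : ∑ i, ∑ j, MM κ x i k * MM κ x j l * (PP G Φ (0, x))⁻¹ i j = (PP G Ψ (s, KK κ x))⁻¹ k l := by
    rw [← h1, Matrix.mul_apply, Finset.sum_comm]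
    refine Finset.sum_congr rfl fun j _ => ?_
    rw [Matrix.mul_apply, Finset.sum_mul]
    refine Finset.sum_congr rfl fun i _ => ?_
    rw [Matrix.transpose_apply]
    ring
  have h3 : ∑ i, ∑ j, MM κ x i k * MM κ x j l * (x i * x j) = KK κ x k * KK κ x l := by
    rw [← g1_euler h hx k, ← g1_euler h hx l, Finset.sum_mul_sum]
    refine Finset.sum_congr rfl fun i _ => Finset.sum_congr rfl fun j _ => ?_
    ring
  have h4 : QQ G Ψ k l (s, KK κ x) = (PP G Ψ (s, KK κ x))⁻¹ k l - KK κ x k * KK κ x l := rfl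
  rw [h4, ← h2, ← h3, ← Finset.sum_sub_distrib]
  refine Finset.sum_congr rfl fun i _ => ?_
  rw [← Finset.sum_sub_distrib]
  refine Finset.sum_congr rfl fun j _ => ?_
  have h5 : QQ G Φ i j (0, x) = (PP G Φ (0, x))⁻¹ i j - x i * x j := rfl
  rw [h5]
  ring

end H17Y
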