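import Pool.Agent.Lib.H17Y.G3

set_option autoImplicit false

/-!
# H17Y, chunk G4 (M): the common cut, null normals

Put `L = LL Ψ (s, Kx)`, `k = kk G Ψ (s, Kx)`, `L' = LL Φ (0, x)`, `k' = kk G Φ (0, x)`, `q = Ph Ψ (s,Kx) = Ph Φ (0,x)`. Every vector is `v = sum QQ_ij <v, X_j> X_i + (<v,k>/2) L + (<v,L>/2) k` (from `nframe`; e.g. `nframe_ext`/`ip_expand`: both sides have the same products with all `w`; the metric is nondegenerate).
`L'` and `k'` are orthogonal to all `X^Φ_i`, hence to all `X^Ψ_j` (`g2_xx`, `M` invertible). So `L' = c L + a k` with `a = <L', L>/2 = al x`, `c = <L',k>/2`; `<L',L'> = 4 a c = 0`, `a ≠ 0`, so `c = 0`. `k' = c' L + a' k`, `<k',k'> = 4 a' c' = 0`, `2 = <L',k'> = 2 a c'`, so `c' = 1/a`, `a' = 0`.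
Auxiliary names start with `g4_`.
-/

open MeasureTheory Filter Topology Set Asymptotics
open scoped ContDiff

namespace H17Y

open H17W
open H17T (E4 pt pos tang slice second DEC)
open H17B (eta dl)
open Pool.Agent.Lib.PenroseSph (E3 Tens S2 sm pd)

variable {G : E4 → Matrix (Fin 4) (Fin 4) ℝ} {Ψ Φ : ℝ × E3 → E4} {W₀ W : Set (ℝ × E3)} {I₀ I : Set ℝ} {s : ℝ} {κ : E3 → E3}

/-- A vector orthogonal to the `X_j` is a combination of `L` and `k`. -/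
theorem g4_comb {G : E4 → Matrix (Fin 4) (Fin 4) ℝ} {p : E4} {X : Fin 3 → Fin 4 → ℝ} {Q : Fin 3 → Fin 3 → ℝ} {L k : Fin 4 → ℝ}
    (hm : MetAt G p) (hF : NFrame (G p) X Q L k) {Y : Fin 4 → ℝ} (hY : ∀ j, ip G p Y (X j) = 0) :
    Y = (ip G p Y k / 2) • L + (ip G p Y L / 2) • k := by
  have h1 := expand hm hF Y
  have h2 : (∑ i, (∑ j, Q i j * ip G p Y (X j)) • X i) = 0 := by
    refine Finset.sum_eq_zero fun i _ => ?_
    rw [Finset.sum_eq_zero fun j _ => by rw [hY j, mul_zero], zero_smul]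
  rw [h2, zero_add] at h1
  exact h1

/-- The product of two combinations of `L` and `k`. -/
theorem g4_prod {G : E4 → Matrix (Fin 4) (Fin 4) ℝ} {p : E4} {L k : Fin 4 → ℝ} (hm : MetAt G p) (hLL : ip G p L L = 0)
    (hkk : ip G p k k = 0) (hLk : ip G p L k = 2) (a b a' b' : ℝ) :
    ip G p (a • L + b • k) (a' • L + b' • k) = 2 * (a * b' + b * a') := by
  have hkL : ip G p k L = 2 := by rw [ip_symm hm, hLk]
  rw [ip_add_left, ip_add_right, ip_add_right, ip_smul_left, ip_smul_left, ip_smul_left, ip_smul_left, ip_smul_right,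
    ip_smul_right, ip_smul_right, ip_smul_right, hLL, hkk, hLk, hkL]
  ring

/-- Orthogonality to the tangent vectors of the common cut. -/
theorem g4_orth (h : Glue G Ψ W₀ I₀ s Φ W I κ) {x : E3} (hx : x ≠ 0) {Y : Fin 4 → ℝ}
    (hY : ∀ i, ip G (Ph Φ (0, x)) Y (XX Φ i (0, x)) = 0) (j : Fin 3) :
    ip G (Ph Ψ (s, KK κ x)) Y (XX Ψ j (s, KK κ x)) = 0 := by
  have h1 : (MM κ x).mulVec (fun j => ip G (Ph Ψ (s, KK κ x)) Y (XX Ψ j (s, KK κ x))) = 0 := by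
    funext i
    have h2 := hY i
    rw [g2_ph h hx, g2_xx h hx i, b3b_ip_sum_right] at h2
    exact h2
  exact congrFun (Matrix.eq_zero_of_mulVec_eq_zero (g3_det h hx) h1) j

theorem g4_L (h : Glue G Ψ W₀ I₀ s Φ W I κ) {x : E3} (hx : x ≠ 0) (ha : al G Ψ s Φ κ x ≠ 0) :
    LL Φ (0, x) = al G Ψ s Φ κ x • kk G Ψ (s, KK κ x) := by
  have hKx := (g1_norm h hx).2.1
  have hm := h.reg.met _ (h.reg.mem s h.mem _ hKx)
  have hF := nframe h.reg h.mem hKx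
  have hLL : ip G (Ph Ψ (s, KK κ x)) (LL Ψ (s, KK κ x)) (LL Ψ (s, KK κ x)) = 0 := h.reg.null s h.mem _ hKx
  have hkk : ip G (Ph Ψ (s, KK κ x)) (kk G Ψ (s, KK κ x)) (kk G Ψ (s, KK κ x)) = 0 := kk_k h.reg h.mem hKx
  have hLk : ip G (Ph Ψ (s, KK κ x)) (LL Ψ (s, KK κ x)) (kk G Ψ (s, KK κ x)) = 2 := kk_L h.reg h.mem hKx
  have h1 := g4_comb hm hF (Y := LL Φ (0, x)) (g4_orth h hx fun i => h.reg'.orth 0 h.mem' x hx i)
  have h2 : ip G (Ph Ψ (s, KK κ x)) (LL Φ (0, x)) (LL Ψ (s, KK κ x)) / 2 = al G Ψ s Φ κ x := by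
    rw [ip_symm hm]
    rfl
  rw [h2] at h1
  have h3 : ip G (Ph Ψ (s, KK κ x)) (LL Φ (0, x)) (LL Φ (0, x)) = 0 := by
    rw [← g2_ph h hx]
    exact h.reg'.null 0 h.mem' x hx
  have h4 : ip G (Ph Ψ (s, KK κ x)) (LL Φ (0, x)) (kk G Ψ (s, KK κ x)) = 0 := by
    rw [h1, g4_prod hm hLL hkk hLk] at h3
    have h5 : (ip G (Ph Ψ (s, KK κ x)) (LL Φ (0, x)) (kk G Ψ (s, KK κ x))) * al G Ψ s Φ κ x = 0 := by
      have h6 : (2 : ℝ) * (ip G (Ph Ψ (s, KK κ x)) (LL Φ (0, x)) (kk G Ψ (s, KK κ x)) * al G Ψ s Φ κ x) = 0 := by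
        linear_combination h3
      exact (mul_eq_zero.1 h6).resolve_left two_ne_zero
    exact (mul_eq_zero.1 h5).resolve_right ha
  rw [h4, zero_div, zero_smul, zero_add] at h1
  exact h1

theorem g4_k (h : Glue G Ψ W₀ I₀ s Φ W I κ) {x : E3} (hx : x ≠ 0) (ha : al G Ψ s Φ κ x ≠ 0) :
    kk G Φ (0, x) = (al G Ψ s Φ κ x)⁻¹ • LL Ψ (s, KK κ x) := by
  have hKx := (g1_norm h hx).2.1
  have hm := h.reg.met _ (h.reg.mem s h.mem _ hKx)
  have hF := nframe h.reg h.mem hKx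
  have hLL : ip G (Ph Ψ (s, KK κ x)) (LL Ψ (s, KK κ x)) (LL Ψ (s, KK κ x)) = 0 := h.reg.null s h.mem _ hKx
  have hkk : ip G (Ph Ψ (s, KK κ x)) (kk G Ψ (s, KK κ x)) (kk G Ψ (s, KK κ x)) = 0 := kk_k h.reg h.mem hKx
  have hLk : ip G (Ph Ψ (s, KK κ x)) (LL Ψ (s, KK κ x)) (kk G Ψ (s, KK κ x)) = 2 := kk_L h.reg h.mem hKx
  have h1 := g4_comb hm hF (Y := kk G Φ (0, x)) (g4_orth h hx fun i => kk_X h.reg' h.mem' hx i)
  obtain ⟨c, hc⟩ : ∃ c, c = ip G (Ph Ψ (s, KK κ x)) (kk G Φ (0, x)) (kk G Ψ (s, KK κ x)) / 2 := ⟨_, rfl⟩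
  obtain ⟨a, ha'⟩ : ∃ a, a = ip G (Ph Ψ (s, KK κ x)) (kk G Φ (0, x)) (LL Ψ (s, KK κ x)) / 2 := ⟨_, rfl⟩
  rw [← hc, ← ha'] at h1
  have h3 : ip G (Ph Ψ (s, KK κ x)) (kk G Φ (0, x)) (kk G Φ (0, x)) = 0 := by
    rw [← g2_ph h hx]
    exact kk_k h.reg' h.mem' hx
  have h4 : ip G (Ph Ψ (s, KK κ x)) (LL Φ (0, x)) (kk G Φ (0, x)) = 2 := by
    rw [← g2_ph h hx]
    exact kk_L h.reg' h.mem' hx
  have h5 : LL Φ (0, x) = (0 : ℝ) • LL Ψ (s, KK κ x) + al G Ψ s Φ κ x • kk G Ψ (s, KK κ x) := by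
    rw [zero_smul, zero_add]
    exact g4_L h hx ha
  rw [h1, g4_prod hm hLL hkk hLk] at h3
  rw [h1, h5, g4_prod hm hLL hkk hLk] at h4
  have h6 : al G Ψ s Φ κ x * c = 1 := by linear_combination h4 / 2
  have h7 : c = (al G Ψ s Φ κ x)⁻¹ := eq_inv_of_mul_eq_one_right h6
  have h8 : c ≠ 0 := by
    rw [h7]
    exact inv_ne_zero ha
  have h9 : a = 0 := by
    have h10 : (c * a) = 0 := by linear_combination h3 / 4
    exact (mul_eq_zero.1 h10).resolve_left h8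
  rw [h1, h9, zero_smul, add_zero, h7]

theorem g4_pair {x : E3} (hK : ContDiffAt ℝ ∞ (KK κ) x) : ContDiffAt ℝ ∞ (fun y => ((s, KK κ y) : ℝ × E3)) x :=
  contDiffAt_const.prodMk hK

theorem g4_cont (h : Glue G Ψ W₀ I₀ s Φ W I κ) {x : E3} (hx : x ≠ 0) : ContDiffAt ℝ ∞ (al G Ψ s Φ κ) x := by
  have hKx := (g1_norm h hx).2.1
  have hm := h.reg.met _ (h.reg.mem s h.mem _ hKx)
  have hev : ∀ᶠ y in 𝓝 x, y ≠ 0 := isOpen_ne.mem_nhds hx
  have h1 : ∀ᶠ y in 𝓝 x, ContDiffAt ℝ ∞ (fun z => Ph Ψ (s, KK κ z)) y := by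
    filter_upwards [hev] with y hy
    exact ContDiffAt.comp (g := Ph Ψ) (f := fun z => ((s, KK κ z) : ℝ × E3)) y
      (h.reg.smooth _ (h.reg.mem s h.mem _ (g1_norm h hy).2.1)) (g4_pair (g1_smooth h hy))
  have h2 : ∀ᶠ y in 𝓝 x, ∀ a, ContDiffAt ℝ ∞ (fun z => LL Ψ (s, KK κ z) a) y := by
    filter_upwards [hev] with y hy a
    exact ContDiffAt.comp (g := fun q => LL Ψ q a) y (LL_smooth h.reg (h.reg.mem s h.mem _ (g1_norm h hy).2.1) a)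
      (g4_pair (g1_smooth h hy))
  have h3 : ∀ᶠ y in 𝓝 x, ∀ a, ContDiffAt ℝ ∞ (fun z : E3 => LL Φ (0, z) a) y := by
    filter_upwards [hev] with y hy a
    exact ContDiffAt.comp (g := fun q => LL Φ q a) y (LL_smooth h.reg' (h.reg'.mem 0 h.mem' y hy) a)
      (contDiffAt_const.prodMk contDiffAt_id)
  have h4 := (ip_smooth (Φ := fun z => Ph Ψ (s, KK κ z)) hm h1 h2 h3).self_of_nhds
  exact h4.div_const 2

end H17Y
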