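import Pool.Agent.Lib.H17Y.G4

set_option autoImplicit false

/-!
# H17Y, chunk G5 (M): the common cut, second fundamental forms

`chi Φ_ij (0,x) = <D_i L', X'_j>`, `D_i L' = cov G (Ph Φ) (LL Φ) (0,x) (dX i)`. Near `x` (where `al ≠ 0`, `g4_cont`) `LL Φ (0, y) = al y • kk Ψ (s, K y)` (`g4_L`), so with `eq_pd` and `g2_chain`: `D_i L' = (∂_i al) k + al sum_k M_ik D_k k` (`D_k k = cov G (Ph Ψ) (kk G Ψ) (s,Kx) (dX k)`;
the Christoffel terms agree as `X'_i = sum M_ik X_k`). `<k, X'_j> = 0` (`kk_X`). Hence `chi Φ_ij = al sum M_ik M_jl kap Ψ_kl`. In the same way `kap Φ_ij = al⁻¹ sum M_ik M_jl chi Ψ_kl` from `g4_k` (`<L, X'_j> = 0`).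
Auxiliary names start with `g5_`.
-/

open MeasureTheory Filter Topology Set Asymptotics
open scoped ContDiff

namespace H17Y

open H17W
open H17T (E4 pt pos tang slice second DEC)
open H17B (eta dl)
open Pool.Agent.Lib.PenroseSph (E3 Tens S2 sm pd)

variable {G : E4 → Matrix (Fin 4) (Fin 4) ℝ} {Ψ Φ : ℝ × E3 → E4} {W₀ W : Set (ℝ × E3)} {I₀ I : Set ℝ} {s : ℝ} {κ : E3 → E3}

theorem g5_cov (h : Glue G Ψ W₀ I₀ s Φ W I κ) {x : E3} (hx : x ≠ 0) {A B : ℝ × E3 → Fin 4 → ℝ} {f : E3 → ℝ}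
    (hA : ∀ a, DifferentiableAt ℝ (fun q => A q a) (0, x)) (hB : ∀ a, DifferentiableAt ℝ (fun q => B q a) (s, KK κ x))
    (hf : DifferentiableAt ℝ f x) (he : ∀ᶠ y in 𝓝 x, A (0, y) = f y • B (s, KK κ y)) (i : Fin 3) (a : Fin 4) :
    cov G (Ph Φ) A (0, x) (dX i) a = pd i f x * B (s, KK κ x) a +
      f x * ∑ k, MM κ x i k * cov G (Ph Ψ) B (s, KK κ x) (dX k) a := by
  have hK : DifferentiableAt ℝ (KK κ) x := (g1_smooth h hx).differentiableAt (by simp)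
  have hBK : DifferentiableAt ℝ (fun y => B (s, KK κ y) a) x := by
    have h1 : DifferentiableAt ℝ (fun y => ((s, KK κ y) : ℝ × E3)) x := (differentiableAt_const s).prodMk hK
    exact DifferentiableAt.comp (g := fun q => B q a) x (hB a) h1
  have h1 : fderiv ℝ (fun q => A q a) (0, x) (dX i) = pd i f x * B (s, KK κ x) a +
      f x * ∑ k, MM κ x i k * fderiv ℝ (fun q => B q a) (s, KK κ x) (dX k) := by
    rw [eq_pd (hA a) i, ← g2_chain h hx (hB a) i]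
    have e1 : (fun y => A (0, y) a) =ᶠ[𝓝 x] fun y => f y * B (s, KK κ y) a := by
      filter_upwards [he] with y hy
      rw [hy]
      rfl
    unfold pd
    rw [e1.fderiv_eq, fderiv_fun_mul hf hBK]
    simp only [add_apply, smul_apply, smul_eq_mul]
    ring
  have h2 : gam G (Ph Φ (0, x)) (vel (Ph Φ) (0, x) (dX i)) (A (0, x)) a =
      f x * ∑ k, MM κ x i k * gam G (Ph Ψ (s, KK κ x)) (vel (Ph Ψ) (s, KK κ x) (dX k)) (B (s, KK κ x)) a := by
    have e1 : vel (Ph Φ) (0, x) (dX i) = ∑ k, MM κ x i k • vel (Ph Ψ) (s, KK κ x) (dX k) := g2_xx h hx i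
    rw [e1, g2_ph h hx, he.self_of_nhds]
    unfold gam
    simp only [Fin.sum_univ_three, Fin.sum_univ_four, Pi.add_apply, Pi.smul_apply, smul_eq_mul]
    ring
  unfold cov
  rw [h1, h2]
  simp only [Fin.sum_univ_three]
  ring

theorem g5_main (h : Glue G Ψ W₀ I₀ s Φ W I κ) {x : E3} (hx : x ≠ 0) {A B : ℝ × E3 → Fin 4 → ℝ} {f : E3 → ℝ}
    (hA : ∀ a, DifferentiableAt ℝ (fun q => A q a) (0, x)) (hB : ∀ a, DifferentiableAt ℝ (fun q => B q a) (s, KK κ x))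
    (hf : DifferentiableAt ℝ f x) (he : ∀ᶠ y in 𝓝 x, A (0, y) = f y • B (s, KK κ y))
    (ho : ∀ l, ip G (Ph Ψ (s, KK κ x)) (B (s, KK κ x)) (XX Ψ l (s, KK κ x)) = 0) (i j : Fin 3) :
    ip G (Ph Φ (0, x)) (cov G (Ph Φ) A (0, x) (dX i)) (XX Φ j (0, x)) =
      f x * ∑ k, ∑ l, MM κ x i k * MM κ x j l *
        ip G (Ph Ψ (s, KK κ x)) (cov G (Ph Ψ) B (s, KK κ x) (dX k)) (XX Ψ l (s, KK κ x)) := by
  have h1 : cov G (Ph Φ) A (0, x) (dX i) = pd i f x • B (s, KK κ x) +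
      ∑ k, (f x * MM κ x i k) • cov G (Ph Ψ) B (s, KK κ x) (dX k) := by
    funext a
    rw [g5_cov h hx hA hB hf he i a]
    simp only [Pi.add_apply, Pi.smul_apply, smul_eq_mul, Fin.sum_univ_three]
    ring
  rw [h1, g2_ph h hx, g2_xx h hx j, b3b_ip_sum_right]
  have h2 : ∀ l, ip G (Ph Ψ (s, KK κ x)) (pd i f x • B (s, KK κ x) +
      ∑ k, (f x * MM κ x i k) • cov G (Ph Ψ) B (s, KK κ x) (dX k)) (XX Ψ l (s, KK κ x)) =
      ∑ k, f x * MM κ x i k * ip G (Ph Ψ (s, KK κ x)) (cov G (Ph Ψ) B (s, KK κ x) (dX k)) (XX Ψ l (s, KK κ x)) := by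
    intro l
    rw [ip_add_left, ip_smul_left, ho l, mul_zero, zero_add, b3b_ip_sum_left]
  rw [Finset.sum_congr rfl fun l _ => by rw [h2 l]]
  simp only [Fin.sum_univ_three]
  ring

theorem g5_ev (h : Glue G Ψ W₀ I₀ s Φ W I κ) {x : E3} (hx : x ≠ 0) (ha : al G Ψ s Φ κ x ≠ 0) :
    ∀ᶠ y in 𝓝 x, y ≠ 0 ∧ al G Ψ s Φ κ y ≠ 0 := by
  filter_upwards [isOpen_ne.mem_nhds hx, (g4_cont h hx).continuousAt.eventually_ne ha] with y h1 h2
  exact ⟨h1, h2⟩

theorem g5_chi (h : Glue G Ψ W₀ I₀ s Φ W I κ) {x : E3} (hx : x ≠ 0) (ha : al G Ψ s Φ κ x ≠ 0) (i j : Fin 3) :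
    chi G Φ i j (0, x) = al G Ψ s Φ κ x * ∑ k, ∑ l, MM κ x i k * MM κ x j l * kap G Ψ k l (s, KK κ x) := by
  have hKx := (g1_norm h hx).2.1
  have hm := h.reg.mem s h.mem _ hKx
  have hm' := h.reg'.mem 0 h.mem' x hx
  refine g5_main h hx (A := LL Φ) (B := kk G Ψ) (f := al G Ψ s Φ κ)
    (fun a => (LL_smooth h.reg' hm' a).differentiableAt (by simp))
    (fun a => (kk_smooth h.reg hm a).differentiableAt (by simp))
    ((g4_cont h hx).differentiableAt (by simp)) ?_ (fun l => kk_X h.reg h.mem hKx l) i j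
  filter_upwards [g5_ev h hx ha] with y hy
  exact g4_L h hy.1 hy.2

theorem g5_kap (h : Glue G Ψ W₀ I₀ s Φ W I κ) {x : E3} (hx : x ≠ 0) (ha : al G Ψ s Φ κ x ≠ 0) (i j : Fin 3) :
    kap G Φ i j (0, x) = (al G Ψ s Φ κ x)⁻¹ * ∑ k, ∑ l, MM κ x i k * MM κ x j l * chi G Ψ k l (s, KK κ x) := by
  have hKx := (g1_norm h hx).2.1
  have hm := h.reg.mem s h.mem _ hKx
  have hm' := h.reg'.mem 0 h.mem' x hx
  refine g5_main h hx (A := kk G Φ) (B := LL Ψ) (f := fun y => (al G Ψ s Φ κ y)⁻¹)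
    (fun a => (kk_smooth h.reg' hm' a).differentiableAt (by simp))
    (fun a => (LL_smooth h.reg hm a).differentiableAt (by simp))
    (((g4_cont h hx).differentiableAt (by simp)).inv ha) ?_ (fun l => h.reg.orth s h.mem _ hKx l) i j
  filter_upwards [g5_ev h hx ha] with y hy
  exact g4_k h hy.1 hy.2

end H17Y
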