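import Pool.Agent.Lib.H17Y.G5

set_option autoImplicit false

/-!
# H17Y, chunk G6 (S): the common cut, expansions

`g5_chi`, `g5_kap`, `g3_qq` and finite sums. On the sphere `KK κ n = κ n` (`|n| = 1`).
Auxiliary names start with `g6_`.
-/

open MeasureTheory Filter Topology Set Asymptotics
open scoped ContDiff

namespace H17Y

open H17W
open H17T (E4 pt pos tang slice second DEC)
open H17B (eta dl)
open Pool.Agent.Lib.PenroseSph (E3 Tens S2 sm pd)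

variable {G : E4 → Matrix (Fin 4) (Fin 4) ℝ} {Ψ Φ : ℝ × E3 → E4} {W₀ W : Set (ℝ × E3)} {I₀ I : Set ℝ} {s : ℝ} {κ : E3 → E3}

theorem g6_KK (n : S2) : KK κ (n : E3) = κ n := by
  have hn : ‖(n : E3)‖ = 1 := by simp
  unfold KK
  rw [hn, inv_one, one_smul, one_smul]

/-- Finite sums. -/
theorem g6_sum (Q q M B : Fin 3 → Fin 3 → ℝ) (f : ℝ) (h : ∀ k l, ∑ i, ∑ j, M i k * M j l * Q i j = q k l) :
    ∑ i, ∑ j, Q i j * (f * ∑ k, ∑ l, M i k * M j l * B k l) = f * ∑ k, ∑ l, q k l * B k l := by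
  simp only [← h]
  simp only [Fin.sum_univ_three]
  ring

theorem g6_exl (h : Glue G Ψ W₀ I₀ s Φ W I κ) (n : S2) (ha : al G Ψ s Φ κ n ≠ 0) :
    exl G Φ (0, (n : E3)) = al G Ψ s Φ κ n * tht G Ψ (s, κ n) := by
  have hne : (n : E3) ≠ 0 := e2b_sph
  unfold exl tht
  simp only [g5_chi h hne ha]
  rw [← g6_KK (κ := κ) n]
  exact g6_sum _ _ _ _ _ (g3_qq h hne)

theorem g6_tht (h : Glue G Ψ W₀ I₀ s Φ W I κ) (n : S2) (ha : al G Ψ s Φ κ n ≠ 0) :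
    tht G Φ (0, (n : E3)) = (al G Ψ s Φ κ n)⁻¹ * exl G Ψ (s, κ n) := by
  have hne : (n : E3) ≠ 0 := e2b_sph
  unfold exl tht
  simp only [g5_kap h hne ha]
  rw [← g6_KK (κ := κ) n]
  exact g6_sum _ _ _ _ _ (g3_qq h hne)

theorem g6_dA (h : Glue G Ψ W₀ I₀ s Φ W I κ) (n : S2) : dA G Φ (0, (n : E3)) = |(MM κ n).det| * dA G Ψ (s, κ n) := by
  have h1 := g3_dA h (x := (n : E3)) e2b_sph
  rwa [g6_KK] at h1

end H17Y
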