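import Pool.Agent.Lib.H17W.EB

set_option autoImplicit false

/-!
# H17Y, chunk I1 (M): pure inequality for the starting cut

The sphere has measure `4 π` (`sm_univ`), continuous functions are integrable (`integrable_S2`). All constants depend on `K` only. `α w₀ ((1 + u) sqrt J - q) = α w₀ (sqrt J - q) + α w₀ sqrt J u`. (1) `|α w₀ - s| ≤ K₁`, `|sqrt J - q| ≤ K₁/s`, so `2 ∫ α w₀ (sqrt J - q) ≤ 2 s ∫ (sqrt J - q) + K₂/s`,
and `∫ sqrt J ≤ ∫ (1 + J)/2 = 4 π` (`sqrt J ≤ (1+J)/2`, `hJ`). (2) `α w₀ sqrt J = (α w₀ / sqrt J) J ≤ (s + K₃) J` for `s ≥ 2K`, say, so `2 ∫ α w₀ sqrt J u ≤ 2 (s + K₃) ∫ J u`. (3) `2 ∫ α q w₀ ≥ 8 π s - K₄` since `α q w₀ ≥ s - K₅`.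
Auxiliary names start with `i1_`.
-/

open MeasureTheory Filter Topology Set Asymptotics
open scoped ContDiff

namespace H17Y

open H17W
open H17T (E4 pt pos tang slice second DEC)
open H17B (eta dl)
open Pool.Agent.Lib.PenroseSph (E3 Tens S2 sm pd)


theorem i1_const (c : ℝ) : ∫ _ : S2, c ∂sm = 4 * Real.pi * c := by
  rw [integral_const, Pool.Agent.Lib.PenroseSph.sm_univ, smul_eq_mul]

/-- The pointwise estimates. -/
theorem i1_pt {k s α J u w q : ℝ} (hk : 0 ≤ k) (hs : 4 * k + 1 ≤ s) (hα : |α - 1| ≤ k / s) (hJ : |J - 1| ≤ k / s) (hu : 0 ≤ u)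
    (hw : |w - s| ≤ k) (hq : |q - 1| ≤ k / s) :
    α * w * ((1 + u) * Real.sqrt J - q) ≤ s * (1 - q) + s / 2 * (J - 1) + 2 * k * (2 * k + k ^ 2) / s +
      (s + 2 * ((2 * k + k ^ 2) + k)) * (J * u) ∧
    s - ((2 * k + k ^ 2) + k + k * (2 * k + k ^ 2)) ≤ α * q * w := by
  have hs1 : 1 ≤ s := by linarith
  have hs0 : 0 < s := by linarith
  obtain ⟨d, hd⟩ : ∃ d : ℝ, d = k / s := ⟨_, rfl⟩
  have hds : d * s = k := by rw [hd]; field_simp
  have hd0 : 0 ≤ d := by rw [hd]; positivity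
  have hdk : d ≤ k := by nlinarith
  have hd4 : d ≤ 1 / 4 := by nlinarith
  rw [← hd] at hα hJ hq
  obtain ⟨hα1, hα2⟩ := abs_le.1 hα
  obtain ⟨hJ1, hJ2⟩ := abs_le.1 hJ
  obtain ⟨hq1, hq2⟩ := abs_le.1 hq
  obtain ⟨hw1, hw2⟩ := abs_le.1 hw
  have hw0 : 0 ≤ w := by linarith
  have hα0 : 0 ≤ α := by linarith
  have hJ0 : 0 ≤ J := by linarith
  obtain ⟨g, hg⟩ : ∃ g : ℝ, g = Real.sqrt J := ⟨_, rfl⟩
  have hg0 : 0 ≤ g := by rw [hg]; exact Real.sqrt_nonneg _
  have hgg : g * g = J := by rw [hg]; exact Real.mul_self_sqrt hJ0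
  rw [← hg]
  have hg1 : |g - 1| ≤ d := by
    rw [abs_le]
    constructor
    · by_contra h
      push Not at h
      nlinarith
    · by_contra h
      push Not at h
      nlinarith
  obtain ⟨hg1, hg2⟩ := abs_le.1 hg1
  obtain ⟨A, hA⟩ : ∃ A : ℝ, A = α * w := ⟨_, rfl⟩
  have hA1 : A - s ≤ 2 * k + k ^ 2 := by
    rw [hA]
    have h1 : α * w - s = (α - 1) * w + (w - s) := by ring
    have h2 : (α - 1) * w ≤ d * (s + k) := by
      have h3 : (α - 1) * w ≤ d * w := mul_le_mul_of_nonneg_right hα2 hw0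
      have h4 : d * w ≤ d * (s + k) := mul_le_mul_of_nonneg_left (by linarith) hd0
      linarith
    nlinarith
  have hA2 : -(2 * k + k ^ 2) ≤ A - s := by
    rw [hA]
    have h2 : -(d * (s + k)) ≤ (α - 1) * w := by
      have h3 : (-d) * w ≤ (α - 1) * w := mul_le_mul_of_nonneg_right hα1 hw0
      have h4 : d * w ≤ d * (s + k) := mul_le_mul_of_nonneg_left (by linarith) hd0
      linarith
    nlinarith
  obtain ⟨c, hc⟩ : ∃ c : ℝ, c = 2 * k + k ^ 2 := ⟨_, rfl⟩
  have hc0 : 0 ≤ c := by rw [hc]; positivity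
  rw [← hc] at hA1 hA2
  rw [← hc]
  have hA0 : 0 ≤ A := by rw [hA]; positivity
  constructor
  · have e1 : α * w * ((1 + u) * g - q) = A * (g - q) + A * g * u := by rw [hA]; ring
    rw [e1]
    have h1 : A * (g - q) ≤ s * (g - q) + 2 * k * c / s := by
      have h2 : (A - s) * (g - q) ≤ c * (2 * d) := by
        have h3 : |(A - s) * (g - q)| ≤ c * (2 * d) := by
          rw [abs_mul]
          refine mul_le_mul (abs_le.2 ⟨hA2, hA1⟩) (abs_le.2 ⟨by linarith, by linarith⟩) (abs_nonneg _) hc0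
        exact (le_abs_self _).trans h3
      have h4 : 2 * k * c / s = c * (2 * d) := by rw [hd]; ring
      rw [h4]
      nlinarith
    have h2 : s * (g - q) ≤ s * (1 - q) + s / 2 * (J - 1) := by
      nlinarith [mul_nonneg hs0.le (sq_nonneg (g - 1))]
    have h3 : A * g * u ≤ (s + 2 * (c + k)) * (J * u) := by
      have h4 : A ≤ (s + 2 * (c + k)) * g := by
        have h5 : (s + 2 * (c + k)) * (1 - d) ≤ (s + 2 * (c + k)) * g :=
          mul_le_mul_of_nonneg_left (by linarith) (by positivity)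
        nlinarith
      have h6 : A * (g * u) ≤ (s + 2 * (c + k)) * g * (g * u) := mul_le_mul_of_nonneg_right h4 (mul_nonneg hg0 hu)
      have h7 : (s + 2 * (c + k)) * g * (g * u) = (s + 2 * (c + k)) * (J * u) := by rw [← hgg]; ring
      linarith
    linarith
  · have h1 : α * q * w = A * q := by rw [hA]; ring
    rw [h1]
    have h2 : A * (1 - d) ≤ A * q := mul_le_mul_of_nonneg_left (by linarith) hA0
    have h3 : A * d ≤ (s + c) * d := mul_le_mul_of_nonneg_right (by linarith) hd0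
    nlinarith

theorem i1 (K : ℝ) : ∃ K' R : ℝ, ∀ s : ℝ, R ≤ s → ∀ α J u w₀ q : S2 → ℝ, Continuous α → Continuous J → Continuous u →
    Continuous w₀ → Continuous q → (∀ n, |α n - 1| ≤ K / s) → (∀ n, |J n - 1| ≤ K / s) → (∀ n, 0 ≤ u n) → (∀ n, |w₀ n - s| ≤ K) →
    (∀ n, |q n - 1| ≤ K / s) → ∫ n, J n ∂sm = 4 * Real.pi →
    2 * (∫ n, α n * w₀ n * ((1 + u n) * Real.sqrt (J n) - q n) ∂sm) ≤
      2 * s * (∫ n, (1 - q n) ∂sm) + K' / s + (2 * s + K') * (∫ n, J n * u n ∂sm) ∧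
    8 * Real.pi * s - K' ≤ 2 * ∫ n, α n * q n * w₀ n ∂sm := by
  obtain ⟨k, hk0, hkK⟩ : ∃ k : ℝ, 0 ≤ k ∧ K ≤ k := ⟨max K 0, le_max_right _ _, le_max_left _ _⟩
  obtain ⟨c, hc⟩ : ∃ c : ℝ, c = 2 * k + k ^ 2 := ⟨_, rfl⟩
  have hc0 : 0 ≤ c := by rw [hc]; positivity
  have hpi := Real.pi_pos
  refine ⟨16 * Real.pi * (k * c) + 4 * (c + k) + 8 * Real.pi * (c + k + k * c), 4 * k + 1, ?_⟩
  intro s hs α J u w q hα hJ hu hw hq bα bJ bu bw bq hJ4
  have hs1 : 1 ≤ s := by linarith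
  have hs0 : 0 < s := by linarith
  have hKs : K / s ≤ k / s := div_le_div_of_nonneg_right hkK hs0.le
  have hpt := fun n => i1_pt hk0 hs ((bα n).trans hKs) ((bJ n).trans hKs) (bu n) ((bw n).trans hkK) ((bq n).trans hKs)
  simp only [← hc] at hpt
  have hJu : 0 ≤ ∫ n, J n * u n ∂sm := by
    refine integral_nonneg fun n => mul_nonneg ?_ (bu n)
    have h1 := (abs_le.1 ((bJ n).trans hKs)).1
    have h2 : k / s ≤ 1 := by
      rw [div_le_one hs0]
      linarith
    linarith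
  constructor
  · have h1 : ∫ n, α n * w n * ((1 + u n) * Real.sqrt (J n) - q n) ∂sm ≤
        ∫ n, (s * (1 - q n) + s / 2 * (J n - 1) + 2 * k * c / s + (s + 2 * (c + k)) * (J n * u n)) ∂sm := by
      refine integral_mono (Pool.Agent.Lib.PenroseSph.integrable_S2 (by fun_prop)) (Pool.Agent.Lib.PenroseSph.integrable_S2 (by fun_prop)) fun n => (hpt n).1
    have h2 : ∫ n, (s * (1 - q n) + s / 2 * (J n - 1) + 2 * k * c / s + (s + 2 * (c + k)) * (J n * u n)) ∂sm =
        s * (∫ n, (1 - q n) ∂sm) + 4 * Real.pi * (2 * k * c / s) + (s + 2 * (c + k)) * ∫ n, J n * u n ∂sm := by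
      rw [integral_add (Pool.Agent.Lib.PenroseSph.integrable_S2 (by fun_prop)) (Pool.Agent.Lib.PenroseSph.integrable_S2 (by fun_prop)),
        integral_add (Pool.Agent.Lib.PenroseSph.integrable_S2 (by fun_prop)) (Pool.Agent.Lib.PenroseSph.integrable_S2 (by fun_prop)),
        integral_add (Pool.Agent.Lib.PenroseSph.integrable_S2 (by fun_prop)) (Pool.Agent.Lib.PenroseSph.integrable_S2 (by fun_prop)),
        integral_const_mul, integral_const_mul, integral_const_mul, i1_const,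
        integral_sub (Pool.Agent.Lib.PenroseSph.integrable_S2 hJ) (Pool.Agent.Lib.PenroseSph.integrable_S2 (by fun_prop)), hJ4, i1_const]
      ring
    rw [h2] at h1
    have h3 : (16 * Real.pi * (k * c) + 4 * (c + k) + 8 * Real.pi * (c + k + k * c)) / s =
        2 * (4 * Real.pi * (2 * k * c / s)) + (4 * (c + k) + 8 * Real.pi * (c + k + k * c)) / s := by
      field_simp
      ring
    have h4 : 0 ≤ (4 * (c + k) + 8 * Real.pi * (c + k + k * c)) / s := by positivity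
    have h5 : 0 ≤ (16 * Real.pi * (k * c) + 8 * Real.pi * (c + k + k * c)) * ∫ n, J n * u n ∂sm :=
      mul_nonneg (by positivity) hJu
    rw [h3]
    nlinarith
  · have h1 : ∫ _ : S2, (s - (c + k + k * c)) ∂sm ≤ ∫ n, α n * q n * w n ∂sm := by
      refine integral_mono (Pool.Agent.Lib.PenroseSph.integrable_S2 (by fun_prop)) (Pool.Agent.Lib.PenroseSph.integrable_S2 (by fun_prop)) fun n => (hpt n).2
    rw [i1_const] at h1
    have h2 : 0 ≤ 16 * Real.pi * (k * c) + 4 * (c + k) := by positivity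
    linarith

end H17Y
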