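import Pool.Agent.Lib.H17W.EB

set_option autoImplicit false

/-!
# H17Y, chunk I2 (M): pure inequality for the growth of the area

`A = ∫ w₀²`, `B = ∫ w₁²`. (1) `sqrt A sqrt B ≥ ∫ w₀ w₁` (Cauchy-Schwarz: `inner_mul_le_norm_mul_norm` in `L²`, or `integral_mul_le_Lp_mul_Lq`, or `0 ≤ ∫ (sqrt B w₀ - sqrt A w₁)²`), `∫ w₀ w₁ ≥ A + τ ∫ q w₀` as `w₀ > 0`, so `sqrt B ≥ sqrt A + τ (∫ q w₀) / sqrt A`.
(2) `sqrt (16 π) (∫ q w₀) / sqrt A ≥ 2 ∫ q - K₁/s²`: with `w₀ = s + β`, `q = 1 + ρ`, `|β| ≤ K`, `|ρ| ≤ K/s`, `b = ∫ β`: `∫ q w₀ = 4 π s + b + s ∫ ρ + O(1/s)`, `A = 4 π s² + 2 s b + O(1)`, `sqrt A = sqrt (4π) (s + b/(4π)) + O(1/s)`; so `(∫ q w₀)/sqrt A = (1/sqrt(4π)) (4 π + ∫ ρ) + O(1/s²)`, and `sqrt(16π)/sqrt(4π) = 2`, `∫ q = 4π + ∫ ρ`.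
(3) `τ ≤ K s`.
Auxiliary names start with `i2_`.
-/

open MeasureTheory Filter Topology Set Asymptotics
open scoped ContDiff

namespace H17Y

open H17W
open H17T (E4 pt pos tang slice second DEC)
open H17B (eta dl)
open Pool.Agent.Lib.PenroseSph (E3 Tens S2 sm pd)


theorem i2_const (c : ℝ) : ∫ _ : S2, c ∂sm = 4 * Real.pi * c := by
  rw [integral_const, Pool.Agent.Lib.PenroseSph.sm_univ, smul_eq_mul]

theorem i2_le {f : S2 → ℝ} (hf : Continuous f) {c : ℝ} (h : ∀ n, f n ≤ c) : ∫ n, f n ∂sm ≤ 4 * Real.pi * c := by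
  rw [← i2_const]
  exact integral_mono (Pool.Agent.Lib.PenroseSph.integrable_S2 hf) (Pool.Agent.Lib.PenroseSph.integrable_S2 (by fun_prop)) h

theorem i2_abs {f : S2 → ℝ} (hf : Continuous f) {c : ℝ} (h : ∀ n, |f n| ≤ c) : |∫ n, f n ∂sm| ≤ 4 * Real.pi * c := by
  rw [abs_le]
  constructor
  · have h1 := i2_le (f := fun n => -f n) (by fun_prop) (c := c) (fun n => (neg_le_abs _).trans (h n))
    rw [integral_neg] at h1
    linarith
  · exact i2_le hf fun n => (le_abs_self _).trans (h n)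

/-- The real inequality. -/
theorem i2_real {k s b V r E A P I g π : ℝ} (hπ : 0 < π) (hg : 0 < g) (hgg : g * g = 4 * π) (hk : 0 ≤ k) (hs : 2 * k + 1 ≤ s)
    (hb : |b| ≤ 4 * π * k) (hV : V ≤ 4 * π * k ^ 2) (hbV : b ^ 2 ≤ 4 * π * V) (hr : |r| ≤ 4 * π * (k / s)) (hE : |E| ≤ 4 * π * (k ^ 2 / s))
    (hA : A = 4 * π * s ^ 2 + 2 * s * b + V) (hP : P = 4 * π * s + b + s * r + E) (hI : I = 4 * π + r) :
    0 < A ∧ (2 * I - 16 * π * k ^ 2 * (3 + k) / s ^ 2) * Real.sqrt A ≤ 2 * g * P := by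
  have hs1 : 1 ≤ s := by linarith
  have hs0 : 0 < s := by linarith
  obtain ⟨hb1, hb2⟩ := abs_le.1 hb
  obtain ⟨t, ht⟩ : ∃ t : ℝ, t = s + b / (4 * π) := ⟨_, rfl⟩
  have hb4 : b = 4 * π * (t - s) := by rw [ht]; field_simp; ring
  have htk : |t - s| ≤ k := by
    rw [abs_le]
    constructor
    · by_contra h
      push Not at h
      nlinarith
    · by_contra h
      push Not at h
      nlinarith
  obtain ⟨ht1, ht2⟩ := abs_le.1 htk
  have htp : s / 2 ≤ t := by linarith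
  have hAt : A = 4 * π * t ^ 2 + (V - 4 * π * (t - s) ^ 2) := by
    rw [hA, hb4]
    ring
  have hV0 : 0 ≤ V - 4 * π * (t - s) ^ 2 := by
    have h1 : (4 * π) * (4 * π * (t - s) ^ 2) ≤ (4 * π) * V := by
      rw [hb4] at hbV
      nlinarith
    have h2 := le_of_mul_le_mul_left h1 (by positivity)
    linarith
  have hA0 : 0 < A := by
    rw [hAt]
    have ht0 : 0 < t := by linarith
    have : 0 < 4 * π * t ^ 2 := by positivity
    linarith
  refine ⟨hA0, ?_⟩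
  obtain ⟨X, hX⟩ : ∃ X : ℝ, X = Real.sqrt A / g := ⟨_, rfl⟩
  have hsA : Real.sqrt A = g * X := by rw [hX]; field_simp
  have hX0 : 0 ≤ X := by rw [hX]; positivity
  have hXX : X * X = A / (4 * π) := by
    rw [hX, ← hgg]
    have h1 : Real.sqrt A * Real.sqrt A = A := Real.mul_self_sqrt hA0.le
    rw [div_mul_div_comm, h1]
  have hA2 : A / (4 * π) = t ^ 2 + (V - 4 * π * (t - s) ^ 2) / (4 * π) := by
    rw [hAt]
    field_simp
  have hV1 : (V - 4 * π * (t - s) ^ 2) / (4 * π) ≤ k ^ 2 := by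
    rw [div_le_iff₀ (by positivity)]
    nlinarith [sq_nonneg (t - s)]
  have hV2 : 0 ≤ (V - 4 * π * (t - s) ^ 2) / (4 * π) := by positivity
  have hXlo : s / 2 ≤ X := by
    by_contra h
    push Not at h
    nlinarith
  have hXhi : X ≤ t + k ^ 2 / s := by
    have hks : k ^ 2 / s * s = k ^ 2 := by field_simp
    have hks0 : 0 ≤ k ^ 2 / s := by positivity
    by_contra h
    push Not at h
    nlinarith
  rw [hsA]
  -- 2 P - 2 I X ≥ - C / s
  have hIp : 0 ≤ I := by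
    rw [hI]
    have h1 : 4 * π * (k / s) ≤ 4 * π := by
      have : k / s ≤ 1 := by
        rw [div_le_one hs0]
        linarith
      nlinarith
    have := (abs_le.1 hr).1
    linarith
  have h1 : 2 * I * X ≤ 2 * I * (t + k ^ 2 / s) := mul_le_mul_of_nonneg_left hXhi (by positivity)
  have h2 : 2 * I * (t + k ^ 2 / s) = 2 * P - 2 * E + 2 * r * (t - s) + 2 * I * (k ^ 2 / s) := by
    rw [hP, hI, hb4]
    ring
  have h3 : |r * (t - s)| ≤ 4 * π * (k / s) * k := by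
    rw [abs_mul]
    exact mul_le_mul hr htk (abs_nonneg _) (by positivity)
  have h4 : I ≤ 4 * π * (1 + k) := by
    rw [hI]
    have h5 : 4 * π * (k / s) ≤ 4 * π * k := by
      have : k / s ≤ k := div_le_self hk hs1
      nlinarith
    have := (abs_le.1 hr).2
    nlinarith
  have h6 : I * (k ^ 2 / s) ≤ 4 * π * (1 + k) * (k ^ 2 / s) := mul_le_mul_of_nonneg_right h4 (by positivity)
  have h7 : 8 * π * k ^ 2 * (3 + k) / s = 2 * (4 * π * (k ^ 2 / s)) + 2 * (4 * π * (k / s) * k) + 2 * (4 * π * (1 + k) * (k ^ 2 / s)) := by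
    field_simp
    ring
  have h8 : 2 * I * X - 8 * π * k ^ 2 * (3 + k) / s ≤ 2 * P := by
    have h9 := (abs_le.1 h3).2
    have h10 := (abs_le.1 hE).1
    rw [h7]
    linarith
  have h11 : 8 * π * k ^ 2 * (3 + k) / s ≤ 16 * π * k ^ 2 * (3 + k) / s ^ 2 * X := by
    have h12 : 16 * π * k ^ 2 * (3 + k) / s ^ 2 * (s / 2) = 8 * π * k ^ 2 * (3 + k) / s := by
      field_simp
      ring
    rw [← h12]
    exact mul_le_mul_of_nonneg_left hXlo (by positivity)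
  have h13 : (2 * I - 16 * π * k ^ 2 * (3 + k) / s ^ 2) * X ≤ 2 * P := by linarith
  calc (2 * I - 16 * π * k ^ 2 * (3 + k) / s ^ 2) * (g * X) = g * ((2 * I - 16 * π * k ^ 2 * (3 + k) / s ^ 2) * X) := by ring
    _ ≤ g * (2 * P) := mul_le_mul_of_nonneg_left h13 hg.le
    _ = 2 * g * P := by ring

theorem i2 (K : ℝ) : ∃ K' R : ℝ, ∀ s τ : ℝ, R ≤ s → 0 ≤ τ → τ ≤ K * s → ∀ w₀ w₁ q : S2 → ℝ, Continuous w₀ → Continuous w₁ →
    Continuous q → (∀ n, |w₀ n - s| ≤ K) → (∀ n, |q n - 1| ≤ K / s) → (∀ n, w₀ n + τ * q n ≤ w₁ n) →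
    Real.sqrt (16 * Real.pi * ∫ n, w₀ n ^ 2 ∂sm) + 2 * τ * (∫ n, q n ∂sm) - K' / s ≤
      Real.sqrt (16 * Real.pi * ∫ n, w₁ n ^ 2 ∂sm) := by
  obtain ⟨k, hk0, hkK⟩ : ∃ k : ℝ, 0 ≤ k ∧ K ≤ k := ⟨max K 0, le_max_right _ _, le_max_left _ _⟩
  have hpi := Real.pi_pos
  refine ⟨k * (16 * Real.pi * k ^ 2 * (3 + k)), 2 * k + 1, ?_⟩
  intro s τ hs hτ hτs w w₁ q hw hw1 hq bw bq hle
  have hs1 : 1 ≤ s := by linarith
  have hs0 : 0 < s := by linarith
  have hKs : K / s ≤ k / s := div_le_div_of_nonneg_right hkK hs0.le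
  have bw' : ∀ n, |w n - s| ≤ k := fun n => (bw n).trans hkK
  have bq' : ∀ n, |q n - 1| ≤ k / s := fun n => (bq n).trans hKs
  have hks : k / s ≤ 1 := by
    rw [div_le_one hs0]
    linarith
  have hw0 : ∀ n, 0 ≤ w n := fun n => by
    have := (abs_le.1 (bw' n)).1
    linarith
  have hq0 : ∀ n, 0 ≤ q n := fun n => by
    have := (abs_le.1 (bq' n)).1
    linarith
  obtain ⟨A, hA⟩ : ∃ A : ℝ, A = ∫ n, w n ^ 2 ∂sm := ⟨_, rfl⟩
  obtain ⟨B, hB⟩ : ∃ B : ℝ, B = ∫ n, w₁ n ^ 2 ∂sm := ⟨_, rfl⟩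
  obtain ⟨P, hP⟩ : ∃ P : ℝ, P = ∫ n, q n * w n ∂sm := ⟨_, rfl⟩
  obtain ⟨Q, hQ⟩ : ∃ Q : ℝ, Q = ∫ n, q n ^ 2 ∂sm := ⟨_, rfl⟩
  obtain ⟨b, hb⟩ : ∃ b : ℝ, b = ∫ n, (w n - s) ∂sm := ⟨_, rfl⟩
  obtain ⟨V, hV⟩ : ∃ V : ℝ, V = ∫ n, (w n - s) ^ 2 ∂sm := ⟨_, rfl⟩
  obtain ⟨r, hr⟩ : ∃ r : ℝ, r = ∫ n, (q n - 1) ∂sm := ⟨_, rfl⟩
  obtain ⟨E, hE⟩ : ∃ E : ℝ, E = ∫ n, (q n - 1) * (w n - s) ∂sm := ⟨_, rfl⟩
  have int : ∀ {f : S2 → ℝ}, Continuous f → Integrable f sm := fun hf => Pool.Agent.Lib.PenroseSph.integrable_S2 hf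
  have eA : A = 4 * Real.pi * s ^ 2 + 2 * s * b + V := by
    have h1 : ∫ n, w n ^ 2 ∂sm = ∫ n, (s ^ 2 + 2 * s * (w n - s) + (w n - s) ^ 2) ∂sm :=
      integral_congr_ae (Filter.Eventually.of_forall fun n => by ring)
    rw [hA, h1, integral_add (int (by fun_prop)) (int (by fun_prop)), integral_add (int (by fun_prop)) (int (by fun_prop)),
      i2_const, integral_const_mul, hb, hV]
  have eP : P = 4 * Real.pi * s + b + s * r + E := by
    have h1 : ∫ n, q n * w n ∂sm = ∫ n, (s + (w n - s) + s * (q n - 1) + (q n - 1) * (w n - s)) ∂sm :=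
      integral_congr_ae (Filter.Eventually.of_forall fun n => by ring)
    rw [hP, h1, integral_add (int (by fun_prop)) (int (by fun_prop)), integral_add (int (by fun_prop)) (int (by fun_prop)),
      integral_add (int (by fun_prop)) (int (by fun_prop)), i2_const, integral_const_mul, hb, hr, hE]
  have eI : ∫ n, q n ∂sm = 4 * Real.pi + r := by
    have h1 : ∫ n, q n ∂sm = ∫ n, (1 + (q n - 1)) ∂sm :=
      integral_congr_ae (Filter.Eventually.of_forall fun n => by ring)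
    rw [h1, integral_add (int (by fun_prop)) (int (by fun_prop)), i2_const, hr]
    ring
  have hbV : b ^ 2 ≤ 4 * Real.pi * V := by
    have h1 : 0 ≤ ∫ n, ((w n - s) - b / (4 * Real.pi)) ^ 2 ∂sm := integral_nonneg fun n => sq_nonneg _
    have h2 : ∫ n, ((w n - s) - b / (4 * Real.pi)) ^ 2 ∂sm =
        ∫ n, ((w n - s) ^ 2 + (-2 * (b / (4 * Real.pi))) * (w n - s) + (b / (4 * Real.pi)) ^ 2) ∂sm :=
      integral_congr_ae (Filter.Eventually.of_forall fun n => by ring)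
    rw [h2, integral_add (int (by fun_prop)) (int (by fun_prop)), integral_add (int (by fun_prop)) (int (by fun_prop)),
      i2_const, integral_const_mul, ← hb, ← hV] at h1
    have h3 : V + -2 * (b / (4 * Real.pi)) * b + 4 * Real.pi * (b / (4 * Real.pi)) ^ 2 = V - b ^ 2 / (4 * Real.pi) := by
      field_simp
      ring
    rw [h3, sub_nonneg, div_le_iff₀ (by positivity)] at h1
    linarith
  obtain ⟨g, hg⟩ : ∃ g : ℝ, g = Real.sqrt (4 * Real.pi) := ⟨_, rfl⟩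
  have hg0 : 0 < g := by rw [hg]; positivity
  have hgg : g * g = 4 * Real.pi := by rw [hg]; exact Real.mul_self_sqrt (by positivity)
  obtain ⟨hA0, hmain⟩ := i2_real hpi hg0 hgg hk0 hs (hb ▸ i2_abs (by fun_prop) bw') (V := V)
    (by
      rw [hV]
      refine i2_le (by fun_prop) fun n => ?_
      rw [← sq_abs (w n - s)]
      exact pow_le_pow_left₀ (abs_nonneg _) (bw' n) 2)
    hbV (hr ▸ i2_abs (by fun_prop) bq') (E := E)
    (by
      rw [hE]
      refine i2_abs (by fun_prop) fun n => ?_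
      rw [abs_mul]
      calc |q n - 1| * |w n - s| ≤ k / s * k := mul_le_mul (bq' n) (bw' n) (abs_nonneg _) (by positivity)
        _ = k ^ 2 / s := by ring)
    eA eP eI
  -- the growth of the area
  have hBle : A + 2 * τ * P + τ ^ 2 * Q ≤ B := by
    have h1 : ∫ n, (w n + τ * q n) ^ 2 ∂sm ≤ B := by
      rw [hB]
      refine integral_mono (int (by fun_prop)) (int (by fun_prop)) fun n => ?_
      exact pow_le_pow_left₀ (add_nonneg (hw0 n) (mul_nonneg hτ (hq0 n))) (hle n) 2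
    have h2 : ∫ n, (w n + τ * q n) ^ 2 ∂sm = ∫ n, (w n ^ 2 + 2 * τ * (q n * w n) + τ ^ 2 * q n ^ 2) ∂sm :=
      integral_congr_ae (Filter.Eventually.of_forall fun n => by ring)
    rw [h2, integral_add (int (by fun_prop)) (int (by fun_prop)), integral_add (int (by fun_prop)) (int (by fun_prop)),
      integral_const_mul, integral_const_mul, ← hA, ← hP, ← hQ] at h1
    exact h1
  have hCS : P ^ 2 / A ≤ Q := by
    have h1 : 0 ≤ ∫ n, (q n - P / A * w n) ^ 2 ∂sm := integral_nonneg fun n => sq_nonneg _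
    have h2 : ∫ n, (q n - P / A * w n) ^ 2 ∂sm =
        ∫ n, (q n ^ 2 + (-2 * (P / A)) * (q n * w n) + (P / A) ^ 2 * w n ^ 2) ∂sm :=
      integral_congr_ae (Filter.Eventually.of_forall fun n => by ring)
    rw [h2, integral_add (int (by fun_prop)) (int (by fun_prop)), integral_add (int (by fun_prop)) (int (by fun_prop)),
      integral_const_mul, integral_const_mul, ← hA, ← hP, ← hQ] at h1
    have h3 : Q + -2 * (P / A) * P + (P / A) ^ 2 * A = Q - P ^ 2 / A := by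
      field_simp
      ring
    rw [h3] at h1
    linarith
  have hsA : 0 < Real.sqrt A := Real.sqrt_pos.2 hA0
  have hsB : Real.sqrt A + τ * (P / Real.sqrt A) ≤ Real.sqrt B := by
    refine (le_abs_self _).trans (Real.abs_le_sqrt ?_)
    have h1 : (Real.sqrt A + τ * (P / Real.sqrt A)) ^ 2 = A + 2 * τ * P + τ ^ 2 * (P ^ 2 / A) := by
      have h2 : Real.sqrt A ^ 2 = A := Real.sq_sqrt hA0.le
      field_simp
      rw [h2]
      ring
    rw [h1]
    have h3 : τ ^ 2 * (P ^ 2 / A) ≤ τ ^ 2 * Q := mul_le_mul_of_nonneg_left hCS (sq_nonneg τ)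
    linarith
  have e16 : ∀ x : ℝ, 0 ≤ x → Real.sqrt (16 * Real.pi * x) = 2 * g * Real.sqrt x := by
    intro x hx
    have h1 : 16 * Real.pi * x = (2 * g) ^ 2 * x := by
      have : (2 * g) ^ 2 = 4 * (g * g) := by ring
      rw [this, hgg]
      ring
    rw [h1, Real.sqrt_mul (sq_nonneg _), Real.sqrt_sq (by positivity)]
  have hB0 : 0 ≤ B := by
    rw [hB]
    exact integral_nonneg fun n => sq_nonneg _
  rw [← hA, ← hB, e16 A hA0.le, e16 B hB0, eI]
  have h1 : 2 * g * (Real.sqrt A + τ * (P / Real.sqrt A)) ≤ 2 * g * Real.sqrt B :=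
    mul_le_mul_of_nonneg_left hsB (by positivity)
  have h2 : 2 * (4 * Real.pi + r) - 16 * Real.pi * k ^ 2 * (3 + k) / s ^ 2 ≤ 2 * g * (P / Real.sqrt A) := by
    rw [eI] at hmain
    rw [← mul_div_assoc, le_div_iff₀ hsA]
    exact hmain
  have h3 := mul_le_mul_of_nonneg_left h2 hτ
  have h4 : τ * (16 * Real.pi * k ^ 2 * (3 + k) / s ^ 2) ≤ k * (16 * Real.pi * k ^ 2 * (3 + k)) / s := by
    have h5 : τ ≤ k * s := hτs.trans (mul_le_mul_of_nonneg_right hkK hs0.le)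
    have h6 : k * s * (16 * Real.pi * k ^ 2 * (3 + k) / s ^ 2) = k * (16 * Real.pi * k ^ 2 * (3 + k)) / s := by
      field_simp
    rw [← h6]
    exact mul_le_mul_of_nonneg_right h5 (by positivity)
  nlinarith

end H17Y
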