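import Pool.Agent.Lib.H17Y.I1
import Pool.Agent.Lib.H17Y.I2

set_option autoImplicit false

/-!
# H17Y, chunk I3 (S/M): the pure inequality

Combine: `h4`, `h2`, `i2`, `i1`. `sqrt(16π∫w₀²) - ThN ≤ sqrt(16π∫w₁²) - 2τ∫q + K'/s - ThN`; `- ThN ≤ - Th0 + 2∫α w₀ ((1+u) sqrt J - q)` (`h0`, `hN`), `- Th0 ≤ - Th1 + 8πτ` (`h2`), `8πτ - 2τ∫q = 2τ∫(1-q)` (`sm_univ`), `i1`; sum `≤ sqrt(16π∫w₁²) - Th1 + 2(s+τ)∫(1-q) + ... ≤ 16πm + ...` (`h4`).
The second part is the second part of `i1` and `hN`.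
Auxiliary names start with `i3_`.
-/

open MeasureTheory Filter Topology Set Asymptotics
open scoped ContDiff

namespace H17Y

open H17W
open H17T (E4 pt pos tang slice second DEC)
open H17B (eta dl)
open Pool.Agent.Lib.PenroseSph (E3 Tens S2 sm pd)


theorem i3 (K m : ℝ) : ∃ K' R : ℝ, ∀ s τ : ℝ, R ≤ s → 0 < τ → τ ≤ K * s → ∀ α J u w₀ w₁ q : S2 → ℝ, ∀ ThN Th0 Th1 : ℝ,
    Continuous α → Continuous J → Continuous u → Continuous w₀ → Continuous w₁ → Continuous q →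
    (∀ n, |α n - 1| ≤ K / s) → (∀ n, |J n - 1| ≤ K / s) → (∀ n, 0 ≤ u n) → (∀ n, |w₀ n - s| ≤ K) →
    (∀ n, |q n - 1| ≤ K / s) → ∫ n, J n ∂sm = 4 * Real.pi → (∀ n, w₀ n + τ * q n ≤ w₁ n) →
    Th0 = 2 * ∫ n, α n * w₀ n * ((1 + u n) * Real.sqrt (J n)) ∂sm → 2 * (∫ n, α n * q n * w₀ n ∂sm) ≤ ThN →
    Th1 ≤ Th0 + 8 * Real.pi * τ →
    |Real.sqrt (16 * Real.pi * ∫ n, w₁ n ^ 2 ∂sm) - Th1 + 2 * (s + τ) * (∫ n, (1 - q n) ∂sm) - 16 * Real.pi * m| ≤ K / s →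
    Real.sqrt (16 * Real.pi * ∫ n, w₀ n ^ 2 ∂sm) - ThN ≤ 16 * Real.pi * m + K' / s + (2 * s + K') * (∫ n, J n * u n ∂sm) ∧
      8 * Real.pi * s - K' ≤ ThN := by
  obtain ⟨K₁, R₁, h1⟩ := i1 K
  obtain ⟨K₂, R₂, h2⟩ := i2 K
  refine ⟨|K| + |K₁| + |K₂|, max (max R₁ R₂) (|K| + 1), ?_⟩
  intro s τ hs hτ hτs α J u w₀ w₁ q ThN Th0 Th1 hα hJ hu hw0 hw1 hq bα bJ bu bw bq hJ4 hle h0 hN h01 h4
  have hs1 : R₁ ≤ s := (le_max_left _ _).trans ((le_max_left _ _).trans hs)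
  have hs2 : R₂ ≤ s := (le_max_right _ _).trans ((le_max_left _ _).trans hs)
  have hs3 : |K| + 1 ≤ s := (le_max_right _ _).trans hs
  have hK := le_abs_self K
  have hK0 := abs_nonneg K
  have hK1 := le_abs_self K₁
  have hK10 := abs_nonneg K₁
  have hK2 := le_abs_self K₂
  have hK20 := abs_nonneg K₂
  have hs0 : 0 < s := by linarith
  have int : ∀ {f : S2 → ℝ}, Continuous f → Integrable f sm := fun hf => Pool.Agent.Lib.PenroseSph.integrable_S2 hf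
  obtain ⟨a1, a2⟩ := h1 s hs1 α J u w₀ q hα hJ hu hw0 hq bα bJ bu bw bq hJ4
  have a3 := h2 s τ hs2 hτ.le hτs w₀ w₁ q hw0 hw1 hq bw bq hle
  have hJu : 0 ≤ ∫ n, J n * u n ∂sm := by
    refine integral_nonneg fun n => mul_nonneg ?_ (bu n)
    have h5 := (abs_le.1 (bJ n)).1
    have h6 : K / s ≤ 1 := by
      rw [div_le_one hs0]
      linarith
    linarith
  have e1 : 2 * ∫ n, α n * w₀ n * ((1 + u n) * Real.sqrt (J n) - q n) ∂sm = Th0 - 2 * ∫ n, α n * q n * w₀ n ∂sm := by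
    have h5 : ∫ n, α n * w₀ n * ((1 + u n) * Real.sqrt (J n) - q n) ∂sm =
        ∫ n, (α n * w₀ n * ((1 + u n) * Real.sqrt (J n)) - α n * q n * w₀ n) ∂sm :=
      integral_congr_ae (Filter.Eventually.of_forall fun n => by ring)
    rw [h5, integral_sub (int (by fun_prop)) (int (by fun_prop)), h0]
    ring
  have e2 : ∫ n, (1 - q n) ∂sm = 4 * Real.pi - ∫ n, q n ∂sm := by
    rw [integral_sub (int (by fun_prop)) (int hq), i2_const]
    ring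
  rw [e1] at a1
  have h5 := (abs_le.1 h4).2
  constructor
  · have h6 : (|K| + |K₁| + |K₂|) / s = |K| / s + |K₁| / s + |K₂| / s := by ring
    have h7 : K / s ≤ |K| / s := div_le_div_of_nonneg_right hK hs0.le
    have h8 : K₁ / s ≤ |K₁| / s := div_le_div_of_nonneg_right hK1 hs0.le
    have h9 : K₂ / s ≤ |K₂| / s := div_le_div_of_nonneg_right hK2 hs0.le
    have h10 : (2 * s + K₁) * (∫ n, J n * u n ∂sm) ≤ (2 * s + (|K| + |K₁| + |K₂|)) * (∫ n, J n * u n ∂sm) :=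
      mul_le_mul_of_nonneg_right (by linarith) hJu
    rw [h6]
    have h11 : 2 * (s + τ) * (∫ n, (1 - q n) ∂sm) = 2 * s * (∫ n, (1 - q n) ∂sm) + 8 * Real.pi * τ - 2 * τ * ∫ n, q n ∂sm := by
      rw [e2]
      ring
    rw [h11] at h5
    linarith
  · linarith

end H17Y
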