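import Pool.Agent.Lib.H17Y.ZC
import Pool.Agent.Lib.H17W.Main

set_option autoImplicit false

/-!
# H17Y: the main theorem
-/

open MeasureTheory Filter Topology Set
open scoped ContDiff

namespace H17Y

open H17W
open H17T (E4 pt pos tang slice second DEC)
open H17B (lor boost)
open Pool.Agent.Lib.PenroseSph (E3 Tens S2 sm pd admFlux admMom)

variable {U : Set E4} {G : E4 → Matrix (Fin 4) (Fin 4) ℝ} {f : E3 → ℝ} {g h : Tens} {Om : Set E3} {ε m β : ℝ} {Ψ : ℝ × E3 → E4}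

/-- The inequality for the mass along the hypersurface. -/
theorem main_mass (hG : SpaceTime U G) (hX : Exterior U G f Om) (hh : ∀ x : E3, x ∉ Om → h x = ε • second G f x)
    (hN : NullCone U G Ψ) (hO : Outer G f h Om ε Ψ) (hF : ConeFlat ε Ψ) (hM : ConeMink G Ψ) (hA : AsympSchw G f m β)
    (hL : Linked U G ε m Ψ) : 0 < m ∧ Real.sqrt (area G Ψ 0 / (16 * Real.pi)) ≤ m := by
  have hpi := Real.pi_pos
  have h0 : ∀ n : S2, gen Ψ 0 n 0 ≠ 0 := fun n hn => by
    have := hO.time n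
    rw [hn, mul_zero] at this
    exact lt_irrefl _ this
  obtain ⟨W, hR⟩ := H17W.reg_of hG hN h0
  have hW : ∀ s : ℝ, 0 ≤ s → ∀ n : S2, (s, (n : E3)) ∈ W := fun s hs n =>
    hR.mem s hs n (fun h => by
      have := norm_eq_of_mem_sphere n
      rw [h, norm_zero] at this
      norm_num at this)
  obtain ⟨ψ, hc⟩ := cut_exists hR.isOpen hW
  have hD := data_isNull hG hN hR hc
  have hFl := H17Y.data_flat hR hc hF hM
  obtain ⟨m', hm', hT⟩ := zc hG hN hR hO.sign hF hM hL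
  have hB : (data G Ψ ψ).BondiEnergy m' := by
    refine hT.congr' ?_
    filter_upwards [eventually_ge_atTop (0 : ℝ)] with s hs
    have e1 : ∫ n : S2, dA G Ψ (s, (n : E3)) ∂sm = (data G Ψ ψ).area s := by
      refine integral_congr_ae (Eventually.of_forall fun n => ?_)
      show dA G Ψ (s, (n : E3)) = (data G Ψ ψ).dA s n
      rw [data_dA hR hc hs n]
    have e2 : ∫ n : S2, tht G Ψ (s, (n : E3)) * dA G Ψ (s, (n : E3)) ∂sm =
        ∫ n : NullPen.S2, (data G Ψ ψ).θ s n * (data G Ψ ψ).dA s n ∂NullPen.sm := by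
      refine integral_congr_ae (Eventually.of_forall fun n => ?_)
      show tht G Ψ (s, (n : E3)) * dA G Ψ (s, (n : E3)) = ψ (s, (n : E3)) * tht G Ψ (s, (n : E3)) * (data G Ψ ψ).dA s n
      rw [data_dA hR hc hs n, cut_eq hc hs n, one_mul]
    rw [e1, e2]
  have hθ : ∀ n : S2, (data G Ψ ψ).θ 0 n ≤ 0 := fun n => by
    have h1 : (data G Ψ ψ).θ 0 n = ψ (0, (n : E3)) * tht G Ψ (0, (n : E3)) := rfl
    rw [h1, cut_eq hc le_rfl n, one_mul]
    exact start_tht hG hX hN hO hA hR hh n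
  have h1 := H17S.mainG.2.1 (data G Ψ ψ) hD hFl hθ m' hB
  have h2 : 0 < area G Ψ 0 := by
    rw [data_area hN hR hc]
    exact NullU.area_pos hD
  rw [data_area hN hR hc] at h2 ⊢
  exact ⟨(lt_of_lt_of_le (Real.sqrt_pos.2 (by positivity)) h1).trans_le hm', h1.trans hm'⟩

/-- The main theorem. -/
theorem main (hG : SpaceTime U G) (hX : Exterior U G f Om) (hg : ∀ x : E3, x ∉ Om → g x = slice G f x)
    (hh : ∀ x : E3, x ∉ Om → h x = ε • second G f x) (hN : NullCone U G Ψ) (hO : Outer G f h Om ε Ψ) (hF : ConeFlat ε Ψ)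
    (hM : ConeMink G Ψ) (hA : AsympSchw G f m β) (hL : Linked U G ε m Ψ) :
    ∃ (E : ℝ) (P : Fin 3 → ℝ), Tendsto (admFlux (boost β g)) atTop (𝓝 E) ∧
      (∀ i, Tendsto (admMom (boost β g) (boost β h) i) atTop (𝓝 (P i))) ∧ ∑ i, P i ^ 2 = β ^ 2 * E ^ 2 ∧
      Real.sqrt (∑ i, P i ^ 2) < E ∧ Real.sqrt (area G Ψ 0 / (16 * Real.pi)) ≤ Real.sqrt (E ^ 2 - ∑ i, P i ^ 2) := by
  obtain ⟨hm0, h1⟩ := main_mass hG hX hh hN hO hF hM hA hL
  obtain ⟨hE, P, hP, hPs⟩ := adm hG hX hA hO.sign hg hh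
  have hb : β ^ 2 < 1 := by
    have := hA.beta
    rw [← sq_abs]
    have h0 := abs_nonneg β
    nlinarith
  have hs : 0 < 1 - β ^ 2 := by linarith
  have hl : lor β ^ 2 * (1 - β ^ 2) = 1 := by
    unfold lor
    rw [div_pow, one_pow, Real.sq_sqrt hs.le, one_div, inv_mul_cancel₀ hs.ne']
  have hl0 : 0 < lor β := by
    unfold lor
    exact div_pos one_pos (Real.sqrt_pos.2 hs)
  have hE0 : 0 < lor β * m := mul_pos hl0 hm0
  refine ⟨lor β * m, P, hE, hP, hPs, ?_, ?_⟩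
  · rw [hPs]
    refine (Real.sqrt_lt' hE0).2 ?_
    have : 0 < (lor β * m) ^ 2 := by positivity
    nlinarith
  · have h2 : (lor β * m) ^ 2 - ∑ i, P i ^ 2 = m ^ 2 := by
      rw [hPs]
      linear_combination m ^ 2 * hl
    rw [h2, Real.sqrt_sq hm0.le]
    exact h1

end H17Y
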