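import Pool.Agent.Lib.H17Y.E0
import Pool.Agent.Lib.H17W.EB

set_option autoImplicit false

/-!
# H17Y, chunk N2 (M): the area radius on the light cone

As in `H17W.EB` (proof of `bondi`) and `H17W.E9A`, `E9B`: `e9a` for fixed `n` with `a = dA(·, n)`, `e = exl(·, n)`: `j_area`, `e3_det`, `hC`: `Os.global` of `H17Y.e3_dA` (for `FarM`), `he`: `ray`, `chi_cs`, `ee_nonneg` (all in namespace `H17W`, for `Reg`; see `data_bondi` in `H17W.D4E`).
`e9a` gives (a), `0 ≤ s u ≤ 4 C` for `s ≥ 2` and `s u → 0` for every `n`, `u = exl w / 2 - 1`. Dominated convergence on the sphere (`tendsto_integral_filter_of_dominated_convergence`, constants are integrable) gives (c). (d): for fixed `n`, `w(s) - s` is nondecreasing for `s ≥ 2` (`e9a_r`: its derivative is `u ≥ 0`) and bounded, so it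
converges (`tendsto_atTop_ciSup`); its limit `β(n)` is bounded and measurable (limit of continuous functions), and by dominated convergence `∫ (w - s) → ∫ β`. `16 π ∫ w² = 64 π² s² + 32 π s ∫ (w-s) + 16 π ∫ (w-s)²`, so `sqrt (16 π ∫ dA) - 8 π s = (16π ∫ w² - 64 π² s²)/(sqrt(16 π ∫ w²) + 8 π s) → 2 ∫ β`.
Auxiliary names start with `n2_`.
-/

open MeasureTheory Filter Topology Set Asymptotics
open scoped ContDiff

namespace H17Y

open H17W
open H17T (E4 pt pos tang slice second DEC)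
open H17B (eta dl)
open Pool.Agent.Lib.PenroseSph (E3 Tens S2 sm pd)

variable {U : Set E4} {G : E4 → Matrix (Fin 4) (Fin 4) ℝ} {ε : ℝ} {Ψ : ℝ × E3 → E4} {W : Set (ℝ × E3)}

theorem n2_pure {a e : ℝ → S2 → ℝ} {C : ℝ} (ha : ∀ s, 0 < s → ∀ n, HasDerivAt (fun t => a t n) (e s n * a s n) s)
    (hpos : ∀ s, 0 < s → ∀ n, 0 < a s n)
    (he : ∀ s, 0 < s → ∀ n, ∃ e' : ℝ, HasDerivAt (fun t => e t n) e' s ∧ e' ≤ -(e s n ^ 2 / 2))
    (hca : ∀ s, 0 < s → Continuous (a s)) (hce : ∀ s, 0 < s → Continuous (e s))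
    (hC : ∀ s, 1 ≤ s → ∀ n, |a s n - s ^ 2| ≤ C * s) :
    (∀ s, 1 ≤ s → ∀ n, |Real.sqrt (a s n) - s| ≤ C) ∧ (∀ s, 2 ≤ s → ∀ n, 0 ≤ e s n * Real.sqrt (a s n) / 2 - 1) ∧
    Tendsto (fun s => s * ∫ n, (e s n * Real.sqrt (a s n) / 2 - 1) ∂sm) atTop (𝓝 0) ∧
    ∃ L : ℝ, Tendsto (fun s => Real.sqrt (16 * Real.pi * ∫ n, a s n ∂sm) - 8 * Real.pi * s) atTop (𝓝 L) := by
  have hpi := Real.pi_pos
  have h9 := fun n => e9a (a := fun t => a t n) (e := fun t => e t n) (C := C) (fun s hs => ha s hs n)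
    (fun s hs => hpos s hs n) (fun s hs => he s hs n) (fun s hs => hC s hs n)
  have hC0 : 0 ≤ C := by
    have n0 : S2 := ⟨EuclideanSpace.single 0 1, by simp⟩
    have h := (h9 n0).1 1 le_rfl
    exact (abs_nonneg _).trans h
  set c : ℝ → S2 → ℝ := fun s n => Real.sqrt (a s n) - s with hc
  set d : ℝ → S2 → ℝ := fun s n => e s n * Real.sqrt (a s n) / 2 - 1 with hd
  have hcb : ∀ s, 1 ≤ s → ∀ n, |c s n| ≤ C := fun s hs n => (h9 n).1 s hs
  have hdb : ∀ s, 2 ≤ s → ∀ n, 0 ≤ s * d s n ∧ s * d s n ≤ 4 * C := fun s hs n => (h9 n).2.1 s hs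
  have hd0 : ∀ s, 2 ≤ s → ∀ n, 0 ≤ d s n := fun s hs n => by
    have h1 := (hdb s hs n).1
    exact nonneg_of_mul_nonneg_right h1 (by linarith)
  have hdl : ∀ n, Tendsto (fun s => s * d s n) atTop (𝓝 0) := fun n => (h9 n).2.2
  have hcr : ∀ s, 0 < s → Continuous fun n => Real.sqrt (a s n) := fun s hs => (hca s hs).sqrt
  have hcc : ∀ s, 0 < s → Continuous (c s) := fun s hs => (hcr s hs).sub continuous_const
  have hcd : ∀ s, 0 < s → Continuous (d s) := fun s hs => (((hce s hs).mul (hcr s hs)).div_const 2).sub continuous_const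
  have hint := fun {f : S2 → ℝ} (hf : Continuous f) => Pool.Agent.Lib.PenroseSph.integrable_S2 hf
  have hconst : ∀ K : ℝ, ∫ _n : S2, K ∂sm = K * (4 * Real.pi) := by
    intro K
    rw [integral_const, Pool.Agent.Lib.PenroseSph.sm_univ, smul_eq_mul, mul_comm]
  have hDl : Tendsto (fun s => s * ∫ n, d s n ∂sm) atTop (𝓝 0) := by
    have h1 := tendsto_integral_filter_of_dominated_convergence (μ := (sm : Measure S2)) (l := (atTop : Filter ℝ))
      (F := fun s n => s * d s n) (f := fun _ => (0 : ℝ)) (fun _ => 4 * C) ?_ ?_ ?_ ?_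
    · simpa [integral_const_mul] using h1
    · filter_upwards [eventually_gt_atTop 0] with s hs
      exact (continuous_const.mul (hcd s hs)).aestronglyMeasurable
    · filter_upwards [eventually_ge_atTop 2] with s hs
      refine Eventually.of_forall fun n => ?_
      obtain ⟨h1, h2⟩ := hdb s hs n
      rw [Real.norm_eq_abs, abs_of_nonneg h1]
      exact h2
    · exact hint continuous_const
    · exact Eventually.of_forall fun n => hdl n
  -- the integral of `c` converges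
  set J : ℝ → ℝ := fun s => ∫ n, c s n ∂sm with hJ
  have hmono : ∀ s t : ℝ, 2 ≤ s → s ≤ t → J s ≤ J t := by
    intro s t hs hst
    refine integral_mono (hint (hcc s (by linarith))) (hint (hcc t (by linarith))) fun n => ?_
    have hderiv : ∀ x, 0 < x → HasDerivAt (fun x => c x n) (d x n) x := fun x hx =>
      (e9a_r (a := fun t => a t n) (e := fun t => e t n) (fun s hs => ha s hs n) (fun s hs => hpos s hs n) hx).sub
        (hasDerivAt_id x)
    have hM : MonotoneOn (fun x => c x n) (Icc s t) := by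
      refine monotoneOn_of_deriv_nonneg (convex_Icc s t) ?_ ?_ ?_
      · exact fun x hx => (hderiv x (by linarith [hx.1])).continuousAt.continuousWithinAt
      · intro x hx
        have hx' := interior_subset hx
        exact (hderiv x (by linarith [hx'.1])).differentiableAt.differentiableWithinAt
      · intro x hx
        have hx' := interior_subset hx
        rw [(hderiv x (by linarith [hx'.1])).deriv]
        exact hd0 x (by linarith [hx'.1]) n
    exact hM ⟨le_rfl, hst⟩ ⟨hst, le_rfl⟩ hst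
  obtain ⟨L, hL⟩ : ∃ L : ℝ, Tendsto J atTop (𝓝 L) := by
    have hm : Monotone fun s => J (max s 2) := fun s t hst => hmono _ _ (le_max_right _ _) (max_le_max hst le_rfl)
    have hb : BddAbove (range fun s => J (max s 2)) := ⟨C * (4 * Real.pi), by
      rintro _ ⟨s, rfl⟩
      have h1 : |J (max s 2)| ≤ C * (4 * Real.pi) := e9b_int (hcb _ (by linarith [le_max_right s 2]))
      exact (abs_le.1 h1).2⟩
    refine ⟨_, (tendsto_atTop_ciSup hm hb).congr' ?_⟩
    filter_upwards [eventually_ge_atTop 2] with s hs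
    rw [max_eq_left hs]
  refine ⟨hcb, hd0, hDl, 2 * L, ?_⟩
  have hB := e9b (m := 0) ha hpos he hca hce hC
  have hF : Tendsto (fun s => ∫ n, Real.sqrt (a s n) * d s n ∂sm) atTop (𝓝 0) := by
    refine squeeze_zero' (g := fun s => (1 + C) * (s * ∫ n, d s n ∂sm)) ?_ ?_ ?_
    · filter_upwards [eventually_ge_atTop 2] with s hs
      exact integral_nonneg fun n => mul_nonneg (Real.sqrt_nonneg _) (hd0 s hs n)
    · filter_upwards [eventually_ge_atTop 2] with s hs
      have hs0 : 0 < s := by linarith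
      rw [← integral_const_mul, ← integral_const_mul]
      refine integral_mono (hint ((hcr s hs0).mul (hcd s hs0))) (hint (continuous_const.mul (continuous_const.mul (hcd s hs0))))
        fun n => ?_
      show Real.sqrt (a s n) * d s n ≤ (1 + C) * (s * d s n)
      have h1 := (abs_le.1 (hcb s (by linarith) n)).2
      have h2 : Real.sqrt (a s n) ≤ (1 + C) * s := by
        have : Real.sqrt (a s n) = c s n + s := by simp [hc]
        rw [this]
        nlinarith
      calc Real.sqrt (a s n) * d s n ≤ (1 + C) * s * d s n := mul_le_mul_of_nonneg_right h2 (hd0 s hs n)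
        _ = (1 + C) * (s * d s n) := by ring
    · have := hDl.const_mul (1 + C)
      rwa [mul_zero] at this
  have h5 := (hB.add (hF.const_mul 2)).add (hL.const_mul 2)
  have e0 : 16 * Real.pi * 0 + 2 * 0 + 2 * L = 2 * L := by ring
  rw [e0] at h5
  refine h5.congr' ?_
  filter_upwards [eventually_gt_atTop 0] with s hs
  have h6 : ∫ n, (1 - 2 * 0 / s) * e s n * a s n ∂sm = 8 * Real.pi * s + 2 * J s +
      2 * ∫ n, Real.sqrt (a s n) * d s n ∂sm := by
    have h7 : ∀ n, (1 - 2 * 0 / s) * e s n * a s n = 2 * s + 2 * c s n + 2 * (Real.sqrt (a s n) * d s n) := by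
      intro n
      have h4 : Real.sqrt (a s n) * Real.sqrt (a s n) = a s n := Real.mul_self_sqrt (hpos s hs n).le
      show (1 - 2 * 0 / s) * e s n * a s n = 2 * s + 2 * (Real.sqrt (a s n) - s) +
        2 * (Real.sqrt (a s n) * (e s n * Real.sqrt (a s n) / 2 - 1))
      rw [mul_zero, zero_div, sub_zero]
      linear_combination (-e s n) * h4
    have i1 : Integrable (fun _ : S2 => 2 * s) sm := hint continuous_const
    have i2 : Integrable (fun n : S2 => 2 * c s n) sm := hint (continuous_const.mul (hcc s hs))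
    have i3 : Integrable (fun n : S2 => 2 * (Real.sqrt (a s n) * d s n)) sm :=
      hint (continuous_const.mul ((hcr s hs).mul (hcd s hs)))
    have i12 : Integrable (fun n : S2 => 2 * s + 2 * c s n) sm := i1.add i2
    have j2 : ∫ n, 2 * c s n ∂sm = 2 * J s := integral_const_mul _ _
    rw [integral_congr_ae (Eventually.of_forall h7), integral_add i12 i3, integral_add i1 i2, hconst, j2, integral_const_mul]
    ring
  rw [h6]
  ring

theorem n2_all (hN : NullCone U G Ψ) (hR : Reg G Ψ W) (hF : ConeFlat ε Ψ) (hM : ConeMink G Ψ) :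
    ∃ C : ℝ, (∀ s : ℝ, 1 ≤ s → ∀ n : S2, |Real.sqrt (dA G Ψ (s, (n : E3))) - s| ≤ C) ∧
    (∀ s : ℝ, 2 ≤ s → ∀ n : S2, 0 ≤ exl G Ψ (s, (n : E3)) * Real.sqrt (dA G Ψ (s, (n : E3))) / 2 - 1) ∧
    Tendsto (fun s : ℝ => s * ∫ n : S2, (exl G Ψ (s, (n : E3)) * Real.sqrt (dA G Ψ (s, (n : E3))) / 2 - 1) ∂sm) atTop (𝓝 0) ∧
    ∃ L : ℝ, Tendsto (fun s : ℝ => Real.sqrt (16 * Real.pi * ∫ n : S2, dA G Ψ (s, (n : E3)) ∂sm) - 8 * Real.pi * s) atTop
      (𝓝 L) := by
  have hFar : FarM G Ψ W ε := ⟨hR, hF, hM⟩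
  have hmem : ∀ s : ℝ, 0 < s → ∀ n : S2, (s, (n : E3)) ∈ W := fun s hs n => hR.mem s hs.le n (eb_ne n)
  have cdA : ∀ s : ℝ, 0 < s → Continuous fun n : S2 => dA G Ψ (s, (n : E3)) := fun s hs =>
    eb_cont fun n => (j_dA hR (hmem s hs n)).continuousAt
  have cex : ∀ s : ℝ, 0 < s → Continuous fun n : S2 => exl G Ψ (s, (n : E3)) := fun s hs =>
    eb_cont fun n => (j_exl hR (hmem s hs n)).continuousAt
  obtain ⟨C, hC0, hC⟩ := (e3_dA hFar).global (fun s hs n => by
    have hs0 : 0 < s := lt_of_lt_of_le one_pos hs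
    exact (j_dA hR (hmem s hs0 n)).continuousAt.sub (continuousAt_fst.pow 2))
  refine ⟨C, n2_pure (a := fun s n => dA G Ψ (s, (n : E3))) (e := fun s n => exl G Ψ (s, (n : E3)))
    (fun s hs n => j_area hR hs (eb_ne n))
    (fun s hs n => Real.sqrt_pos.mpr (e3_det hR hs.le (eb_ne n)))
    (fun s hs n => ⟨_, eq_ds ((j_exl hR (hmem s hs n)).differentiableAt (by simp)), ?_⟩)
    cdA cex
    (fun s hs n => by
      have := hC s hs n
      rw [zpow_one] at this
      exact this)⟩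
  have g1 := H17W.ray hR hs.le (d3d_ne n)
  have g2 := H17W.chi_cs hR hs.le (d3d_ne n)
  have g3 := H17W.ee_nonneg hN hR hs.le n
  rw [g1]
  linarith

theorem n2_w (hG : SpaceTime U G) (hN : NullCone U G Ψ) (hR : Reg G Ψ W) (hF : ConeFlat ε Ψ) (hM : ConeMink G Ψ) :
    ∃ C : ℝ, (∀ s : ℝ, 1 ≤ s → ∀ n : S2, |Real.sqrt (dA G Ψ (s, (n : E3))) - s| ≤ C) ∧
    (∀ s : ℝ, 2 ≤ s → ∀ n : S2, 0 ≤ exl G Ψ (s, (n : E3)) * Real.sqrt (dA G Ψ (s, (n : E3))) / 2 - 1) := by
  obtain ⟨C, h1, h2, _⟩ := n2_all hN hR hF hM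
  exact ⟨C, h1, h2⟩

theorem n2_u (hG : SpaceTime U G) (hN : NullCone U G Ψ) (hR : Reg G Ψ W) (hF : ConeFlat ε Ψ) (hM : ConeMink G Ψ) :
    Tendsto (fun s : ℝ => s * ∫ n : S2, (exl G Ψ (s, (n : E3)) * Real.sqrt (dA G Ψ (s, (n : E3))) / 2 - 1) ∂sm) atTop (𝓝 0) := by
  obtain ⟨C, _, _, h3, _⟩ := n2_all hN hR hF hM
  exact h3

theorem n2_lim (hG : SpaceTime U G) (hN : NullCone U G Ψ) (hR : Reg G Ψ W) (hF : ConeFlat ε Ψ) (hM : ConeMink G Ψ) :
    ∃ L : ℝ, Tendsto (fun s : ℝ => Real.sqrt (16 * Real.pi * ∫ n : S2, dA G Ψ (s, (n : E3)) ∂sm) - 8 * Real.pi * s) atTop (𝓝 L) := by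
  obtain ⟨C, _, _, _, h4⟩ := n2_all hN hR hF hM
  exact h4

end H17Y
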