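import Pool.Agent.Lib.H17Y.E0
import Pool.Agent.Lib.H17Y.B4C

set_option autoImplicit false

/-!
# H17Y, chunk P1 (M): concavity of the area radius along a finite piece

For fixed `n` put `w(t) = sqrt (dA (t,n))`, `g(t) = exl(t,n) w(t) / 2`. `PP_det`: `dA > 0`. `dA_ds` (H17Y.B3): the derivative of `dA` in the direction `dS` at `(t, n)`, `t ∈ [0,T]`, is `exl dA` (the points are interior points of `W`), so `w' = g` on `[0,T]` (`d4d_dt`).
`g' = (w/2)(exl' + exl²/2) ≤ 0` on `[0,T]`: `ray` (H17Y.B4C) `exl' = -|chi|² - ee`, `chi_cs` `exl² / 2 ≤ |chi|²`, `ee_nonneg` (H17Y.D2B); compare `data_bondi` in `H17W.D4E`. So `g` is antitone on `[0,T]` (`antitoneOn_of_deriv_nonpos`) and `w(T) - w(0) ≥ T g(T)` (mean value theorem or monotonicity of `w(t) - t g(T)`).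
Auxiliary names start with `p1_`.
-/

open MeasureTheory Filter Topology Set Asymptotics
open scoped ContDiff

namespace H17Y

open H17W
open H17T (E4 pt pos tang slice second DEC)
open H17B (eta dl)
open Pool.Agent.Lib.PenroseSph (E3 Tens S2 sm pd)

variable {U : Set E4} {G : E4 → Matrix (Fin 4) (Fin 4) ℝ} {Φ : ℝ × E3 → E4} {W : Set (ℝ × E3)} {T : ℝ}

theorem p1_dA (hR : RegI G Φ W (Icc 0 T)) (n : S2) {t : ℝ} (ht : t ∈ Icc 0 T) : 0 < dA G Φ (t, (n : E3)) :=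
  Real.sqrt_pos.2 (PP_det hR (hR.mem t ht n (d3d_ne n)))

theorem p1_dw (hR : RegI G Φ W (Icc 0 T)) (n : S2) {t : ℝ} (ht : t ∈ Icc 0 T) :
    HasDerivAt (fun t : ℝ => Real.sqrt (dA G Φ (t, (n : E3))))
      (exl G Φ (t, (n : E3)) * Real.sqrt (dA G Φ (t, (n : E3))) / 2) t := by
  have hm := hR.mem t ht n (d3d_ne n)
  have h1 := d4d_dt (dA_smooth hR hm)
  rw [dA_ds hR ht (d3d_ne n)] at h1
  have h0 := p1_dA hR n ht
  refine (h1.sqrt h0.ne').congr_deriv ?_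
  have hw : 0 < Real.sqrt (dA G Φ (t, (n : E3))) := Real.sqrt_pos.2 h0
  have h2 := Real.mul_self_sqrt h0.le
  field_simp
  rw [pow_two, h2]

theorem p1_dg (hN : NullPiece U G T Φ) (hR : RegI G Φ W (Icc 0 T)) (n : S2) {t : ℝ} (ht : t ∈ Icc 0 T) :
    ∃ d : ℝ, d ≤ 0 ∧ HasDerivAt (fun t : ℝ => exl G Φ (t, (n : E3)) * Real.sqrt (dA G Φ (t, (n : E3))) / 2) d t := by
  have hm := hR.mem t ht n (d3d_ne n)
  have h1 := d4d_dt (exl_smooth hR hm)
  have h2 := (h1.mul (p1_dw hR n ht)).div_const 2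
  refine ⟨_, ?_, h2⟩
  have g1 := ray hR ht (d3d_ne n)
  have g2 := chi_cs hR ht (d3d_ne n)
  have g3 := ee_nonneg hN hR ht n
  have hw : 0 ≤ Real.sqrt (dA G Φ (t, (n : E3))) := Real.sqrt_nonneg _
  have g4 : fderiv ℝ (exl G Φ) (t, (n : E3)) dS + exl G Φ (t, (n : E3)) ^ 2 / 2 ≤ 0 := by
    rw [g1]
    linarith
  have e1 : (fderiv ℝ (exl G Φ) (t, (n : E3)) dS * Real.sqrt (dA G Φ (t, (n : E3))) +
      exl G Φ (t, (n : E3)) * (exl G Φ (t, (n : E3)) * Real.sqrt (dA G Φ (t, (n : E3))) / 2)) / 2 =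
      (fderiv ℝ (exl G Φ) (t, (n : E3)) dS + exl G Φ (t, (n : E3)) ^ 2 / 2) * Real.sqrt (dA G Φ (t, (n : E3))) / 2 := by
    ring
  rw [e1]
  have := mul_nonpos_of_nonpos_of_nonneg g4 hw
  linarith

theorem p1_w (hN : NullPiece U G T Φ) (hR : RegI G Φ W (Icc 0 T)) (hT : 0 < T) (n : S2) :
    exl G Φ (T, (n : E3)) * Real.sqrt (dA G Φ (T, (n : E3))) / 2 ≤ exl G Φ (0, (n : E3)) * Real.sqrt (dA G Φ (0, (n : E3))) / 2 ∧
    Real.sqrt (dA G Φ (0, (n : E3))) + T * (exl G Φ (T, (n : E3)) * Real.sqrt (dA G Φ (T, (n : E3))) / 2) ≤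
      Real.sqrt (dA G Φ (T, (n : E3))) := by
  have h0 : (0 : ℝ) ∈ Icc 0 T := ⟨le_rfl, hT.le⟩
  have hT' : T ∈ Icc 0 T := ⟨hT.le, le_rfl⟩
  have hanti : AntitoneOn (fun t : ℝ => exl G Φ (t, (n : E3)) * Real.sqrt (dA G Φ (t, (n : E3))) / 2) (Icc 0 T) := by
    refine antitoneOn_of_deriv_nonpos (convex_Icc 0 T) ?_ ?_ ?_
    · intro t ht
      obtain ⟨d, _, h⟩ := p1_dg hN hR n ht
      exact h.continuousAt.continuousWithinAt
    · intro t ht
      obtain ⟨d, _, h⟩ := p1_dg hN hR n (interior_subset ht)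
      exact h.differentiableAt.differentiableWithinAt
    · intro t ht
      obtain ⟨d, hd, h⟩ := p1_dg hN hR n (interior_subset ht)
      rw [h.deriv]
      exact hd
  refine ⟨hanti h0 hT' hT.le, ?_⟩
  have hd : ∀ t ∈ Icc 0 T, HasDerivAt (fun t : ℝ => Real.sqrt (dA G Φ (t, (n : E3))) -
      t * (exl G Φ (T, (n : E3)) * Real.sqrt (dA G Φ (T, (n : E3))) / 2))
      (exl G Φ (t, (n : E3)) * Real.sqrt (dA G Φ (t, (n : E3))) / 2 -
        1 * (exl G Φ (T, (n : E3)) * Real.sqrt (dA G Φ (T, (n : E3))) / 2)) t := fun t ht =>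
    (p1_dw hR n ht).sub ((hasDerivAt_id t).mul_const _)
  have hmono : MonotoneOn (fun t : ℝ => Real.sqrt (dA G Φ (t, (n : E3))) -
      t * (exl G Φ (T, (n : E3)) * Real.sqrt (dA G Φ (T, (n : E3))) / 2)) (Icc 0 T) := by
    refine monotoneOn_of_deriv_nonneg (convex_Icc 0 T) ?_ ?_ ?_
    · exact fun t ht => (hd t ht).continuousAt.continuousWithinAt
    · exact fun t ht => (hd t (interior_subset ht)).differentiableAt.differentiableWithinAt
    · intro t ht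
      have ht' := interior_subset ht
      rw [(hd t ht').deriv, one_mul, sub_nonneg]
      exact hanti ht' hT' ht'.2
  have h1 := hmono h0 hT' hT.le
  simp only [zero_mul, sub_zero] at h1
  linarith

end H17Y
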