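import Pool.Agent.Lib.H17Y.E0
import Pool.Agent.Lib.H17Y.B4C

set_option autoImplicit false

/-!
# H17Y, chunk P2 (M): the integral of the expansion along a finite piece

`expansion_raw` (H17Y.X1): the derivative of `t ↦ ∫ tht dA` at `t ∈ (0,T)` is `8 π - 2 ∫ |ζ|² dA - ∫ rr dA ≤ 8 π`: `sum QQ_ij ζ_i ζ_j ≥ 0` (see how `H17W`/`NullPen` proves that `torSq` is nonnegative, or: `QQ` is positive semidefinite; with `ζ_i = sum_k hh_ik v_k`, `v_k = sum QQ_kl ζ_l`, the sum is `sum hh_kl v_k v_l`,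
using `hQ` and `zet_rad`), `rr ≥ 0` (`dec_data` of H17Y.D2B), `dA ≥ 0`. Continuity on `[0,T]`: `x1_int`. So `t ↦ ∫ tht dA - 8 π t` is antitone on `[0,T]`.
Auxiliary names start with `p2_`.
-/

open MeasureTheory Filter Topology Set Asymptotics
open scoped ContDiff

namespace H17Y

open H17W
open H17T (E4 pt pos tang slice second DEC)
open H17B (eta dl)
open Pool.Agent.Lib.PenroseSph (E3 Tens S2 sm pd)

variable {U : Set E4} {G : E4 → Matrix (Fin 4) (Fin 4) ℝ} {Φ : ℝ × E3 → E4} {W : Set (ℝ × E3)} {T : ℝ}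

theorem p2_deriv (hG : SpaceTime U G) (hN : NullPiece U G T Φ) (hR : RegI G Φ W (Icc 0 T)) {t : ℝ} (ht : t ∈ Ioo 0 T) :
    ∃ d : ℝ, d ≤ 8 * Real.pi ∧ HasDerivAt (fun t => ∫ n : S2, tht G Φ (t, (n : E3)) * dA G Φ (t, (n : E3)) ∂sm) d t := by
  refine ⟨_, ?_, expansion_raw hR ht⟩
  have ht' : t ∈ Icc 0 T := Ioo_subset_Icc_self ht
  have h1 : 0 ≤ ∫ n : S2, (∑ i, ∑ j, QQ G Φ i j (t, (n : E3)) * zet G Φ i (t, (n : E3)) * zet G Φ j (t, (n : E3))) *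
      dA G Φ (t, (n : E3)) ∂sm :=
    integral_nonneg fun n => mul_nonneg
      (b4c_Qpos hR (hR.mem t ht' n (d3d_ne n)) fun i => zet G Φ i (t, (n : E3))) (Real.sqrt_nonneg _)
  have h2 : 0 ≤ ∫ n : S2, rr G Φ (t, (n : E3)) * dA G Φ (t, (n : E3)) ∂sm :=
    integral_nonneg fun n => mul_nonneg (dec_data hG hN hR ht' n).1 (Real.sqrt_nonneg _)
  linarith

theorem p2_tht (hG : SpaceTime U G) (hN : NullPiece U G T Φ) (hR : RegI G Φ W (Icc 0 T)) {t₁ t₂ : ℝ} (h1 : 0 ≤ t₁) (h2 : t₁ ≤ t₂)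
    (h3 : t₂ ≤ T) : ∫ n : S2, tht G Φ (t₂, (n : E3)) * dA G Φ (t₂, (n : E3)) ∂sm ≤
    (∫ n : S2, tht G Φ (t₁, (n : E3)) * dA G Φ (t₁, (n : E3)) ∂sm) + 8 * Real.pi * (t₂ - t₁) := by
  have hd : ∀ t ∈ Ioo 0 T, ∃ d : ℝ, d ≤ 0 ∧
      HasDerivAt (fun t => (∫ n : S2, tht G Φ (t, (n : E3)) * dA G Φ (t, (n : E3)) ∂sm) - 8 * Real.pi * t) d t := by
    intro t ht
    obtain ⟨d, hd, h⟩ := p2_deriv hG hN hR ht
    refine ⟨d - 8 * Real.pi * 1, by linarith, h.sub ((hasDerivAt_id t).const_mul _)⟩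
  have hF : ∀ p ∈ W, ContDiffAt ℝ ∞ (fun p : ℝ × E3 => tht G Φ p * dA G Φ p) p :=
    fun p hp => (tht_smooth hR hp).mul (dA_smooth hR hp)
  have hanti : AntitoneOn (fun t => (∫ n : S2, tht G Φ (t, (n : E3)) * dA G Φ (t, (n : E3)) ∂sm) - 8 * Real.pi * t)
      (Icc 0 T) := by
    refine antitoneOn_of_deriv_nonpos (convex_Icc 0 T) ?_ ?_ ?_
    · exact (x1_int hR hF).1.sub (by fun_prop)
    · intro t ht
      rw [interior_Icc] at ht
      obtain ⟨d, _, h⟩ := hd t ht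
      exact h.differentiableAt.differentiableWithinAt
    · intro t ht
      rw [interior_Icc] at ht
      obtain ⟨d, hd, h⟩ := hd t ht
      rw [h.deriv]
      exact hd
  have h4 := hanti ⟨h1, h2.trans h3⟩ ⟨h1.trans h2, h3⟩ h2
  simp only at h4
  linarith

end H17Y
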