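import Pool.Agent.Lib.H17Y.G2
import Pool.Agent.Lib.H17Y.C2

set_option autoImplicit false

/-!
# H17Y, chunk S1 (M): the map of the common cut is close to the identity

(a) `s_kap`: `Φ_s(0, n) = s n + O(1)` (`c_pos` for `h.cuts`, where `τ = 0`, `r s = s`) and `Ψ(s, κ n) = s κ n + O(1)` (`h.farM.cone`, `e1a_dev`; the bound is uniform on the sphere), so `κ n - n = O(1/s)`.
(b) `s_M`: `X^Φ_i (0,n) = sum_j M_ij X^Ψ_j (s, κ n)` (`g2_xx`), space components: `s (δ_il - n_i n_l) + O(1) = sum_j M_ij (s (δ_jl - κ_j κ_l) + O(1))` (`c_xx`, `H17Y.e2_xx`, the latter uniform on the sphere), `sum_j M_ij κ_j = n_i` (`g1_rad`): `M_il - n_i κ_l = δ_il - n_i n_l + O(1/s) (1 + |M|)`.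
First `|M| ≤ C + |M| C/s` shows that `M` is bounded, then `M - 1 = O(1/s)`. (c) `s_det`: `det_Os`.
Auxiliary names start with `s1_`.
-/

open MeasureTheory Filter Topology Set Asymptotics
open scoped ContDiff

namespace H17Y

open H17W
open H17T (E4 pt pos tang slice second DEC)
open H17B (eta dl)
open Pool.Agent.Lib.PenroseSph (E3 Tens S2 sm pd)

variable {G : E4 → Matrix (Fin 4) (Fin 4) ℝ} {ε : ℝ} {Ψ : ℝ × E3 → E4} {W₀ : Set (ℝ × E3)} {Φ : ℝ → ℝ × E3 → E4} {W : ℝ → Set (ℝ × E3)}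
  {I : ℝ → Set ℝ} {κ : ℝ → E3 → E3}

/-- The families at the common cuts. -/
structure Starts (G : E4 → Matrix (Fin 4) (Fin 4) ℝ) (ε : ℝ) (Ψ : ℝ × E3 → E4) (W₀ : Set (ℝ × E3)) (Φ : ℝ → ℝ × E3 → E4)
    (W : ℝ → Set (ℝ × E3)) (I : ℝ → Set ℝ) (κ : ℝ → E3 → E3) : Prop where
  farM : FarM G Ψ W₀ ε
  sign : ε = 1 ∨ ε = -1
  cuts : Cuts G (-ε) Φ (fun _ => 0) (fun s => s) W I
  glue : ∃ R : ℝ, ∀ s : ℝ, R ≤ s → Glue G Ψ W₀ (Ici 0) s (Φ s) (W s) (I s) (κ s)

theorem s1_KK {κ : E3 → E3} (n : S2) : KK κ (n : E3) = κ n := by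
  have hn : ‖(n : E3)‖ = 1 := by simp
  unfold KK
  rw [hn, inv_one, one_smul, one_smul]

theorem s1_dev {Ψ : ℝ × E3 → E4} {s C : ℝ} {n : S2} (h : ∀ i : Fin 3, |dev Ψ s (Fin.succ i) n| ≤ C) (i : Fin 3) :
    |pos (Ψ (s, (n : E3))) i - s * (n : E3) i| ≤ C := by
  have h1 := h i
  unfold dev at h1
  have hn : ‖(n : E3)‖ = 1 := by simp
  rw [hn, inv_one, one_smul, Fin.cases_succ, div_one] at h1
  rwa [e1a_pos]

theorem s_kap (h : Starts G ε Ψ W₀ Φ W I κ) (i : Fin 3) : Os (-1) fun p => κ p.1 p.2 i - p.2 i := by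
  obtain ⟨C₁, hC₁⟩ := h.farM.cone
  obtain ⟨C₂, R₂, hC₂⟩ := h.cuts.far
  obtain ⟨R₃, hR₃⟩ := h.glue
  refine Os.of_bound (C₁ + C₂) (max (max R₂ R₃) 1) fun s hs hs0 n => ?_
  have h2 : R₂ ≤ s := (le_max_left _ _).trans ((le_max_left _ _).trans hs)
  have h3 : R₃ ≤ s := (le_max_right _ _).trans ((le_max_left _ _).trans hs)
  have h1 : 1 ≤ s := (le_max_right _ _).trans hs
  obtain ⟨_, _, _, _, h5, _⟩ := hC₂ s h2
  have hg := hR₃ s h3
  have hmem : κ s (n : E3) ∈ Metric.sphere (0 : E3) 1 := hg.bij.mapsTo n.2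
  have g1 := c1_dev (h5 n).1 i
  have g2 := s1_dev (hC₁ s h1 ⟨κ s (n : E3), hmem⟩).1 i
  rw [hg.start n] at g1
  show |κ s (n : E3) i - (n : E3) i| ≤ (C₁ + C₂) * s ^ (-1 : ℤ)
  simp only at g2
  rw [zpow_neg_one, ← div_eq_mul_inv, le_div_iff₀ hs0]
  have e1 : |κ s (n : E3) i - (n : E3) i| * s = |(pos (Ψ (s, κ s (n : E3))) i - s * (n : E3) i) -
      (pos (Ψ (s, κ s (n : E3))) i - s * κ s (n : E3) i)| := by
    have e2 : (pos (Ψ (s, κ s (n : E3))) i - s * (n : E3) i) -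
        (pos (Ψ (s, κ s (n : E3))) i - s * κ s (n : E3) i) = (κ s (n : E3) i - (n : E3) i) * s := by
      ring
    rw [e2, abs_mul, abs_of_pos hs0]
  rw [e1]
  refine (abs_sub _ _).trans ?_
  linarith

theorem s1_unif {k : ℤ} {F : Fin 3 → Fin 3 → ℝ × E3 → ℝ} (h : ∀ i l, Os k (F i l)) :
    ∃ C R : ℝ, 1 ≤ R ∧ 0 ≤ C ∧ ∀ s : ℝ, R ≤ s → ∀ n : S2, ∀ i l, |F i l (s, (n : E3))| ≤ C * s ^ k := by
  choose C R h1 h2 h3 using fun i l => (h i l).bound
  have hC : ∀ i l, C i l ≤ ∑ i, ∑ l, C i l := fun i l =>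
    (Finset.single_le_sum (fun l _ => h2 i l) (Finset.mem_univ l)).trans
      (Finset.single_le_sum (f := fun i => ∑ l, C i l) (fun i _ => Finset.sum_nonneg fun l _ => h2 i l) (Finset.mem_univ i))
  have hR : ∀ i l, R i l ≤ ∑ i, ∑ l, R i l := fun i l =>
    (Finset.single_le_sum (fun l _ => zero_le_one.trans (h1 i l)) (Finset.mem_univ l)).trans
      (Finset.single_le_sum (f := fun i => ∑ l, R i l)
        (fun i _ => Finset.sum_nonneg fun l _ => zero_le_one.trans (h1 i l)) (Finset.mem_univ i))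
  refine ⟨∑ i, ∑ l, C i l, ∑ i, ∑ l, R i l, (h1 0 0).trans (hR 0 0), (h2 0 0).trans (hC 0 0), fun s hs n i l => ?_⟩
  have hs0 : 0 < s := zero_lt_one.trans_le ((h1 i l).trans ((hR i l).trans hs))
  exact (h3 i l s ((hR i l).trans hs) n).trans (mul_le_mul_of_nonneg_right (hC i l) (zpow_pos hs0 k).le)

/-- The algebra of `s_M`, one row. -/
theorem s1_row {C s : ℝ} (hs : 0 < s) (hC : 0 ≤ C) (hCs : 6 * C ≤ s) {A D a k : Fin 3 → ℝ} {b : Fin 3 → Fin 3 → ℝ}
    (hDs : ∑ l, |D l| ≤ 1) (ha : ∀ l, |a l| ≤ C) (hk : ∀ l, |k l| ≤ C / s) (hb : ∀ j l, |b j l| ≤ C)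
    (he : ∀ l, s * (A l - D l - k l) + ∑ j, A j * b j l = a l) (l : Fin 3) : |A l - D l| ≤ 6 * C / s := by
  set μ := ∑ j, |A j| with hμ
  have hμ0 : 0 ≤ μ := Finset.sum_nonneg fun j _ => abs_nonneg _
  have h1 : ∀ l, |A l - D l| ≤ (2 * C + C * μ) / s := by
    intro l
    have e1 : A l - D l = k l + (a l - ∑ j, A j * b j l) / s := by
      rw [← he l]
      field_simp
      ring
    have e2 : |∑ j, A j * b j l| ≤ C * μ := by
      rw [hμ, Finset.mul_sum]
      refine (Finset.abs_sum_le_sum_abs _ _).trans (Finset.sum_le_sum fun j _ => ?_)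
      rw [abs_mul, mul_comm]
      exact mul_le_mul_of_nonneg_right (hb j l) (abs_nonneg _)
    rw [e1]
    refine (abs_add_le _ _).trans ?_
    rw [abs_div, abs_of_pos hs]
    have e3 : |a l - ∑ j, A j * b j l| ≤ C + C * μ := (abs_sub _ _).trans (add_le_add (ha l) e2)
    have e4 : |a l - ∑ j, A j * b j l| / s ≤ (C + C * μ) / s := div_le_div_of_nonneg_right e3 hs.le
    refine (add_le_add (hk l) e4).trans (le_of_eq ?_)
    ring
  have h2 : μ ≤ 1 + 3 * ((2 * C + C * μ) / s) := by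
    have e1 : μ ≤ ∑ l, (|D l| + (2 * C + C * μ) / s) := by
      refine Finset.sum_le_sum fun l _ => ?_
      have e2 : A l = D l + (A l - D l) := by ring
      calc |A l| = |D l + (A l - D l)| := by rw [← e2]
        _ ≤ |D l| + |A l - D l| := abs_add_le _ _
        _ ≤ |D l| + (2 * C + C * μ) / s := by linarith [h1 l]
    rw [Finset.sum_add_distrib] at e1
    simp only [Finset.sum_const, Finset.card_univ, Fintype.card_fin, nsmul_eq_mul] at e1
    push_cast at e1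
    linarith
  have h3 : μ ≤ 4 := by
    have e1 : (2 * C + C * μ) / s ≤ 1 / 3 + μ / 6 := by
      rw [div_le_iff₀ hs]
      nlinarith
    linarith
  refine (h1 l).trans (div_le_div_of_nonneg_right ?_ hs.le)
  nlinarith

theorem s_M (h : Starts G ε Ψ W₀ Φ W I κ) (i j : Fin 3) :
    Os (-1) fun p => MM (κ p.1) p.2 i j - (1 : Matrix (Fin 3) (Fin 3) ℝ) i j := by
  obtain ⟨C₁, R₁, hR₁, hC₁, h1⟩ := s1_unif fun i l => c_xx h.cuts i l
  obtain ⟨C₂, R₂, hR₂, hC₂, h2⟩ := s1_unif fun i l => e2_xx h.farM i l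
  obtain ⟨C₃, R₃, hR₃, hC₃, h3⟩ := s1_unif (F := fun i _ p => κ p.1 p.2 i - p.2 i) fun i _ => s_kap h i
  obtain ⟨R₄, h4⟩ := h.glue
  set C := C₁ + C₂ + C₃ with hC
  have hC0 : 0 ≤ C := by positivity
  refine Os.of_bound (6 * C) (max (max R₁ R₂) (max R₃ (max R₄ (6 * C)))) fun s hs hs0 n => ?_
  have g1 := h1 s ((le_max_left _ _).trans ((le_max_left _ _).trans hs)) n
  have hs2 : R₂ ≤ s := (le_max_right _ _).trans ((le_max_left _ _).trans hs)
  have g3 := h3 s ((le_max_left _ _).trans ((le_max_right _ _).trans hs)) n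
  have hs4 : R₄ ≤ s := (le_max_left _ _).trans ((le_max_right _ _).trans ((le_max_right _ _).trans hs))
  have hs5 : 6 * C ≤ s := (le_max_right _ _).trans ((le_max_right _ _).trans ((le_max_right _ _).trans hs))
  have hg := h4 s hs4
  have hmem : κ s (n : E3) ∈ Metric.sphere (0 : E3) 1 := hg.bij.mapsTo n.2
  have g2 := h2 s hs2 ⟨κ s (n : E3), hmem⟩
  have hn : ‖(n : E3)‖ = 1 := by simp
  have hne : (n : E3) ≠ 0 := e2b_sph
  have hrad := g1_rad hg hne i
  have hxx := g2_xx hg hne i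
  rw [s1_KK] at hrad hxx
  simp only [zpow_zero, mul_one, zpow_neg_one] at g1 g2 g3
  show |MM (κ s) (n : E3) i j - (1 : Matrix (Fin 3) (Fin 3) ℝ) i j| ≤ 6 * C * s ^ (-1 : ℤ)
  rw [zpow_neg_one, ← div_eq_mul_inv, Matrix.one_apply]
  have hni : |(n : E3) i| ≤ 1 := by
    have h : |(n : E3) i| ≤ ‖(n : E3)‖ := by
      rw [← Real.norm_eq_abs]
      exact PiLp.norm_apply_le (n : E3) i
    rwa [hn] at h
  refine s1_row (A := fun l => MM (κ s) (n : E3) i l) (D := fun l => if i = l then 1 else 0)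
    (a := fun l => XX (Φ s) i (0, (n : E3)) l.succ - s * ((if i = l then 1 else 0) - (n : E3) i * (n : E3) l))
    (k := fun l => (n : E3) i * (κ s (n : E3) l - (n : E3) l))
    (b := fun j l => XX Ψ j (s, κ s (n : E3)) l.succ - s * ((if j = l then 1 else 0) - κ s (n : E3) j * κ s (n : E3) l))
    hs0 hC0 hs5 ?_ (fun l => ?_) (fun l => ?_) (fun j l => ?_) (fun l => ?_) j
  · simp only [apply_ite abs, abs_one, abs_zero]
    simp
  · exact (g1 i l).trans (by linarith)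
  · rw [abs_mul]
    have e1 := g3 l 0
    have e2 : C₃ * s⁻¹ ≤ C / s := by
      rw [div_eq_mul_inv]
      exact mul_le_mul_of_nonneg_right (by linarith) (inv_pos.2 hs0).le
    calc |(n : E3) i| * |κ s (n : E3) l - (n : E3) l| ≤ 1 * |κ s (n : E3) l - (n : E3) l| :=
          mul_le_mul_of_nonneg_right hni (abs_nonneg _)
      _ ≤ C / s := by
          rw [one_mul]
          exact e1.trans e2
  · exact (g2 j l).trans (by linarith)
  · have e1 : XX (Φ s) i (0, (n : E3)) l.succ = ∑ j, MM (κ s) (n : E3) i j * XX Ψ j (s, κ s (n : E3)) l.succ := by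
      rw [hxx]
      simp [Finset.sum_apply]
    simp only
    rw [e1]
    have e2 : ∑ j, MM (κ s) (n : E3) i j * (XX Ψ j (s, κ s (n : E3)) l.succ -
        s * ((if j = l then 1 else 0) - κ s (n : E3) j * κ s (n : E3) l)) =
        (∑ j, MM (κ s) (n : E3) i j * XX Ψ j (s, κ s (n : E3)) l.succ) - s * MM (κ s) (n : E3) i l +
          s * κ s (n : E3) l * ∑ j, MM (κ s) (n : E3) i j * κ s (n : E3) j := by
      have e3 : ∀ j, MM (κ s) (n : E3) i j * (XX Ψ j (s, κ s (n : E3)) l.succ -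
          s * ((if j = l then 1 else 0) - κ s (n : E3) j * κ s (n : E3) l)) =
          MM (κ s) (n : E3) i j * XX Ψ j (s, κ s (n : E3)) l.succ - (if j = l then s * MM (κ s) (n : E3) i j else 0) +
            s * κ s (n : E3) l * (MM (κ s) (n : E3) i j * κ s (n : E3) j) := by
        intro j
        split_ifs <;> ring
      simp only [e3, Finset.sum_add_distrib, Finset.sum_sub_distrib, Finset.sum_ite_eq', Finset.mem_univ, if_true,
        ← Finset.mul_sum]
    rw [e2, hrad]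
    ring

theorem s_det (h : Starts G ε Ψ W₀ Φ W I κ) : Os (-1) fun p => (MM (κ p.1) p.2).det - 1 := by
  have h1 := det_Os (A := fun p => MM (κ p.1) p.2) (A0 := 1) (s_M h)
  rwa [Matrix.det_one] at h1

end H17Y
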