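import Pool.Agent.Lib.H17Y.S1
import Pool.Agent.Lib.H17Y.C2

set_option autoImplicit false

/-!
# H17Y, chunk S2 (M): the factor of the null normals

`al = (1/2) sum G_ab L^a L'^b` at the event `Ψ(s, κ n) = Φ_s(0, n)` with `G = eta + O(1/s)` (`H17Y.e1_met1` for `h.farM`, uniform on the sphere, or `c_met1`), `L = (ε, κ n) + O(1/s)` (`H17Y.e2_ll0`, `e2_ll`), `L' = (-ε, n) + O(1/s)` (`c_ll0`, `c_ll`), `κ n = n + O(1/s)` (`s_kap`):
`(1/2)(- ε (-ε) + n·n) + O(1/s) = 1 + O(1/s)`. (`Ph Ψ (s, K n) = Ψ(s, κ n)` for `|n| = 1`.)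
Auxiliary names start with `s2_`.
-/

open MeasureTheory Filter Topology Set Asymptotics
open scoped ContDiff

namespace H17Y

open H17W
open H17T (E4 pt pos tang slice second DEC)
open H17B (eta dl)
open Pool.Agent.Lib.PenroseSph (E3 Tens S2 sm pd)

variable {G : E4 → Matrix (Fin 4) (Fin 4) ℝ} {ε : ℝ} {Ψ : ℝ × E3 → E4} {W₀ : Set (ℝ × E3)} {Φ : ℝ → ℝ × E3 → E4} {W : ℝ → Set (ℝ × E3)}
  {I : ℝ → Set ℝ} {κ : ℝ → E3 → E3}

/-- composition with the map of the common cut -/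
theorem s2_comp {k : ℤ} {F : ℝ × E3 → ℝ} (hF : Os k F) (h : ∃ R : ℝ, ∀ s : ℝ, R ≤ s → Glue G Ψ W₀ (Ici 0) s (Φ s) (W s) (I s) (κ s)) :
    Os k fun p => F (p.1, κ p.1 p.2) := by
  obtain ⟨C, R, -, -, hb⟩ := hF.bound
  obtain ⟨R', hR'⟩ := h
  refine Os.of_bound C (max R R') fun s hs _ n => ?_
  have h1 := (hR' s ((le_max_right _ _).trans hs)).bij.mapsTo n.2
  exact hb s ((le_max_left _ _).trans hs) ⟨κ s n, h1⟩

theorem s2_mul3 {A B C A0 B0 C0 : ℝ × E3 → ℝ} (hA : Os (-1) fun p => A p - A0 p) (hB : Os (-1) fun p => B p - B0 p)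
    (hC : Os (-1) fun p => C p - C0 p) (hA0 : Os 0 A0) (hB0 : Os 0 B0) (hC0 : Os 0 C0) :
    Os (-1) fun p => A p * B p * C p - A0 p * B0 p * C0 p := by
  have b0 : Os 0 B := ((hB.mono (by norm_num : (-1 : ℤ) ≤ 0)).add hB0).congr (Eventually.of_forall fun p => by ring)
  have c0 : Os 0 C := ((hC.mono (by norm_num : (-1 : ℤ) ≤ 0)).add hC0).congr (Eventually.of_forall fun p => by ring)
  have t1 : Os (-1) fun p => (A p - A0 p) * (B p * C p) := hA.mul (b0.mul c0 (by norm_num : (0 : ℤ) + 0 ≤ 0)) (by norm_num)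
  have t2 : Os (-1) fun p => (B p - B0 p) * (A0 p * C p) := hB.mul (hA0.mul c0 (by norm_num : (0 : ℤ) + 0 ≤ 0)) (by norm_num)
  have t3 : Os (-1) fun p => (C p - C0 p) * (A0 p * B0 p) := hC.mul (hA0.mul hB0 (by norm_num : (0 : ℤ) + 0 ≤ 0)) (by norm_num)
  exact ((t1.add t2).add t3).congr (Eventually.of_forall fun p => by ring)

/-- the flat values of the two null vectors -/
noncomputable def s2_u (e : ℝ) (x : E3) : Fin 4 → ℝ := fun a => Fin.cases e (fun i => x i) a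

theorem s2_u0 (e : ℝ) (a : Fin 4) : Os 0 fun p => s2_u e p.2 a := by
  refine Fin.cases ?_ (fun i => ?_) a
  · exact Os.const e
  · exact Os.coord i

theorem s_al (h : Starts G ε Ψ W₀ Φ W I κ) : Os (-1) fun p => al G Ψ p.1 (Φ p.1) (κ p.1) p.2 - 1 := by
  have hG : ∀ a b, Os (-1) fun p => G (Ph Ψ (p.1, κ p.1 p.2)) a b - eta a b := fun a b => s2_comp (e1_met1 h.farM a b) h.glue
  have hu : ∀ a, Os (-1) fun p => LL Ψ (p.1, κ p.1 p.2) a - s2_u ε p.2 a := by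
    intro a
    refine Fin.cases ?_ (fun i => ?_) a
    · exact s2_comp (F := fun p => LL Ψ p 0 - ε) (e2_ll0 h.farM) h.glue
    · have h1 := s2_comp (F := fun p => LL Ψ p i.succ - p.2 i) (e2_ll h.farM i) h.glue
      exact (h1.add (s_kap h i)).congr (Eventually.of_forall fun p => by
        show LL Ψ (p.1, κ p.1 p.2) i.succ - κ p.1 p.2 i + (κ p.1 p.2 i - p.2 i) = LL Ψ (p.1, κ p.1 p.2) i.succ - p.2 i
        ring)
  have hv : ∀ a, Os (-1) fun p => LL (Φ p.1) (0, p.2) a - s2_u (-ε) p.2 a := by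
    intro a
    refine Fin.cases ?_ (fun i => ?_) a
    · exact c_ll0 h.cuts
    · exact c_ll h.cuts i
  have hs : Os (-1) fun p => ∑ a, ∑ b, (G (Ph Ψ (p.1, κ p.1 p.2)) a b * LL Ψ (p.1, κ p.1 p.2) a * LL (Φ p.1) (0, p.2) b -
      eta a b * s2_u ε p.2 a * s2_u (-ε) p.2 b) :=
    Os.sum _ fun a _ => Os.sum _ fun b _ => s2_mul3 (A0 := fun _ => eta a b) (hG a b) (hu a) (hv b) (Os.const _) (s2_u0 ε a) (s2_u0 (-ε) b)
  refine (hs.const_mul (1 / 2)).congr (inf_iff.2 ⟨0, fun s _ n => ?_⟩)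
  have hn : ‖(n : E3)‖ = 1 := by simp
  have hK : KK (κ s) n = κ s n := by
    unfold KK
    rw [hn, inv_one, one_smul, one_smul]
  have hε : ε * ε = 1 := by
    rcases h.sign with h1 | h1 <;> rw [h1] <;> norm_num
  have hnn : (n : E3) 0 * (n : E3) 0 + (n : E3) 1 * (n : E3) 1 + (n : E3) 2 * (n : E3) 2 = 1 := by
    have h1 := EuclideanSpace.real_norm_sq_eq (n : E3)
    rw [hn, Fin.sum_univ_three] at h1
    linarith
  have hflat : ∑ a : Fin 4, ∑ b : Fin 4, eta a b * s2_u ε n a * s2_u (-ε) n b = 2 := by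
    have e1 : ∀ a : Fin 4, ∑ b : Fin 4, eta a b * s2_u ε n a * s2_u (-ε) n b = (if a = 0 then -1 else 1) * s2_u ε n a * s2_u (-ε) n a := by
      intro a
      rw [Finset.sum_eq_single a]
      · unfold eta
        rw [if_pos rfl]
      · intro b _ hb
        unfold eta
        rw [if_neg (Ne.symm hb), zero_mul, zero_mul]
      · intro ha
        exact absurd (Finset.mem_univ a) ha
    rw [Finset.sum_congr rfl fun a _ => e1 a, Fin.sum_univ_four]
    have f0 : ∀ e : ℝ, s2_u e n 0 = e := fun e => rfl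
    have f1 : ∀ e : ℝ, s2_u e n 1 = (n : E3) 0 := fun e => rfl
    have f2 : ∀ e : ℝ, s2_u e n 2 = (n : E3) 1 := fun e => rfl
    have f3 : ∀ e : ℝ, s2_u e n 3 = (n : E3) 2 := fun e => rfl
    rw [f0, f0, f1, f1, f2, f2, f3, f3, if_pos rfl, if_neg (by decide), if_neg (by decide), if_neg (by decide)]
    nlinarith
  show 1 / 2 * ∑ a, ∑ b, (G (Ph Ψ (s, κ s n)) a b * LL Ψ (s, κ s n) a * LL (Φ s) (0, (n : E3)) b -
      eta a b * s2_u ε n a * s2_u (-ε) n b) = al G Ψ s (Φ s) (κ s) n - 1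
  simp only [Finset.sum_sub_distrib]
  rw [hflat]
  unfold al ip
  rw [hK]
  ring

end H17Y
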