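import Pool.Agent.Lib.H17Y.E0

set_option autoImplicit false

/-!
# H17Y, chunk V1 (M): integrals over the sphere and over the ball

Polar coordinates: for `F` with `F(x) = F(x/|x|)`-type integrand, `∫_{0<|x|<1} F(x/|x|) dx = (1/3) ∫ F dσ` (`sm = (volume : Measure E3).toSphere`; `MeasureTheory.Measure.toSphere`, `measurePreserving_homeomorphUnitSphereProd`, `volumeIoiPow`; `∫_0^1 r² dr = 1/3`). Both sides are finite since `F` is continuous on the sphere.
It suffices to prove it in this form.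
Auxiliary names start with `v1_`.
-/

open MeasureTheory Filter Topology Set Asymptotics
open scoped ContDiff

namespace H17Y

open H17W
open H17T (E4 pt pos tang slice second DEC)
open H17B (eta dl)
open Pool.Agent.Lib.PenroseSph (E3 Tens S2 sm pd)


theorem v1_ball {F : E3 → ℝ} (hF : Continuous fun n : S2 => F n) :
    ∫ x in Metric.ball (0 : E3) 1 \ {0}, F (‖x‖⁻¹ • x) = (1 / 3) * ∫ n : S2, F n ∂sm := by
  classical
  obtain ⟨h, hh⟩ : ∃ h : Ioi (0 : ℝ) → ℝ, h = (Iio (⟨1, mem_Ioi.2 one_pos⟩ : Ioi (0 : ℝ))).indicator 1 := ⟨_, rfl⟩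
  have hdim : Module.finrank ℝ E3 - 1 = 2 := by simp
  have hmp := Measure.measurePreserving_homeomorphUnitSphereProd (E := E3) (volume : Measure E3)
  rw [hdim] at hmp
  have h1 : ∫ x in Metric.ball (0 : E3) 1 \ {0}, F (‖x‖⁻¹ • x) =
      ∫ x in ({0}ᶜ : Set E3), (Metric.ball (0 : E3) 1).indicator (fun x => F (‖x‖⁻¹ • x)) x := by
    rw [setIntegral_indicator Metric.isOpen_ball.measurableSet]
    congr 2
    ext x
    simp [and_comm]
  have h2 : ∫ x in ({0}ᶜ : Set E3), (Metric.ball (0 : E3) 1).indicator (fun x => F (‖x‖⁻¹ • x)) x =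
      ∫ x : ({0}ᶜ : Set E3), (Metric.ball (0 : E3) 1).indicator (fun x => F (‖x‖⁻¹ • x)) (x : E3)
        ∂(Measure.comap Subtype.val (volume : Measure E3)) :=
    (integral_subtype_comap (measurableSet_singleton (0 : E3)).compl _).symm
  have h3 : ∫ x : ({0}ᶜ : Set E3), (Metric.ball (0 : E3) 1).indicator (fun x => F (‖x‖⁻¹ • x)) (x : E3)
        ∂(Measure.comap Subtype.val (volume : Measure E3)) =
      ∫ x : ({0}ᶜ : Set E3), (fun p : S2 × Ioi (0 : ℝ) => F (p.1 : E3) * h p.2) (homeomorphUnitSphereProd E3 x)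
        ∂(Measure.comap Subtype.val (volume : Measure E3)) := by
    refine integral_congr_ae (Filter.Eventually.of_forall fun x => ?_)
    have e1 : ((homeomorphUnitSphereProd E3 x).1 : E3) = ‖(x : E3)‖⁻¹ • (x : E3) := by
      simp [homeomorphUnitSphereProd]
    have e2 : ((homeomorphUnitSphereProd E3 x).2 : ℝ) = ‖(x : E3)‖ := by
      simp [homeomorphUnitSphereProd]
    show (Metric.ball (0 : E3) 1).indicator (fun x => F (‖x‖⁻¹ • x)) (x : E3) =
      F ((homeomorphUnitSphereProd E3 x).1 : E3) * h (homeomorphUnitSphereProd E3 x).2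
    rw [e1, hh]
    by_cases hx : ‖(x : E3)‖ < 1
    · rw [indicator_of_mem (by simpa using hx), indicator_of_mem, Pi.one_apply, mul_one]
      rw [mem_Iio, ← Subtype.coe_lt_coe, e2]
      exact hx
    · rw [indicator_of_notMem (by simpa using hx), indicator_of_notMem, mul_zero]
      rw [mem_Iio, ← Subtype.coe_lt_coe, e2]
      exact hx
  rw [h1, h2, h3, hmp.integral_comp (homeomorphUnitSphereProd E3).measurableEmbedding
    (fun p : S2 × Ioi (0 : ℝ) => F (p.1 : E3) * h p.2),
    integral_prod_mul (fun n : S2 => F (n : E3)) h]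
  have h4 : ∫ r, h r ∂(Measure.volumeIoiPow 2) = 1 / 3 := by
    rw [hh, integral_indicator_one measurableSet_Iio, Measure.real, Measure.volumeIoiPow_apply_Iio]
    norm_num
  rw [h4, mul_comm]

end H17Y
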