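import Pool.Agent.Lib.H17Y.V1
import Pool.Agent.Lib.H17Y.G1

set_option autoImplicit false

/-!
# H17Y, chunk V2 (M): change of variables on the sphere

`K = KK κ` maps `B = {0 < |x| < 1}` bijectively to itself (`g1_norm`, `g1_inj`; onto: for `y ∈ B` take `x = |y| n` with `κ n = y/|y|`), it is differentiable with derivative of determinant `det M` (the matrix of `fderiv K x` in the standard basis is `Mᵀ`). `integral_image_eq_integral_abs_det_fderiv_smul`:
`∫_B F(y/|y|) dy = ∫_B |det M(x)| F(Kx/|Kx|) dx = ∫_B |det M (x/|x|)| F(κ(x/|x|)) dx` (`M` is homogeneous of degree 0). Then `v1_ball` on both sides.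
Auxiliary names start with `v2_`.
-/

open MeasureTheory Filter Topology Set Asymptotics
open scoped ContDiff

namespace H17Y

open H17W
open H17T (E4 pt pos tang slice second DEC)
open H17B (eta dl)
open Pool.Agent.Lib.PenroseSph (E3 Tens S2 sm pd)

variable {G : E4 → Matrix (Fin 4) (Fin 4) ℝ} {Ψ Φ : ℝ × E3 → E4} {W₀ W : Set (ℝ × E3)} {I₀ I : Set ℝ} {s : ℝ} {κ : E3 → E3}

theorem v2_ne (n : S2) : (n : E3) ≠ 0 := by
  intro h
  have h1 : ‖(n : E3)‖ = 1 := by simp
  rw [h, norm_zero] at h1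
  exact zero_ne_one h1

theorem v2_cont (h : Glue G Ψ W₀ I₀ s Φ W I κ) : (Continuous fun n : S2 => κ n) ∧ Continuous fun n : S2 => (MM κ n).det := by
  constructor
  · rw [continuous_iff_continuousAt]
    intro n
    have h1 : ContinuousAt (fun x : E3 => κ (‖x‖⁻¹ • x)) (n : E3) := (h.smooth n).continuousAt
    have h2 : ContinuousAt (fun q : S2 => (q : E3)) n := continuous_subtype_val.continuousAt
    have h3 : ContinuousAt ((fun x : E3 => κ (‖x‖⁻¹ • x)) ∘ fun q : S2 => (q : E3)) n := ContinuousAt.comp h1 h2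
    have h4 : ((fun x : E3 => κ (‖x‖⁻¹ • x)) ∘ fun q : S2 => (q : E3)) = fun q : S2 => κ q := by
      funext q
      simp only [Function.comp_apply]
      have : ‖(q : E3)‖ = 1 := by simp
      rw [this, inv_one, one_smul]
    rw [h4] at h3
    exact h3
  · refine Continuous.matrix_det ?_
    refine continuous_matrix fun i j => ?_
    have h0 : (fun n : S2 => MM κ n i j) = fun n : S2 => fderiv ℝ (KK κ) n (EuclideanSpace.single i 1) j := by
      funext n
      exact g1_MM h (v2_ne n) i j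
    rw [h0, continuous_iff_continuousAt]
    intro n
    have h1 : ContDiffAt ℝ 0 (fderiv ℝ (KK κ)) (n : E3) := (g1_smooth h (v2_ne n)).fderiv_right (by simp)
    have h2 : ContinuousAt (fun q : S2 => fderiv ℝ (KK κ) (q : E3)) n :=
      ContinuousAt.comp (g := fderiv ℝ (KK κ)) h1.continuousAt continuous_subtype_val.continuousAt
    have h3 : ContinuousAt (fun q : S2 => fderiv ℝ (KK κ) (q : E3) (EuclideanSpace.single i 1)) n := h2.clm_apply continuousAt_const
    have h4 : Continuous fun v : E3 => v j := (EuclideanSpace.proj j : E3 →L[ℝ] ℝ).continuous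
    exact ContinuousAt.comp (g := fun v : E3 => v j) h4.continuousAt h3

/-- the determinant of the derivative -/
theorem v2_det (h : Glue G Ψ W₀ I₀ s Φ W I κ) {x : E3} (hx : x ≠ 0) : (fderiv ℝ (KK κ) x).det = (MM κ x).det := by
  have h1 : LinearMap.toMatrix (EuclideanSpace.basisFun (Fin 3) ℝ).toBasis (EuclideanSpace.basisFun (Fin 3) ℝ).toBasis
      (fderiv ℝ (KK κ) x : E3 →ₗ[ℝ] E3) = (MM κ x).transpose := by
    ext i j
    rw [LinearMap.toMatrix_apply, Matrix.transpose_apply, g1_MM h hx]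
    simp
  have h2 : (fderiv ℝ (KK κ) x).det = LinearMap.det (fderiv ℝ (KK κ) x : E3 →ₗ[ℝ] E3) := rfl
  rw [h2, ← LinearMap.det_toMatrix (EuclideanSpace.basisFun (Fin 3) ℝ).toBasis, h1, Matrix.det_transpose]

/-- the derivative is homogeneous of degree zero -/
theorem v2_hom (h : Glue G Ψ W₀ I₀ s Φ W I κ) {x : E3} (hx : x ≠ 0) {c : ℝ} (hc : 0 < c) :
    fderiv ℝ (KK κ) (c • x) = fderiv ℝ (KK κ) x := by
  have hcx : c • x ≠ 0 := smul_ne_zero hc.ne' hx
  have h1 : HasFDerivAt (fun y : E3 => KK κ (c • y)) ((fderiv ℝ (KK κ) (c • x)).comp (c • ContinuousLinearMap.id ℝ E3)) x := by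
    have h2 : HasFDerivAt (fun y : E3 => c • y) (c • ContinuousLinearMap.id ℝ E3) x := (hasFDerivAt_id x).const_smul c
    exact ((g1_fd h hcx).hasFDerivAt).comp x h2
  have h3 : HasFDerivAt (fun y : E3 => KK κ (c • y)) (c • fderiv ℝ (KK κ) x) x := by
    have e : (fun y : E3 => KK κ (c • y)) = fun y => c • KK κ y := funext fun y => g1_hom hc
    rw [e]
    exact ((g1_fd h hx).hasFDerivAt).const_smul c
  have h4 := h1.unique h3
  ext v j
  have h5 := congrArg (fun L : E3 →L[ℝ] E3 => L v j) h4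
  simp only [ContinuousLinearMap.comp_apply, smul_apply, ContinuousLinearMap.id_apply, map_smul, PiLp.smul_apply,
    smul_eq_mul] at h5
  exact mul_left_cancel₀ hc.ne' h5

theorem v2_image (h : Glue G Ψ W₀ I₀ s Φ W I κ) :
    KK κ '' (Metric.ball (0 : E3) 1 \ {0}) = Metric.ball (0 : E3) 1 \ {0} := by
  ext y
  constructor
  · rintro ⟨x, ⟨hx1, hx2⟩, rfl⟩
    obtain ⟨a1, a2, -⟩ := g1_norm h (x := x) hx2
    refine ⟨?_, a2⟩
    rw [mem_ball_zero_iff, a1]
    exact mem_ball_zero_iff.1 hx1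
  · rintro ⟨hy1, hy2⟩
    have hy : y ≠ 0 := hy2
    have hy3 : 0 < ‖y‖ := norm_pos_iff.2 hy
    obtain ⟨n, hn, hn2⟩ := h.bij.surjOn (g1_unit hy)
    have hn1 : ‖n‖ = 1 := mem_sphere_zero_iff_norm.1 hn
    have hxn : ‖‖y‖ • n‖ = ‖y‖ := by rw [norm_smul, norm_norm, hn1, mul_one]
    refine ⟨‖y‖ • n, ⟨?_, ?_⟩, ?_⟩
    · rw [mem_ball_zero_iff, hxn]
      exact mem_ball_zero_iff.1 hy1
    · intro h0
      rw [mem_singleton_iff] at h0
      rw [h0, norm_zero] at hxn
      exact hy3.ne hxn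
    · unfold KK
      rw [hxn, smul_smul, inv_mul_cancel₀ hy3.ne', one_smul, hn2, smul_smul, mul_inv_cancel₀ hy3.ne', one_smul]

theorem v2_sphere (h : Glue G Ψ W₀ I₀ s Φ W I κ) {F : E3 → ℝ} (hF : Continuous fun n : S2 => F n) :
    ∫ n : S2, F (κ n) * |(MM κ n).det| ∂sm = ∫ n : S2, F n ∂sm := by
  have hB : MeasurableSet (Metric.ball (0 : E3) 1 \ {0}) := Metric.isOpen_ball.measurableSet.diff (measurableSet_singleton _)
  have h1 := integral_image_eq_integral_abs_det_fderiv_smul (volume : Measure E3) hB (f := KK κ) (f' := fun x => fderiv ℝ (KK κ) x)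
    (fun x hx => ((g1_fd h hx.2).hasFDerivAt).hasFDerivWithinAt) ((g1_inj h).mono fun x hx => hx.2) (fun y => F (‖y‖⁻¹ • y))
  rw [v2_image h, v1_ball hF] at h1
  obtain ⟨c1, c2⟩ := v2_cont h
  have hmem : ∀ n : S2, κ n ∈ Metric.sphere (0 : E3) 1 := fun n => h.bij.mapsTo n.2
  have hG : Continuous fun n : S2 => (fun x : E3 => F (κ x) * |(MM κ x).det|) n := by
    have c3 : Continuous fun n : S2 => (⟨κ n, hmem n⟩ : S2) := c1.subtype_mk _
    have c4 : Continuous fun n : S2 => F (κ n) := hF.comp c3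
    exact c4.mul c2.abs
  have h2 := v1_ball (F := fun x : E3 => F (κ x) * |(MM κ x).det|) hG
  have h3 : ∫ x in Metric.ball (0 : E3) 1 \ {0}, |(fderiv ℝ (KK κ) x).det| • F (‖KK κ x‖⁻¹ • KK κ x) =
      ∫ x in Metric.ball (0 : E3) 1 \ {0}, (fun x : E3 => F (κ x) * |(MM κ x).det|) (‖x‖⁻¹ • x) := by
    refine setIntegral_congr_fun hB fun x hx => ?_
    have hx0 : x ≠ 0 := hx.2
    have hinv : 0 < ‖x‖⁻¹ := inv_pos.2 (norm_pos_iff.2 hx0)
    obtain ⟨-, -, a3⟩ := g1_norm h hx0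
    have hne : ‖x‖⁻¹ • x ≠ 0 := smul_ne_zero hinv.ne' hx0
    simp only [smul_eq_mul]
    rw [a3, ← v2_det h hne, v2_hom h hx0 hinv, mul_comm]
  rw [h3, h2] at h1
  linarith

end H17Y
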