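import Pool.Agent.Lib.H17W.D4D
import Pool.Agent.Lib.H17Y.D3D
import Pool.Agent.Lib.H17Y.D2B
import Pool.Agent.Lib.H17Y.B6D

set_option autoImplicit false

/-!
# H17Y: the integrated expansion along a finite piece
-/

open MeasureTheory Filter Topology Set
open scoped ContDiff

namespace H17Y

open H17W
open H17T (E4 pt pos)
open Pool.Agent.Lib.PenroseSph (E3 S2 sm pd)

variable {U : Set E4} {G : E4 → Matrix (Fin 4) (Fin 4) ℝ} {Ψ : ℝ × E3 → E4} {W : Set (ℝ × E3)} {T : ℝ}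

theorem x1_cut (hW : IsOpen W) (h : ∀ s ∈ Icc 0 T, ∀ n : S2, (s, (n : E3)) ∈ W) :
    ∃ ψ : ℝ × E3 → ℝ, (∀ s ∈ Icc 0 T, ∀ n : S2, ∀ᶠ q in 𝓝 ((s, (n : E3)) : ℝ × E3), ψ q = 1) ∧
      ∀ F : ℝ × E3 → ℝ, (∀ p ∈ W, ContDiffAt ℝ ∞ F p) → ContDiff ℝ ∞ fun p => ψ p * F p := by
  have hC : IsClosed {p : ℝ × E3 | p.1 ∈ Icc 0 T ∧ ‖p.2‖ = 1} :=
    (isClosed_Icc.preimage continuous_fst).inter (isClosed_eq continuous_snd.norm continuous_const)
  have hCW : {p : ℝ × E3 | p.1 ∈ Icc 0 T ∧ ‖p.2‖ = 1} ⊆ W := by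
    rintro ⟨s, x⟩ ⟨hs, hx⟩
    exact h s hs ⟨x, mem_sphere_zero_iff_norm.2 hx⟩
  obtain ⟨V, hVo, hCV, hVW⟩ := normal_exists_closure_subset hC hW hCW
  obtain ⟨f, h1, h0, _⟩ := exists_contMDiffMap_one_nhds_of_subset_interior
    (modelWithCornersSelf ℝ (ℝ × E3)) (n := ⊤) hC
    (hCV.trans (interior_maximal subset_closure hVo))
  have hf : ContDiff ℝ ∞ (f : ℝ × E3 → ℝ) := contMDiff_iff_contDiff.1 f.contMDiff
  refine ⟨f, ?_, ?_⟩
  · intro s hs n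
    have hmem : ((s, (n : E3)) : ℝ × E3) ∈ {p : ℝ × E3 | p.1 ∈ Icc 0 T ∧ ‖p.2‖ = 1} :=
      ⟨hs, mem_sphere_zero_iff_norm.1 n.2⟩
    exact h1.filter_mono (nhds_le_nhdsSet hmem)
  · intro F hF
    rw [contDiff_iff_contDiffAt]
    intro p
    by_cases hp : p ∈ closure V
    · exact hf.contDiffAt.mul (hF p (hVW hp))
    · have hev : (fun p => f p * F p) =ᶠ[𝓝 p] fun _ => (0 : ℝ) := by
        filter_upwards [isClosed_closure.isOpen_compl.mem_nhds hp] with q hq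
        rw [h0 q hq, zero_mul]
      exact contDiffAt_const.congr_of_eventuallyEq hev

/-- Differentiation under the integral sign, continuity up to the ends. -/
theorem x1_int (hR : RegI G Ψ W (Icc 0 T)) {F : ℝ × E3 → ℝ} (hF : ∀ p ∈ W, ContDiffAt ℝ ∞ F p) :
    ContinuousOn (fun t => ∫ n : S2, F (t, (n : E3)) ∂sm) (Icc 0 T) ∧ ∀ s ∈ Ioo 0 T,
      HasDerivAt (fun t => ∫ n : S2, F (t, (n : E3)) ∂sm) (∫ n : S2, fderiv ℝ F (s, (n : E3)) dS ∂sm) s := by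
  obtain ⟨ψ, h1, h2⟩ := x1_cut hR.isOpen fun s hs n => hR.mem s hs n (d3d_ne n)
  have h3 := fun s : ℝ => NullPen.t1_param (h2 F hF) s
  have h4 : ∀ s ∈ Icc 0 T, ∫ n : S2, F (s, (n : E3)) ∂sm = ∫ n : S2, ψ (s, (n : E3)) * F (s, (n : E3)) ∂sm := by
    intro s hs
    refine integral_congr_ae (Filter.Eventually.of_forall fun n => ?_)
    simp only [(h1 s hs n).self_of_nhds, one_mul]
  constructor
  · refine ContinuousOn.congr (f := fun t => ∫ n : S2, ψ (t, (n : E3)) * F (t, (n : E3)) ∂sm) ?_ h4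
    exact fun s _ => (h3 s).continuousAt.continuousWithinAt
  · intro s hs
    have hs' : s ∈ Icc 0 T := Ioo_subset_Icc_self hs
    have h5 : (fun t => ∫ n : S2, F (t, (n : E3)) ∂sm) =ᶠ[𝓝 s] fun t => ∫ n : S2, ψ (t, (n : E3)) * F (t, (n : E3)) ∂sm := by
      filter_upwards [isOpen_Ioo.mem_nhds hs] with t ht
      exact h4 t (Ioo_subset_Icc_self ht)
    have h6 : ∀ n : S2, fderiv ℝ (fun p => ψ p * F p) (s, (n : E3)) (1, 0) = fderiv ℝ F (s, (n : E3)) dS := by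
      intro n
      have h4 : (fun p => ψ p * F p) =ᶠ[𝓝 ((s, (n : E3)) : ℝ × E3)] F := by
        filter_upwards [h1 s hs' n] with q hq
        rw [hq, one_mul]
      rw [h4.fderiv_eq]
      rfl
    have h7 : (∫ n : S2, fderiv ℝ F (s, (n : E3)) dS ∂sm) =
        ∫ n : NullPen.S2, fderiv ℝ (fun p => ψ p * F p) (s, (n : E3)) (1, 0) ∂NullPen.sm := by
      refine integral_congr_ae (Filter.Eventually.of_forall fun n => ?_)
      exact (h6 n).symm
    rw [h7]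
    exact (h3 s).congr_of_eventuallyEq h5

/-- The integrated equation for `θ`. -/
theorem expansion_raw (hR : RegI G Ψ W (Icc 0 T)) {s : ℝ} (hs : s ∈ Ioo 0 T) :
    HasDerivAt (fun t => ∫ n : S2, tht G Ψ (t, (n : E3)) * dA G Ψ (t, (n : E3)) ∂sm)
      (8 * Real.pi - 2 * (∫ n : S2, (∑ i, ∑ j, QQ G Ψ i j (s, (n : E3)) * zet G Ψ i (s, (n : E3)) * zet G Ψ j (s, (n : E3))) *
        dA G Ψ (s, (n : E3)) ∂sm) - ∫ n : S2, rr G Ψ (s, (n : E3)) * dA G Ψ (s, (n : E3)) ∂sm) s := by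
  have hs0 : s ∈ Icc 0 T := Ioo_subset_Icc_self hs
  have hsi : s ∈ interior (Icc 0 T) := by rwa [interior_Icc]
  have hF : ∀ p ∈ W, ContDiffAt ℝ ∞ (fun p : ℝ × E3 => tht G Ψ p * dA G Ψ p) p :=
    fun p hp => (tht_smooth hR hp).mul (dA_smooth hR hp)
  refine ((x1_int hR hF).2 s hs).congr_deriv ?_
  have iA : Integrable (fun n : S2 => fderiv ℝ (fun p : ℝ × E3 => tht G Ψ p * dA G Ψ p) (s, (n : E3)) dS) sm :=
    d3d_int (F := fun x : E3 => fderiv ℝ (fun p : ℝ × E3 => tht G Ψ p * dA G Ψ p) (s, x) dS) fun x hx =>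
      d3d_c1 (hF _ (hR.mem s hs0 x hx)) _
  have iB : Integrable (fun n : S2 => (∑ i, ∑ j, QQ G Ψ i j (s, (n : E3)) * zet G Ψ i (s, (n : E3)) * zet G Ψ j (s, (n : E3))) *
      dA G Ψ (s, (n : E3))) sm := by
    refine d3d_int (F := fun x : E3 => (∑ i, ∑ j, QQ G Ψ i j (s, x) * zet G Ψ i (s, x) * zet G Ψ j (s, x)) *
      dA G Ψ (s, x)) fun x hx => ?_
    have hm := hR.mem s hs0 x hx
    refine ContinuousAt.mul (tendsto_finsetSum _ fun i _ => tendsto_finsetSum _ fun j _ => ?_) (d3d_c0 (dA_smooth hR hm))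
    exact ContinuousAt.mul (ContinuousAt.mul (d3d_c0 (QQ_smooth hR hm i j)) (d3d_c0 (zet_smooth hR hm i)))
      (d3d_c0 (zet_smooth hR hm j))
  have iC : Integrable (fun n : S2 => dzet G Ψ (s, (n : E3)) * dA G Ψ (s, (n : E3))) sm := by
    refine d3d_int (F := fun x : E3 => dzet G Ψ (s, x) * dA G Ψ (s, x)) fun x hx => ?_
    exact ContinuousAt.mul (d3d_dzet hR hs0 hx) (d3d_c0 (dA_smooth hR (hR.mem s hs0 x hx)))
  have iR : Integrable (fun n : S2 => rr G Ψ (s, (n : E3)) * dA G Ψ (s, (n : E3))) sm := by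
    refine d3d_int (F := fun x : E3 => rr G Ψ (s, x) * dA G Ψ (s, x)) fun x hx => ?_
    have hm := hR.mem s hs0 x hx
    refine ContinuousAt.mul ?_ (d3d_c0 (dA_smooth hR hm))
    unfold rr
    refine tendsto_finsetSum _ fun i _ => tendsto_finsetSum _ fun j _ => ?_
    exact ContinuousAt.mul (d3d_c0 (QQ_smooth hR hm i j))
      (d3d_c0 (Ric_smooth hR hm (fun a => XX_smooth hR hm i a) (fun a => XX_smooth hR hm j a)))
  have h3 : ∀ n : S2, scal (fun y => PP G Ψ (s, y)) (n : E3) * dA G Ψ (s, (n : E3)) =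
      fderiv ℝ (fun p : ℝ × E3 => tht G Ψ p * dA G Ψ p) (s, (n : E3)) dS +
        2 * ((∑ i, ∑ j, QQ G Ψ i j (s, (n : E3)) * zet G Ψ i (s, (n : E3)) * zet G Ψ j (s, (n : E3))) * dA G Ψ (s, (n : E3))) +
        2 * (dzet G Ψ (s, (n : E3)) * dA G Ψ (s, (n : E3))) + rr G Ψ (s, (n : E3)) * dA G Ψ (s, (n : E3)) := by
    intro n
    have hm := hR.mem s hs0 n (d3d_ne n)
    have g1 := d4d_dt (hF _ hm)
    have g2 : HasDerivAt (fun t : ℝ => tht G Ψ (t, (n : E3)) * dA G Ψ (t, (n : E3)))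
        (fderiv ℝ (tht G Ψ) (s, (n : E3)) dS * dA G Ψ (s, (n : E3)) +
          tht G Ψ (s, (n : E3)) * fderiv ℝ (dA G Ψ) (s, (n : E3)) dS) s :=
      (d4d_dt (tht_smooth hR hm)).mul (d4d_dt (dA_smooth hR hm))
    have g3 := theta_eq hR hsi (d3d_ne n)
    rw [g1.unique g2, dA_ds hR hs0 (d3d_ne n)]
    linear_combination (-(dA G Ψ (s, (n : E3)))) * g3
  have h4 := int_scal hR hs0
  rw [integral_congr_ae (Eventually.of_forall h3), d4d_int iA iB iC iR, int_dzet hR hs0] at h4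
  linarith

end H17Y
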