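import Pool.Agent.Lib.H17Y.S2

set_option autoImplicit false

/-!
# H17Y, chunk ZA (M): the families of links

For `s ≥ R` choose `τ s`, `Φ s`, `κ s` by `hL` (with `C ≥ 1`, `R ≥ 1` large; for other `s` anything: `choose` from `∀ s, ∃ ..., R ≤ s → ...`) and `W s` by `regI_of` (the port of `reg_of` in H17Y.B1D; name `H17Y.reg_of`): `gen (Φ s) 0 n 0 ≠ 0` since `|gen + ε| ≤ C/s < 1`. `za_round`: monotonicity in the constant.
`Starts`: `Round (-ε) s C (Φ s) 0`; `Φ s (0,n) = Ψ(s, κ n)` and `hM` at the point `κ n` of the sphere give `|G - eta| ≤ C/s` (`schw_zero`). `Glue`: `RegI.of hR`. `Ends`: `Round (-ε) (s + τ) C (Φ s) (τ s)`, `NearSchw`; `|G - eta| ≤ C/ρ² + 2|m|/ρ` (`schw_eq`; `dl` is 0 or 1), `ρ = |pos| ≥ r - 3C ≥ s/2`.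
Auxiliary names start with `za_`.
-/

open MeasureTheory Filter Topology Set Asymptotics
open scoped ContDiff

namespace H17Y

open H17W
open H17T (E4 pt pos tang slice second DEC)
open H17B (eta dl)
open Pool.Agent.Lib.PenroseSph (E3 Tens S2 sm pd)

variable {U : Set E4} {G : E4 → Matrix (Fin 4) (Fin 4) ℝ} {ε m : ℝ} {Ψ : ℝ × E3 → E4} {W₀ : Set (ℝ × E3)}

theorem za_round {e r C C' t : ℝ} {Φ : ℝ × E3 → E4} (hr : 0 < r) (hC : C ≤ C') (h : Round e r C Φ t) : Round e r C' Φ t := by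
  have h1 : C / r ≤ C' / r := div_le_div_of_nonneg_right hC hr.le
  intro n
  obtain ⟨a1, a2, a3, a4, a5⟩ := h n
  exact ⟨fun i => (a1 i).trans hC, fun a i => (a2 a i).trans hC, fun a i j => (a3 a i j).trans hC, a4.trans h1,
    fun i => (a5 i).trans h1⟩

theorem za_pos {e r C t : ℝ} {Φ : ℝ × E3 → E4} (hr : 0 < r) (h : Round e r C Φ t) (n : S2) :
    r - 3 * C ≤ ‖pos (Φ (t, (n : E3)))‖ := by
  have hn : ‖(n : E3)‖ = 1 := by simp
  have h1 : ‖r • (n : E3)‖ = r := by rw [norm_smul, hn, mul_one, Real.norm_of_nonneg hr.le]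
  have h2 := abs_norm_sub_norm_le (pos (Φ (t, (n : E3)))) (r • (n : E3))
  rw [h1] at h2
  have h3 : ∀ i, |(pos (Φ (t, (n : E3))) - r • (n : E3)) i| ≤ C := by
    intro i
    have := c1_dev (h n).1 i
    simpa using this
  have h4 := h2.trans (e1a_norm _)
  have a0 := h3 0
  have a1 := h3 1
  have a2 := h3 2
  have h5 := (abs_le.1 h4).1
  linarith

theorem za_schw {C s : ℝ} {p : E4} (hs : 1 ≤ s) (hp : s / 2 ≤ ‖pos p‖) (h : NearSchw G m C p) (a b : Fin 4) :
    |G p a b - eta a b| ≤ (4 * |C| + 4 * |m|) / s := by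
  have hs0 : 0 < s := by linarith
  have hρ : 0 < ‖pos p‖ := by linarith
  have h1 := (h a b).1
  have h2 : G p a b - eta a b = (G p a b - schw m p a b) + 2 * m * dl a b * (1 / ‖pos p‖) := by
    rw [schw_eq]
    ring
  have h3 : C / ‖pos p‖ ^ 2 ≤ 4 * |C| / s := by
    have e1 : C / ‖pos p‖ ^ 2 ≤ |C| / ‖pos p‖ ^ 2 := div_le_div_of_nonneg_right (le_abs_self C) (by positivity)
    have e2 : |C| / ‖pos p‖ ^ 2 ≤ |C| / (s / 4) := by
      refine div_le_div_of_nonneg_left (abs_nonneg C) (by positivity) ?_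
      nlinarith
    refine e1.trans (e2.trans (le_of_eq ?_))
    field_simp
  have h4 : |2 * m * dl a b * (1 / ‖pos p‖)| ≤ 4 * |m| / s := by
    have hd : |dl a b| ≤ 1 := by
      unfold dl
      split_ifs <;> simp
    rw [abs_mul, abs_mul, abs_mul, abs_of_pos (one_div_pos.2 hρ), abs_two]
    have e1 : 1 / ‖pos p‖ ≤ 2 / s := by
      rw [div_le_div_iff₀ hρ hs0]
      linarith
    have e2 : 2 * |m| * |dl a b| ≤ 2 * |m| := by
      nlinarith [abs_nonneg m]
    calc 2 * |m| * |dl a b| * (1 / ‖pos p‖) ≤ 2 * |m| * (2 / s) :=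
          mul_le_mul e2 e1 (by positivity) (by positivity)
      _ = 4 * |m| / s := by ring
  rw [h2]
  refine (abs_add_le _ _).trans ?_
  rw [add_div]
  exact add_le_add (h1.trans h3) h4

theorem za (hG : SpaceTime U G) (hN : NullCone U G Ψ) (hR : Reg G Ψ W₀) (hε : ε = 1 ∨ ε = -1) (hF : ConeFlat ε Ψ)
    (hM : ConeMink G Ψ) (hL : Linked U G ε m Ψ) : ∃ (τ : ℝ → ℝ) (Φ : ℝ → ℝ × E3 → E4) (κ : ℝ → E3 → E3) (W : ℝ → Set (ℝ × E3))
    (K R : ℝ), (∀ s : ℝ, R ≤ s → 0 < τ s ∧ τ s ≤ K * s ∧ NullPiece U G (τ s) (Φ s) ∧ RegI G (Φ s) (W s) (Icc 0 (τ s))) ∧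
      Starts G ε Ψ W₀ Φ W (fun s => Icc 0 (τ s)) κ ∧ Ends G (-ε) m Φ τ (fun s => s + τ s) W (fun s => Icc 0 (τ s)) := by
  obtain ⟨C, R, hCR⟩ := hL
  obtain ⟨C₂, R₂, hC₂⟩ := hM
  have h0 : ∀ s : ℝ, ∃ (τ : ℝ) (Φ : ℝ × E3 → E4) (κ : E3 → E3), R ≤ s → Link U G ε m Ψ C s τ Φ κ := by
    intro s
    by_cases h : R ≤ s
    · obtain ⟨τ, Φ, κ, h1⟩ := hCR s h
      exact ⟨τ, Φ, κ, fun _ => h1⟩
    · exact ⟨0, fun _ => 0, fun _ => 0, fun h' => absurd h' h⟩
  choose τ Φ κ hl using h0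
  set R₁ : ℝ := max (max R R₂) (6 * |C| + 1) with hR₁
  have hRle : ∀ s, R₁ ≤ s → R ≤ s ∧ R₂ ≤ s ∧ 6 * |C| + 1 ≤ s := fun s hs =>
    ⟨(le_max_left _ _).trans ((le_max_left _ _).trans hs), (le_max_right _ _).trans ((le_max_left _ _).trans hs),
      (le_max_right _ _).trans hs⟩
  have hW : ∀ s : ℝ, ∃ W : Set (ℝ × E3), R₁ ≤ s → RegI G (Φ s) W (Icc 0 (τ s)) := by
    intro s
    by_cases h : R₁ ≤ s
    · obtain ⟨h1, _, h3⟩ := hRle s h
      have hs0 : 0 < s := by linarith [abs_nonneg C]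
      have hk := hl s h1
      obtain ⟨W, hW⟩ := reg_of hG hk.piece fun n h0 => by
        have g := (hk.round_start n).2.2.2.1
        rw [h0] at g
        have g1 : C / s < 1 := by
          rw [div_lt_one hs0]
          linarith [le_abs_self C, abs_nonneg C]
        have g2 : |0 - -ε| = 1 := by
          rcases hε with h | h <;> rw [h] <;> norm_num
        rw [g2] at g
        linarith
      exact ⟨W, fun _ => hW⟩
    · exact ⟨∅, fun h' => absurd h' h⟩
  choose W hW using hW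
  have hsn : -ε = 1 ∨ -ε = -1 := by
    rcases hε with h | h
    · right
      rw [h]
    · left
      rw [h]
      norm_num
  refine ⟨τ, Φ, κ, W, C, R₁, fun s hs => ?_, ?_, ?_⟩
  · have hk := hl s (hRle s hs).1
    exact ⟨hk.length.1, hk.length.2, hk.piece, hW s hs⟩
  · refine ⟨⟨hR, hF, ⟨C₂, R₂, hC₂⟩⟩, hε, ⟨hsn, max (max C C₂) 1, R₁, fun s hs => ?_⟩, R₁, fun s hs => ?_⟩
    · obtain ⟨h1, h2, h3⟩ := hRle s hs
      have hs0 : 0 < s := by linarith [abs_nonneg C]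
      have hk := hl s h1
      refine ⟨hW s hs, ⟨le_rfl, hk.length.1.le⟩, le_rfl, ?_, za_round hs0 ((le_max_left _ _).trans (le_max_left _ _)) hk.round_start,
        fun n a b => ?_⟩
      · exact le_mul_of_one_le_left hs0.le (le_max_right _ _)
      · rw [hk.start n]
        have hmem : κ s (n : E3) ∈ Metric.sphere (0 : E3) 1 := hk.bij.mapsTo n.2
        have h4 := (hC₂ s h2 ⟨κ s (n : E3), hmem⟩ a b).1
        rw [schw_zero] at h4
        exact h4.trans (div_le_div_of_nonneg_right ((le_max_right _ _).trans (le_max_left _ _)) hs0.le)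
    · obtain ⟨h1, h2, h3⟩ := hRle s hs
      have hs0 : 0 < s := by linarith [abs_nonneg C]
      have hk := hl s h1
      exact ⟨RegI.of hR, hs0.le, hW s hs, ⟨le_rfl, hk.length.1.le⟩, hk.bij, hk.smooth, hk.start⟩
  · refine ⟨⟨hsn, max (max C (4 * |C| + 4 * |m|)) (1 + |C|), R₁, fun s hs => ?_⟩, C, R₁, fun s hs n => (hl s (hRle s hs).1).schw n⟩
    obtain ⟨h1, h2, h3⟩ := hRle s hs
    have hs0 : 0 < s := by linarith [abs_nonneg C]
    have hk := hl s h1
    have hτ := hk.length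
    refine ⟨hW s hs, ⟨hτ.1.le, le_rfl⟩, by linarith, ?_, za_round (by linarith) ((le_max_left _ _).trans (le_max_left _ _))
      hk.round_end, fun n a b => ?_⟩
    · have g1 : τ s ≤ |C| * s := hτ.2.trans (mul_le_mul_of_nonneg_right (le_abs_self C) hs0.le)
      have g2 : (1 + |C|) * s ≤ max (max C (4 * |C| + 4 * |m|)) (1 + |C|) * s :=
        mul_le_mul_of_nonneg_right (le_max_right _ _) hs0.le
      linarith
    · have g1 := za_pos (by linarith) hk.round_end n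
      have g2 := za_schw (G := G) (m := m) (C := C) (s := s) (by linarith [abs_nonneg C])
        (by linarith [le_abs_self C, hτ.1, abs_nonneg C]) (hk.schw n) a b
      exact g2.trans (div_le_div_of_nonneg_right ((le_max_right _ _).trans (le_max_left _ _)) hs0.le)

end H17Y
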