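import Pool.Agent.Lib.H17Y.ZA
import Pool.Agent.Lib.H17Y.D13
import Pool.Agent.Lib.H17Y.G6
import Pool.Agent.Lib.H17Y.V2
import Pool.Agent.Lib.H17Y.P1
import Pool.Agent.Lib.H17Y.P2
import Pool.Agent.Lib.H17Y.I3
import Pool.Agent.Lib.H17Y.N2
import Pool.Agent.Lib.H17Y.S2
import Pool.Agent.Lib.H17Y.D4
import Pool.Agent.Lib.H17Y.I1

set_option autoImplicit false

/-!
# H17Y, chunk ZB (M/L): the inequality on the light cone

`za`, then `i3` for fixed large `s` with `α = 1/al`, `J = |det M|`, `u n = exl Ψ (s, κ n) sqrt(dA Ψ (s, κ n)) / 2 - 1`, `w₀ = sqrt (dA Φ (0,n))`, `w₁ = sqrt (dA Φ (τ,n))`, `q = exl Φ (τ,n) w₁ / 2`, `Th0, Th1 = ∫ tht Φ dA Φ` at `0`, `τ`, `ThN = ∫ tht Ψ dA Ψ` at `s`. Bounds: `s_al` (`al ≥ 1/2`),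
`s_det` (`det M > 0`), `c_w`, `d_exl` and `c_w` (`q = 1 + O(1/s)`), `n2_w` (`u ≥ 0`; `κ n` is a point of the sphere). `∫ J = 4π`: `v2_sphere` for `F = 1`. `w₀² = dA Φ (0,n) = J dA Ψ (s, κ n)` (`g6_dA`), `exl Ψ w₀² = 2 (1+u) sqrt J w₀`; `Th0`: `g6_tht`. `ThN = ∫ tht Ψ (s,κ n) dA Ψ (s, κ n) J = ∫ al⁻¹ exl Φ (0,n) w₀²`
(`v2_sphere`, `g6_exl`) `≥ 2 ∫ α q w₀` by `p1_w`. `p1_w`: `w₀ + τ q ≤ w₁`. `p2_tht`, `ends_mass`. Conclusion: `∫ w₀² = ∫ dA Ψ (s, ·)` and `∫ J u = ∫ u_N(s, ·)` by `v2_sphere`. Continuity: smoothness in `W` (`eb_cont`), `v2_cont`, `g4_cont`.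
Auxiliary names start with `zb_`.
-/

open MeasureTheory Filter Topology Set Asymptotics
open scoped ContDiff

namespace H17Y

open H17W
open H17T (E4 pt pos tang slice second DEC)
open H17B (eta dl)
open Pool.Agent.Lib.PenroseSph (E3 Tens S2 sm pd)

variable {U : Set E4} {G : E4 → Matrix (Fin 4) (Fin 4) ℝ} {ε m : ℝ} {Ψ : ℝ × E3 → E4} {W₀ : Set (ℝ × E3)}

/-- The deviation of `q` from 1. -/
theorem zb_q {s r a b Ca Cb k : ℝ} (hs : 1 ≤ s) (hr : s ≤ r) (hrk : r ≤ k * s) (hCa : 0 ≤ Ca) (hCb : 0 ≤ Cb)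
    (ha : |a - 2 / r| ≤ Ca * s ^ (-2 : ℤ)) (hb : |b - r| ≤ Cb) : |a * b / 2 - 1| ≤ (Cb + Ca * (k + Cb)) / s := by
  have hs0 : 0 < s := lt_of_lt_of_le one_pos hs
  have hr0 : 0 < r := lt_of_lt_of_le hs0 hr
  have hk : 0 ≤ k := by
    by_contra hk
    nlinarith
  have e2 : s ^ (-2 : ℤ) = 1 / s ^ 2 := by
    rw [zpow_neg, one_div]
    norm_cast
  rw [e2] at ha
  have e : a * b / 2 - 1 = (b - r) / r + (a - 2 / r) * (r + (b - r)) / 2 := by
    field_simp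
    ring
  have h1 : |(b - r) / r| ≤ Cb / s := by
    rw [abs_div, abs_of_pos hr0]
    exact div_le_div₀ hCb hb hs0 hr
  have h2 : |r + (b - r)| ≤ k * s + Cb := by
    refine (abs_add_le _ _).trans (add_le_add ?_ hb)
    rw [abs_of_pos hr0]
    exact hrk
  have h3 : |(a - 2 / r) * (r + (b - r)) / 2| ≤ Ca * (k + Cb) / s := by
    rw [abs_div, abs_mul, abs_two]
    have h4 : |a - 2 / r| * |r + (b - r)| ≤ (Ca * (1 / s ^ 2)) * (k * s + Cb) :=
      mul_le_mul ha h2 (abs_nonneg _) (mul_nonneg hCa (by positivity))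
    have h5 : (Ca * (1 / s ^ 2)) * (k * s + Cb) ≤ Ca * (k + Cb) / s := by
      have h6 : (Ca * (1 / s ^ 2)) * (k * s + Cb) = Ca * (k + Cb / s) / s := by
        field_simp
      rw [h6]
      refine div_le_div_of_nonneg_right (mul_le_mul_of_nonneg_left ?_ hCa) hs0.le
      have : Cb / s ≤ Cb := div_le_self hCb hs
      linarith
    have h7 : 0 ≤ |a - 2 / r| * |r + (b - r)| := mul_nonneg (abs_nonneg _) (abs_nonneg _)
    linarith
  rw [e]
  refine (abs_add_le _ _).trans ?_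
  rw [add_div]
  exact add_le_add h1 h3

theorem zb_inv {a c : ℝ} (h : |a - 1| ≤ c) (hc : c ≤ 1 / 2) : 1 / 2 ≤ a ∧ |a⁻¹ - 1| ≤ 2 * c := by
  have h1 := abs_le.1 h
  have ha : 1 / 2 ≤ a := by linarith [h1.1]
  have ha0 : 0 < a := by linarith
  refine ⟨ha, ?_⟩
  have e : a⁻¹ - 1 = (1 - a) / a := by
    field_simp
  rw [e, abs_div, abs_of_pos ha0, div_le_iff₀ ha0, abs_sub_comm]
  have hc0 : 0 ≤ c := (abs_nonneg _).trans h
  nlinarith

theorem zb_abs {a c : ℝ} (h : |a - 1| ≤ c) : |(|a| - 1)| ≤ c := by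
  have h1 := abs_abs_sub_abs_le_abs_sub a 1
  rw [abs_one] at h1
  exact h1.trans h

theorem zb_comp {κ : E3 → E3} (hκ : Continuous fun n : S2 => κ n) (hb : Set.MapsTo κ (Metric.sphere (0 : E3) 1) (Metric.sphere (0 : E3) 1))
    {F : E3 → ℝ} (hF : Continuous fun n : S2 => F n) : Continuous fun n : S2 => F (κ n) :=
  hF.comp (hκ.subtype_mk fun n => hb n.2)

/-- The identities at the common cut. -/
theorem zb_id {al E d J w u : ℝ} (hd : 0 < d) (hJ : 0 < J) (hw : w = Real.sqrt (J * d))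
    (hu : u = E * Real.sqrt d / 2 - 1) : al⁻¹ * E * (J * d) = 2 * (al⁻¹ * w * ((1 + u) * Real.sqrt J)) := by
  rw [hw, hu, Real.sqrt_mul hJ.le]
  have h1 := Real.mul_self_sqrt hd.le
  have h2 := Real.mul_self_sqrt hJ.le
  have e : 2 * (al⁻¹ * (Real.sqrt J * Real.sqrt d) * ((1 + (E * Real.sqrt d / 2 - 1)) * Real.sqrt J)) =
      al⁻¹ * E * ((Real.sqrt J * Real.sqrt J) * (Real.sqrt d * Real.sqrt d)) := by
    ring
  rw [e, h1, h2]

theorem zb (hG : SpaceTime U G) (hN : NullCone U G Ψ) (hR : Reg G Ψ W₀) (hε : ε = 1 ∨ ε = -1) (hF : ConeFlat ε Ψ)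
    (hM : ConeMink G Ψ) (hL : Linked U G ε m Ψ) : ∃ K R : ℝ, ∀ s : ℝ, R ≤ s →
    Real.sqrt (16 * Real.pi * ∫ n : S2, dA G Ψ (s, (n : E3)) ∂sm) - (∫ n : S2, tht G Ψ (s, (n : E3)) * dA G Ψ (s, (n : E3)) ∂sm) ≤
      16 * Real.pi * m + K / s + (2 * s + K) *
        (∫ n : S2, (exl G Ψ (s, (n : E3)) * Real.sqrt (dA G Ψ (s, (n : E3))) / 2 - 1) ∂sm) ∧
    8 * Real.pi * s - K ≤ ∫ n : S2, tht G Ψ (s, (n : E3)) * dA G Ψ (s, (n : E3)) ∂sm := by
  obtain ⟨τ, Φ, κ, W, K₀, R₀, h₀, hS, hE⟩ := za hG hN hR hε hF hM hL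
  obtain ⟨Ca, Ra, -, hCa, hal⟩ := (s_al hS).bound
  obtain ⟨Cd, Rd, -, hCd, hdet⟩ := (s_det hS).bound
  obtain ⟨Cw, Rw, -, hCw, hw0⟩ := (c_w hS.cuts).bound
  obtain ⟨Ce, Re, -, hCe, hexl⟩ := (d_exl hE).bound
  obtain ⟨Cv, Rv, -, hCv, hw1⟩ := (c_w hE.cuts).bound
  obtain ⟨Cn, -, hN2⟩ := n2_w hG hN hR hF hM
  obtain ⟨Rg, hglue⟩ := hS.glue
  obtain ⟨Km, Rm, hmass⟩ := ends_mass hE
  obtain ⟨k, hk⟩ : ∃ k : ℝ, k = |K₀| + 1 := ⟨_, rfl⟩
  have hk0 : 0 ≤ k := by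
    rw [hk]
    positivity
  obtain ⟨K, hK⟩ : ∃ K : ℝ, K = 2 * Ca + Cd + Cw + (Cv + Ce * (k + Cv)) + |Km| + k := ⟨_, rfl⟩
  have hq0 : 0 ≤ Cv + Ce * (k + Cv) := by positivity
  obtain ⟨K', R', hi⟩ := i3 K m
  refine ⟨K', max (max (max (max R₀ Ra) (max Rd Rw)) (max (max Re Rv) (max Rg Rm))) (max R' (max 2 (2 * Ca + 2))), fun s hs => ?_⟩
  have hs1 := (le_max_left _ _).trans hs
  have hs2 := (le_max_right _ _).trans hs
  have hs3 := (le_max_left _ _).trans hs1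
  have hs4 := (le_max_right _ _).trans hs1
  have sR₀ : R₀ ≤ s := (le_max_left _ _).trans ((le_max_left _ _).trans hs3)
  have sRa : Ra ≤ s := (le_max_right _ _).trans ((le_max_left _ _).trans hs3)
  have sRd : Rd ≤ s := (le_max_left _ _).trans ((le_max_right _ _).trans hs3)
  have sRw : Rw ≤ s := (le_max_right _ _).trans ((le_max_right _ _).trans hs3)
  have sRe : Re ≤ s := (le_max_left _ _).trans ((le_max_left _ _).trans hs4)
  have sRv : Rv ≤ s := (le_max_right _ _).trans ((le_max_left _ _).trans hs4)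
  have sRg : Rg ≤ s := (le_max_left _ _).trans ((le_max_right _ _).trans hs4)
  have sRm : Rm ≤ s := (le_max_right _ _).trans ((le_max_right _ _).trans hs4)
  have sR' : R' ≤ s := (le_max_left _ _).trans hs2
  have s2 : 2 ≤ s := (le_max_left _ _).trans ((le_max_right _ _).trans hs2)
  have sCa : 2 * Ca + 2 ≤ s := (le_max_right _ _).trans ((le_max_right _ _).trans hs2)
  have hs0 : 0 < s := by linarith
  obtain ⟨hT, hTK, hP, hRI⟩ := h₀ s sR₀
  have hg := hglue s sRg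
  have hTI : τ s ∈ Icc 0 (τ s) := ⟨hT.le, le_rfl⟩
  have hTk : τ s ≤ K * s := by
    have h1 : K₀ * s ≤ k * s := mul_le_mul_of_nonneg_right (by rw [hk]; linarith [le_abs_self K₀]) hs0.le
    have h2 : k * s ≤ K * s := mul_le_mul_of_nonneg_right (by rw [hK]; linarith [abs_nonneg Km]) hs0.le
    linarith
  have hzm1 : s ^ (-1 : ℤ) = 1 / s := by rw [zpow_neg_one, one_div]
  -- the fields at the common cut
  have hALb : ∀ n : S2, |al G Ψ s (Φ s) (κ s) n - 1| ≤ Ca / s := by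
    intro n
    have h1 := hal s sRa n
    rw [hzm1, mul_one_div] at h1
    exact h1
  have hCas : Ca / s ≤ 1 / 2 := by
    rw [div_le_iff₀ hs0]
    linarith
  have hAL : ∀ n : S2, 1 / 2 ≤ al G Ψ s (Φ s) (κ s) n ∧ |(al G Ψ s (Φ s) (κ s) n)⁻¹ - 1| ≤ 2 * (Ca / s) := fun n =>
    zb_inv (hALb n) hCas
  have hAL0 : ∀ n : S2, al G Ψ s (Φ s) (κ s) n ≠ 0 := fun n => by
    have := (hAL n).1
    linarith
  have hdN : ∀ n : S2, 0 < dA G Ψ (s, (n : E3)) := fun n =>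
    Real.sqrt_pos.2 (PP_det hg.reg (hg.reg.mem s hg.mem n (v2_ne n)))
  have hκm : ∀ n : S2, κ s n ∈ Metric.sphere (0 : E3) 1 := fun n => hg.bij.mapsTo n.2
  have hdK : ∀ n : S2, 0 < dA G Ψ (s, κ s n) := fun n => hdN ⟨κ s n, hκm n⟩
  have hd0 : ∀ n : S2, 0 < dA G (Φ s) (0, (n : E3)) := fun n => p1_dA hRI n ⟨le_rfl, hT.le⟩
  have hd1 : ∀ n : S2, 0 < dA G (Φ s) (τ s, (n : E3)) := fun n => p1_dA hRI n hTI
  have hJ0 : ∀ n : S2, 0 < |(MM (κ s) n).det| := by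
    intro n
    have h1 := g6_dA hg n
    have h2 := hd0 n
    rw [h1] at h2
    exact (pos_iff_pos_of_mul_pos h2).2 (hdK n)
  obtain ⟨hκc, hdc⟩ := v2_cont hg
  have hmN : ∀ n : S2, ((s, (n : E3)) : ℝ × E3) ∈ W₀ := fun n => hg.reg.mem s hg.mem n (v2_ne n)
  have hm0 : ∀ n : S2, ((0, (n : E3)) : ℝ × E3) ∈ W s := fun n => hg.reg'.mem 0 hg.mem' n (v2_ne n)
  have hm1 : ∀ n : S2, ((τ s, (n : E3)) : ℝ × E3) ∈ W s := fun n => hRI.mem (τ s) hTI n (v2_ne n)
  have cdN : Continuous fun n : S2 => dA G Ψ (s, (n : E3)) := eb_cont fun n => (dA_smooth hg.reg (hmN n)).continuousAt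
  have ceN : Continuous fun n : S2 => exl G Ψ (s, (n : E3)) := eb_cont fun n => (exl_smooth hg.reg (hmN n)).continuousAt
  have ctN : Continuous fun n : S2 => tht G Ψ (s, (n : E3)) := eb_cont fun n => (tht_smooth hg.reg (hmN n)).continuousAt
  have cd0 : Continuous fun n : S2 => dA G (Φ s) (0, (n : E3)) := eb_cont fun n => (dA_smooth hg.reg' (hm0 n)).continuousAt
  have ce0 : Continuous fun n : S2 => exl G (Φ s) (0, (n : E3)) := eb_cont fun n => (exl_smooth hg.reg' (hm0 n)).continuousAt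
  have cd1 : Continuous fun n : S2 => dA G (Φ s) (τ s, (n : E3)) := eb_cont fun n => (dA_smooth hRI (hm1 n)).continuousAt
  have ce1 : Continuous fun n : S2 => exl G (Φ s) (τ s, (n : E3)) := eb_cont fun n => (exl_smooth hRI (hm1 n)).continuousAt
  have cuN : Continuous fun n : S2 => exl G Ψ (s, (n : E3)) * Real.sqrt (dA G Ψ (s, (n : E3))) / 2 - 1 :=
    ((ceN.mul cdN.sqrt).div_const 2).sub continuous_const
  have cal : Continuous fun n : S2 => al G Ψ s (Φ s) (κ s) n := by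
    rw [continuous_iff_continuousAt]
    intro n
    exact ContinuousAt.comp (g := al G Ψ s (Φ s) (κ s)) (g4_cont hg (v2_ne n)).continuousAt continuous_subtype_val.continuousAt
  have hKle : ∀ c : ℝ, c ≤ K → c / s ≤ K / s := fun c hc => div_le_div_of_nonneg_right hc hs0.le
  have hfin := hi s (τ s) sR' hT hTk (fun n => (al G Ψ s (Φ s) (κ s) n)⁻¹) (fun n => |(MM (κ s) n).det|)
    (fun n => exl G Ψ (s, κ s n) * Real.sqrt (dA G Ψ (s, κ s n)) / 2 - 1)
    (fun n => Real.sqrt (dA G (Φ s) (0, (n : E3)))) (fun n => Real.sqrt (dA G (Φ s) (τ s, (n : E3))))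
    (fun n => exl G (Φ s) (τ s, (n : E3)) * Real.sqrt (dA G (Φ s) (τ s, (n : E3))) / 2)
    (∫ n : S2, tht G Ψ (s, (n : E3)) * dA G Ψ (s, (n : E3)) ∂sm)
    (∫ n : S2, tht G (Φ s) (0, (n : E3)) * dA G (Φ s) (0, (n : E3)) ∂sm)
    (∫ n : S2, tht G (Φ s) (τ s, (n : E3)) * dA G (Φ s) (τ s, (n : E3)) ∂sm)
    (cal.inv₀ hAL0) hdc.abs
    (zb_comp hκc hg.bij.mapsTo (F := fun x => exl G Ψ (s, x) * Real.sqrt (dA G Ψ (s, x)) / 2 - 1) cuN)
    cd0.sqrt cd1.sqrt ((ce1.mul cd1.sqrt).div_const 2)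
    (fun n => by
      refine (hAL n).2.trans ?_
      rw [← mul_div_assoc]
      refine hKle _ ?_
      rw [hK]
      linarith [abs_nonneg Km])
    (fun n => by
      have h1 := hdet s sRd n
      rw [hzm1, mul_one_div] at h1
      refine (zb_abs h1).trans (hKle _ ?_)
      rw [hK]
      linarith [abs_nonneg Km])
    (fun n => hN2 s s2 ⟨κ s n, hκm n⟩)
    (fun n => by
      have h1 := hw0 s sRw n
      rw [zpow_zero, mul_one] at h1
      refine h1.trans ?_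
      rw [hK]
      linarith [abs_nonneg Km])
    (fun n => by
      have h1 := hexl s sRe n
      have h2 := hw1 s sRv n
      rw [zpow_zero, mul_one] at h2
      refine (zb_q (k := k) (by linarith) (by linarith) ?_ hCe hCv h1 h2).trans (hKle _ ?_)
      · have h3 : K₀ * s ≤ |K₀| * s := mul_le_mul_of_nonneg_right (le_abs_self K₀) hs0.le
        rw [hk]
        linarith
      · rw [hK]
        linarith [abs_nonneg Km])
    (by
      have h1 := v2_sphere hg (F := fun _ => 1) continuous_const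
      simp only [one_mul] at h1
      rw [h1, i1_const, mul_one])
    (fun n => (p1_w hP hRI hT n).2)
    (by
      rw [← integral_const_mul]
      refine integral_congr_ae (Eventually.of_forall fun n => ?_)
      simp only
      rw [g6_tht hg n (hAL0 n), g6_dA hg n]
      exact zb_id (hdK n) (hJ0 n) rfl rfl)
    (by
      have h1 := v2_sphere hg (F := fun x => tht G Ψ (s, x) * dA G Ψ (s, x)) (ctN.mul cdN)
      rw [← h1, ← integral_const_mul]
      refine integral_mono (Pool.Agent.Lib.PenroseSph.integrable_S2 ?_) (Pool.Agent.Lib.PenroseSph.integrable_S2 ?_) fun n => ?_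
      · exact continuous_const.mul (((cal.inv₀ hAL0).mul ((ce1.mul cd1.sqrt).div_const 2)).mul cd0.sqrt)
      · exact (zb_comp hκc hg.bij.mapsTo (F := fun x => tht G Ψ (s, x) * dA G Ψ (s, x)) (ctN.mul cdN)).mul hdc.abs
      · simp only
        have h2 := g6_exl hg n (hAL0 n)
        have h3 := g6_dA hg n
        have h4 := (p1_w hP hRI hT n).1
        have ha : 0 < (al G Ψ s (Φ s) (κ s) n)⁻¹ := inv_pos.2 (by linarith [(hAL n).1])
        have h5 : tht G Ψ (s, κ s n) = (al G Ψ s (Φ s) (κ s) n)⁻¹ * exl G (Φ s) (0, (n : E3)) := by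
          rw [h2, ← mul_assoc, inv_mul_cancel₀ (hAL0 n), one_mul]
        have h6 : dA G Ψ (s, κ s n) * |(MM (κ s) n).det| = Real.sqrt (dA G (Φ s) (0, (n : E3))) * Real.sqrt (dA G (Φ s) (0, (n : E3))) := by
          rw [Real.mul_self_sqrt (hd0 n).le, h3]
          ring
        have h8 : tht G Ψ (s, κ s n) * dA G Ψ (s, κ s n) * |(MM (κ s) n).det| =
            (al G Ψ s (Φ s) (κ s) n)⁻¹ * exl G (Φ s) (0, (n : E3)) *
              (Real.sqrt (dA G (Φ s) (0, (n : E3))) * Real.sqrt (dA G (Φ s) (0, (n : E3)))) := by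
          rw [← h6, ← h5]
          ring
        rw [h8]
        have h7 := mul_le_mul_of_nonneg_left h4 (mul_nonneg ha.le (Real.sqrt_nonneg (dA G (Φ s) (0, (n : E3)))))
        linarith [h7])
    (by
      have h1 := p2_tht hG hP hRI le_rfl hT.le le_rfl
      rwa [sub_zero] at h1)
    (by
      have h1 := hmass s sRm
      have h2 : ∀ n : S2, Real.sqrt (dA G (Φ s) (τ s, (n : E3))) ^ 2 = dA G (Φ s) (τ s, (n : E3)) := fun n =>
        Real.sq_sqrt (hd1 n).le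
      simp only [h2]
      refine h1.trans (hKle _ ?_)
      rw [hK]
      linarith [le_abs_self Km])
  have e1 : ∫ n : S2, Real.sqrt (dA G (Φ s) (0, (n : E3))) ^ 2 ∂sm = ∫ n : S2, dA G Ψ (s, (n : E3)) ∂sm := by
    rw [← v2_sphere hg (F := fun x => dA G Ψ (s, x)) cdN]
    refine integral_congr_ae (Eventually.of_forall fun n => ?_)
    simp only
    rw [Real.sq_sqrt (hd0 n).le, g6_dA hg n, mul_comm]
  have e2 : ∫ n : S2, |(MM (κ s) n).det| * (exl G Ψ (s, κ s n) * Real.sqrt (dA G Ψ (s, κ s n)) / 2 - 1) ∂sm =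
      ∫ n : S2, (exl G Ψ (s, (n : E3)) * Real.sqrt (dA G Ψ (s, (n : E3))) / 2 - 1) ∂sm := by
    rw [← v2_sphere hg (F := fun x => exl G Ψ (s, x) * Real.sqrt (dA G Ψ (s, x)) / 2 - 1) cuN]
    refine integral_congr_ae (Eventually.of_forall fun n => ?_)
    exact mul_comm _ _
  rw [e1, e2] at hfin
  exact hfin

end H17Y
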