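import Pool.Agent.Lib.H17Y.ZB

set_option autoImplicit false

/-!
# H17Y, chunk ZC (M): the Bondi energy of the light cone

(a) restriction: `NullPiece U G T Ψ`, `RegI G Ψ W₀ (Icc 0 T)` for every `T`. (b) `Θ(s) - 8 π s` is nonincreasing on `[0, ∞)` (`p2_tht` with `T = t₂`) and bounded below for large `s` (`zb`), so it converges (`tendsto_atTop_ciInf` for an antitone bounded below function; restrict to `s ≥ R`, e.g. with `max s R`). (c) `n2_lim`. So the quotient converges to some `m'`.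
(d) `m' ≤ m`: pass to the limit in `zb`: `K/s → 0`, `(2 s + K) ∫ u = (2 + K/s) (s ∫ u) → 0` (`n2_u`); `le_of_tendsto_of_tendsto`.
Auxiliary names start with `zc_`.
-/

open MeasureTheory Filter Topology Set Asymptotics
open scoped ContDiff

namespace H17Y

open H17W
open H17T (E4 pt pos tang slice second DEC)
open H17B (eta dl)
open Pool.Agent.Lib.PenroseSph (E3 Tens S2 sm pd)

variable {U : Set E4} {G : E4 → Matrix (Fin 4) (Fin 4) ℝ} {ε m : ℝ} {Ψ : ℝ × E3 → E4} {W₀ : Set (ℝ × E3)}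

theorem zc_piece (hN : NullCone U G Ψ) (T : ℝ) : NullPiece U G T Ψ where
  smooth := by
    obtain ⟨W, h1, h2, h3⟩ := hN.smooth
    exact ⟨W, h1, fun t ht n => h2 t ht.1 n, h3⟩
  mem := fun t ht n => hN.mem t ht.1 n
  geodesic := fun t ht n a => hN.geodesic t ht.1 n a
  null := hN.null
  orth := hN.orth
  regular := fun t ht n v hv h => hN.regular t ht.1 n v hv h
  dec := fun t ht n => hN.dec t ht.1 n

theorem zc_reg (hR : Reg G Ψ W₀) (T : ℝ) : RegI G Ψ W₀ (Icc 0 T) where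
  isOpen := hR.isOpen
  ne := hR.ne
  mem := fun s hs => hR.mem s hs.1
  smooth := hR.smooth
  met := hR.met
  time := hR.time
  pos := hR.pos
  geo := fun s hs => hR.geo s hs.1
  null := fun s hs => hR.null s hs.1
  orth := fun s hs => hR.orth s hs.1

/-- A function which is antitone and bounded below for large `s` converges. -/
theorem zc_anti {f : ℝ → ℝ} {R B : ℝ} (h1 : ∀ s t : ℝ, R ≤ s → s ≤ t → f t ≤ f s) (h2 : ∀ s : ℝ, R ≤ s → B ≤ f s) :
    ∃ L : ℝ, Tendsto f atTop (𝓝 L) := by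
  have ha : Antitone fun s => f (max s R) := fun s t hst => h1 _ _ (le_max_right _ _) (max_le_max hst le_rfl)
  have hb : BddBelow (range fun s => f (max s R)) := ⟨B, by
    rintro _ ⟨s, rfl⟩
    exact h2 _ (le_max_right _ _)⟩
  refine ⟨_, (tendsto_atTop_ciInf ha hb).congr' ?_⟩
  filter_upwards [eventually_ge_atTop R] with s hs
  rw [max_eq_left hs]

theorem zc (hG : SpaceTime U G) (hN : NullCone U G Ψ) (hR : Reg G Ψ W₀) (hε : ε = 1 ∨ ε = -1) (hF : ConeFlat ε Ψ)
    (hM : ConeMink G Ψ) (hL : Linked U G ε m Ψ) : ∃ m' : ℝ, m' ≤ m ∧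
    Tendsto (fun s : ℝ => (Real.sqrt (16 * Real.pi * ∫ n : S2, dA G Ψ (s, (n : E3)) ∂sm) -
      ∫ n : S2, tht G Ψ (s, (n : E3)) * dA G Ψ (s, (n : E3)) ∂sm) / (16 * Real.pi)) atTop (𝓝 m') := by
  obtain ⟨K, R, hz⟩ := zb hG hN hR hε hF hM hL
  obtain ⟨L₁, h1⟩ := n2_lim hG hN hR hF hM
  obtain ⟨L₂, h2⟩ : ∃ L : ℝ, Tendsto (fun s : ℝ => (∫ n : S2, tht G Ψ (s, (n : E3)) * dA G Ψ (s, (n : E3)) ∂sm) -
      8 * Real.pi * s) atTop (𝓝 L) := by
    refine zc_anti (R := max R 0) (B := -K) (fun s t hs hst => ?_) fun s hs => ?_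
    · have := p2_tht hG (zc_piece hN t) (zc_reg hR t) ((le_max_right _ _).trans hs) hst le_rfl
      linarith
    · have := (hz s ((le_max_left _ _).trans hs)).2
      linarith
  have h3 : Tendsto (fun s : ℝ => Real.sqrt (16 * Real.pi * ∫ n : S2, dA G Ψ (s, (n : E3)) ∂sm) -
      ∫ n : S2, tht G Ψ (s, (n : E3)) * dA G Ψ (s, (n : E3)) ∂sm) atTop (𝓝 (L₁ - L₂)) := by
    refine (h1.sub h2).congr fun s => ?_
    ring
  refine ⟨(L₁ - L₂) / (16 * Real.pi), ?_, h3.div_const _⟩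
  have hpi := Real.pi_pos
  rw [div_le_iff₀ (by positivity)]
  have hinv : Tendsto (fun s : ℝ => K / s) atTop (𝓝 0) := tendsto_const_nhds.div_atTop tendsto_id
  have h4 : Tendsto (fun s : ℝ => 16 * Real.pi * m + K / s + (2 + K / s) *
      (s * ∫ n : S2, (exl G Ψ (s, (n : E3)) * Real.sqrt (dA G Ψ (s, (n : E3))) / 2 - 1) ∂sm)) atTop
      (𝓝 (16 * Real.pi * m + 0 + (2 + 0) * 0)) :=
    (tendsto_const_nhds.add hinv).add ((tendsto_const_nhds.add hinv).mul (n2_u hG hN hR hF hM))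
  have h5 : L₁ - L₂ ≤ 16 * Real.pi * m + 0 + (2 + 0) * 0 := by
    refine le_of_tendsto_of_tendsto h3 h4 ?_
    filter_upwards [eventually_ge_atTop R, eventually_gt_atTop (0 : ℝ)] with s hs hs0
    refine (hz s hs).1.trans (le_of_eq ?_)
    have hs' : s ≠ 0 := hs0.ne'
    field_simp
  linarith

end H17Y
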